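import Pool.Agent.Lib.AndoD.Defs
import Pool.Agent.Lib.AndoC.Basic
import Pool.Agent.Lib.AndoC.Fact3
import Pool.Agent.Lib.AndoC.BadCap
import Pool.Agent.Lib.AndoB.Fact1g

/-!
# AndoD.ExAD: every arm has an admissible data

`exists_AD`: completeness of the list of kinds of arms.
-/

set_option autoImplicit false
set_option linter.unusedSectionVars false

namespace Pool.Agent.Lib.AndoD

open Pool.Agent.Lib.Ando Pool.Agent.Lib.AndoC

variable {V : Type*} [Fintype V] [DecidableEq V] {G : SimpleGraph V} [DecidableRel G.Adj]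

namespace ExADAux

theorem sd_of_sm {S : Finset V} {v w : V} (h : sm G S v = {w}) : sd G S v = 1 := by
  unfold sd; rw [h]; simp

theorem sm_of_adj {S : Finset V} {v w : V} (hv : v ∈ S) (hw : w ∈ S) (h : G.Adj v w) :
    w ∈ sm G S v := mem_sm.2 ⟨h, ⟨fun _ => hv, fun _ => hw⟩⟩

/-- Non-adjacent sites with a common end are mates. -/
theorem mate_of {k : ℕ} {S : Finset V} {X Y : Finset (Finset V)} (h : Ctx G k S X Y)
    {u v b : V} (hu : u ∈ sites G S) (hv : v ∈ sites G S) (hbu : b ∈ op G S u)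
    (hbv : b ∈ op G S v) (hne : u ≠ v) (hs : v ∉ sm G S u) : Mate G S u v := by
  have hu' := StructAux.mem_sites.1 hu
  have hv' := StructAux.mem_sites.1 hv
  have bS : b ∉ S := StructAux.op_black hu'.1 hbu
  have hna : ¬ G.Adj u v := fun e => hs (sm_of_adj hu'.1 hv'.1 e)
  obtain ⟨g, hg, bg⟩ := StructAux.card_two (BasicAux.op_card_two h.reg hu'.2.1) hbu
  obtain ⟨g', hg', bg'⟩ := StructAux.card_two (BasicAux.op_card_two h.reg hv'.2.1) hbv
  have := fact3g h.reg h.hk h.nt h.lev bS (hu'.2.2 b hbu) hu hv hg hg' bg bg' hne hna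
  exact ⟨hu, hv, hne, hs, by rw [hg, hg', this]⟩

theorem ub4_of {k : ℕ} {S : Finset V} {X Y : Finset (Finset V)} (h : Ctx G k S X Y)
    {u b p w : V} (us : u ∈ sites G S) (ub : b ∈ op G S u) (nm : ∀ y, ¬ Mate G S u y)
    (ob : op G S b = {u, p, w}) (up : u ≠ p) (uw : u ≠ w) (pw : p ≠ w) (ip : Iso G S u p)
    (sw : sd G S w = 1) (nw : w ∉ sm G S u) : Ub4 G S u b p w := by
  refine ⟨us, ub, nm, ob, up, uw, pw, ip, sw, nw, fun hw => nm w ?_⟩
  exact mate_of h us hw ub (op_symm (by rw [ob]; simp)) uw nw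

/-- The capped end. -/
theorem cap_of {k : ℕ} {S : Finset V} {X Y : Finset (Finset V)} (h : Ctx G k S X Y)
    {u b q q' : V} (us : u ∈ sites G S) (ub : b ∈ op G S u) (nm : ∀ y, ¬ Mate G S u y)
    (ob : op G S b = {u, q, q'}) (uq : u ≠ q) (uq' : u ≠ q') (qq : G.Adj q q')
    (hq : q ∉ sm G S u) : ∃ l m s t, Cap G S u b q q' l m s t := by
  have us' := StructAux.mem_sites.1 us
  have bS : b ∉ S := StructAux.op_black us'.1 ub
  have sb : sd G S b = 0 := us'.2.2 b ub
  have hqb : q ∈ op G S b := by rw [ob]; simp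
  have hqb' : q' ∈ op G S b := by rw [ob]; simp
  have qS := StructAux.op_white bS hqb
  have qS' := StructAux.op_white bS hqb'
  have h1 := sm_of_adj qS qS' qq
  have sq := BasicAux.sm_eq h.lev h1
  have sq' := BasicAux.sm_eq h.lev (sm_symm h1)
  obtain ⟨l, hl, bl⟩ := StructAux.card_two (BasicAux.op_card_two h.reg (sd_of_sm sq))
    (op_symm hqb)
  -- `q` is not a site
  have hqs : q ∉ sites G S := fun hs =>
    nm q (mate_of h us hs ub (op_symm hqb) uq hq)
  have hlq : l ∈ op G S q := by rw [hl]; simp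
  have lS : l ∉ S := StructAux.op_black qS hlq
  have sl1 : sd G S l = 1 := by
    have h2 := h.lev.tf l
    by_contra h3
    have h4 : sd G S l = 0 := by omega
    apply hqs
    refine StructAux.mem_sites.2 ⟨qS, sd_of_sm sq, fun y hy => ?_⟩
    rw [hl, Finset.mem_insert, Finset.mem_singleton] at hy
    rcases hy with rfl | rfl
    · exact sb
    · exact h4
  obtain ⟨m, hm⟩ := StructAux.sd_one sl1
  have hml : m ∈ sm G S l := by rw [hm]; simp
  have smm := BasicAux.sm_eq h.lev (sm_symm hml)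
  have mS : m ∉ S := fun h' => lS ((mem_sm.1 hml).2.1 h')
  have hbad := no_bad_cap h.reg h.dl h.hk h.lev h.lex bS sb ob qq uq uq' hl hm
  -- the white neighbours of `m`
  obtain ⟨s, t, hst, hom⟩ := Finset.card_eq_two.1 (BasicAux.op_card_two h.reg (sd_of_sm smm))
  have hs : s ∈ op G S m := by rw [hom]; simp
  have ht : t ∈ op G S m := by rw [hom]; simp
  have h5 : sd G S s = 0 ∨ sd G S t = 0 := by
    by_contra hcon
    push Not at hcon
    have h6 := h.lev.tf s
    have h7 := h.lev.tf t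
    have hs' : s ∈ UN G S m := StructAux.mem_UN.2 ⟨hs, by omega⟩
    have ht' : t ∈ UN G S m := StructAux.mem_UN.2 ⟨ht, by omega⟩
    have h8 := AndoB.fact1g h.reg h.lev h.hk mS (sd_of_sm smm) hs' ht' hst
    exact hbad (Finset.mem_filter.2 ⟨Finset.mem_univ _, mS, sd_of_sm smm, s, hs, t, ht, h8⟩)
  rcases h5 with h5 | h5
  · exact ⟨l, m, s, t, us, ub, nm, ob, uq, uq', qq.ne, sq, sq', hl, bl, hm, smm, hom, hst, h5⟩
  · exact ⟨l, m, t, s, us, ub, nm, ob, uq, uq', qq.ne, sq, sq', hl, bl, hm, smm,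
      by rw [hom, Finset.pair_comm], hst.symm, h5⟩

theorem ad_of_cap {S : Finset V} {u b q q' l m s t : V} (h : Cap G S u b q q' l m s t)
    (htf : sd G S t ≤ 1) : ∃ d, AD G S u b d := by
  by_cases h1 : Iso G S u t
  · exact ⟨_, .cap1 h h1⟩
  · unfold Iso at h1
    push Not at h1
    have h2 : sd G S t = 1 := by omega
    by_cases h3 : t = q'
    · exact ⟨_, .cap5 h h3⟩
    · exact ⟨_, .cap4 h h2 h1.2 h3⟩

end ExADAux

open ExADAux

/-- Every arm has an admissible data. -/
theorem exists_AD {k : ℕ} {S : Finset V} {X Y : Finset (Finset V)} (h : Ctx G k S X Y)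
    {u b : V} (hu : u ∈ sites G S) (hb : b ∈ op G S u) : ∃ d, AD G S u b d := by
  have hu' := StructAux.mem_sites.1 hu
  have uS := hu'.1
  have bS : b ∉ S := StructAux.op_black uS hb
  have sb : sd G S b = 0 := hu'.2.2 b hb
  have hub : u ∈ op G S b := op_symm hb
  have hcb : (op G S b).card = 3 := by
    have := sd_add_op h.reg S b
    omega
  by_cases hm : ∃ y, Mate G S u y
  · obtain ⟨y, hm⟩ := hm
    have hyb : y ∈ op G S b := op_symm (by rw [← hm.2.2.2.2]; exact hb)
    obtain ⟨o, ho, uo, yo⟩ := StructAux.card_three' hcb hub hyb hm.2.2.1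
    have hE : SwE G S u y b o := ⟨hm, hb, ho, uo, yo⟩
    by_cases hz : pt G S u ∈ sites G S ∨ pt G S y ∈ sites G S
    · exact ⟨_, .alp hE hz⟩
    · push Not at hz
      have hob : o ∈ op G S b := by rw [ho]; simp
      have oS : o ∈ S := StructAux.op_white bS hob
      have hy' := StructAux.mem_sites.1 hm.2.1
      have key : Iso G S u o ∨ Iso G S y o := by
        have h1 := h.lev.tf o
        by_cases h0 : sd G S o = 0
        · exact Or.inl (Or.inl h0)
        · have h2 : o ∈ UN G S b := StructAux.mem_UN.2 ⟨hob, by omega⟩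
          have h3 : u ∈ UN G S b := StructAux.mem_UN.2 ⟨hub, hu'.2.1⟩
          have h4 : y ∈ UN G S b := StructAux.mem_UN.2 ⟨hyb, hy'.2.1⟩
          rcases h.nt S h.lev b u y o bS sb h3 h4 h2 hm.2.2.1 uo yo with h5 | h5 | h5
          · exact absurd (sm_of_adj uS hy'.1 h5) hm.2.2.2.1
          · exact Or.inl (Or.inr (sm_of_adj uS oS h5))
          · exact Or.inr (Or.inr (sm_of_adj hy'.1 oS h5))
      rcases key with key | key
      · exact ⟨_, .nsw hE hz.1 hz.2 (Or.inl rfl) key⟩
      · exact ⟨_, .nsw hE hz.1 hz.2 (Or.inr rfl) key⟩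
  · push Not at hm
    obtain ⟨p, q, hob, up, uq, pq⟩ := StructAux.card_three hcb hub
    have hob' : op G S b = {u, q, p} := by rw [hob, Finset.pair_comm]
    have hpb : p ∈ op G S b := by rw [hob]; simp
    have hqb : q ∈ op G S b := by rw [hob]; simp
    have pS := StructAux.op_white bS hpb
    have qS := StructAux.op_white bS hqb
    have hp1 := h.lev.tf p
    have hq1 := h.lev.tf q
    have sd0 : ∀ {y : V}, sd G S y = 0 → y ∉ sm G S u := by
      intro y h0 h1
      have := sm_symm h1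
      unfold sd at h0
      rw [Finset.card_eq_zero] at h0
      rw [h0] at this
      simp at this
    -- one neighbour in O, the other arbitrary
    have one : ∀ {p q : V}, op G S b = {u, p, q} → u ≠ p → u ≠ q → p ≠ q → sd G S q = 0 →
        sd G S p ≤ 1 → ∃ d, AD G S u b d := by
      intro p q hob up uq pq hq hp
      by_cases h0 : sd G S p = 0
      · exact ⟨_, .ub1 ⟨hu, hb, hm, hob, up, uq, pq, Or.inl h0, hq⟩ (fun h' => sd0 h0 h'.1)⟩
      · by_cases h1 : p ∈ sm G S u
        · by_cases h2 : p ∈ sites G S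
          · exact ⟨_, .ub0 ⟨hu, hb, hm, hob, up, uq, pq, Or.inr h1, hq⟩ h1 h2⟩
          · exact ⟨_, .ub1 ⟨hu, hb, hm, hob, up, uq, pq, Or.inr h1, hq⟩ (fun h' => h2 h'.2)⟩
        · exact ⟨_, .ub4 (ub4_of h hu hb hm (by rw [hob, Finset.pair_comm]) uq up pq.symm
            (Or.inl hq) (by omega) h1)⟩
    by_cases hq0 : sd G S q = 0
    · exact one hob up uq pq hq0 hp1
    by_cases hp0 : sd G S p = 0
    · exact one hob' uq up pq.symm hp0 hq1
    have hpU : p ∈ UN G S b := StructAux.mem_UN.2 ⟨hpb, by omega⟩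
    have hqU : q ∈ UN G S b := StructAux.mem_UN.2 ⟨hqb, by omega⟩
    have huU : u ∈ UN G S b := StructAux.mem_UN.2 ⟨hub, hu'.2.1⟩
    have uniq : ∀ {y z : V}, y ∈ sm G S u → z ∈ sm G S u → y = z := by
      intro y z hy hz
      rw [BasicAux.sm_eq h.lev hy, Finset.mem_singleton] at hz
      exact hz.symm
    by_cases h1 : p ∈ sm G S u
    · exact ⟨_, .ub4 (ub4_of h hu hb hm hob up uq pq (Or.inr h1) (by omega)
        (fun h2 => pq (uniq h1 h2)))⟩
    by_cases h2 : q ∈ sm G S u
    · exact ⟨_, .ub4 (ub4_of h hu hb hm hob' uq up pq.symm (Or.inr h2) (by omega)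
        (fun h3 => pq (uniq h3 h2)))⟩
    rcases h.nt S h.lev b u p q bS sb huU hpU hqU up uq pq with h5 | h5 | h5
    · exact absurd (sm_of_adj uS pS h5) h1
    · exact absurd (sm_of_adj uS qS h5) h2
    · obtain ⟨l, m, s, t, hc⟩ := cap_of h hu hb hm hob up uq h5 h1
      exact ad_of_cap hc (h.lev.tf t)

/-- Every arm has an admissible data. -/
theorem exists_AD_arm {k : ℕ} {S : Finset V} {X Y : Finset (Finset V)} (h : Ctx G k S X Y)
    {u b : V} (ha : (u, b) ∈ arms G S X) : ∃ d, AD G S u b d := by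
  unfold arms at ha
  rw [Finset.mem_filter, Finset.mem_product] at ha
  exact exists_AD h (Finset.mem_filter.1 ha.1.1).1 ha.2

end Pool.Agent.Lib.AndoD
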