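import Pool.Agent.Lib.AndoD.Defs
import Pool.Agent.Lib.AndoC.Fact3
import Pool.Agent.Lib.AndoC.Basic
import Pool.Agent.Lib.Ando.Fact2

/-!
# AndoD.SwBase: switches with all their data

`Sw G S x y e f o p x' y'`: the switch `x`, `y` (partners `x'`, `y'`) with the ends `e` (third
neighbour `o`) and `f` (third neighbour `p`).
-/

set_option autoImplicit false
set_option linter.unusedSectionVars false
set_option linter.unusedSimpArgs false

namespace Pool.Agent.Lib.AndoD

open Pool.Agent.Lib.Ando Pool.Agent.Lib.AndoC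

variable {V : Type*} [Fintype V] [DecidableEq V] (G : SimpleGraph V) [DecidableRel G.Adj]

/-- A switch with all its data: sites `x`, `y`, ends `e`, `f`, third neighbours `o`, `p`,
partners `x'`, `y'`. -/
structure Sw (S : Finset V) (x y e f o p x' y' : V) : Prop where
  xS : x ∈ S
  yS : y ∈ S
  eS : e ∉ S
  fS : f ∉ S
  oS : o ∈ S
  pS : p ∈ S
  x'S : x' ∈ S
  y'S : y' ∈ S
  sx : sm G S x = {x'}
  sy : sm G S y = {y'}
  sx' : sm G S x' = {x}
  sy' : sm G S y' = {y}
  ox : op G S x = {e, f}
  oy : op G S y = {e, f}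
  se : sm G S e = ∅
  sf : sm G S f = ∅
  oe : op G S e = {x, y, o}
  of : op G S f = {x, y, p}
  ef : e ≠ f
  xy : x ≠ y
  xo : x ≠ o
  yo : y ≠ o
  xp : x ≠ p
  yp : y ≠ p
  op' : o ≠ p
  xx' : x ≠ x'
  yy' : y ≠ y'
  xy' : x ≠ y'
  yx' : y ≠ x'
  x'y' : x' ≠ y'
  io : sm G S o = ∅ ∨ o = x' ∨ o = y'
  ip : sm G S p = ∅ ∨ p = x' ∨ p = y'

variable {G}

/-- Exchange of the two sites. -/
theorem Sw.swapS {S : Finset V} {x y e f o p x' y' : V} (h : Sw G S x y e f o p x' y') :
    Sw G S y x e f o p y' x' where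
  xS := h.yS
  yS := h.xS
  eS := h.eS
  fS := h.fS
  oS := h.oS
  pS := h.pS
  x'S := h.y'S
  y'S := h.x'S
  sx := h.sy
  sy := h.sx
  sx' := h.sy'
  sy' := h.sx'
  ox := h.oy
  oy := h.ox
  se := h.se
  sf := h.sf
  oe := by rw [h.oe, Finset.insert_comm]
  of := by rw [h.of, Finset.insert_comm]
  ef := h.ef
  xy := h.xy.symm
  xo := h.yo
  yo := h.xo
  xp := h.yp
  yp := h.xp
  op' := h.op'
  xx' := h.yy'
  yy' := h.xx'
  xy' := h.yx'
  yx' := h.xy'
  x'y' := h.x'y'.symm
  io := by
    rcases h.io with h1 | h1 | h1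
    · exact Or.inl h1
    · exact Or.inr (Or.inr h1)
    · exact Or.inr (Or.inl h1)
  ip := by
    rcases h.ip with h1 | h1 | h1
    · exact Or.inl h1
    · exact Or.inr (Or.inr h1)
    · exact Or.inr (Or.inl h1)

/-- Exchange of the two ends. -/
theorem Sw.swapE {S : Finset V} {x y e f o p x' y' : V} (h : Sw G S x y e f o p x' y') :
    Sw G S x y f e p o x' y' where
  xS := h.xS
  yS := h.yS
  eS := h.fS
  fS := h.eS
  oS := h.pS
  pS := h.oS
  x'S := h.x'S
  y'S := h.y'S
  sx := h.sx
  sy := h.sy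
  sx' := h.sx'
  sy' := h.sy'
  ox := by rw [h.ox, Finset.pair_comm]
  oy := by rw [h.oy, Finset.pair_comm]
  se := h.sf
  sf := h.se
  oe := h.of
  of := h.oe
  ef := h.ef.symm
  xy := h.xy
  xo := h.xp
  yo := h.yp
  xp := h.xo
  yp := h.yo
  op' := h.op'.symm
  xx' := h.xx'
  yy' := h.yy'
  xy' := h.xy'
  yx' := h.yx'
  x'y' := h.x'y'
  io := h.ip
  ip := h.io

namespace SwAux

theorem sm_empty {S : Finset V} {v : V} (h : sd G S v = 0) : sm G S v = ∅ :=
  Finset.card_eq_zero.1 h

theorem sd_of_empty {S : Finset V} {v : V} (h : sm G S v = ∅) : sd G S v = 0 :=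
  Finset.card_eq_zero.2 h

theorem sd_of_single {S : Finset V} {v w : V} (h : sm G S v = {w}) : sd G S v = 1 := by
  unfold sd; rw [h, Finset.card_singleton]

theorem pt_eq {S : Finset V} {v w : V} (h : sm G S v = {w}) : pt G S v = w := by
  unfold pt
  have h' : ∃ w, sm G S v = {w} := ⟨w, h⟩
  rw [dif_pos h']
  exact (Finset.singleton_injective (h.symm.trans h'.choose_spec)).symm

theorem sm_single {k : ℕ} {S : Finset V} (hL : Level G k S) {v w : V} (h : w ∈ sm G S v) :
    sm G S v = {w} := by
  have h1 := hL.tf v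
  unfold sd at h1
  rw [Finset.card_le_one] at h1
  ext z
  rw [Finset.mem_singleton]
  exact ⟨fun hz => h1 z hz w h, fun hz => hz ▸ h⟩

theorem white {S : Finset V} {v w : V} (h : w ∈ sm G S v) (hv : v ∈ S) : w ∈ S :=
  (mem_sm.1 h).2.2 hv

theorem sites_of {S : Finset V} {u v b g : V} (hu : u ∈ S) (su : sm G S u = {v})
    (ou : op G S u = {b, g}) (sb : sd G S b = 0) (sg : sd G S g = 0) : u ∈ sites G S := by
  rw [StructAux.mem_sites]
  refine ⟨hu, sd_of_single su, fun c hc => ?_⟩
  rw [ou, Finset.mem_insert, Finset.mem_singleton] at hc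
  rcases hc with rfl | rfl
  · exact sb
  · exact sg

end SwAux

open SwAux

/-- The mate of a site is unique. -/
theorem mate_unique (hG : G.IsRegularOfDegree 3) {k : ℕ} (hA : NoTriple G k) (hz : DZ G k)
    {S : Finset V} (hL : Level G k S) {u v w : V} (h1 : Mate G S u v) (h2 : Mate G S u w) :
    v = w := by
  by_contra hne
  obtain ⟨hu, hv, uv, nv, ov⟩ := h1
  obtain ⟨-, hw, uw, nw, ow⟩ := h2
  have hu' := StructAux.mem_sites.1 hu
  have hv' := StructAux.mem_sites.1 hv
  have hw' := StructAux.mem_sites.1 hw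
  have hc : (op G S u).card = 2 := by
    have := sd_add_op hG S u
    omega
  obtain ⟨b, b', hbb, hop⟩ := Finset.card_eq_two.1 hc
  have hb : b ∈ op G S u := by rw [hop]; simp
  have hb' : b' ∈ op G S u := by rw [hop]; simp
  have bS : b ∉ S := StructAux.op_black hu'.1 hb
  have b'S : b' ∉ S := StructAux.op_black hu'.1 hb'
  have m : ∀ {z c : V}, z ∈ sites G S → c ∈ op G S z → z ∈ UN G S c := by
    intro z c hz1 hc1
    exact StructAux.mem_UN.2 ⟨op_symm hc1, (StructAux.mem_sites.1 hz1).2.1⟩
  have key := hA S hL b u v w bS (hu'.2.2 b hb) (m hu hb) (m hv (ov ▸ hb)) (m hw (ow ▸ hb))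
    uv uw hne
  rcases key with h | h | h
  · exact nv (mem_sm.2 ⟨h, fun _ => hu'.1, fun _ => hv'.1⟩)
  · exact nw (mem_sm.2 ⟨h, fun _ => hu'.1, fun _ => hw'.1⟩)
  · have a : ∀ {z c : V}, c ∈ op G S z → G.Adj c z := fun h => (mem_op.1 h).1.symm
    obtain ⟨-, -, x, -, sx, -, -, ob, -⟩ := hz S hL b b' v w bS b'S hbb hv'.1 hw'.1 h
      (a (ov ▸ hb)) (a (ow ▸ hb)) (a (ov ▸ hb')) (a (ow ▸ hb'))
    have : u ∈ op G S b := op_symm hb
    rw [ob] at this
    simp only [Finset.mem_insert, Finset.mem_singleton] at this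
    rcases this with rfl | rfl | rfl
    · exact uv rfl
    · exact uw rfl
    · have := hu'.2.1
      omega

theorem Mate.symm {S : Finset V} {u v : V} (h : Mate G S u v) : Mate G S v u := by
  obtain ⟨hu, hv, uv, nv, ov⟩ := h
  exact ⟨hv, hu, uv.symm, fun h => nv (sm_symm h), ov.symm⟩

open Fact2Aux in
private theorem third_ne (hG : G.IsRegularOfDegree 3) {k : ℕ} (hk : 1 ≤ k) {S : Finset V}
    (hL : Level G k S) {x y e f o x' y' : V} (xS : x ∈ S) (yS : y ∈ S) (eS : e ∉ S) (fS : f ∉ S)
    (oS : o ∈ S) (sx : sm G S x = {x'}) (sy : sm G S y = {y'}) (sx' : sm G S x' = {x})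
    (sy' : sm G S y' = {y})
    (ox : op G S x = {e, f}) (oy : op G S y = {e, f}) (se : sm G S e = ∅) (sf : sm G S f = ∅)
    (oe : op G S e = {x, y, o}) (of : op G S f = {x, y, o}) (ef : e ≠ f) (xy : x ≠ y)
    (xo : x ≠ o) (yo : y ≠ o) (yx' : y ≠ x') (xy' : x ≠ y')
    (io : sm G S o = ∅ ∨ o = x' ∨ o = y') : False := by
  have aff : ¬ G.Adj e f := by
    intro h
    have : f ∈ sm G S e := mem_sm.2 ⟨h, by tauto⟩
    rw [se] at this
    simp at this
  have axy : ¬ G.Adj x y := by
    intro h
    have : y ∈ sm G S x := mem_sm.2 ⟨h, by tauto⟩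
    rw [sx, Finset.mem_singleton] at this
    exact yx' this
  have A : ∀ {z c : V}, c ∈ op G S z → G.Adj z c := fun h => (mem_op.1 h).1
  have hxe : G.Adj x e := A (by rw [ox]; simp)
  have hxf : G.Adj x f := A (by rw [ox]; simp)
  have hye : G.Adj y e := A (by rw [oy]; simp)
  have hyf : G.Adj y f := A (by rw [oy]; simp)
  have hoe : G.Adj o e := (A (by rw [oe]; simp : o ∈ op G S e)).symm
  have hof : G.Adj o f := (A (by rw [of]; simp : o ∈ op G S f)).symm
  have ne : ∀ {a c : V}, a ∈ S → c ∉ S → a ≠ c := fun h1 h2 h3 => h2 (h3 ▸ h1)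
  have sdx : sd G S x = 1 := sd_of_single sx
  have sdy : sd G S y = 1 := sd_of_single sy
  have sde : sd G S e = 0 := sd_of_empty se
  have sdf : sd G S f = 0 := sd_of_empty sf
  have c1 : cost G S {f} = 3 := by
    have := cost_insert G S ∅ f (by simp)
    rw [cost_empty, sdf, Finset.sum_empty] at this
    simpa using this
  have c2 : cost G S {e, f} = 6 := by
    rw [cost_insert G S {f} e (by simpa using ef), c1, sde, Finset.sum_singleton,
      sg_nonadj G aff]
    norm_num
  have c3 : cost G S {y, e, f} = 3 := by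
    rw [cost_insert G S {e, f} y (by simp [ne yS eS, ne yS fS]), c2, sdy, Finset.sum_pair ef,
      sg_bi G hye (by tauto), sg_bi G hyf (by tauto)]
    norm_num
  have c4 : cost G S {x, y, e, f} = 0 := by
    rw [cost_insert G S {y, e, f} x (by simp [xy, ne xS eS, ne xS fS]), c3, sdx,
      Finset.sum_insert (by simp [ne yS eS, ne yS fS]), Finset.sum_pair ef,
      sg_nonadj G axy, sg_bi G hxe (by tauto), sg_bi G hxf (by tauto)]
    norm_num
  have c5 : cost G S {o, x, y, e, f} = -1 := by
    rw [cost_insert G S {x, y, e, f} o (by simp [xo.symm, yo.symm, ne oS eS, ne oS fS]), c4,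
      Finset.sum_insert (by simp [xy, ne xS eS, ne xS fS]),
      Finset.sum_insert (by simp [ne yS eS, ne yS fS]), Finset.sum_pair ef,
      sg_bi G hoe (by tauto), sg_bi G hof (by tauto)]
    have sg_same : ∀ {a c : V}, G.Adj a c → (a ∈ S ↔ c ∈ S) → CostAux.sg G S a c = -1 := by
      intro a c h h2
      unfold CostAux.sg
      rw [if_pos h, if_pos h2]
    have adj_o : ∀ {a : V}, a ∈ S → G.Adj o a → a ∈ sm G S o := fun h1 h2 =>
      mem_sm.2 ⟨h2, by tauto⟩
    rcases io with h | h | h
    · have n1 : ¬ G.Adj o x := fun h1 => by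
        have := adj_o xS h1
        rw [h] at this
        simp at this
      have n2 : ¬ G.Adj o y := fun h1 => by
        have := adj_o yS h1
        rw [h] at this
        simp at this
      rw [sd_of_empty h, sg_nonadj G n1, sg_nonadj G n2]
      norm_num
    · subst h
      have n1 : G.Adj o x := by
        have : x ∈ sm G S o := by rw [sx']; simp
        exact (mem_sm.1 this).1
      have n2 : ¬ G.Adj o y := fun h1 => by
        have := adj_o yS h1
        rw [sx', Finset.mem_singleton] at this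
        exact xy this.symm
      rw [sd_of_single sx', sg_same n1 (by tauto), sg_nonadj G n2]
      norm_num
    · subst h
      have n1 : G.Adj o y := by
        have : y ∈ sm G S o := by rw [sy']; simp
        exact (mem_sm.1 this).1
      have n2 : ¬ G.Adj o x := fun h1 => by
        have := adj_o xS h1
        rw [sy', Finset.mem_singleton] at this
        exact xy this
      rw [sd_of_single sy', sg_same n1 (by tauto), sg_nonadj G n2]
      norm_num
  have i1 : iot S {f} = 1 := by
    have := iot_insert S ∅ f (by simp)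
    rw [iot_empty, if_neg fS] at this
    simpa using this
  have i2 : iot S {e, f} = 2 := by
    rw [iot_insert S {f} e (by simpa using ef), i1, if_neg eS]
    norm_num
  have i3 : iot S {y, e, f} = 1 := by
    rw [iot_insert S {e, f} y (by simp [ne yS eS, ne yS fS]), i2, if_pos yS]
    norm_num
  have i4 : iot S {x, y, e, f} = 0 := by
    rw [iot_insert S {y, e, f} x (by simp [xy, ne xS eS, ne xS fS]), i3, if_pos xS]
    norm_num
  have i5 : iot S {o, x, y, e, f} = -1 := by
    rw [iot_insert S {x, y, e, f} o (by simp [xo.symm, yo.symm, ne oS eS, ne oS fS]), i4,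
      if_pos oS]
    norm_num
  have h := hL.cost_ge hG {o, x, y, e, f}
  rw [c5, i5] at h
  have hk' : (1 : ℤ) ≤ k := by exact_mod_cast hk
  rw [abs_of_nonneg (by linarith)] at h
  linarith

/-- The full data of a switch. -/
theorem exists_Sw (hG : G.IsRegularOfDegree 3) {k : ℕ} (hk : 1 ≤ k) (hA : NoTriple G k)
    {S : Finset V} (hL : Level G k S) {x y e : V} (hm : Mate G S x y) (he : e ∈ op G S x) :
    ∃ f o p x' y', Sw G S x y e f o p x' y' := by
  obtain ⟨hx, hy, xy, nxy, hop⟩ := hm
  have hx' := StructAux.mem_sites.1 hx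
  have hy' := StructAux.mem_sites.1 hy
  obtain ⟨xS, sdx, zx⟩ := hx'
  obtain ⟨yS, sdy, zy⟩ := hy'
  have hc : (op G S x).card = 2 := by
    have := sd_add_op hG S x
    omega
  obtain ⟨f, ox, ef⟩ := StructAux.card_two hc he
  have oy : op G S y = {e, f} := by rw [← hop, ox]
  have hf : f ∈ op G S x := by rw [ox]; simp
  have eS : e ∉ S := StructAux.op_black xS he
  have fS : f ∉ S := StructAux.op_black xS hf
  obtain ⟨x', sx⟩ := StructAux.sd_one sdx
  obtain ⟨y', sy⟩ := StructAux.sd_one sdy
  have hx'x : x' ∈ sm G S x := by rw [sx]; simp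
  have hy'y : y' ∈ sm G S y := by rw [sy]; simp
  have sx' := sm_single hL (sm_symm hx'x)
  have sy' := sm_single hL (sm_symm hy'y)
  have x'S := white hx'x xS
  have y'S := white hy'y yS
  have sde := zx e he
  have sdf := zx f hf
  have c3 : ∀ {c : V}, sd G S c = 0 → (op G S c).card = 3 := by
    intro c h
    have := sd_add_op hG S c
    omega
  obtain ⟨o, oe, xo, yo⟩ := StructAux.card_three' (c3 sde) (op_symm he)
    (op_symm (hop ▸ he)) xy
  obtain ⟨p, of, xp, yp⟩ := StructAux.card_three' (c3 sdf) (op_symm hf)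
    (op_symm (hop ▸ hf)) xy
  have oS : o ∈ S := StructAux.op_white eS (by rw [oe]; simp)
  have pS : p ∈ S := StructAux.op_white fS (by rw [of]; simp)
  have yx' : y ≠ x' := by
    intro h
    exact nxy (h ▸ hx'x)
  have xy' : x ≠ y' := by
    intro h
    exact nxy (sm_symm (h ▸ hy'y))
  have x'y' : x' ≠ y' := by
    intro h
    rw [h, sy'] at sx'
    exact xy (Finset.singleton_injective sx').symm
  have iso : ∀ {c z : V}, c ∉ S → sd G S c = 0 → op G S c = {x, y, z} → x ≠ z → y ≠ z → z ∈ S →
      (sm G S z = ∅ ∨ z = x' ∨ z = y') := by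
    intro c z cS sc oc xz yz zS
    by_cases h0 : sd G S z = 0
    · exact Or.inl (sm_empty h0)
    have h1 : sd G S z = 1 := by
      have := hL.tf z
      omega
    have m : ∀ {w : V}, w ∈ op G S c → sd G S w = 1 → w ∈ UN G S c := fun h h' =>
      StructAux.mem_UN.2 ⟨h, h'⟩
    rcases hA S hL c x y z cS sc (m (by rw [oc]; simp) sdx) (m (by rw [oc]; simp) sdy)
      (m (by rw [oc]; simp) h1) xy xz yz with h | h | h
    · exact absurd (mem_sm.2 ⟨h, by tauto⟩) nxy
    · right; left
      have : z ∈ sm G S x := mem_sm.2 ⟨h, by tauto⟩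
      rw [sx, Finset.mem_singleton] at this
      exact this
    · right; right
      have : z ∈ sm G S y := mem_sm.2 ⟨h, by tauto⟩
      rw [sy, Finset.mem_singleton] at this
      exact this
  have io := iso eS sde oe xo yo oS
  have ip := iso fS sdf of xp yp pS
  have op' : o ≠ p := by
    intro h
    subst h
    exact third_ne hG hk hL xS yS eS fS oS sx sy sx' sy' ox oy (sm_empty sde) (sm_empty sdf)
      oe of ef xy xo yo yx' xy' io
  exact ⟨f, o, p, x', y',
    { xS := xS, yS := yS, eS := eS, fS := fS, oS := oS, pS := pS, x'S := x'S, y'S := y'S,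
      sx := sx, sy := sy, sx' := sx', sy' := sy', ox := ox, oy := oy, se := sm_empty sde,
      sf := sm_empty sdf, oe := oe, of := of, ef := ef, xy := xy, xo := xo, yo := yo,
      xp := xp, yp := yp, op' := op', xx' := fun h => by
        have := (mem_sm.1 hx'x).1
        rw [← h] at this
        exact G.irrefl this
      yy' := fun h => by
        have := (mem_sm.1 hy'y).1
        rw [← h] at this
        exact G.irrefl this
      xy' := xy', yx' := yx', x'y' := x'y', io := io, ip := ip }⟩

/-- The data of an end of a switch gives the data of the switch. -/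
theorem SwE.toSw (hG : G.IsRegularOfDegree 3) {k : ℕ} (hk : 1 ≤ k) (hA : NoTriple G k)
    {S : Finset V} (hL : Level G k S) {x y e o : V} (h : SwE G S x y e o) :
    ∃ f p x' y', Sw G S x y e f o p x' y' := by
  obtain ⟨f, o2, p, x', y', h2⟩ := exists_Sw hG hk hA hL h.mate h.xe
  have : o2 = o := by
    have h1 : o2 ∈ op G S e := by rw [h2.oe]; simp
    rw [h.oe] at h1
    simp only [Finset.mem_insert, Finset.mem_singleton] at h1
    rcases h1 with h1 | h1 | h1
    · exact absurd h1.symm h2.xo
    · exact absurd h1.symm h2.yo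
    · exact h1
  subst this
  exact ⟨f, p, x', y', h2⟩

/-- Every end of a switch has data. -/
theorem exists_SwE (hG : G.IsRegularOfDegree 3) {k : ℕ} (hk : 1 ≤ k) (hA : NoTriple G k)
    {S : Finset V} (hL : Level G k S) {x y e : V} (hm : Mate G S x y) (he : e ∈ op G S x) :
    ∃ o, SwE G S x y e o := by
  obtain ⟨f, o, p, x', y', h⟩ := exists_Sw hG hk hA hL hm he
  exact ⟨o, ⟨hm, he, h.oe, h.xo, h.yo⟩⟩

theorem Sw.xsite {S : Finset V} {x y e f o p x' y' : V} (h : Sw G S x y e f o p x' y') :
    x ∈ sites G S := sites_of h.xS h.sx h.ox (sd_of_empty h.se) (sd_of_empty h.sf)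

theorem Sw.ysite {S : Finset V} {x y e f o p x' y' : V} (h : Sw G S x y e f o p x' y') :
    y ∈ sites G S := h.swapS.xsite

theorem Sw.mate {S : Finset V} {x y e f o p x' y' : V} (h : Sw G S x y e f o p x' y') :
    Mate G S x y := by
  refine ⟨h.xsite, h.ysite, h.xy, ?_, by rw [h.ox, h.oy]⟩
  rw [h.sx, Finset.mem_singleton]
  exact h.yx'

theorem Sw.swE {S : Finset V} {x y e f o p x' y' : V} (h : Sw G S x y e f o p x' y') :
    SwE G S x y e o := ⟨h.mate, by rw [h.ox]; simp, h.oe, h.xo, h.yo⟩

/-- An inner partner is not a site. -/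
theorem Sw.inner (hG : G.IsRegularOfDegree 3) {k : ℕ} (hk : 1 ≤ k) (hA : NoTriple G k)
    {S : Finset V} (hL : Level G k S) {x y e f o p x' y' : V} (h : Sw G S x y e f o p x' y')
    (ho : o = x') : x' ∉ sites G S := by
  intro hs
  have hs' := StructAux.mem_sites.1 hs
  have he : e ∈ op G S x' := op_symm (by rw [h.oe, ho]; simp)
  have hc : (op G S x').card = 2 := by
    have := sd_add_op hG S x'
    omega
  obtain ⟨g, og, eg⟩ := StructAux.card_two hc he
  have hna : ¬ G.Adj y x' := by
    intro ha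
    have : y ∈ sm G S x' := mem_sm.2 ⟨ha.symm, fun _ => h.x'S, fun _ => h.yS⟩
    rw [h.sx', Finset.mem_singleton] at this
    exact h.xy this.symm
  have := fact3g hG hk hA hL h.eS (sd_of_empty h.se) h.ysite hs h.oy og h.ef eg h.yx' hna
  have h2 : x' ∈ op G S f := op_symm (by rw [og, this]; simp)
  rw [h.of] at h2
  simp only [Finset.mem_insert, Finset.mem_singleton] at h2
  rcases h2 with h2 | h2 | h2
  · exact h.xx' h2.symm
  · exact h.yx' h2.symm
  · exact h.op' (ho.trans h2)

/-- Two different ends with the same third neighbour belong to different switches, which are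
disjoint. -/
theorem Sw.disj (hG : G.IsRegularOfDegree 3) {k : ℕ} (hA : NoTriple G k)
    (hz : DZ G k) {S : Finset V} (hL : Level G k S) {x y e f o p x' y' a c : V}
    (h : Sw G S x y e f o p x' y') (h2 : Mate G S a c) (hne : a ∉ ({x, y} : Finset V)) :
    c ∉ ({x, y} : Finset V) := by
  intro hc
  apply hne
  simp only [Finset.mem_insert, Finset.mem_singleton] at hc ⊢
  rcases hc with rfl | rfl
  · exact Or.inr (mate_unique hG hA hz hL h2.symm h.mate)
  · exact Or.inl (mate_unique hG hA hz hL h2.symm h.mate.symm)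

end Pool.Agent.Lib.AndoD
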