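import Pool.Agent.Lib.AndoD.Pt
import Pool.Agent.Lib.AndoD.SwBase
import Pool.Agent.Lib.AndoD.ExAD

/-!
# AndoD.Core: facts on the core, the stage, the sides and the centre of an arm

All by cases on hd (8 kinds), directly from the structures Ub3, Ub4, SwE, Cap. For ZL: a white vertex w with sd = 1
that is no site and has a neighbour b with sd = 0 has op w = {b, l} with sd l = 1
(`sd_add_op`: op w has two members; not both have sd = 0 as w is no site).
`core_mate`: x' in {x, y}, Mate is symmetric (op x = op y, partners are symmetric).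
`res_zl`: ub4: w: in op b, sd = 1, no site. cap: q: op q = {b, l}, sd l = 1 (sm l = {m}). nsw: res = pt x, x = u active
(hypothesis: the partner is not LL: member of actS) and no site (constructor): so ZL.
-/

set_option autoImplicit false
set_option linter.unusedSectionVars false

namespace Pool.Agent.Lib.AndoD

open Pool.Agent.Lib.Ando Pool.Agent.Lib.AndoC

variable {V : Type*} [Fintype V] [DecidableEq V] {G : SimpleGraph V} [DecidableRel G.Adj]

namespace CoreAux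

open ExADAux

/-- A white vertex of degree one that is no site and has a neighbour in Z. -/
theorem zl_ex (hG : G.IsRegularOfDegree 3) {S : Finset V} (htf : ∀ v, sd G S v ≤ 1) {w b : V}
    (hw : w ∈ S) (sw : sd G S w = 1) (hn : w ∉ sites G S) (hb : b ∈ op G S w)
    (sb : sd G S b = 0) : ∃ l, op G S w = {b, l} ∧ sd G S l = 1 := by
  obtain ⟨l, hl, bl⟩ := StructAux.card_two (BasicAux.op_card_two hG sw) hb
  refine ⟨l, hl, ?_⟩
  by_contra h3
  have h2 := htf l
  apply hn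
  refine StructAux.mem_sites.2 ⟨hw, sw, fun y hy => ?_⟩
  rw [hl, Finset.mem_insert, Finset.mem_singleton] at hy
  rcases hy with rfl | rfl
  · exact sb
  · omega

/-- The facts on a capped end. -/
structure CapF (S : Finset V) (u b q q' l m t : V) : Prop where
  uS : u ∈ S
  bS : b ∉ S
  sb : sd G S b = 0
  qS : q ∈ S
  q'S : q' ∈ S
  sdq : sd G S q = 1
  sdq' : sd G S q' = 1
  nq : q ∉ sites G S
  nq' : q' ∉ sites G S
  bq : b ∈ op G S q
  bq' : b ∈ op G S q'
  qu : q ∉ sm G S u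
  q'u : q' ∉ sm G S u
  sdl : sd G S l = 1
  sdm : sd G S m = 1
  mS : m ∉ S
  pq : pt G S q = q'
  pq' : pt G S q' = q
  pm : pt G S m = l
  pl : pt G S l = m
  tS : t ∈ S
  tm : t ∈ op G S m
  tq : t ≠ q
  lq' : ∃ l', op G S q' = {b, l'} ∧ sd G S l' = 1

theorem capF {k : ℕ} {S : Finset V} {X Y : Finset (Finset V)} (h : Ctx G k S X Y)
    {u b q q' l m s t : V} (hc : Cap G S u b q q' l m s t) : CapF (G := G) S u b q q' l m t := by
  have us := StructAux.mem_sites.1 hc.us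
  have bS : b ∉ S := StructAux.op_black us.1 hc.ub
  have sb := us.2.2 b hc.ub
  have hqb : q ∈ op G S b := by rw [hc.ob]; simp
  have hqb' : q' ∈ op G S b := by rw [hc.ob]; simp
  have qS := StructAux.op_white bS hqb
  have qS' := StructAux.op_white bS hqb'
  have sdq : sd G S q = 1 := sd_of_sm hc.sq
  have sdq' : sd G S q' = 1 := sd_of_sm hc.sq'
  have sdl : sd G S l = 1 := sd_of_sm hc.sl
  have sdm : sd G S m = 1 := sd_of_sm hc.sm'
  have hlq : l ∈ op G S q := by rw [hc.oq]; simp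
  have lS : l ∉ S := StructAux.op_black qS hlq
  have mS : m ∉ S := fun h' => lS ((mem_sm.1 (by rw [hc.sl]; simp : m ∈ sm G S l)).2.1 h')
  have qu : q ∉ sm G S u := by
    intro h1
    have := sm_symm h1
    rw [hc.sq, Finset.mem_singleton] at this
    exact hc.uq' this
  have q'u : q' ∉ sm G S u := by
    intro h1
    have := sm_symm h1
    rw [hc.sq', Finset.mem_singleton] at this
    exact hc.uq this
  have nq : q ∉ sites G S := fun hs => by
    have := (StructAux.mem_sites.1 hs).2.2 l hlq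
    omega
  have nq' : q' ∉ sites G S := fun hs =>
    hc.nm q' (mate_of h hc.us hs hc.ub (op_symm hqb') hc.uq' q'u)
  have tm : t ∈ op G S m := by rw [hc.om]; simp
  have tq : t ≠ q := by
    rintro rfl
    have h1 := op_symm tm
    rw [hc.oq, Finset.mem_insert, Finset.mem_singleton] at h1
    rcases h1 with h1 | h1
    · rw [h1] at sdm; omega
    · have h2 := hc.sm'
      rw [h1] at h2
      have h3 : l ∈ sm G S l := by rw [h2]; simp
      exact G.irrefl (mem_sm.1 h3).1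
  exact
    { uS := us.1, bS := bS, sb := sb, qS := qS, q'S := qS', sdq := sdq, sdq' := sdq', nq := nq
      nq' := nq', bq := op_symm hqb, bq' := op_symm hqb', qu := qu, q'u := q'u, sdl := sdl
      sdm := sdm, mS := mS, pq := pt_of hc.sq, pq' := pt_of hc.sq', pm := pt_of hc.sm'
      pl := pt_of hc.sl, tS := StructAux.op_white mS tm, tm := tm, tq := tq
      lq' := zl_ex h.reg h.lev.tf qS' sdq' nq' (op_symm hqb') sb }

/-- The facts on the sides of a capped end. -/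
theorem side_cap {k : ℕ} {S : Finset V} {X Y : Finset (Finset V)} (h : Ctx G k S X Y)
    {u b q q' l m s t : V} (hc : Cap G S u b q q' l m s t) {w : V}
    (hw : w ∈ ({q, q'} : Finset V)) : w ∈ S ∧ sd G S w = 1 ∧
      w ∉ sites G S ∧ b ∈ op G S w ∧ w ∉ sm G S u ∧ w ≠ u ∧
      (({q, q'} : Finset V) = {w, pt G S w}) ∧
      (∃ l, op G S w = {b, l} ∧ sd G S l = 1) := by
  have hf := capF h hc
  rcases Finset.mem_insert.1 hw with rfl | hw
  · exact ⟨hf.qS, hf.sdq, hf.nq, hf.bq, hf.qu, hc.uq.symm, by rw [hf.pq], l, hc.oq, hf.sdl⟩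
  · rw [Finset.mem_singleton] at hw
    subst hw
    exact ⟨hf.q'S, hf.sdq', hf.nq', hf.bq', hf.q'u, hc.uq'.symm,
      by rw [hf.pq', Finset.pair_comm], hf.lq'⟩

theorem cen_cap {k : ℕ} {S : Finset V} {X Y : Finset (Finset V)} (h : Ctx G k S X Y)
    {u b q q' l m s t : V} (hc : Cap G S u b q q' l m s t) :
    q ≠ q' ∧ sm G S q = {q'} ∧ sm G S q' = {q} ∧ op G S b = {u, q, q'} ∧
        op G S q = {b, pt G S m} ∧ sm G S m = {pt G S m} ∧
        sm G S (pt G S m) = {m} := by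
  have hf := capF h hc
  rw [hf.pm]
  exact ⟨hc.qq, hc.sq, hc.sq', hc.ob, hc.oq, hc.sm', hc.sl⟩

theorem sides2 {k : ℕ} {S : Finset V} {X Y : Finset (Finset V)} (h : Ctx G k S X Y)
    {u b q q' l m s t : V} (hc : Cap G S u b q q' l m s t) (ht : sd G S t = 1)
    (hq : t ≠ q') : t ∉ ({q, q'} : Finset V) ∧ pt G S t ∉ ({q, q'} : Finset V) := by
  have hf := capF h hc
  have hp := pt_all h.lev ht
  constructor
  · intro h1
    rcases Finset.mem_insert.1 h1 with h1 | h1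
    · exact hf.tq h1
    · exact hq (Finset.mem_singleton.1 h1)
  · intro h1
    have h2 : t ∈ sm G S (pt G S t) := by rw [hp.2.1]; simp
    rcases Finset.mem_insert.1 h1 with h1 | h1
    · rw [h1, hc.sq, Finset.mem_singleton] at h2
      exact hq h2
    · rw [Finset.mem_singleton.1 h1, hc.sq', Finset.mem_singleton] at h2
      exact hf.tq h2

theorem op_ne {S : Finset V} {u b : V} (hu : u ∈ sites G S) (hb : b ∈ op G S u) :
    b ∉ S ∧ sd G S b = 0 :=
  ⟨StructAux.op_black (StructAux.mem_sites.1 hu).1 hb, (StructAux.mem_sites.1 hu).2.2 b hb⟩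

end CoreAux

open CoreAux

theorem core_facts {k : ℕ} {S : Finset V} {X Y : Finset (Finset V)} (h : Ctx G k S X Y) {u b : V}
    {d : Dat V} (hd : AD G S u b d) : u ∈ d.core ∧ b ∈ op G S u ∧ d.core ⊆ sites G S ∧
      (∀ x ∈ d.core, op G S x = op G S u ∧ (x = u ∨ Mate G S u x)) ∧
      ((d.st = 2 ∨ d.st = 3) → ∃ y, Mate G S u y ∧ d.core = {u, y}) ∧
      (d.st ≠ 2 → d.st ≠ 3 → d.core = {u} ∧ ∀ y, ¬ Mate G S u y) ∧ d.st ≤ 4 ∧
      (∀ x ∈ d.core, d.st = 3 → pt G S x ∉ sites G S) ∧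
      (d.st = 2 → ∃ x ∈ d.core, pt G S x ∈ sites G S) := by
  have one : ∀ {n : ℕ}, n ≠ 2 → n ≠ 3 → n ≤ 4 → u ∈ sites G S → b ∈ op G S u →
      (∀ y, ¬ Mate G S u y) → d.st = n → d.core = {u} → u ∈ d.core ∧ b ∈ op G S u ∧
      d.core ⊆ sites G S ∧
      (∀ x ∈ d.core, op G S x = op G S u ∧ (x = u ∨ Mate G S u x)) ∧
      ((d.st = 2 ∨ d.st = 3) → ∃ y, Mate G S u y ∧ d.core = {u, y}) ∧
      (d.st ≠ 2 → d.st ≠ 3 → d.core = {u} ∧ ∀ y, ¬ Mate G S u y) ∧ d.st ≤ 4 ∧
      (∀ x ∈ d.core, d.st = 3 → pt G S x ∉ sites G S) ∧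
      (d.st = 2 → ∃ x ∈ d.core, pt G S x ∈ sites G S) := by
    intro n h2 h3 h4 hu hb hn hst hco
    rw [hst, hco]
    refine ⟨by simp, hb, by simpa using hu, ?_, ?_, fun _ _ => ⟨rfl, hn⟩, h4,
      fun _ _ h5 => absurd h5 h3, fun h5 => absurd h5 h2⟩
    · intro x hx
      rw [Finset.mem_singleton] at hx
      rw [hx]
      exact ⟨rfl, Or.inl rfl⟩
    · rintro (h5 | h5)
      · exact absurd h5 h2
      · exact absurd h5 h3
  have two : ∀ {y : V}, Mate G S u y → d.core = {u, y} → u ∈ d.core ∧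
      d.core ⊆ sites G S ∧ (∀ x ∈ d.core, op G S x = op G S u ∧ (x = u ∨ Mate G S u x)) := by
    intro y hm hco
    rw [hco]
    refine ⟨by simp, ?_, ?_⟩
    · intro x hx
      rcases Finset.mem_insert.1 hx with rfl | hx
      · exact hm.1
      · rw [Finset.mem_singleton.1 hx]; exact hm.2.1
    · intro x hx
      rcases Finset.mem_insert.1 hx with rfl | hx
      · exact ⟨rfl, Or.inl rfl⟩
      · rw [Finset.mem_singleton.1 hx]
        exact ⟨hm.2.2.2.2.symm, Or.inr hm⟩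
  cases hd with
  | ub0 h1 _ _ => exact one (by norm_num) (by norm_num) (by norm_num) h1.us h1.ub h1.nm rfl rfl
  | ub1 h1 _ => exact one (by norm_num) (by norm_num) (by norm_num) h1.us h1.ub h1.nm rfl rfl
  | cap1 h1 _ => exact one (by norm_num) (by norm_num) (by norm_num) h1.us h1.ub h1.nm rfl rfl
  | ub4 h1 => exact one (by norm_num) (by norm_num) (by norm_num) h1.us h1.ub h1.nm rfl rfl
  | cap4 h1 _ _ _ =>
    exact one (by norm_num) (by norm_num) (by norm_num) h1.us h1.ub h1.nm rfl rfl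
  | cap5 h1 _ => exact one (by norm_num) (by norm_num) (by norm_num) h1.us h1.ub h1.nm rfl rfl
  | alp h1 hz =>
    obtain ⟨a1, a2, a3⟩ := two h1.mate rfl
    refine ⟨a1, h1.xe, a2, a3, fun _ => ⟨_, h1.mate, rfl⟩, fun h2 => absurd rfl h2,
      by norm_num, fun x _ h3 => absurd h3 (by norm_num), fun _ => ?_⟩
    rcases hz with hz | hz
    · exact ⟨_, Finset.mem_insert_self _ _, hz⟩
    · exact ⟨_, Finset.mem_insert_of_mem (Finset.mem_singleton_self _), hz⟩
  | nsw h1 hx hy _ _ =>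
    obtain ⟨a1, a2, a3⟩ := two h1.mate rfl
    refine ⟨a1, h1.xe, a2, a3, fun _ => ⟨_, h1.mate, rfl⟩, fun _ h2 => absurd rfl h2,
      by norm_num, fun x hx2 _ => ?_, fun h3 => absurd h3 (by norm_num)⟩
    rcases Finset.mem_insert.1 hx2 with rfl | hx2
    · exact hx
    · rw [Finset.mem_singleton.1 hx2]; exact hy

/-- The sides at the end: not sites, adjacent to b, not the partner of u; only in stages 1, 4. -/
theorem side1_facts {k : ℕ} {S : Finset V} {X Y : Finset (Finset V)} (h : Ctx G k S X Y) {u b : V}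
    {d : Dat V} (hd : AD G S u b d) {w : V} (hw : w ∈ d.s1) : w ∈ S ∧ sd G S w = 1 ∧
      w ∉ sites G S ∧ b ∈ op G S w ∧ w ∉ sm G S u ∧ w ≠ u ∧ (d.st = 1 ∨ d.st = 4) ∧
      (sd G S d.cen = 0 → d.s1 = {w}) ∧ (sd G S d.cen = 1 → d.s1 = {w, pt G S w}) ∧
      (d.st = 4 → d.res ∈ d.s1) ∧ (∃ l, op G S w = {b, l} ∧ sd G S l = 1) := by
  cases hd with
  | ub0 h1 _ _ => exact absurd hw (Finset.notMem_empty _)
  | ub1 h1 _ => exact absurd hw (Finset.notMem_empty _)
  | alp h1 _ => exact absurd hw (Finset.notMem_empty _)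
  | nsw h1 _ _ _ _ => exact absurd hw (Finset.notMem_empty _)
  | cap1 h1 _ =>
    obtain ⟨a1, a2, a3, a4, a5, a6, a7, a8⟩ := side_cap h h1 hw
    have hf := capF h h1
    exact ⟨a1, a2, a3, a4, a5, a6, Or.inl rfl, fun h2 => absurd (hf.sdm.symm.trans h2)
      (by norm_num), fun _ => a7, fun h2 => absurd h2 (by norm_num), a8⟩
  | cap4 h1 _ _ _ =>
    obtain ⟨a1, a2, a3, a4, a5, a6, a7, a8⟩ := side_cap h h1 hw
    have hf := capF h h1
    exact ⟨a1, a2, a3, a4, a5, a6, Or.inr rfl, fun h2 => absurd (hf.sdm.symm.trans h2)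
      (by norm_num), fun _ => a7, fun _ => Finset.mem_insert_self _ _, a8⟩
  | cap5 h1 _ =>
    obtain ⟨a1, a2, a3, a4, a5, a6, a7, a8⟩ := side_cap h h1 hw
    have hf := capF h h1
    exact ⟨a1, a2, a3, a4, a5, a6, Or.inr rfl, fun h2 => absurd (hf.sdm.symm.trans h2)
      (by norm_num), fun _ => a7, fun _ => Finset.mem_insert_self _ _, a8⟩
  | ub4 h1 =>
    have hw := Finset.mem_singleton.1 hw
    subst hw
    obtain ⟨bS, sb⟩ := op_ne h1.us h1.ub
    have hwb : w ∈ op G S b := by rw [h1.ob]; simp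
    have wS := StructAux.op_white bS hwb
    exact ⟨wS, h1.sw, h1.zl, op_symm hwb, h1.nw, h1.uw.symm, Or.inr rfl, fun _ => rfl,
      fun h2 => absurd (sb.symm.trans h2) (by norm_num), fun _ => Finset.mem_singleton_self _,
      zl_ex h.reg h.lev.tf wS h1.sw h1.zl (op_symm hwb) sb⟩

/-- The side at the centre of a cap (kind cap4). -/
theorem side2_facts {k : ℕ} {S : Finset V} {X Y : Finset (Finset V)} (h : Ctx G k S X Y) {u b : V}
    {d : Dat V} (hd : AD G S u b d) {t : V} (ht : t ∈ d.s2) : t ∈ S ∧ sd G S t = 1 ∧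
      t ∈ op G S d.cen ∧ t ∉ sm G S u ∧ t ∉ d.s1 ∧ pt G S t ∉ d.s1 ∧ d.st = 4 ∧
      sd G S d.cen = 1 ∧ d.s2 = {t} := by
  cases hd with
  | ub0 h1 _ _ => exact absurd ht (Finset.notMem_empty _)
  | ub1 h1 _ => exact absurd ht (Finset.notMem_empty _)
  | alp h1 _ => exact absurd ht (Finset.notMem_empty _)
  | nsw h1 _ _ _ _ => exact absurd ht (Finset.notMem_empty _)
  | cap1 h1 _ => exact absurd ht (Finset.notMem_empty _)
  | cap5 h1 _ => exact absurd ht (Finset.notMem_empty _)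
  | ub4 h1 => exact absurd ht (Finset.notMem_empty _)
  | cap4 h1 h2 h3 h4 =>
    have ht := Finset.mem_singleton.1 ht
    subst ht
    have hf := capF h h1
    obtain ⟨b1, b2⟩ := sides2 h h1 h2 h4
    exact ⟨hf.tS, h2, hf.tm, h3, b1, b2, rfl, hf.sdm, rfl⟩

/-- The centre. -/
theorem cen_facts {k : ℕ} {S : Finset V} {X Y : Finset (Finset V)} (h : Ctx G k S X Y) {u b : V}
    {d : Dat V} (hd : AD G S u b d) : d.cen ∉ S ∧ (sd G S d.cen = 0 → d.cen = b) ∧
      (sd G S d.cen = 1 → (d.st = 1 ∨ d.st = 4) ∧ ∃ q q', d.s1 = {q, q'} ∧ q ≠ q' ∧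
        sm G S q = {q'} ∧ sm G S q' = {q} ∧ op G S b = {u, q, q'} ∧
        op G S q = {b, pt G S d.cen} ∧ sm G S d.cen = {pt G S d.cen} ∧
        sm G S (pt G S d.cen) = {d.cen} ∧ (d.st = 4 → d.res = q)) := by
  have key : ∀ {u b : V}, u ∈ sites G S → b ∈ op G S u → ∀ P : Prop, sd G S b = 1 → P := by
    intro u b hu hb P h1
    exact absurd ((op_ne hu hb).2.symm.trans h1) (by norm_num)
  cases hd with
  | ub0 h1 _ _ => exact ⟨(op_ne h1.us h1.ub).1, fun _ => rfl, key h1.us h1.ub _⟩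
  | ub1 h1 _ => exact ⟨(op_ne h1.us h1.ub).1, fun _ => rfl, key h1.us h1.ub _⟩
  | alp h1 _ => exact ⟨(op_ne h1.mate.1 h1.xe).1, fun _ => rfl, key h1.mate.1 h1.xe _⟩
  | nsw h1 _ _ _ _ => exact ⟨(op_ne h1.mate.1 h1.xe).1, fun _ => rfl, key h1.mate.1 h1.xe _⟩
  | ub4 h1 => exact ⟨(op_ne h1.us h1.ub).1, fun _ => rfl, key h1.us h1.ub _⟩
  | cap1 h1 _ =>
    have hf := capF h h1
    obtain ⟨c1, c2, c3, c4, c5, c6, c7⟩ := cen_cap h h1
    exact ⟨hf.mS, fun h2 => absurd (hf.sdm.symm.trans h2) (by norm_num), fun _ =>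
      ⟨Or.inl rfl, _, _, rfl, c1, c2, c3, c4, c5, c6, c7, fun h2 => absurd h2 (by norm_num)⟩⟩
  | cap4 h1 _ _ _ =>
    have hf := capF h h1
    obtain ⟨c1, c2, c3, c4, c5, c6, c7⟩ := cen_cap h h1
    exact ⟨hf.mS, fun h2 => absurd (hf.sdm.symm.trans h2) (by norm_num), fun _ =>
      ⟨Or.inr rfl, _, _, rfl, c1, c2, c3, c4, c5, c6, c7, fun _ => rfl⟩⟩
  | cap5 h1 _ =>
    have hf := capF h h1
    obtain ⟨c1, c2, c3, c4, c5, c6, c7⟩ := cen_cap h h1
    exact ⟨hf.mS, fun h2 => absurd (hf.sdm.symm.trans h2) (by norm_num), fun _ =>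
      ⟨Or.inr rfl, _, _, rfl, c1, c2, c3, c4, c5, c6, c7, fun _ => rfl⟩⟩

/-- The resource of an arm of stage at least 3 is of type ZL. -/
theorem res_facts {k : ℕ} {S : Finset V} {X Y : Finset (Finset V)} (h : Ctx G k S X Y) {u b : V}
    {d : Dat V} (ha : (u, b) ∈ arms G S X) (hd : AD G S u b d) (h3 : 3 ≤ d.st) : d.res ∈ S ∧
      sd G S d.res = 1 ∧ d.res ∉ sites G S ∧
      (∃ c l, op G S d.res = {c, l} ∧ sd G S c = 0 ∧ sd G S l = 1) ∧
      (d.st = 3 → d.res = pt G S u) ∧ (d.st = 4 → d.res ∈ d.s1) := by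
  cases hd with
  | ub0 h1 _ _ => exact absurd h3 (by norm_num)
  | ub1 h1 _ => exact absurd h3 (by norm_num)
  | alp h1 _ => exact absurd h3 (by norm_num)
  | cap1 h1 _ => exact absurd h3 (by norm_num)
  | nsw h1 hx _ _ _ =>
    have hu : u ∈ actS G S X := by
      have h2 := (Finset.mem_filter.1 ha).1
      exact (Finset.mem_product.1 h2).1
    have hus := StructAux.mem_sites.1 h1.mate.1
    have hp := pt_all h.lev hus.2.1
    have hv : pt G S u ∈ sm G S u := by rw [hp.1]; simp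
    obtain ⟨c, hc, sc⟩ := (Finset.mem_filter.1 hu).2.2 _ hv
    have hpS : pt G S u ∈ S := hp.2.2.2.2.2.2.2 hus.1
    obtain ⟨l, hl, sl⟩ := zl_ex h.reg h.lev.tf hpS hp.2.2.1 hx hc sc
    exact ⟨hpS, hp.2.2.1, hx, ⟨c, l, hl, sc, sl⟩, fun _ => rfl, fun h2 => absurd h2 (by norm_num)⟩
  | ub4 h1 =>
    obtain ⟨bS, sb⟩ := op_ne h1.us h1.ub
    rename_i p w
    have hwb : w ∈ op G S b := by rw [h1.ob]; simp
    have wS := StructAux.op_white bS hwb
    obtain ⟨l, hl, sl⟩ := zl_ex h.reg h.lev.tf wS h1.sw h1.zl (op_symm hwb) sb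
    exact ⟨wS, h1.sw, h1.zl, ⟨b, l, hl, sb, sl⟩, fun h2 => absurd h2 (by norm_num),
      fun _ => Finset.mem_singleton_self _⟩
  | cap4 h1 _ _ _ =>
    have hf := capF h h1
    exact ⟨hf.qS, hf.sdq, hf.nq, ⟨_, _, h1.oq, hf.sb, hf.sdl⟩, fun h2 => absurd h2 (by norm_num),
      fun _ => Finset.mem_insert_self _ _⟩
  | cap5 h1 _ =>
    have hf := capF h h1
    exact ⟨hf.qS, hf.sdq, hf.nq, ⟨_, _, h1.oq, hf.sb, hf.sdl⟩, fun h2 => absurd h2 (by norm_num),
      fun _ => Finset.mem_insert_self _ _⟩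

end Pool.Agent.Lib.AndoD
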