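import Pool.Agent.Lib.AndoD.Pt
import Pool.Agent.Lib.AndoD.Core
import Pool.Agent.Lib.Ando.Ter

/-!
# AndoD.TouchZ: the isolated black vertices touched by an arm

y black, sd y = 0 (Z). For the options: y is adjacent to a site of the core, or (stage 2) to a site pt x,
x in the core. For the resource: y is adjacent to the resource.
Proof, by cases on hd. y is no member of any sm. A member y of ter F is in F or a neighbour of a
member of F (or a monochromatic neighbour: impossible).
ub0, ub1, ub4: F = {u, b}: y = b (adjacent to u) or y in op u (neighbours of u: sm u is white), neighbours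
of b are white (sd b = 0, u a site). cap: F = {u, b, q, m}: y = b, y in op u, y in op q = {b, l}: b is
in op u, l has sd = 1; y = m: sd m = 1; neighbours of m: l (sd = 1), s, t white.
alp: {x, e, pt y'}: e in op x = op y' (mates), op x, op (pt y') (stage 2, pt y' a site). nsw: {x', e}, x' in the core.
tb: ter {res} : y is a neighbour of res (res is white with sd = 1), so y in op res.
-/

set_option autoImplicit false
set_option linter.unusedSectionVars false

namespace Pool.Agent.Lib.AndoD

open Pool.Agent.Lib.Ando Pool.Agent.Lib.AndoC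

variable {V : Type*} [Fintype V] [DecidableEq V] {G : SimpleGraph V} [DecidableRel G.Adj]

namespace TouchZAux

open TerAux

/-- A black vertex without monochromatic neighbours touched by `F`. -/
theorem ter_Z {S F : Finset V} {y : V} (hy : y ∉ S) (sy : sd G S y = 0)
    (ht : y ∈ ter G S F) : y ∈ F ∨ ∃ f ∈ F, f ∈ S ∧ y ∈ op G S f := by
  have hn : ∀ g : V, y ∉ sm G S g := by
    intro g hg
    have h1 := sm_symm hg
    rw [sm_zero sy] at h1
    exact absurd h1 (Finset.notMem_empty _)
  rcases mem_ter.1 ht with h1 | ⟨f, hf, h1⟩ | ⟨f, hf, g, hg, h1⟩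
  · exact Or.inl h1
  · rcases Finset.mem_union.1 h1 with h1 | h1
    · exact absurd h1 (hn f)
    · exact Or.inr ⟨f, hf, StructAux.op_white hy (op_symm h1), h1⟩
  · exact absurd h1 (hn g)

theorem pairZ {S : Finset V} {u b y : V} (hy : y ∉ S) (sy : sd G S y = 0) (hu : u ∈ S)
    (hb : b ∉ S) (hub : b ∈ op G S u) (ht : y ∈ ter G S {u, b}) : y ∈ op G S u := by
  rcases ter_Z hy sy ht with h1 | ⟨f, hf, fS, h1⟩
  · simp only [Finset.mem_insert, Finset.mem_singleton] at h1
    rcases h1 with rfl | rfl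
    · exact absurd hu hy
    · exact hub
  · simp only [Finset.mem_insert, Finset.mem_singleton] at hf
    rcases hf with rfl | rfl
    · exact h1
    · exact absurd fS hb

theorem singleZ {S : Finset V} {u y : V} (hy : y ∉ S) (sy : sd G S y = 0) (hu : u ∈ S)
    (ht : y ∈ ter G S {u}) : y ∈ op G S u := by
  rcases ter_Z hy sy ht with h1 | ⟨f, hf, fS, h1⟩
  · rw [Finset.mem_singleton] at h1
    exact absurd (h1 ▸ hu) hy
  · rw [Finset.mem_singleton] at hf
    rw [← hf]
    exact h1

theorem capZ {k : ℕ} {S : Finset V} {X Y : Finset (Finset V)} (h : Ctx G k S X Y)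
    {u b q q' l m s t : V} (hc : Cap G S u b q q' l m s t) {y : V} (hy : y ∉ S)
    (sy : sd G S y = 0) (ht : y ∈ ter G S {u, b, q, m}) : y ∈ op G S u := by
  have hf := CoreAux.capF h hc
  have hu := StructAux.mem_sites.1 hc.us
  rcases ter_Z hy sy ht with h1 | ⟨f, h1, fS, h2⟩
  · simp only [Finset.mem_insert, Finset.mem_singleton] at h1
    rcases h1 with rfl | rfl | rfl | rfl
    · exact absurd hu.1 hy
    · exact hc.ub
    · exact absurd hf.qS hy
    · exact absurd (sy.symm.trans hf.sdm) (by norm_num)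
  · simp only [Finset.mem_insert, Finset.mem_singleton] at h1
    rcases h1 with rfl | rfl | rfl | rfl
    · exact h2
    · exact absurd fS hf.bS
    · rw [hc.oq] at h2
      simp only [Finset.mem_insert, Finset.mem_singleton] at h2
      rcases h2 with rfl | rfl
      · exact hc.ub
      · exact absurd (sy.symm.trans hf.sdl) (by norm_num)
    · exact absurd fS hf.mS

theorem tripleZ {S : Finset V} {x e z y : V} (hy : y ∉ S) (sy : sd G S y = 0) (hx : x ∈ S)
    (he : e ∉ S) (hz : z ∈ S) (hxe : e ∈ op G S x) (ht : y ∈ ter G S {x, e, z}) :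
    y ∈ op G S x ∨ y ∈ op G S z := by
  rcases ter_Z hy sy ht with h1 | ⟨f, hf, fS, h1⟩
  · simp only [Finset.mem_insert, Finset.mem_singleton] at h1
    rcases h1 with rfl | rfl | rfl
    · exact absurd hx hy
    · exact Or.inl hxe
    · exact absurd hz hy
  · simp only [Finset.mem_insert, Finset.mem_singleton] at hf
    rcases hf with rfl | rfl | rfl
    · exact Or.inl h1
    · exact absurd fS he
    · exact Or.inr h1

end TouchZAux

open TouchZAux CoreAux in
theorem touchZ {k : ℕ} {S : Finset V} {X Y : Finset (Finset V)} (h : Ctx G k S X Y) {u b : V}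
    {d : Dat V} (hd : AD G S u b d) {y : V} (hy : y ∉ S) (sy : sd G S y = 0) :
    ((∃ F ∈ d.Fs, y ∈ ter G S F) → (∃ x ∈ d.core, y ∈ op G S x) ∨
      (d.st = 2 ∧ ∃ x ∈ d.core, pt G S x ∈ sites G S ∧ y ∈ op G S (pt G S x))) ∧
    (y ∈ tb G S d → y ∈ op G S d.res) := by
  cases hd with
  | ub0 h1 _ _ =>
    have hu := StructAux.mem_sites.1 h1.us
    refine ⟨?_, fun h2 => absurd h2 (Finset.notMem_empty _)⟩
    rintro ⟨F, hF, h2⟩
    rw [Finset.mem_singleton.1 hF] at h2
    exact Or.inl ⟨u, Finset.mem_singleton_self _,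
      pairZ hy sy hu.1 (op_ne h1.us h1.ub).1 h1.ub h2⟩
  | ub1 h1 _ =>
    have hu := StructAux.mem_sites.1 h1.us
    refine ⟨?_, fun h2 => absurd h2 (Finset.notMem_empty _)⟩
    rintro ⟨F, hF, h2⟩
    rw [Finset.mem_singleton.1 hF] at h2
    exact Or.inl ⟨u, Finset.mem_singleton_self _,
      pairZ hy sy hu.1 (op_ne h1.us h1.ub).1 h1.ub h2⟩
  | ub4 h1 =>
    rename_i p w0
    have hu := StructAux.mem_sites.1 h1.us
    have hb := (op_ne h1.us h1.ub).1
    refine ⟨?_, fun h2 => singleZ hy sy (StructAux.op_white hb (by rw [h1.ob]; simp))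
      (show y ∈ ter G S {w0} from h2)⟩
    rintro ⟨F, hF, h2⟩
    rw [Finset.mem_singleton.1 hF] at h2
    exact Or.inl ⟨u, Finset.mem_singleton_self _, pairZ hy sy hu.1 hb h1.ub h2⟩
  | cap1 h1 hi =>
    refine ⟨?_, fun h2 => absurd h2 (Finset.notMem_empty _)⟩
    rintro ⟨F, hF, h2⟩
    rw [Finset.mem_singleton.1 hF] at h2
    exact Or.inl ⟨u, Finset.mem_singleton_self _, capZ h h1 hy sy h2⟩
  | cap4 h1 h1a h1b h1c =>
    rename_i q q' l m s t
    refine ⟨?_, fun h2 => singleZ hy sy (capF h h1).qS (show y ∈ ter G S {q} from h2)⟩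
    rintro ⟨F, hF, h2⟩
    rw [Finset.mem_singleton.1 hF] at h2
    exact Or.inl ⟨u, Finset.mem_singleton_self _, capZ h h1 hy sy h2⟩
  | cap5 h1 hq =>
    rename_i q q' l m s t
    refine ⟨?_, fun h2 => singleZ hy sy (capF h h1).qS (show y ∈ ter G S {q} from h2)⟩
    rintro ⟨F, hF, h2⟩
    rw [Finset.mem_singleton.1 hF] at h2
    exact Or.inl ⟨u, Finset.mem_singleton_self _, capZ h h1 hy sy h2⟩
  | alp h1 h1z =>
    rename_i y' o
    have hx := StructAux.mem_sites.1 h1.mate.1
    have hy' := StructAux.mem_sites.1 h1.mate.2.1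
    have bS := (op_ne h1.mate.1 h1.xe).1
    refine ⟨?_, fun h2 => absurd h2 (Finset.notMem_empty _)⟩
    rintro ⟨F, hF, h2⟩
    have key : ∀ {x z : V}, x ∈ ({u, y'} : Finset V) → z ∈ ({u, y'} : Finset V) →
        pt G S z ∈ sites G S → y ∈ ter G S {x, b, pt G S z} →
        (∃ x ∈ ({u, y'} : Finset V), y ∈ op G S x) ∨
          (2 = 2 ∧ ∃ x ∈ ({u, y'} : Finset V), pt G S x ∈ sites G S ∧
            y ∈ op G S (pt G S x)) := by
      intro x z hx2 hz2 hz3 h3
      have hx3 : x ∈ S ∧ b ∈ op G S x := by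
        simp only [Finset.mem_insert, Finset.mem_singleton] at hx2
        rcases hx2 with rfl | rfl
        · exact ⟨hx.1, h1.xe⟩
        · exact ⟨hy'.1, h1.mate.2.2.2.2 ▸ h1.xe⟩
      rcases tripleZ hy sy hx3.1 bS (StructAux.mem_sites.1 hz3).1 hx3.2 h3 with h4 | h4
      · exact Or.inl ⟨x, hx2, h4⟩
      · exact Or.inr ⟨rfl, z, hz2, hz3, h4⟩
    rcases Finset.mem_union.1 (show F ∈ opts G S u y' b from hF) with h3 | h3
    · split_ifs at h3 with h4
      · rw [Finset.mem_singleton.1 h3] at h2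
        exact key (by simp) (by simp) h4 h2
      · exact absurd h3 (Finset.notMem_empty _)
    · split_ifs at h3 with h4
      · rw [Finset.mem_singleton.1 h3] at h2
        exact key (by simp) (by simp) h4 h2
      · exact absurd h3 (Finset.notMem_empty _)
  | nsw h1 h1a h1b hx' h1c =>
    rename_i y' o x'
    have hx := StructAux.mem_sites.1 h1.mate.1
    have bS := (op_ne h1.mate.1 h1.xe).1
    have hp := pt_all h.lev hx.2.1
    refine ⟨?_, fun h2 => singleZ hy sy (hp.2.2.2.2.2.2.2 hx.1)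
      (show y ∈ ter G S {pt G S u} from h2)⟩
    rintro ⟨F, hF, h2⟩
    rw [Finset.mem_singleton.1 hF] at h2
    rcases hx' with rfl | rfl
    · exact Or.inl ⟨_, Finset.mem_insert_self _ _, pairZ hy sy hx.1 bS h1.xe h2⟩
    · exact Or.inl ⟨x', by simp, pairZ hy sy (StructAux.mem_sites.1 h1.mate.2.1).1 bS
        (h1.mate.2.2.2.2 ▸ h1.xe) h2⟩

open TouchZAux CoreAux in
/-- The same for one option of stage 2. -/
theorem touchZ2 {k : ℕ} {S : Finset V} {X Y : Finset (Finset V)} (h : Ctx G k S X Y) {x y e o : V}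
    (hs : SwE G S x y e o) {F : Finset V} (hF : F ∈ opts G S x y e) {w : V} (hw : w ∉ S)
    (sw : sd G S w = 0) (ht : w ∈ ter G S F) :
    w ∈ op G S x ∨ (pt G S y ∈ F ∧ pt G S y ∈ sites G S ∧ w ∈ op G S (pt G S y)) ∨
      (pt G S x ∈ F ∧ pt G S x ∈ sites G S ∧ w ∈ op G S (pt G S x)) := by
  have hx := StructAux.mem_sites.1 hs.mate.1
  have hy' := StructAux.mem_sites.1 hs.mate.2.1
  have bS := (op_ne hs.mate.1 hs.xe).1
  rcases Finset.mem_union.1 hF with h3 | h3
  · split_ifs at h3 with h4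
    · rw [Finset.mem_singleton] at h3
      subst h3
      rcases tripleZ hw sw hx.1 bS (StructAux.mem_sites.1 h4).1 hs.xe ht with h5 | h5
      · exact Or.inl h5
      · exact Or.inr (Or.inl ⟨by simp, h4, h5⟩)
    · exact absurd h3 (Finset.notMem_empty _)
  · split_ifs at h3 with h4
    · rw [Finset.mem_singleton] at h3
      subst h3
      rcases tripleZ hw sw hy'.1 bS (StructAux.mem_sites.1 h4).1
        (hs.mate.2.2.2.2 ▸ hs.xe) ht with h5 | h5
      · exact Or.inl (hs.mate.2.2.2.2 ▸ h5)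
      · exact Or.inr (Or.inr ⟨by simp, h4, h5⟩)
    · exact absurd h3 (Finset.notMem_empty _)

end Pool.Agent.Lib.AndoD
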