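import Pool.Agent.Lib.AndoD.TouchU
import Pool.Agent.Lib.AndoD.TouchZ

/-!
# AndoD.BndS: the (S) bounds: the active sites whose territory meets a territory

Text: /team-store/b1c9a2_caseA_h59.md, section 4, line (S).
-/

set_option autoImplicit false
set_option linter.unusedSectionVars false

namespace Pool.Agent.Lib.AndoD

open Pool.Agent.Lib.Ando Pool.Agent.Lib.AndoC

variable {V : Type*} [Fintype V] [DecidableEq V] {G : SimpleGraph V} [DecidableRel G.Adj]

namespace BndSAux

open CoreAux TouchUAux TerAux ExADAux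

theorem mem_ter_site {k : ℕ} {S : Finset V} (hL : Level G k S) {s y : V} (hs : s ∈ sites G S)
    (hy : y ∈ ter G S {s}) : y = s ∨ y = pt G S s ∨ y ∈ op G S s := by
  have hs' := StructAux.mem_sites.1 hs
  have hp := pt_all hL hs'.2.1
  rcases mem_ter.1 hy with h1 | ⟨f, hf, h1⟩ | ⟨f, hf, g, hg, h1⟩
  · exact Or.inl (Finset.mem_singleton.1 h1)
  · rw [Finset.mem_singleton.1 hf] at h1
    rcases Finset.mem_union.1 h1 with h1 | h1
    · exact Or.inr (Or.inl (pt_mem hL h1).symm)
    · exact Or.inr (Or.inr h1)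
  · rw [Finset.mem_singleton.1 hf] at hg
    rcases Finset.mem_union.1 hg with hg | hg
    · rw [← pt_mem hL hg, hp.2.1, Finset.mem_singleton] at h1
      exact Or.inl h1
    · rw [sm_zero (hs'.2.2 g hg)] at h1
      exact absurd h1 (Finset.notMem_empty _)

theorem share {k : ℕ} {S : Finset V} {X Y : Finset (Finset V)} (h : Ctx G k S X Y) {x s c : V}
    (hx : x ∈ sites G S) (hs : s ∈ sites G S) (cx : c ∈ op G S x) (cs : c ∈ op G S s) :
    s = x ∨ s = pt G S x ∨ Mate G S x s := by
  by_cases h1 : s = x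
  · exact Or.inl h1
  · by_cases h2 : s ∈ sm G S x
    · exact Or.inr (Or.inl (pt_mem h.lev h2).symm)
    · exact Or.inr (Or.inr (mate_of h hx hs cx cs (Ne.symm h1) h2))

theorem pt_pt {k : ℕ} {S : Finset V} (hL : Level G k S) {s : V} (hs : s ∈ sites G S) :
    pt G S (pt G S s) = s := (pt_all hL (StructAux.mem_sites.1 hs).2.1).2.2.2.1

/-- The sites hit by an option. -/
theorem hit_site {k : ℕ} {S : Finset V} {X Y : Finset (Finset V)} (h : Ctx G k S X Y) {u b : V}
    {d : Dat V} (hd : AD G S u b d) {F : Finset V} (hF : F ∈ d.Fs) {s : V} (hs : s ∈ sites G S)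
    (hh : ¬ Disjoint (ter G S {s}) (ter G S F)) : s ∈ d.core ∨ pt G S s ∈ d.core ∨
      (pt G S s ∈ d.s1 ∧ s ∉ d.s1) ∨ pt G S s ∈ d.s2 ∨
      (d.st = 2 ∧ ∃ x ∈ d.core, Mate G S (pt G S x) s) := by
  have hs' := StructAux.mem_sites.1 hs
  have hp := pt_all h.lev hs'.2.1
  obtain ⟨y, hy, hyF⟩ := Finset.not_disjoint_iff.1 hh
  have hcf := core_facts h hd
  -- from `P`
  have fromP : P (G := G) S d s → s ∈ d.core ∨ pt G S s ∈ d.core ∨
      (pt G S s ∈ d.s1 ∧ s ∉ d.s1) ∨ pt G S s ∈ d.s2 ∨
      (d.st = 2 ∧ ∃ x ∈ d.core, Mate G S (pt G S x) s) := by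
    intro hP
    have n1 : s ∉ d.s1 := fun h1 => (side1_facts h hd h1).2.2.1 hs
    have n2 : s ∉ d.s2 := by
      intro h1
      have h2 := side2_facts h hd h1
      have h4 : d.cen ∈ op G S s := op_symm h2.2.2.1
      have h5 := hs'.2.2 _ h4
      omega
    rcases hP with h1 | h1 | h1 | h1 | h1 | h1
    · exact Or.inl h1
    · exact Or.inr (Or.inl h1)
    · exact absurd h1 n1
    · exact Or.inr (Or.inr (Or.inl ⟨h1, n1⟩))
    · exact absurd h1 n2
    · exact Or.inr (Or.inr (Or.inr (Or.inl h1)))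
  rcases mem_ter_site h.lev hs hy with rfl | rfl | h1
  · exact fromP (touchU h hd hs'.1 hs'.2.1 (Or.inl ⟨F, hF, hyF⟩))
  · refine fromP (P_pt h.lev hs'.2.1 ?_)
    exact touchU h hd (hp.2.2.2.2.2.2.2 hs'.1) hp.2.2.1 (Or.inl ⟨F, hF, hyF⟩)
  · have yS : y ∉ S := StructAux.op_black hs'.1 h1
    rcases (touchZ h hd yS (hs'.2.2 y h1)).1 ⟨F, hF, hyF⟩ with ⟨x, hx, h2⟩ | ⟨h2, x, hx, h3, h4⟩
    · have hxs := hcf.2.2.1 hx
      rcases share h hxs hs h2 h1 with rfl | rfl | h3
      · exact Or.inl hx
      · right; left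
        rw [pt_pt h.lev hxs]
        exact hx
      · left
        by_cases hst : d.st = 2 ∨ d.st = 3
        · obtain ⟨m, hm, hc⟩ := hcf.2.2.2.2.1 hst
          rw [hc] at hx ⊢
          rcases Finset.mem_insert.1 hx with rfl | hx
          · rw [mate_unique h.reg h.nt h.dz h.lev h3 hm]; simp
          · rw [Finset.mem_singleton.1 hx] at h3
            rw [mate_unique h.reg h.nt h.dz h.lev h3 hm.symm]; simp
        · push Not at hst
          obtain ⟨hc, hn⟩ := hcf.2.2.2.2.2.1 hst.1 hst.2
          rw [hc, Finset.mem_singleton] at hx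
          rw [hx] at h3
          exact absurd h3 (hn s)
    · rcases share h h3 hs h4 h1 with rfl | rfl | h5
      · right; left
        rw [pt_pt h.lev (hcf.2.2.1 hx)]
        exact hx
      · left
        rw [pt_pt h.lev (hcf.2.2.1 hx)]
        exact hx
      · exact Or.inr (Or.inr (Or.inr (Or.inr ⟨h2, x, hx, h5⟩)))

theorem sub_three {A : Finset V} {p : V → Prop} [DecidablePred p] {a b c : V}
    (h : ∀ s ∈ A, p s → s = a ∨ s = b ∨ s = c) : (A.filter p).card ≤ 3 := by
  refine (Finset.card_le_card (t := {a, b, c}) ?_).trans Finset.card_le_three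
  intro s hs
  obtain ⟨h1, h2⟩ := Finset.mem_filter.1 hs
  rcases h s h1 h2 with h3 | h3 | h3
  · rw [h3]; simp
  · rw [h3]; simp
  · rw [h3]; simp

end BndSAux

open BndSAux CoreAux TouchUAux

open Classical in
/-- Sites touched by an option of an arm of stage different from 2. -/
theorem bndS1 {k : ℕ} {S : Finset V} {X Y : Finset (Finset V)} (h : Ctx G k S X Y) {u b : V}
    {d : Dat V} (hd : AD G S u b d) {F : Finset V} (hF : F ∈ d.Fs) (h2 : d.st ≠ 2) :
    ((actS G S X).filter (fun s => ¬ Disjoint (ter G S {s}) (ter G S F))).card ≤ 3 := by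
  have hAs : ∀ s ∈ actS G S X, s ∈ sites G S := fun s hs => (Finset.mem_filter.1 hs).1
  have hit := fun {s : V} (hs : s ∈ actS G S X) => hit_site h hd hF (hAs s hs)
  cases hd with
  | ub0 h1 _ _ =>
    refine sub_three (a := u) (b := pt G S u) (c := u) fun s hs hh => ?_
    have hsp := pt_pt h.lev (hAs s hs)
    rcases hit hs hh with h3 | h3 | h3 | h3 | h3
    · exact Or.inl (Finset.mem_singleton.1 h3)
    · rw [← Finset.mem_singleton.1 h3]; exact Or.inr (Or.inl hsp.symm)
    · exact absurd h3.1 (Finset.notMem_empty _)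
    · exact absurd h3 (Finset.notMem_empty _)
    · exact absurd h3.1 h2
  | ub1 h1 _ =>
    refine sub_three (a := u) (b := pt G S u) (c := u) fun s hs hh => ?_
    have hsp := pt_pt h.lev (hAs s hs)
    rcases hit hs hh with h3 | h3 | h3 | h3 | h3
    · exact Or.inl (Finset.mem_singleton.1 h3)
    · rw [← Finset.mem_singleton.1 h3]; exact Or.inr (Or.inl hsp.symm)
    · exact absurd h3.1 (Finset.notMem_empty _)
    · exact absurd h3 (Finset.notMem_empty _)
    · exact absurd h3.1 h2
  | cap1 h1 _ =>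
    refine sub_three (a := u) (b := pt G S u) (c := u) fun s hs hh => ?_
    have hsp := pt_pt h.lev (hAs s hs)
    rcases hit hs hh with h3 | h3 | h3 | h3 | h3
    · exact Or.inl (Finset.mem_singleton.1 h3)
    · rw [← Finset.mem_singleton.1 h3]; exact Or.inr (Or.inl hsp.symm)
    · exfalso
      have hf := capF h h1
      apply h3.2
      rcases Finset.mem_insert.1 h3.1 with h4 | h4
      · rw [← hsp, h4, hf.pq]; simp
      · rw [← hsp, Finset.mem_singleton.1 h4, hf.pq']; simp
    · exact absurd h3 (Finset.notMem_empty _)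
    · exact absurd h3.1 h2
  | alp h1 _ => exact absurd rfl h2
  | nsw h1 hx hy h1a h1b =>
    rename_i y o x'
    refine sub_three (a := u) (b := y) (c := u) fun s hs hh => ?_
    have hsp := pt_pt h.lev (hAs s hs)
    have hss := hAs s hs
    rcases hit hs hh with h3 | h3 | h3 | h3 | h3
    · rcases Finset.mem_insert.1 h3 with h4 | h4
      · exact Or.inl h4
      · exact Or.inr (Or.inl (Finset.mem_singleton.1 h4))
    · exfalso
      rcases Finset.mem_insert.1 h3 with h4 | h4
      · rw [← h4, hsp] at hx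
        exact hx hss
      · rw [← Finset.mem_singleton.1 h4, hsp] at hy
        exact hy hss
    · exact absurd h3.1 (Finset.notMem_empty _)
    · exact absurd h3 (Finset.notMem_empty _)
    · exact absurd h3.1 h2
  | ub4 h1 =>
    rename_i p w
    refine sub_three (a := u) (b := pt G S u) (c := pt G S w) fun s hs hh => ?_
    have hsp := pt_pt h.lev (hAs s hs)
    rcases hit hs hh with h3 | h3 | h3 | h3 | h3
    · exact Or.inl (Finset.mem_singleton.1 h3)
    · rw [← Finset.mem_singleton.1 h3]; exact Or.inr (Or.inl hsp.symm)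
    · rw [← Finset.mem_singleton.1 h3.1]; exact Or.inr (Or.inr hsp.symm)
    · exact absurd h3 (Finset.notMem_empty _)
    · exact absurd h3.1 h2
  | cap4 h1 h1a h1b h1c =>
    rename_i q q' l m s0 t
    refine sub_three (a := u) (b := pt G S u) (c := pt G S t) fun s hs hh => ?_
    have hsp := pt_pt h.lev (hAs s hs)
    rcases hit hs hh with h3 | h3 | h3 | h3 | h3
    · exact Or.inl (Finset.mem_singleton.1 h3)
    · rw [← Finset.mem_singleton.1 h3]; exact Or.inr (Or.inl hsp.symm)
    · exfalso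
      have hf := capF h h1
      apply h3.2
      rcases Finset.mem_insert.1 h3.1 with h4 | h4
      · rw [← hsp, h4, hf.pq]; simp
      · rw [← hsp, Finset.mem_singleton.1 h4, hf.pq']; simp
    · rw [← Finset.mem_singleton.1 h3]; exact Or.inr (Or.inr hsp.symm)
    · exact absurd h3.1 h2
  | cap5 h1 _ =>
    refine sub_three (a := u) (b := pt G S u) (c := u) fun s hs hh => ?_
    have hsp := pt_pt h.lev (hAs s hs)
    rcases hit hs hh with h3 | h3 | h3 | h3 | h3
    · exact Or.inl (Finset.mem_singleton.1 h3)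
    · rw [← Finset.mem_singleton.1 h3]; exact Or.inr (Or.inl hsp.symm)
    · exfalso
      have hf := capF h h1
      apply h3.2
      rcases Finset.mem_insert.1 h3.1 with h4 | h4
      · rw [← hsp, h4, hf.pq]; simp
      · rw [← hsp, Finset.mem_singleton.1 h4, hf.pq']; simp
    · exact absurd h3 (Finset.notMem_empty _)
    · exact absurd h3.1 h2

open Classical in
/-- Sites touched by an option of an arm of stage 2. -/
theorem bndS2 {k : ℕ} {S : Finset V} {X Y : Finset (Finset V)} (h : Ctx G k S X Y) {u b : V}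
    {d : Dat V} (hd : AD G S u b d) {F : Finset V} (hF : F ∈ d.Fs) (h2 : d.st = 2) :
    ((actS G S X).filter (fun s => ¬ Disjoint (ter G S {s}) (ter G S F))).card ≤ 6 := by
  have hAs : ∀ s ∈ actS G S X, s ∈ sites G S := fun s hs => (Finset.mem_filter.1 hs).1
  have hit := fun {s : V} (hs : s ∈ actS G S X) => hit_site h hd hF (hAs s hs)
  cases hd with
  | ub0 h1 _ _ => exact absurd h2 (by norm_num)
  | ub1 h1 _ => exact absurd h2 (by norm_num)
  | cap1 h1 _ => exact absurd h2 (by norm_num)
  | nsw h1 _ _ _ _ => exact absurd h2 (by norm_num)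
  | ub4 h1 => exact absurd h2 (by norm_num)
  | cap4 h1 _ _ _ => exact absurd h2 (by norm_num)
  | cap5 h1 _ => exact absurd h2 (by norm_num)
  | alp h1 hz =>
    rename_i y o
    have hm : ∀ x : V, ∃ m : V, ∀ s, Mate G S (pt G S x) s → s = m := by
      intro x
      by_cases h3 : ∃ s, Mate G S (pt G S x) s
      · obtain ⟨m, hm⟩ := h3
        exact ⟨m, fun s hs => mate_unique h.reg h.nt h.dz h.lev hs hm⟩
      · exact ⟨x, fun s hs => absurd ⟨s, hs⟩ h3⟩
    obtain ⟨m1, hm1⟩ := hm u
    obtain ⟨m2, hm2⟩ := hm y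
    refine (Finset.card_le_card (t := {u, y, pt G S u} ∪ {pt G S y, m1, m2}) ?_).trans
      ((Finset.card_union_le _ _).trans
        (Nat.add_le_add Finset.card_le_three Finset.card_le_three))
    intro s hs
    obtain ⟨hsA, hh⟩ := Finset.mem_filter.1 hs
    have hsp := pt_pt h.lev (hAs s hsA)
    rcases hit hsA hh with h3 | h3 | h3 | h3 | ⟨-, x, hx, h3⟩
    · rcases Finset.mem_insert.1 h3 with h4 | h4
      · rw [h4]; simp
      · rw [Finset.mem_singleton.1 h4]; simp
    · rcases Finset.mem_insert.1 h3 with h4 | h4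
      · rw [← hsp, h4]; simp
      · rw [← hsp, Finset.mem_singleton.1 h4]; simp
    · exact absurd h3.1 (Finset.notMem_empty _)
    · exact absurd h3 (Finset.notMem_empty _)
    · rcases Finset.mem_insert.1 hx with h4 | h4
      · rw [h4] at h3
        rw [hm1 s h3]; simp
      · rw [Finset.mem_singleton.1 h4] at h3
        rw [hm2 s h3]; simp

open Classical in
/-- Sites touched by the resource of an arm. -/
theorem bndS3 {k : ℕ} {S : Finset V} {X Y : Finset (Finset V)} (h : Ctx G k S X Y) {u b : V}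
    {d : Dat V} (ha : (u, b) ∈ arms G S X) (hd : AD G S u b d) (h3 : 3 ≤ d.st) :
    ((actS G S X).filter (fun s => ¬ Disjoint (ter G S {s}) (tb G S d))).card ≤ 3 := by
  have hAs : ∀ s ∈ actS G S X, s ∈ sites G S := fun s hs => (Finset.mem_filter.1 hs).1
  obtain ⟨rS, sr, rn, ⟨c, l, hop, sc, sl⟩, -, -⟩ := res_facts h ha hd h3
  have hpr := pt_all h.lev sr
  have htb : tb G S d = ter G S {d.res} := by unfold tb; rw [if_pos h3]
  have hcr : c ∈ op G S d.res := by rw [hop]; simp
  have cS : c ∉ S := StructAux.op_black rS hcr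
  have hc3 : (op G S c).card = 3 := by
    have := sd_add_op h.reg S c
    omega
  have hrc := op_symm hcr
  refine (Finset.card_le_card (t := insert (pt G S d.res) ((op G S c).erase d.res)) ?_).trans
    ((Finset.card_insert_le _ _).trans ?_)
  · intro s hs
    obtain ⟨hsA, hh⟩ := Finset.mem_filter.1 hs
    have hss := hAs s hsA
    have hs' := StructAux.mem_sites.1 hss
    have hp := pt_all h.lev hs'.2.1
    have hne : s ≠ d.res := fun h4 => rn (h4 ▸ hss)
    obtain ⟨y, hy, hyF⟩ := Finset.not_disjoint_iff.1 hh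
    have white : ∀ {w : V}, w ∈ S → sd G S w = 1 → w ∈ ter G S {d.res} →
        w = d.res ∨ pt G S w = d.res := by
      intro w hw sw h4
      obtain ⟨z, hz, h5⟩ := ter_U h.lev hw sw h4
      have hzr : z = d.res := by
        rcases h5 with h5 | ⟨f, h5, h6, -⟩
        · exact Finset.mem_singleton.1 h5
        · rw [Finset.mem_singleton.1 h5] at h6
          exact absurd rS h6
      rcases hz with hz | hz
      · exact Or.inl (hz ▸ hzr)
      · exact Or.inr (hz ▸ hzr)
    have fin : s = d.res ∨ pt G S s = d.res → s ∈ insert (pt G S d.res)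
        ((op G S c).erase d.res) := by
      rintro (h4 | h4)
      · exact absurd h4 hne
      · rw [← h4, hp.2.2.2.1]; simp
    rcases mem_ter_site h.lev hss hy with rfl | rfl | h4
    · exact fin (white hs'.1 hs'.2.1 (htb ▸ hyF))
    · rcases white (hp.2.2.2.2.2.2.2 hs'.1) hp.2.2.1 (htb ▸ hyF) with h4 | h4
      · exact fin (Or.inr h4)
      · exact fin (Or.inl (hp.2.2.2.1 ▸ h4))
    · have yS : y ∉ S := StructAux.op_black hs'.1 h4
      have h5 := (touchZ h hd yS (hs'.2.2 y h4)).2 hyF
      rw [hop] at h5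
      have hyc : y = c := by
        rcases Finset.mem_insert.1 h5 with h6 | h6
        · exact h6
        · have := hs'.2.2 y h4
          rw [Finset.mem_singleton.1 h6] at this
          omega
      rw [hyc] at h4
      exact Finset.mem_insert_of_mem (Finset.mem_erase.2 ⟨hne, op_symm h4⟩)
  · rw [Finset.card_erase_of_mem hrc, hc3]

open Classical in
/-- Sites touched by a site. -/
theorem bndS4 {k : ℕ} {S : Finset V} {X Y : Finset (Finset V)} (h : Ctx G k S X Y) {s : V}
    (hs : s ∈ actS G S X) :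
    ((actS G S X).filter (fun s' => ¬ Disjoint (ter G S {s'}) (ter G S {s}))).card ≤ 3 := by
  have hAs : ∀ s ∈ actS G S X, s ∈ sites G S := fun s hs => (Finset.mem_filter.1 hs).1
  have hss := hAs s hs
  have hs' := StructAux.mem_sites.1 hss
  have hp := pt_all h.lev hs'.2.1
  have hm : ∃ m : V, ∀ s', Mate G S s s' → s' = m := by
    by_cases h3 : ∃ s', Mate G S s s'
    · obtain ⟨m, hm⟩ := h3
      exact ⟨m, fun s' hs' => mate_unique h.reg h.nt h.dz h.lev hs' hm⟩
    · exact ⟨s, fun s' hs' => absurd ⟨s', hs'⟩ h3⟩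
  obtain ⟨m, hm⟩ := hm
  refine sub_three (a := s) (b := pt G S s) (c := m) fun t ht hh => ?_
  have hts := hAs t ht
  have ht' := StructAux.mem_sites.1 hts
  have hq := pt_all h.lev ht'.2.1
  obtain ⟨y, hy1, hy2⟩ := Finset.not_disjoint_iff.1 hh
  have hpS := hp.2.2.2.2.2.2.2 hs'.1
  have hqS := hq.2.2.2.2.2.2.2 ht'.1
  rcases mem_ter_site h.lev hts hy1 with h1 | h1 | h1
  · rcases mem_ter_site h.lev hss hy2 with h2 | h2 | h2
    · exact Or.inl (h1.symm.trans h2)
    · exact Or.inr (Or.inl (h1.symm.trans h2))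
    · exact absurd (h1 ▸ ht'.1) (StructAux.op_black hs'.1 h2)
  · rcases mem_ter_site h.lev hss hy2 with h2 | h2 | h2
    · right; left
      rw [← hq.2.2.2.1, ← h1, h2]
    · left
      rw [← hq.2.2.2.1, ← h1, h2, hp.2.2.2.1]
    · exact absurd (h1 ▸ hqS) (StructAux.op_black hs'.1 h2)
  · rcases mem_ter_site h.lev hss hy2 with h2 | h2 | h2
    · exact absurd (h2 ▸ hs'.1) (StructAux.op_black ht'.1 h1)
    · exact absurd (h2 ▸ hpS) (StructAux.op_black ht'.1 h1)
    · rcases share h hss hts h2 h1 with h3 | h3 | h3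
      · exact Or.inl h3
      · exact Or.inr (Or.inl h3)
      · exact Or.inr (Or.inr (hm t h3))

end Pool.Agent.Lib.AndoD
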