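import Pool.Agent.Lib.AndoC.Basic
import Pool.Agent.Lib.AndoC.Slide
import Pool.Agent.Lib.AndoC.Fact3

/-!
# AndoD.F5: a ZL vertex `x = (c, m)` and the partner `n` of `m`

`w = (b, n)`, `w` not the partner of `x`, `u = (b, b')` a site, `u` neither `w` nor its partner.
Then `c = b'` or `u` is the partner of `x`: the slide of `x` frees `n`, and `w`, `u` become
non-adjacent sites at `b` with different ends.
-/

set_option autoImplicit false
set_option linter.unusedSectionVars false

namespace Pool.Agent.Lib.AndoD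

open Pool.Agent.Lib.Ando Pool.Agent.Lib.AndoC

variable {V : Type*} [Fintype V] [DecidableEq V] {G : SimpleGraph V} [DecidableRel G.Adj]

theorem f5 (hG : G.IsRegularOfDegree 3) {k : ℕ} (hk : 1 ≤ k) (hA : NoTriple G k)
    {S : Finset V} (hL : Level G k S) {x x' c m n p w u b b' : V} (hx : ZL G S x x' c m n p)
    (wS : w ∈ S) (sw : sd G S w = 1) (ow : op G S w = {b, n}) (sb : sd G S b = 0)
    (wx : w ≠ x') (hu : u ∈ sites G S) (ou : op G S u = {b, b'}) (bb : b ≠ b') (uw : u ≠ w)
    (nuw : ¬ G.Adj u w) : c = b' ∨ G.Adj u x := by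
  by_contra hcon
  push Not at hcon
  obtain ⟨hcb', hux⟩ := hcon
  obtain ⟨pS, sp, vS, smv, cS, mS, nS, smn, pw, vw, nm, nc, nxn⟩ := third hG hL hk hx
  have hu' := StructAux.mem_sites.1 hu
  have uS := hu'.1
  have hbu : b ∈ op G S u := by rw [ou]; simp
  have hbu' : b' ∈ op G S u := by rw [ou]; simp
  have hbw : b ∈ op G S w := by rw [ow]; simp
  have hnw : n ∈ op G S w := by rw [ow]; simp
  have bS : b ∉ S := StructAux.op_black uS hbu
  have bS' : b' ∉ S := StructAux.op_black uS hbu'
  have sb' : sd G S b' = 0 := hu'.2.2 b' hbu'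
  have sm' : sd G S m = 1 := by unfold sd; rw [hx.sl]; simp
  have sn : sd G S n = 1 := by unfold sd; rw [smn]; simp
  have sx : sd G S x = 1 := by unfold sd; rw [hx.sw]; simp
  have sc := hx.sb
  have hcx : c ∈ op G S x := by rw [hx.ow]; simp
  have hmx : m ∈ op G S x := by rw [hx.ow]; simp
  have hmp : m ∈ op G S p := op_symm (by rw [hx.ol]; simp)
  have bn : b ≠ n := by
    intro e; rw [e, sn] at sb; exact one_ne_zero sb
  have bm : b ≠ m := by
    intro e; rw [e, sm'] at sb; exact one_ne_zero sb
  have b'n : b' ≠ n := by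
    intro e; rw [e, sn] at sb'; exact one_ne_zero sb'
  have b'm : b' ≠ m := by
    intro e; rw [e, sm'] at sb'; exact one_ne_zero sb'
  have wx0 : w ≠ x := by
    intro e
    have : m ∈ op G S w := by rw [e]; exact hmx
    rw [ow, Finset.mem_insert, Finset.mem_singleton] at this
    rcases this with h | h
    · exact bm h.symm
    · exact nm h.symm
  have wp : w ≠ p := by
    intro e
    have : m ∈ op G S w := by rw [e]; exact hmp
    rw [ow, Finset.mem_insert, Finset.mem_singleton] at this
    rcases this with h | h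
    · exact bm h.symm
    · exact nm h.symm
  have ux0 : u ≠ x := by
    intro e
    have := hu'.2.2 m (by rw [e]; exact hmx)
    rw [sm'] at this; exact one_ne_zero this
  have up : u ≠ p := by
    intro e
    have := hu'.2.2 m (by rw [e]; exact hmp)
    rw [sm'] at this; exact one_ne_zero this
  have ux' : u ≠ x' := by
    intro e
    apply hux
    rw [e]
    have : x' ∈ sm G S x := by rw [hx.sw]; simp
    exact (mem_sm.1 this).1.symm
  by_cases hbc : b = c
  · -- three neighbours of `b`
    have h1 : u ∈ UN G S b := StructAux.mem_UN.2 ⟨op_symm hbu, hu'.2.1⟩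
    have h2 : w ∈ UN G S b := StructAux.mem_UN.2 ⟨op_symm hbw, sw⟩
    have h3 : x ∈ UN G S b := StructAux.mem_UN.2 ⟨op_symm (hbc ▸ hcx), sx⟩
    rcases hA S hL b u w x bS sb h1 h2 h3 uw ux0 wx0 with h | h | h
    · exact nuw h
    · exact hux h
    · have : w ∈ sm G S x := mem_sm.2 ⟨h.symm, ⟨fun _ => hx.wS, fun _ => wS⟩⟩
      rw [hx.sw, Finset.mem_singleton] at this
      exact wx this
  · have hT := slide_level hG hL hk hx
    have hd := slide_desc hG hL hk hx
    set T := symmDiff S {x, m} with hTdef
    have ne : ∀ {y z : V}, y ∈ S → z ∉ S → y ≠ z := fun h1 h2 e => h2 (e ▸ h1)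
    have rw' := hd.rest w wx0 wx (ne wS cS) (ne wS mS) (ne wS nS) wp
    have ru := hd.rest u ux0 ux' (ne uS cS) (ne uS mS) (ne uS nS) up
    have rb := hd.rest b (ne hx.wS bS).symm (ne vS bS).symm hbc bm bn (ne pS bS).symm
    have rb' := hd.rest b' (ne hx.wS bS').symm (ne vS bS').symm (Ne.symm hcb') b'm b'n
      (ne pS bS').symm
    have sTb : sd G T b = 0 := by unfold sd at sb ⊢; rw [rb.2.1]; exact sb
    have sTb' : sd G T b' = 0 := by unfold sd at sb' ⊢; rw [rb'.2.1]; exact sb'
    have sTn : sd G T n = 0 := by unfold sd; rw [hd.smm]; simp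
    have hwT : w ∈ sites G T := by
      refine StructAux.mem_sites.2 ⟨rw'.1.2 wS, ?_, ?_⟩
      · unfold sd at sw ⊢; rw [rw'.2.1]; exact sw
      · intro y hy
        rw [rw'.2.2, ow, Finset.mem_insert, Finset.mem_singleton] at hy
        rcases hy with rfl | rfl
        · exact sTb
        · exact sTn
    have huT : u ∈ sites G T := by
      refine StructAux.mem_sites.2 ⟨ru.1.2 uS, ?_, ?_⟩
      · have := hu'.2.1
        unfold sd at this ⊢; rw [ru.2.1]; exact this
      · intro y hy
        rw [ru.2.2, ou, Finset.mem_insert, Finset.mem_singleton] at hy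
        rcases hy with rfl | rfl
        · exact sTb
        · exact sTb'
    have hbT : b ∉ T := fun h => bS (rb.1.1 h)
    have := fact3g hG hk hA hT hbT sTb huT hwT (ru.2.2.trans ou) (rw'.2.2.trans ow) bb bn uw nuw
    exact b'n this

end Pool.Agent.Lib.AndoD
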