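import Pool.Agent.Lib.AndoD.Defs
import Pool.Agent.Lib.AndoD.F5

/-!
# AndoD.F5d: the fact (F5) in the context `Ctx`, and its version for two partners at `b`
-/

set_option autoImplicit false
set_option linter.unusedSectionVars false

namespace Pool.Agent.Lib.AndoD

open Pool.Agent.Lib.Ando Pool.Agent.Lib.AndoC

variable {V : Type*} [Fintype V] [DecidableEq V] {G : SimpleGraph V} [DecidableRel G.Adj]

/-- (F5): `x = (c, m)` of type ZL, `n` the partner of `m`, `w = (b, n)` not the partner of `x`,
`u` a site at `b`, not the partner of `w`.  Then `c` is the other end of `u` or `x` is the partner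
of `u`. -/
theorem f5_ctx {k : ℕ} {S : Finset V} {X Y : Finset (Finset V)} (h : Ctx G k S X Y)
    {x c m n w u b : V} (xS : x ∈ S) (sx : sd G S x = 1) (hc : c ∈ op G S x) (sc : sd G S c = 0)
    (hm : m ∈ op G S x) (sm' : sm G S m = {n}) (wS : w ∈ S) (sw : sd G S w = 1)
    (bw : b ∈ op G S w) (sb : sd G S b = 0) (nw : n ∈ op G S w) (wx : w ∉ sm G S x)
    (hu : u ∈ sites G S) (bu : b ∈ op G S u) (nuw : w ∉ sm G S u) :
    op G S u = {b, c} ∨ x ∈ sm G S u := by
  have hG := h.reg
  have hL := h.lev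
  have hu' := StructAux.mem_sites.1 hu
  have sdm : sd G S m = 1 := by unfold sd; rw [sm']; simp
  obtain ⟨x', n', p, hx⟩ := zl_of hG xS sx hc hm sc sdm
  have hn : n' = n := by
    have := hx.sl
    rw [sm', Finset.singleton_inj] at this
    exact this.symm
  subst hn
  have sn : sd G S n' = 1 := by
    have := sm_symm (show n' ∈ sm G S m by rw [sm']; simp)
    have h1 := hL.tf n'
    have h2 : 0 < sd G S n' := Finset.card_pos.2 ⟨m, this⟩
    omega
  have bn : b ≠ n' := by
    rintro rfl; rw [sn] at sb; exact one_ne_zero sb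
  have ow : op G S w = {b, n'} := by
    obtain ⟨y, hy, hby⟩ := StructAux.card_two (BasicAux.op_card_two hG sw) bw
    rw [hy, Finset.mem_insert, Finset.mem_singleton] at nw
    rcases nw with h1 | h1
    · exact absurd h1.symm bn
    · rw [hy, h1]
  obtain ⟨b', hb', bb'⟩ := StructAux.card_two (BasicAux.op_card_two hG hu'.2.1) bu
  have uw : u ≠ w := by
    rintro rfl
    have := hu'.2.2 n' nw
    rw [sn] at this; exact one_ne_zero this
  have wx' : w ≠ x' := by
    rintro rfl; apply wx; rw [hx.sw]; simp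
  rcases f5 hG h.hk h.nt hL hx wS sw ow sb wx' hu hb' bb' uw
    (fun e => nuw (mem_sm.2 ⟨e, ⟨fun _ => hu'.1, fun _ => wS⟩⟩)) with h1 | h1
  · left; rw [hb', h1]
  · right; exact mem_sm.2 ⟨h1, ⟨fun _ => hu'.1, fun _ => xS⟩⟩

/-- (F5) for two partners `u`, `v` which are both sites at `b`: impossible. -/
theorem f5_double {k : ℕ} {S : Finset V} {X Y : Finset (Finset V)} (h : Ctx G k S X Y)
    {x c m n w u v b : V} (xS : x ∈ S) (sx : sd G S x = 1) (hc : c ∈ op G S x)
    (sc : sd G S c = 0) (hm : m ∈ op G S x) (sm' : sm G S m = {n}) (wS : w ∈ S)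
    (sw : sd G S w = 1) (bw : b ∈ op G S w) (sb : sd G S b = 0) (nw : n ∈ op G S w)
    (wx : w ∉ sm G S x) (hu : u ∈ sites G S) (hv : v ∈ sites G S) (huv : v ∈ sm G S u)
    (bu : b ∈ op G S u) (bv : b ∈ op G S v) : False := by
  have hL := h.lev
  have hu' := StructAux.mem_sites.1 hu
  have hv' := StructAux.mem_sites.1 hv
  have sdm : sd G S m = 1 := by unfold sd; rw [sm']; simp
  have sn : sd G S n = 1 := by
    have := sm_symm (show n ∈ sm G S m by rw [sm']; simp)
    have h1 := hL.tf n
    have h2 : 0 < sd G S n := Finset.card_pos.2 ⟨m, this⟩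
    omega
  have hws : w ∉ sites G S := by
    intro hw
    have := (StructAux.mem_sites.1 hw).2.2 n nw
    rw [sn] at this; exact one_ne_zero this
  have hxs : x ∉ sites G S := by
    intro hw
    have := (StructAux.mem_sites.1 hw).2.2 m hm
    rw [sdm] at this; exact one_ne_zero this
  have smu := BasicAux.sm_eq hL huv
  have smv := BasicAux.sm_eq hL (sm_symm huv)
  have nu : ∀ {z}, z ∉ sites G S → z ∉ sm G S u := by
    intro z hz h1
    rw [smu, Finset.mem_singleton] at h1
    exact hz (h1 ▸ hv)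
  have nv : ∀ {z}, z ∉ sites G S → z ∉ sm G S v := by
    intro z hz h1
    rw [smv, Finset.mem_singleton] at h1
    exact hz (h1 ▸ hu)
  have e1 : op G S u = {b, c} := by
    rcases f5_ctx h xS sx hc sc hm sm' wS sw bw sb nw wx hu bu (nu hws) with h1 | h1
    · exact h1
    · exact absurd h1 (nu hxs)
  have e2 : op G S v = {b, c} := by
    rcases f5_ctx h xS sx hc sc hm sm' wS sw bw sb nw wx hv bv (nv hws) with h1 | h1
    · exact h1
    · exact absurd h1 (nv hxs)
  have cu : c ∈ op G S u := by rw [e1]; simp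
  have cv : c ∈ op G S v := by rw [e2]; simp
  have bc : b ≠ c := by
    rintro rfl
    have := BasicAux.op_card_two h.reg hu'.2.1
    rw [e1] at this
    simp at this
  have bS : b ∉ S := StructAux.op_black wS bw
  have cS : c ∉ S := StructAux.op_black xS hc
  obtain ⟨-, -, z, zS, sz, zu, zv, ob, -⟩ := h.dz S hL b c u v bS cS bc hu'.1 hv'.1
    (mem_sm.1 huv).1 (mem_op.1 bu).1.symm (mem_op.1 bv).1.symm (mem_op.1 cu).1.symm
    (mem_op.1 cv).1.symm
  have hwb : w ∈ op G S b := op_symm bw
  rw [ob, Finset.mem_insert, Finset.mem_insert, Finset.mem_singleton] at hwb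
  rcases hwb with h1 | h1 | h1
  · exact hws (h1 ▸ hu)
  · exact hws (h1 ▸ hv)
  · rw [h1, sz] at sw
    exact zero_ne_one sw

end Pool.Agent.Lib.AndoD
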