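import Pool.Agent.Lib.AndoD.Pt
import Pool.Agent.Lib.AndoD.SwBase
import Pool.Agent.Lib.AndoD.Core
import Pool.Agent.Lib.Ando.Ter

/-!
# AndoD.TouchL: the black vertices of monochromatic degree one touched by an arm

For the options: only in the cap kinds, the centre m and its partner l. For the resource: a
black neighbour of the resource, or the partner of one.
Proof, by cases on hd. y in ter F black with sd y = 1: y in F, or y is a neighbour of a member of F, or y
in sm of a member or of a neighbour.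
ub0, ub1, ub4: F = {u, b}: the black neighbours of u (a site) have sd = 0, the neighbours of b are white, so none.
alp, nsw: the same (sites x, y', pt x, pt y' ; e has sd = 0).
cap: F = {u, b, q, m}: m; op q = {b, l}: l; sm m = {l}, sm l = {m}. (cen = m, pt m = l, `pt_of`.)
tb: ter {res}: op res, or sm of a member of op res (then pt y is that member).
-/

set_option autoImplicit false
set_option linter.unusedSectionVars false

namespace Pool.Agent.Lib.AndoD

open Pool.Agent.Lib.Ando Pool.Agent.Lib.AndoC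

variable {V : Type*} [Fintype V] [DecidableEq V] {G : SimpleGraph V} [DecidableRel G.Adj]

namespace TouchLAux

open TerAux CoreAux

/-- A black vertex of monochromatic degree one touched by `F`: it or its partner is in `F` or
adjacent to a white member of `F`. -/
theorem ter_L {k : ℕ} {S : Finset V} (hL : Level G k S) {F : Finset V} {w : V} (hw : w ∉ S)
    (sw : sd G S w = 1) (ht : w ∈ ter G S F) : ∃ z, (z = w ∨ z = pt G S w) ∧
      (z ∈ F ∨ ∃ f ∈ F, f ∈ S ∧ z ∈ op G S f) := by
  have hp := pt_all hL sw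
  rcases mem_ter.1 ht with h1 | ⟨f, hf, h1⟩ | ⟨f, hf, g, hg, h1⟩
  · exact ⟨w, Or.inl rfl, Or.inl h1⟩
  · rcases Finset.mem_union.1 h1 with h1 | h1
    · exact ⟨f, Or.inr (pt_mem hL (sm_symm h1)).symm, Or.inl hf⟩
    · exact ⟨w, Or.inl rfl, Or.inr ⟨f, hf, StructAux.op_white hw (op_symm h1), h1⟩⟩
  · have h2 : pt G S w = g := pt_mem hL (sm_symm h1)
    have gS : g ∉ S := by rw [← h2]; exact fun h3 => hw (hp.2.2.2.2.2.2.1 h3)
    rcases Finset.mem_union.1 hg with hg | hg
    · refine ⟨w, Or.inl rfl, Or.inl ?_⟩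
      have h3 := pt_mem hL (sm_symm hg)
      have h4 := pt_mem hL h1
      rw [← h4, h3]
      exact hf
    · exact ⟨g, Or.inr h2.symm, Or.inr ⟨f, hf, StructAux.op_white gS (op_symm hg), hg⟩⟩

theorem ter_L' {k : ℕ} {S : Finset V} (hL : Level G k S) {F : Finset V} {w : V} (hw : w ∉ S)
    (sw : sd G S w = 1) (ht : w ∈ ter G S F) : ∃ z, (z = w ∨ z = pt G S w) ∧ z ∉ S ∧
      sd G S z = 1 ∧ (z ∈ F ∨ ∃ f ∈ F, f ∈ S ∧ z ∈ op G S f) := by
  obtain ⟨z, hz, h1⟩ := ter_L hL hw sw ht
  have hp := pt_all hL sw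
  refine ⟨z, hz, ?_, ?_, h1⟩
  · rcases hz with rfl | rfl
    · exact hw
    · exact fun h3 => hw (hp.2.2.2.2.2.2.1 h3)
  · rcases hz with rfl | rfl
    · exact sw
    · exact hp.2.2.1

/-- No vertex of L is touched if the white members of `F` are sites and the black ones are in
Z. -/
theorem noneL {k : ℕ} {S : Finset V} (hL : Level G k S) {F : Finset V} {w : V} (hw : w ∉ S)
    (sw : sd G S w = 1) (ht : w ∈ ter G S F)
    (hF : ∀ f ∈ F, f ∈ sites G S ∨ (f ∉ S ∧ sd G S f = 0)) : False := by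
  obtain ⟨z, -, zS, sz, h1⟩ := ter_L' hL hw sw ht
  rcases h1 with h1 | ⟨f, h1, fS, h2⟩
  · rcases hF z h1 with h3 | ⟨-, h3⟩
    · exact zS (StructAux.mem_sites.1 h3).1
    · omega
  · rcases hF f h1 with h3 | ⟨h3, -⟩
    · have := (StructAux.mem_sites.1 h3).2.2 z h2
      omega
    · exact h3 fS

theorem pairL {k : ℕ} {S : Finset V} (hL : Level G k S) {u b w : V} (hw : w ∉ S)
    (sw : sd G S w = 1) (hu : u ∈ sites G S) (hb : b ∉ S) (sb : sd G S b = 0)
    (ht : w ∈ ter G S {u, b}) : False := by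
  refine noneL hL hw sw ht fun f hf => ?_
  simp only [Finset.mem_insert, Finset.mem_singleton] at hf
  rcases hf with rfl | rfl
  · exact Or.inl hu
  · exact Or.inr ⟨hb, sb⟩

theorem tripleL {k : ℕ} {S : Finset V} (hL : Level G k S) {u b z w : V} (hw : w ∉ S)
    (sw : sd G S w = 1) (hu : u ∈ sites G S) (hb : b ∉ S) (sb : sd G S b = 0)
    (hz : z ∈ sites G S) (ht : w ∈ ter G S {u, b, z}) : False := by
  refine noneL hL hw sw ht fun f hf => ?_
  simp only [Finset.mem_insert, Finset.mem_singleton] at hf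
  rcases hf with rfl | rfl | rfl
  · exact Or.inl hu
  · exact Or.inr ⟨hb, sb⟩
  · exact Or.inl hz

theorem singleL {k : ℕ} {S : Finset V} (hL : Level G k S) {r w : V} (hw : w ∉ S)
    (sw : sd G S w = 1) (hr : r ∈ S) (ht : w ∈ ter G S {r}) :
    w ∈ op G S r ∨ pt G S w ∈ op G S r := by
  obtain ⟨z, hz, zS, sz, h1⟩ := ter_L' hL hw sw ht
  have h2 : z ∈ op G S r := by
    rcases h1 with h1 | ⟨f, h1, fS, h2⟩
    · rw [Finset.mem_singleton] at h1
      exact absurd (h1 ▸ hr) zS
    · rw [Finset.mem_singleton] at h1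
      rw [← h1]
      exact h2
  rcases hz with rfl | rfl
  · exact Or.inl h2
  · exact Or.inr h2

theorem capL {k : ℕ} {S : Finset V} {X Y : Finset (Finset V)} (h : Ctx G k S X Y)
    {u b q q' l m s t : V} (hc : Cap G S u b q q' l m s t) {w : V} (hw : w ∉ S)
    (sw : sd G S w = 1) (ht : w ∈ ter G S {u, b, q, m}) :
    sd G S m = 1 ∧ (w = m ∨ w = pt G S m) := by
  have hf := capF h hc
  have hu := StructAux.mem_sites.1 hc.us
  refine ⟨hf.sdm, ?_⟩
  have hp := pt_all h.lev sw
  obtain ⟨z, hz, zS, sz, h1⟩ := ter_L' h.lev hw sw ht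
  have h2 : z = m ∨ z = l := by
    rcases h1 with h1 | ⟨f, h1, fS, h2⟩
    · simp only [Finset.mem_insert, Finset.mem_singleton] at h1
      rcases h1 with rfl | rfl | rfl | rfl
      · exact absurd hu.1 zS
      · exact absurd (hf.sb.symm.trans sz) (by norm_num)
      · exact absurd hf.qS zS
      · exact Or.inl rfl
    · simp only [Finset.mem_insert, Finset.mem_singleton] at h1
      rcases h1 with rfl | rfl | rfl | rfl
      · have := hu.2.2 z h2
        omega
      · exact absurd fS hf.bS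
      · rw [hc.oq] at h2
        simp only [Finset.mem_insert, Finset.mem_singleton] at h2
        rcases h2 with rfl | rfl
        · exact absurd (hf.sb.symm.trans sz) (by norm_num)
        · exact Or.inr rfl
      · exact absurd fS hf.mS
  rcases hz with rfl | hz
  · rcases h2 with h2 | h2
    · exact Or.inl h2
    · exact Or.inr (by rw [hf.pm]; exact h2)
  · have h3 : w = pt G S z := by rw [hz, hp.2.2.2.1]
    rcases h2 with h2 | h2
    · exact Or.inr (by rw [h3, h2])
    · exact Or.inl (by rw [h3, h2, hf.pl])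

end TouchLAux

open TouchLAux CoreAux in
theorem touchL {k : ℕ} {S : Finset V} {X Y : Finset (Finset V)} (h : Ctx G k S X Y) {u b : V}
    {d : Dat V} (hd : AD G S u b d) {y : V} (hy : y ∉ S) (sy : sd G S y = 1) :
    ((∃ F ∈ d.Fs, y ∈ ter G S F) → sd G S d.cen = 1 ∧ (y = d.cen ∨ y = pt G S d.cen)) ∧
    (y ∈ tb G S d → y ∈ op G S d.res ∨ pt G S y ∈ op G S d.res) := by
  cases hd with
  | ub0 h1 _ _ =>
    have hb := op_ne h1.us h1.ub
    refine ⟨?_, fun h2 => absurd h2 (Finset.notMem_empty _)⟩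
    rintro ⟨F, hF, h2⟩
    rw [Finset.mem_singleton.1 hF] at h2
    exact (pairL h.lev hy sy h1.us hb.1 hb.2 h2).elim
  | ub1 h1 _ =>
    have hb := op_ne h1.us h1.ub
    refine ⟨?_, fun h2 => absurd h2 (Finset.notMem_empty _)⟩
    rintro ⟨F, hF, h2⟩
    rw [Finset.mem_singleton.1 hF] at h2
    exact (pairL h.lev hy sy h1.us hb.1 hb.2 h2).elim
  | ub4 h1 =>
    rename_i p w0
    have hb := op_ne h1.us h1.ub
    refine ⟨?_, fun h2 => singleL h.lev hy sy (StructAux.op_white hb.1 (by rw [h1.ob]; simp))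
      (show y ∈ ter G S {w0} from h2)⟩
    rintro ⟨F, hF, h2⟩
    rw [Finset.mem_singleton.1 hF] at h2
    exact (pairL h.lev hy sy h1.us hb.1 hb.2 h2).elim
  | cap1 h1 hi =>
    refine ⟨?_, fun h2 => absurd h2 (Finset.notMem_empty _)⟩
    rintro ⟨F, hF, h2⟩
    rw [Finset.mem_singleton.1 hF] at h2
    exact capL h h1 hy sy h2
  | cap4 h1 h1a h1b h1c =>
    rename_i q q' l m s t
    refine ⟨?_, fun h2 => singleL h.lev hy sy (capF h h1).qS (show y ∈ ter G S {q} from h2)⟩
    rintro ⟨F, hF, h2⟩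
    rw [Finset.mem_singleton.1 hF] at h2
    exact capL h h1 hy sy h2
  | cap5 h1 hq =>
    rename_i q q' l m s t
    refine ⟨?_, fun h2 => singleL h.lev hy sy (capF h h1).qS (show y ∈ ter G S {q} from h2)⟩
    rintro ⟨F, hF, h2⟩
    rw [Finset.mem_singleton.1 hF] at h2
    exact capL h h1 hy sy h2
  | alp h1 h1z =>
    rename_i y' o
    have hb := op_ne h1.mate.1 h1.xe
    refine ⟨?_, fun h2 => absurd h2 (Finset.notMem_empty _)⟩
    rintro ⟨F, hF, h2⟩
    rcases Finset.mem_union.1 (show F ∈ opts G S u y' b from hF) with h3 | h3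
    · split_ifs at h3 with h4
      · rw [Finset.mem_singleton.1 h3] at h2
        exact (tripleL h.lev hy sy h1.mate.1 hb.1 hb.2 h4 h2).elim
      · exact absurd h3 (Finset.notMem_empty _)
    · split_ifs at h3 with h4
      · rw [Finset.mem_singleton.1 h3] at h2
        exact (tripleL h.lev hy sy h1.mate.2.1 hb.1 hb.2 h4 h2).elim
      · exact absurd h3 (Finset.notMem_empty _)
  | nsw h1 h1a h1b hx' h1c =>
    rename_i y' o x'
    have hx := StructAux.mem_sites.1 h1.mate.1
    have hb := op_ne h1.mate.1 h1.xe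
    have hp := pt_all h.lev hx.2.1
    have hx2 : x' ∈ sites G S := by
      rcases hx' with rfl | rfl
      · exact h1.mate.1
      · exact h1.mate.2.1
    refine ⟨?_, fun h2 => singleL h.lev hy sy (hp.2.2.2.2.2.2.2 hx.1)
      (show y ∈ ter G S {pt G S u} from h2)⟩
    rintro ⟨F, hF, h2⟩
    rw [Finset.mem_singleton.1 hF] at h2
    exact (pairL h.lev hy sy hx2 hb.1 hb.2 h2).elim

end Pool.Agent.Lib.AndoD
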