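import Pool.Agent.Lib.AndoD.Pt
import Pool.Agent.Lib.AndoD.Core
import Pool.Agent.Lib.Ando.Ter

/-!
# AndoD.TouchO: an isolated white vertex touched by an arm is adjacent to the centre of the arm

Conventions: see Defs. ter G S F = F, the neighbours of F, and the monochromatic neighbours of these
(`Ter.mem_ter`). Proof, by cases on hd (y white, sd y = 0, so y is no member of any sm).
`tb` part (kinds nsw, ub4, cap4, cap5): ter {res}: res and its partner have sd = 1 (nsw: res = pt x for
the site x; the others: res = w, q with sd = 1), the neighbours in op res are black, so are their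
monochromatic neighbours: no y.
Option part. y in ter F; y is not the monochromatic neighbour of anything; if y in F then y would
be u, x, x', q, pt x, pt y (sd = 1) or black; so y is a neighbour of a member f of F, not in sm f (sd y =
0), so y in op f and f is black: f = b in ub0, ub1, ub4 (cen = b), f = e in alp, nsw (cen = e); in the cap
kinds f = b or f = m: op b = {u, q, q'} have sd = 1 (u site), so f = m = cen. In alp an option is {x, e, pt y}
or {y, e, pt x} with pt y, pt x sites (white). Finally op symmetric (`op_symm`).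
-/

set_option autoImplicit false
set_option linter.unusedSectionVars false

namespace Pool.Agent.Lib.AndoD

open Pool.Agent.Lib.Ando Pool.Agent.Lib.AndoC

variable {V : Type*} [Fintype V] [DecidableEq V] {G : SimpleGraph V} [DecidableRel G.Adj]

namespace TouchOAux

open TerAux

/-- A vertex without monochromatic neighbours touched by `F`. -/
theorem ter_0 {S F : Finset V} {y : V} (sy : sd G S y = 0) (ht : y ∈ ter G S F) :
    y ∈ F ∨ ∃ f ∈ F, y ∈ op G S f := by
  have hn : ∀ g : V, y ∉ sm G S g := by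
    intro g hg
    have h1 := sm_symm hg
    rw [sm_zero sy] at h1
    exact absurd h1 (Finset.notMem_empty _)
  rcases mem_ter.1 ht with h1 | ⟨f, hf, h1⟩ | ⟨f, hf, g, hg, h1⟩
  · exact Or.inl h1
  · rcases Finset.mem_union.1 h1 with h1 | h1
    · exact absurd h1 (hn f)
    · exact Or.inr ⟨f, hf, h1⟩
  · exact absurd h1 (hn g)

theorem optO {S F : Finset V} {c y : V} (hy : y ∈ S) (sy : sd G S y = 0)
    (ht : y ∈ ter G S F) (hF : ∀ f ∈ F, (f ∈ S ∧ sd G S f = 1) ∨
      (f ∉ S ∧ (f = c ∨ ∀ z ∈ op G S f, sd G S z = 1))) : c ∈ op G S y := by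
  rcases ter_0 sy ht with h1 | ⟨f, hf, h1⟩
  · rcases hF y h1 with ⟨-, h2⟩ | ⟨h2, -⟩
    · omega
    · exact absurd hy h2
  · rcases hF f hf with ⟨h2, -⟩ | ⟨h2, h3 | h3⟩
    · exact absurd hy (StructAux.op_black h2 h1)
    · rw [← h3]; exact op_symm h1
    · have := h3 y h1
      omega

theorem pair {S : Finset V} {u b c : V} (hu : u ∈ S) (su : sd G S u = 1) (hb : b ∉ S)
    (hc : b = c) : ∀ f ∈ ({u, b} : Finset V), (f ∈ S ∧ sd G S f = 1) ∨
      (f ∉ S ∧ (f = c ∨ ∀ z ∈ op G S f, sd G S z = 1)) := by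
  intro f hf
  simp only [Finset.mem_insert, Finset.mem_singleton] at hf
  rcases hf with rfl | rfl
  · exact Or.inl ⟨hu, su⟩
  · exact Or.inr ⟨hb, Or.inl hc⟩

theorem single {S : Finset V} {u c : V} (hu : u ∈ S) (su : sd G S u = 1) :
    ∀ f ∈ ({u} : Finset V), (f ∈ S ∧ sd G S f = 1) ∨
      (f ∉ S ∧ (f = c ∨ ∀ z ∈ op G S f, sd G S z = 1)) := by
  intro f hf
  rw [Finset.mem_singleton] at hf
  subst hf
  exact Or.inl ⟨hu, su⟩

theorem capO {k : ℕ} {S : Finset V} {X Y : Finset (Finset V)} (h : Ctx G k S X Y)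
    {u b q q' l m s t : V} (hc : Cap G S u b q q' l m s t) :
    ∀ f ∈ ({u, b, q, m} : Finset V), (f ∈ S ∧ sd G S f = 1) ∨
      (f ∉ S ∧ (f = m ∨ ∀ z ∈ op G S f, sd G S z = 1)) := by
  have hf := CoreAux.capF h hc
  have hu := StructAux.mem_sites.1 hc.us
  intro f h1
  simp only [Finset.mem_insert, Finset.mem_singleton] at h1
  rcases h1 with rfl | rfl | rfl | rfl
  · exact Or.inl ⟨hu.1, hu.2.1⟩
  · refine Or.inr ⟨hf.bS, Or.inr fun z hz => ?_⟩
    rw [hc.ob] at hz
    simp only [Finset.mem_insert, Finset.mem_singleton] at hz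
    rcases hz with rfl | rfl | rfl
    · exact hu.2.1
    · exact hf.sdq
    · exact hf.sdq'
  · exact Or.inl ⟨hf.qS, hf.sdq⟩
  · exact Or.inr ⟨hf.mS, Or.inl rfl⟩

end TouchOAux

open TouchOAux CoreAux in
theorem touchO {k : ℕ} {S : Finset V} {X Y : Finset (Finset V)} (h : Ctx G k S X Y) {u b : V}
    {d : Dat V} (hd : AD G S u b d) {y : V} (hy : y ∈ S) (sy : sd G S y = 0)
    (ht : Hit G S d y) : d.cen ∈ op G S y := by
  cases hd with
  | ub0 h1 _ _ =>
    have hu := StructAux.mem_sites.1 h1.us
    rcases ht with ⟨F, hF, h2⟩ | h2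
    · rw [Finset.mem_singleton.1 hF] at h2
      exact optO hy sy h2 (pair hu.1 hu.2.1 (op_ne h1.us h1.ub).1 rfl)
    · exact absurd h2 (Finset.notMem_empty _)
  | ub1 h1 _ =>
    have hu := StructAux.mem_sites.1 h1.us
    rcases ht with ⟨F, hF, h2⟩ | h2
    · rw [Finset.mem_singleton.1 hF] at h2
      exact optO hy sy h2 (pair hu.1 hu.2.1 (op_ne h1.us h1.ub).1 rfl)
    · exact absurd h2 (Finset.notMem_empty _)
  | ub4 h1 =>
    rename_i p w0
    have hu := StructAux.mem_sites.1 h1.us
    have hb := (op_ne h1.us h1.ub).1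
    rcases ht with ⟨F, hF, h2⟩ | h2
    · rw [Finset.mem_singleton.1 hF] at h2
      exact optO hy sy h2 (pair hu.1 hu.2.1 hb rfl)
    · exact optO hy sy (show y ∈ ter G S {w0} from h2)
        (single (StructAux.op_white hb (by rw [h1.ob]; simp)) h1.sw)
  | cap1 h1 hi =>
    rcases ht with ⟨F, hF, h2⟩ | h2
    · rw [Finset.mem_singleton.1 hF] at h2
      exact optO hy sy h2 (capO h h1)
    · exact absurd h2 (Finset.notMem_empty _)
  | cap4 h1 h1a h1b h1c =>
    rename_i q q' l m s t
    have hf := capF h h1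
    rcases ht with ⟨F, hF, h2⟩ | h2
    · rw [Finset.mem_singleton.1 hF] at h2
      exact optO hy sy h2 (capO h h1)
    · exact optO hy sy (show y ∈ ter G S {q} from h2) (single hf.qS hf.sdq)
  | cap5 h1 hq =>
    rename_i q q' l m s t
    have hf := capF h h1
    rcases ht with ⟨F, hF, h2⟩ | h2
    · rw [Finset.mem_singleton.1 hF] at h2
      exact optO hy sy h2 (capO h h1)
    · exact optO hy sy (show y ∈ ter G S {q} from h2) (single hf.qS hf.sdq)
  | alp h1 h1z =>
    rename_i y' o
    have hx := StructAux.mem_sites.1 h1.mate.1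
    have hy' := StructAux.mem_sites.1 h1.mate.2.1
    have bS := (op_ne h1.mate.1 h1.xe).1
    have opt : ∀ {x z : V}, x ∈ S → sd G S x = 1 → z ∈ S → sd G S z = 1 →
        y ∈ ter G S {x, b, z} → b ∈ op G S y := by
      intro x z xS sx zS sz h2
      refine optO hy sy h2 fun f hf => ?_
      simp only [Finset.mem_insert, Finset.mem_singleton] at hf
      rcases hf with rfl | rfl | rfl
      · exact Or.inl ⟨xS, sx⟩
      · exact Or.inr ⟨bS, Or.inl rfl⟩
      · exact Or.inl ⟨zS, sz⟩
    rcases ht with ⟨F, hF, h2⟩ | h2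
    · rcases Finset.mem_union.1 (show F ∈ opts G S u y' b from hF) with h3 | h3
      · split_ifs at h3 with h4
        · rw [Finset.mem_singleton.1 h3] at h2
          have h5 := StructAux.mem_sites.1 h4
          exact opt hx.1 hx.2.1 h5.1 h5.2.1 h2
        · exact absurd h3 (Finset.notMem_empty _)
      · split_ifs at h3 with h4
        · rw [Finset.mem_singleton.1 h3] at h2
          have h5 := StructAux.mem_sites.1 h4
          exact opt hy'.1 hy'.2.1 h5.1 h5.2.1 h2
        · exact absurd h3 (Finset.notMem_empty _)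
    · exact absurd h2 (Finset.notMem_empty _)
  | nsw h1 h1a h1b hx' h1c =>
    rename_i y' o x'
    have hx := StructAux.mem_sites.1 h1.mate.1
    have bS := (op_ne h1.mate.1 h1.xe).1
    have hp := pt_all h.lev hx.2.1
    have hx2 : x' ∈ S ∧ sd G S x' = 1 := by
      rcases hx' with rfl | rfl
      · exact ⟨hx.1, hx.2.1⟩
      · have h5 := StructAux.mem_sites.1 h1.mate.2.1
        exact ⟨h5.1, h5.2.1⟩
    rcases ht with ⟨F, hF, h2⟩ | h2
    · rw [Finset.mem_singleton.1 hF] at h2
      exact optO hy sy h2 (pair hx2.1 hx2.2 bS rfl)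
    · exact optO hy sy (show y ∈ ter G S {pt G S u} from h2)
        (single (hp.2.2.2.2.2.2.2 hx.1) hp.2.2.1)

end Pool.Agent.Lib.AndoD
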