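import Pool.Agent.Lib.AndoD.CntS
import Pool.Agent.Lib.AndoD.BndS
import Pool.Agent.Lib.AndoD.TouchO
import Pool.Agent.Lib.AndoD.TouchZ
import Pool.Agent.Lib.AndoD.TouchL
import Pool.Agent.Lib.AndoD.F5d

/-!
# AndoD.Bnd1: the bound for the arms of stage at most one

Text: /team-store/b1c9a2_caseA_h59.md, section 4, lines S-DOUBLE, LEAF, S, 5a, 5a' of (W), (I), (II)
at once: at most twelve arms of stage at least the stage of `a` are touched by the operation of `a`.
-/

set_option autoImplicit false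
set_option linter.unusedSectionVars false

namespace Pool.Agent.Lib.AndoD

open Pool.Agent.Lib.Ando Pool.Agent.Lib.AndoC

variable {V : Type*} [Fintype V] [DecidableEq V] {G : SimpleGraph V} [DecidableRel G.Adj]

open CntAux CoreAux ExADAux TouchUAux BndSAux

/-- The arms touched through the domino of the site `u` (in no switch) or through its end `c`. -/
def KU (G : SimpleGraph V) [DecidableRel G.Adj] (S : Finset V) (dat : V × V → Dat V) (u c : V)
    (a : V × V) : Prop :=
  (a.1 = u ∨ pt G S u ∈ (dat a).core) ∨ (pt G S u ∈ (dat a).s1 ∨ pt G S u ∈ (dat a).s2) ∨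
    ((dat a).st = 3 ∧ c ∈ op G S (dat a).res)

variable {k : ℕ} {S : Finset V} {X Y : Finset (Finset V)} {dat : V × V → Dat V}

namespace Bnd1Aux

theorem core_eq (h : Ctx G k S X Y) (hdat : DatOK G S X dat) {u : V}
    (hn : ∀ y, ¬ Mate G S u y) {a : V × V} (ha : a ∈ arms G S X) (hu : u ∈ (dat a).core) :
    a.1 = u := by
  rcases ((core_facts h (hdat a ha)).2.2.2.1 u hu).2 with h1 | h1
  · exact h1.symm
  · exact absurd h1.symm (hn _)

theorem self_core (h : Ctx G k S X Y) (hdat : DatOK G S X dat) {a : V × V}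
    (ha : a ∈ arms G S X) : a.1 ∈ (dat a).core := (core_facts h (hdat a ha)).1

theorem lem_P (h : Ctx G k S X Y) (hdat : DatOK G S X dat) {u c : V} (hu : u ∈ sites G S)
    (hn : ∀ y, ¬ Mate G S u y) {a : V × V} (ha : a ∈ arms G S X)
    (hP : P (G := G) S (dat a) u) : KU G S dat u c a := by
  rcases hP with h1 | h1 | h1 | h1 | h1 | h1
  · exact Or.inl (Or.inl (core_eq h hdat hn ha h1))
  · exact Or.inl (Or.inr h1)
  · exact absurd hu (side1_facts h (hdat a ha) h1).2.2.1
  · exact Or.inr (Or.inl (Or.inl h1))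
  · exact absurd hu (s2_not h hdat ha h1)
  · exact Or.inr (Or.inl (Or.inr h1))

/-- The arms touching the site or its partner. -/
theorem lem_U (h : Ctx G k S X Y) (hdat : DatOK G S X dat) {u c : V} (hu : u ∈ sites G S)
    (hn : ∀ y, ¬ Mate G S u y) {a : V × V} (ha : a ∈ arms G S X) {y : V}
    (hy : y = u ∨ y = pt G S u) (ht : Hit G S (dat a) y) : KU G S dat u c a := by
  have hus := StructAux.mem_sites.1 hu
  have hp := pt_all h.lev hus.2.1
  rcases hy with rfl | rfl
  · exact lem_P h hdat hu hn ha (touchU h (hdat a ha) hus.1 hus.2.1 ht)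
  · exact lem_P h hdat hu hn ha (P_pt h.lev hus.2.1
      (touchU h (hdat a ha) (hp.2.2.2.2.2.2.2 hus.1) hp.2.2.1 ht))

theorem site_at (h : Ctx G k S X Y) {u c x : V} (hu : u ∈ sites G S)
    (hn : ∀ y, ¬ Mate G S u y) (hc : c ∈ op G S u) (hx : x ∈ sites G S) (hcx : c ∈ op G S x) :
    x = u ∨ x = pt G S u := by
  rcases share h hu hx hc hcx with h1 | h1 | h1
  · exact Or.inl h1
  · exact Or.inr h1
  · exact absurd h1 (hn _)

/-- The arms touching an end of the site. -/
theorem lem_Z (h : Ctx G k S X Y) (hdat : DatOK G S X dat) {u c : V} (hu : u ∈ sites G S)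
    (hn : ∀ y, ¬ Mate G S u y) (hc : c ∈ op G S u) {a : V × V} (ha : a ∈ arms G S X)
    (ht : Hit G S (dat a) c) : (a.1 = u ∨ pt G S u ∈ (dat a).core) ∨
      ((dat a).st = 3 ∧ c ∈ op G S (dat a).res) := by
  obtain ⟨cS, sc⟩ := op_ne hu hc
  obtain ⟨t1, t2⟩ := touchZ h (hdat a ha) cS sc
  have hcf := core_facts h (hdat a ha)
  rcases ht with h1 | h1
  · rcases t1 h1 with ⟨x, hx, h2⟩ | ⟨-, x, hx, h2, h3⟩
    · rcases site_at h hu hn hc (hcf.2.2.1 hx) h2 with rfl | rfl
      · exact Or.inl (Or.inl (core_eq h hdat hn ha hx))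
      · exact Or.inl (Or.inr hx)
    · have hpx := pt_pt h.lev (hcf.2.2.1 hx)
      rcases site_at h hu hn hc h2 h3 with h4 | h4
      · left; right
        rw [← h4, hpx]; exact hx
      · left; left
        refine core_eq h hdat hn ha ?_
        rw [← pt_pt h.lev hu, ← h4, hpx]; exact hx
  · have h3 : 3 ≤ (dat a).st := by
      by_contra h4
      unfold tb at h1
      rw [if_neg h4] at h1
      exact absurd h1 (Finset.notMem_empty _)
    have h4 := t2 h1
    rcases res_at h hdat ha h3 h4 sc with ⟨-, h5, h6, -⟩ | ⟨h5, -⟩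
    · have hs := (arm_site ha).2.1
      rcases site_at h hu hn hc hs (op_symm h6) with h7 | h7
      · exact Or.inl (Or.inl h7)
      · left; right
        rw [← h7]; exact self_core h hdat ha
    · exact Or.inr ⟨h5, h4⟩

theorem tb_st {S : Finset V} {d : Dat V} {y : V} (hy : y ∈ tb G S d) : 3 ≤ d.st := by
  by_contra h4
  unfold tb at hy
  rw [if_neg h4] at hy
  exact absurd hy (Finset.notMem_empty _)

open Classical in
/-- The number of the arms `KU` is at most eight, at most six if (NT) applies. -/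
theorem cntK (h : Ctx G k S X Y) (hdat : DatOK G S X dat) {u c : V} (hu : u ∈ actS G S X)
    (hn : ∀ y, ¬ Mate G S u y) (hc : c ∈ op G S u) :
    ((arms G S X).filter (fun a => KU G S dat u c a)).card ≤ 8 ∧
      ((∀ a ∈ arms G S X, (dat a).st = 3 → c ∈ op G S (dat a).res → pt G S u ∉ sites G S) →
        ((arms G S X).filter (fun a => KU G S dat u c a)).card ≤ 6) := by
  have hus : u ∈ sites G S := (Finset.mem_filter.1 hu).1
  have hus' := StructAux.mem_sites.1 hus
  have hp := pt_all h.lev hus'.2.1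
  have c1 := cnt_fst h u
  have c7 := cnt_res3 h hdat hus hn hc
  by_cases hs : pt G S u ∈ sites G S
  · have c2 := cnt_core h hdat (pt G S u)
    have e3 : ∀ a ∈ arms G S X, ¬ (pt G S u ∈ (dat a).s1 ∨ pt G S u ∈ (dat a).s2) := by
      rintro a ha (h1 | h1)
      · exact (side1_facts h (hdat a ha) h1).2.2.1 hs
      · exact s2_not h hdat ha h1 hs
    constructor
    · have := card_union' (p := fun a => KU G S dat u c a) (fun a _ h1 => h1)
        (card_union' (fun a _ h1 => h1) c1 c2) (card_union' (fun a _ h1 => h1) (card_zero' e3) c7)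
      exact this
    · intro hno
      have e7 : ∀ a ∈ arms G S X, ¬ ((dat a).st = 3 ∧ c ∈ op G S (dat a).res) :=
        fun a ha h1 => hno a ha h1.1 h1.2 hs
      have := card_union' (p := fun a => KU G S dat u c a) (fun a _ h1 => h1)
        (card_union' (fun a _ h1 => h1) c1 c2)
        (card_union' (fun a _ h1 => h1) (card_zero' e3) (card_zero' e7))
      exact this
  · have e2 : ∀ a ∈ arms G S X, ¬ (pt G S u ∈ (dat a).core) :=
      fun a ha h1 => hs ((core_facts h (hdat a ha)).2.2.1 h1)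
    have hX : dom G S (pt G S u) ∈ X := by
      rw [dom_pt h hus'.2.1]
      exact (Finset.mem_filter.1 hu).2.1
    have c3 := cnt_s1X h hdat hX
    obtain ⟨z, hz, sz⟩ := (Finset.mem_filter.1 hu).2.2 (pt G S u) (by rw [hp.1]; simp)
    have c4 := cnt_s2 h hdat hp.2.2.1 hz sz
    have := card_union' (p := fun a => KU G S dat u c a) (fun a _ h1 => h1)
      (card_union' (fun a _ h1 => h1) c1 (card_zero' e2))
      (card_union' (fun a _ h1 => h1) (card_union' (fun a _ h1 => h1) c3 c4) c7)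
    exact ⟨this.trans (by norm_num), fun _ => this⟩

/-- The territory of the operation at `{u, b}`. -/
theorem ter_ub3 (h : Ctx G k S X Y) {u b b' p q y : V} (h1 : Ub3 G S u b p q)
    (ho : op G S u = {b, b'}) (hy : y ∈ ter G S {u, b}) :
    y = u ∨ y = pt G S u ∨ y = b ∨ y = b' ∨ (y = p ∧ sd G S p = 0) ∨ y = q := by
  have us := StructAux.mem_sites.1 h1.us
  have hp := pt_all h.lev us.2.1
  have sb : sm G S b = ∅ := TerAux.sm_zero (us.2.2 b (by rw [ho]; simp))
  have sb' : sm G S b' = ∅ := TerAux.sm_zero (us.2.2 b' (by rw [ho]; simp))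
  have sq : sm G S q = ∅ := TerAux.sm_zero h1.iq
  have hpp : p = pt G S u ∨ (sd G S p = 0 ∧ sm G S p = ∅) := by
    rcases h1.ip with h2 | h2
    · exact Or.inr ⟨h2, TerAux.sm_zero h2⟩
    · exact Or.inl (pt_mem h.lev h2).symm
  have nb : ∀ w, (w ∈ sm G S u ∪ op G S u ∨ w ∈ sm G S b ∪ op G S b) →
      w = u ∨ w = pt G S u ∨ w = b ∨ w = b' ∨ w = p ∨ w = q := by
    intro w hw
    rw [hp.1, ho, sb, h1.ob] at hw
    simp only [Finset.mem_union, Finset.mem_insert, Finset.mem_singleton,
      Finset.notMem_empty, false_or] at hw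
    tauto
  have pq : ∀ w, (w = p) → w = pt G S u ∨ (w = p ∧ sd G S p = 0) := by
    rintro w rfl
    rcases hpp with h2 | h2
    · exact Or.inl h2
    · exact Or.inr ⟨rfl, h2.1⟩
  rcases TerAux.mem_ter.1 hy with h2 | ⟨f, hf, h2⟩ | ⟨f, hf, w, hw, h2⟩
  · rcases Finset.mem_insert.1 h2 with h2 | h2
    · exact Or.inl h2
    · exact Or.inr (Or.inr (Or.inl (Finset.mem_singleton.1 h2)))
  · have h3 : y = u ∨ y = pt G S u ∨ y = b ∨ y = b' ∨ y = p ∨ y = q := by
      apply nb
      rcases Finset.mem_insert.1 hf with rfl | hf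
      · exact Or.inl h2
      · rw [Finset.mem_singleton.1 hf] at h2; exact Or.inr h2
    rcases h3 with h3 | h3 | h3 | h3 | h3 | h3
    · tauto
    · tauto
    · tauto
    · tauto
    · have := pq y h3; tauto
    · tauto
  · have h3 : w = u ∨ w = pt G S u ∨ w = b ∨ w = b' ∨ w = p ∨ w = q := by
      apply nb
      rcases Finset.mem_insert.1 hf with rfl | hf
      · exact Or.inl hw
      · rw [Finset.mem_singleton.1 hf] at hw; exact Or.inr hw
    rcases h3 with rfl | rfl | rfl | rfl | rfl | rfl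
    · rw [hp.1, Finset.mem_singleton] at h2
      tauto
    · rw [hp.2.1, Finset.mem_singleton] at h2
      tauto
    · rw [sb] at h2; exact absurd h2 (Finset.notMem_empty _)
    · rw [sb'] at h2; exact absurd h2 (Finset.notMem_empty _)
    · rcases hpp with h4 | h4
      · rw [h4, hp.2.1, Finset.mem_singleton] at h2
        tauto
      · rw [h4.2] at h2; exact absurd h2 (Finset.notMem_empty _)
    · rw [sq] at h2; exact absurd h2 (Finset.notMem_empty _)

/-- The arms touched by the operation at `{u, b}`. -/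
theorem hit_ub3 (h : Ctx G k S X Y) (hdat : DatOK G S X dat) {u b b' p q : V}
    (h1 : Ub3 G S u b p q) (ho : op G S u = {b, b'}) {a : V × V} (ha : a ∈ arms G S X) {y : V}
    (hy : y ∈ ter G S {u, b}) (ht : Hit G S (dat a) y) :
    KU G S dat u b' a ∨ ((dat a).cen ∈ op G S q ∧ (dat a).cen ≠ b) ∨
      (sd G S p = 0 ∧ (dat a).cen ∈ op G S p ∧ (dat a).cen ≠ b) := by
  have us := StructAux.mem_sites.1 h1.us
  obtain ⟨bS, sb⟩ := op_ne h1.us h1.ub
  have hb' : b' ∈ op G S u := by rw [ho]; simp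
  -- the arms with centre `b`
  have cb : (dat a).cen = b → KU G S dat u b' a := by
    intro h2
    obtain ⟨h3, h4, h5⟩ := cen_Z h hdat sb ha h2
    rcases site_at h h1.us h1.nm h1.ub h4 (op_symm h5) with h6 | h6
    · exact Or.inl (Or.inl h6)
    · left; right
      rw [← h6]; exact self_core h hdat ha
  have hO : ∀ {r : V}, r ∈ op G S b → sd G S r = 0 → Hit G S (dat a) r →
      (dat a).cen ∈ op G S r := by
    intro r hr sr h2
    exact touchO h (hdat a ha) (StructAux.op_white bS hr) sr h2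
  rcases ter_ub3 h h1 ho hy with h2 | h2 | h2 | h2 | h2 | h2
  · exact Or.inl (lem_U h hdat h1.us h1.nm ha (Or.inl h2) ht)
  · exact Or.inl (lem_U h hdat h1.us h1.nm ha (Or.inr h2) ht)
  · subst h2
    rcases lem_Z h hdat h1.us h1.nm h1.ub ha ht with h3 | ⟨h3, h4⟩
    · exact Or.inl (Or.inl h3)
    · exfalso
      obtain ⟨rS, sr, rn, -⟩ := res_facts h ha (hdat a ha) (by omega)
      rcases res_at h hdat ha (by omega) h4 sb with ⟨h5, -⟩ | ⟨-, -, h5, m, hm⟩
      · omega
      have h6 := op_symm h4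
      rw [h1.ob] at h6
      simp only [Finset.mem_insert, Finset.mem_singleton] at h6
      rcases h6 with h6 | h6 | h6
      · exact rn (h6 ▸ h1.us)
      · rcases h1.ip with h7 | h7
        · rw [h6] at sr; omega
        · have h8 := pt_mem h.lev (sm_symm h7)
          rw [← h6, h5] at h8
          exact h1.nm m (h8 ▸ hm)
      · have := h1.iq
        rw [h6] at sr; omega
  · subst h2
    rcases lem_Z h hdat h1.us h1.nm hb' ha ht with h3 | h3
    · exact Or.inl (Or.inl h3)
    · exact Or.inl (Or.inr (Or.inr h3))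
  · obtain ⟨rfl, sp⟩ := h2
    have h3 := hO (by rw [h1.ob]; simp) sp ht
    by_cases h4 : (dat a).cen = b
    · exact Or.inl (cb h4)
    · exact Or.inr (Or.inr ⟨sp, h3, h4⟩)
  · subst h2
    have h3 := hO (by rw [h1.ob]; simp) h1.iq ht
    by_cases h4 : (dat a).cen = b
    · exact Or.inl (cb h4)
    · exact Or.inr (Or.inl ⟨h3, h4⟩)

end Bnd1Aux

open Bnd1Aux

open Classical in
/-- The bound for the kinds S-DOUBLE, LEAF, S. -/
theorem bnd1_ub3 (h : Ctx G k S X Y) (hdat : DatOK G S X dat) {a : V × V}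
    (ha : a ∈ arms G S X) {b' p q : V} (h1 : Ub3 G S a.1 a.2 p q)
    (ho : op G S a.1 = {a.2, b'}) (hcen : (dat a).cen = a.2) (hst : (dat a).st ≤ 1)
    (hst1 : sd G S p = 0 → (dat a).st = 1) :
    ((arms G S X).filter (fun a' => (dat a).st ≤ (dat a').st ∧
      ∃ y ∈ ter G S {a.1, a.2}, Hit G S (dat a') y)).card ≤ 12 := by
  have hus := h1.us
  have hb' : b' ∈ op G S a.1 := by rw [ho]; simp
  have hqb : a.2 ∈ op G S q := op_symm (by rw [h1.ob]; simp)
  have hpb : a.2 ∈ op G S p := op_symm (by rw [h1.ob]; simp)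
  obtain ⟨k8, k6⟩ := cntK h hdat (arm_site ha).1 h1.nm hb'
  by_cases sp : sd G S p = 0
  · -- LEAF
    have h2 := hst1 sp
    have hK : ((arms G S X).filter (fun a' => KU G S dat a.1 b' a')).card ≤ 6 := by
      refine k6 fun a' ha' s3 hc hs => ?_
      obtain ⟨w, wS, wX, sw, wn, -, hw⟩ := nt_res3 h hdat (arm_site ha).1 h1.nm
        (by rw [ho, Finset.pair_comm]) ha' s3 hc
      rcases hw with hw | hw
      · have hw' := op_symm (op_symm hw)
        rw [h1.ob] at hw'
        simp only [Finset.mem_insert, Finset.mem_singleton] at hw'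
        rcases hw' with h3 | h3 | h3
        · exact wn (h3 ▸ hus)
        · rw [h3] at sw; omega
        · have := h1.iq
          rw [h3] at sw; omega
      · exact wn (hw ▸ hs)
    have o3 : ∀ {r : V}, sd G S r = 0 → r ∈ op G S a.2 →
        ((arms G S X).filter (fun a' => 1 ≤ (dat a').st ∧ (dat a').cen ∈ op G S r ∧
          (dat a').cen ≠ (dat a).cen)).card ≤ 3 :=
      fun sr hr => cnt_O3 h hdat (hdat a ha) hst sr (by rw [hcen]; exact hr)
    have hq3 := o3 h1.iq (op_symm hqb)
    have hp3 := o3 sp (op_symm hpb)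
    refine card_union' ?_ hK (card_union' (fun a _ h3 => h3) hq3 hp3)
    rintro a' ha' ⟨h3, y, hy, ht⟩
    have h4 := hit_ub3 h hdat h1 ho ha' hy ht
    rw [hcen]
    have h5 : 1 ≤ (dat a').st := by omega
    tauto
  · -- the partner of `u` is at `b`
    have hq4 := cnt_O4 h hdat h1.iq hqb
    refine card_union' (q := fun a' => KU G S dat a.1 b' a')
      (r := fun a' => (dat a').cen ∈ op G S q ∧ (dat a').cen ≠ a.2) ?_ k8 hq4
    rintro a' ha' ⟨h3, y, hy, ht⟩
    have h4 := hit_ub3 h hdat h1 ho ha' hy ht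
    tauto

namespace Bnd1Aux

/-- The territory of the operation at a capped end. -/
theorem ter_cap (h : Ctx G k S X Y) {u b b' q q' l m s t y : V} (h1 : Cap G S u b q q' l m s t)
    (ho : op G S u = {b, b'}) (hy : y ∈ ter G S {u, b, q, m}) :
    (y = u ∨ y = pt G S u) ∨ y = b ∨ y = b' ∨ (y = q ∨ y = q') ∨ (y = l ∨ y = m) ∨ y = s ∨
      (y = t ∧ sd G S t = 0) ∨ (sd G S t = 1 ∧ (y = t ∨ y = pt G S t)) := by
  have us := StructAux.mem_sites.1 h1.us
  have hp := pt_all h.lev us.2.1
  have hf := capF h h1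
  have sb : sm G S b = ∅ := TerAux.sm_zero (us.2.2 b (by rw [ho]; simp))
  have sb' : sm G S b' = ∅ := TerAux.sm_zero (us.2.2 b' (by rw [ho]; simp))
  have ss : sm G S s = ∅ := TerAux.sm_zero h1.is
  have htt : (sd G S t = 0 ∧ sm G S t = ∅) ∨ (sd G S t = 1 ∧ sm G S t = {pt G S t}) := by
    have h2 := h.lev.tf t
    have h3 : sd G S t = 0 ∨ sd G S t = 1 := by omega
    rcases h3 with h3 | h3
    · exact Or.inl ⟨h3, TerAux.sm_zero h3⟩
    · exact Or.inr ⟨h3, pt_sm h3⟩
  have nb : ∀ w, (w ∈ sm G S u ∪ op G S u ∨ w ∈ sm G S b ∪ op G S b ∨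
      w ∈ sm G S q ∪ op G S q ∨ w ∈ sm G S m ∪ op G S m) →
      w = u ∨ w = pt G S u ∨ w = b ∨ w = b' ∨ w = q ∨ w = q' ∨ w = l ∨ w = s ∨ w = t := by
    intro w hw
    rw [hp.1, ho, sb, h1.ob, h1.sq, h1.oq, h1.sm', h1.om] at hw
    simp only [Finset.mem_union, Finset.mem_insert, Finset.mem_singleton,
      Finset.notMem_empty, false_or] at hw
    rcases hw with (hw | hw | hw) | (hw | hw | hw) | (hw | hw | hw) | (hw | hw | hw) <;> simp [hw]
  have tt : ∀ w, w = t → (w = t ∧ sd G S t = 0) ∨ (sd G S t = 1 ∧ (w = t ∨ w = pt G S t)) := by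
    intro w hw
    rcases htt with h2 | h2
    · exact Or.inl ⟨hw, h2.1⟩
    · exact Or.inr ⟨h2.1, Or.inl hw⟩
  rcases TerAux.mem_ter.1 hy with h2 | ⟨f, hf2, h2⟩ | ⟨f, hf2, w, hw, h2⟩
  · simp only [Finset.mem_insert, Finset.mem_singleton] at h2
    rcases h2 with h2 | h2 | h2 | h2 <;> simp [h2]
  · have h3 : y = u ∨ y = pt G S u ∨ y = b ∨ y = b' ∨ y = q ∨ y = q' ∨ y = l ∨ y = s ∨ y = t := by
      apply nb
      simp only [Finset.mem_insert, Finset.mem_singleton] at hf2
      rcases hf2 with rfl | rfl | rfl | rfl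
      · exact Or.inl h2
      · exact Or.inr (Or.inl h2)
      · exact Or.inr (Or.inr (Or.inl h2))
      · exact Or.inr (Or.inr (Or.inr h2))
    rcases h3 with h3 | h3 | h3 | h3 | h3 | h3 | h3 | h3 | h3
    · simp [h3]
    · simp [h3]
    · simp [h3]
    · simp [h3]
    · simp [h3]
    · simp [h3]
    · simp [h3]
    · simp [h3]
    · exact Or.inr (Or.inr (Or.inr (Or.inr (Or.inr (Or.inr (tt y h3))))))
  · have h3 : w = u ∨ w = pt G S u ∨ w = b ∨ w = b' ∨ w = q ∨ w = q' ∨ w = l ∨ w = s ∨ w = t := by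
      apply nb
      simp only [Finset.mem_insert, Finset.mem_singleton] at hf2
      rcases hf2 with rfl | rfl | rfl | rfl
      · exact Or.inl hw
      · exact Or.inr (Or.inl hw)
      · exact Or.inr (Or.inr (Or.inl hw))
      · exact Or.inr (Or.inr (Or.inr hw))
    rcases h3 with rfl | rfl | rfl | rfl | rfl | rfl | rfl | rfl | rfl
    · rw [hp.1, Finset.mem_singleton] at h2
      simp [h2]
    · rw [hp.2.1, Finset.mem_singleton] at h2
      simp [h2]
    · rw [sb] at h2; exact absurd h2 (Finset.notMem_empty _)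
    · rw [sb'] at h2; exact absurd h2 (Finset.notMem_empty _)
    · rw [h1.sq, Finset.mem_singleton] at h2
      simp [h2]
    · rw [h1.sq', Finset.mem_singleton] at h2
      simp [h2]
    · rw [h1.sl, Finset.mem_singleton] at h2
      simp [h2]
    · rw [ss] at h2; exact absurd h2 (Finset.notMem_empty _)
    · rcases htt with h4 | h4
      · rw [h4.2] at h2; exact absurd h2 (Finset.notMem_empty _)
      · rw [h4.2, Finset.mem_singleton] at h2
        exact Or.inr (Or.inr (Or.inr (Or.inr (Or.inr (Or.inr (Or.inr ⟨h4.1, Or.inr h2⟩))))))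

/-- The only site at a capped end is `u`. -/
theorem cap_end (h : Ctx G k S X Y) (hdat : DatOK G S X dat) {u b q q' l m s t : V}
    (h1 : Cap G S u b q q' l m s t) {x : V} (hx : x ∈ sites G S) (hb : x ∈ op G S b) : x = u := by
  have hf := capF h h1
  rw [h1.ob] at hb
  simp only [Finset.mem_insert, Finset.mem_singleton] at hb
  rcases hb with h2 | h2 | h2
  · exact h2
  · exact absurd (h2 ▸ hx) hf.nq
  · exact absurd (h2 ▸ hx) hf.nq'

/-- The only U-neighbour of `m` can be `t`. -/
theorem cap_mt {u b q q' l m s t : V} (h1 : Cap G S u b q q' l m s t) {x : V}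
    (hx : x ∈ op G S m) (sx : sd G S x = 1) : x = t := by
  rw [h1.om, Finset.mem_insert, Finset.mem_singleton] at hx
  rcases hx with h2 | h2
  · have := h1.is
    rw [← h2] at this; omega
  · exact h2

/-- The only U-neighbour of `l` is `q`. -/
theorem cap_lq (h : Ctx G k S X Y) {u b q q' l m s t : V} (h1 : Cap G S u b q q' l m s t) {x : V}
    (hx : x ∈ op G S l) (sx : sd G S x = 1) : x = q := by
  have hf := capF h h1
  by_contra hne
  have hlq : l ∈ op G S q := by rw [h1.oq]; simp
  have lS : l ∉ S := StructAux.op_black hf.qS hlq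
  have hadj := AndoB.fact1g h.reg h.lev h.hk lS hf.sdl (StructAux.mem_UN.2 ⟨op_symm hlq, hf.sdq⟩)
    (StructAux.mem_UN.2 ⟨hx, sx⟩) (Ne.symm hne)
  have xS := StructAux.op_white lS hx
  have h2 := sm_of_adj hf.qS xS hadj
  rw [h1.sq, Finset.mem_singleton] at h2
  subst h2
  have hA : ∀ {c w : V}, c ∈ op G S w → G.Adj c w := fun h6 => (mem_op.1 h6).1.symm
  have := h.dz S h.lev b l q x hf.bS lS h1.bl hf.qS hf.q'S hadj (hA hf.bq) (hA hf.bq')
    (hA hlq) (hA (op_symm hx))
  have h3 := this.2.1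
  rw [hf.sdl] at h3
  exact absurd h3 (by norm_num)

/-- The arms with centre `l`: the vertex `t` is a side. -/
theorem cap_cenl (h : Ctx G k S X Y) (hdat : DatOK G S X dat) {u b q q' l m s t : V}
    (h1 : Cap G S u b q q' l m s t) {a : V × V} (ha : a ∈ arms G S X)
    (hc : (dat a).cen = l) : sd G S t = 1 ∧ P (G := G) S (dat a) t := by
  have hf := capF h h1
  obtain ⟨-, -, c3⟩ := cen_facts h (hdat a ha)
  rw [hc] at c3
  obtain ⟨-, q1, q1', s1, n1, sq1, sq1', ob1, oq1, -⟩ := c3 hf.sdl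
  rw [hf.pl] at oq1
  have hq1 : q1 ∈ (dat a).s1 := by rw [s1]; simp
  have sd1 := (side1_facts h (hdat a ha) hq1).2.1
  have hq2 : q1 ∈ op G S m := op_symm (by rw [oq1]; simp)
  have := cap_mt h1 hq2 sd1
  rw [this] at hq1 sd1
  exact ⟨sd1, Or.inr (Or.inr (Or.inl hq1))⟩

/-- The arms touching `q` or its partner. -/
theorem cap_Q (h : Ctx G k S X Y) (hdat : DatOK G S X dat) {u b q q' l m s t : V}
    (h1 : Cap G S u b q q' l m s t) {a : V × V} (ha : a ∈ arms G S X)
    (hP : P (G := G) S (dat a) q) : a.1 = u ∨ (sd G S t = 1 ∧ P (G := G) S (dat a) t) := by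
  have hf := capF h h1
  have hcf := core_facts h (hdat a ha)
  have side : ∀ {w : V}, w ∈ (dat a).s1 → b ∈ op G S w → a.1 = u := by
    intro w hw hb
    obtain ⟨-, h3, -⟩ := side_end h hdat ha hw hb hf.sb
    exact cap_end h hdat h1 (arm_site ha).2.1 h3
  rcases hP with h2 | h2 | h2 | h2 | h2 | h2
  · exact absurd (hcf.2.2.1 h2) hf.nq
  · rw [hf.pq] at h2
    exact absurd (hcf.2.2.1 h2) hf.nq'
  · exact Or.inl (side h2 hf.bq)
  · rw [hf.pq] at h2
    exact Or.inl (side h2 hf.bq')
  · right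
    obtain ⟨h3, h4⟩ := s2_cen h hdat ha h2
    rw [h1.oq, Finset.mem_insert, Finset.mem_singleton] at h3
    rcases h3 with h3 | h3
    · rw [h3, hf.sb] at h4; omega
    · exact cap_cenl h hdat h1 ha h3
  · left
    rw [hf.pq] at h2
    obtain ⟨h3, h4⟩ := s2_cen h hdat ha h2
    obtain ⟨-, -, h5, h6, h7, h8, -⟩ := side2_facts h (hdat a ha) h2
    rw [hf.pq'] at h8
    obtain ⟨-, -, c3⟩ := cen_facts h (hdat a ha)
    obtain ⟨-, q1, q1', s1, n1, sq1, sq1', ob1, oq1, sc1, -⟩ := c3 h4
    have hq1 : q1 ∈ (dat a).s1 := by rw [s1]; simp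
    have g := side1_facts h (hdat a ha) hq1
    obtain ⟨-, us, hb⟩ := arm_site ha
    have hx := f5_ctx h hf.q'S hf.sdq' hf.bq' hf.sb h3 sc1 g.1 g.2.1
      (b := a.2) (by rw [oq1]; simp) (op_ne us hb).2 (by rw [oq1]; simp)
      (by
        rw [h1.sq', Finset.mem_singleton]
        rintro rfl
        exact h8 hq1) us hb g.2.2.2.2.1
    rcases hx with hx | hx
    · have hbu : b ∈ op G S a.1 := by rw [hx]; simp
      exact cap_end h hdat h1 us (op_symm hbu)
    · exact absurd hx h6

/-- The arms touching `l` or `m`. -/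
theorem cap_L (h : Ctx G k S X Y) (hdat : DatOK G S X dat) {u b q q' l m s t : V}
    (h1 : Cap G S u b q q' l m s t) {a0 a : V × V} (ha0 : a0 ∈ arms G S X) (h0 : a0.1 = u)
    (hcen : (dat a0).cen = m) (ha : a ∈ arms G S X) {y : V} (hy : y = l ∨ y = m)
    (ht : Hit G S (dat a) y) : a.1 = u ∨ (sd G S t = 1 ∧ P (G := G) S (dat a) t) := by
  have hf := capF h h1
  have hlq : l ∈ op G S q := by rw [h1.oq]; simp
  have lS : l ∉ S := StructAux.op_black hf.qS hlq
  have yS : y ∉ S := by
    rcases hy with rfl | rfl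
    · exact lS
    · exact hf.mS
  have sy : sd G S y = 1 := by
    rcases hy with rfl | rfl
    · exact hf.sdl
    · exact hf.sdm
  have hyp : pt G S y = l ∨ pt G S y = m := by
    rcases hy with rfl | rfl
    · exact Or.inr hf.pl
    · exact Or.inl hf.pm
  obtain ⟨t1, t2⟩ := touchL h (hdat a ha) yS sy
  have cm : (dat a).cen = m → a.1 = u := by
    intro h3
    have := cen_unique h hdat hf.sdm ha ha0 h3 hcen
    rw [this]; exact h0
  rcases ht with h2 | h2
  · obtain ⟨h3, h4⟩ := t1 h2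
    have h5 : (dat a).cen = l ∨ (dat a).cen = m := by
      rcases h4 with h4 | h4
      · rw [← h4]; exact hy
      · have h6 := (pt_all h.lev h3).2.2.2.1
        rw [← h4] at h6
        rw [← h6]; exact hyp
    rcases h5 with h5 | h5
    · exact Or.inr (cap_cenl h hdat h1 ha h5)
    · exact Or.inl (cm h5)
  · have h3 := tb_st h2
    obtain ⟨rS, sr, rn, -, r3, r4⟩ := res_facts h ha (hdat a ha) h3
    have hst := (core_facts h (hdat a ha)).2.2.2.2.2.2.1
    have h4 : l ∈ op G S (dat a).res ∨ m ∈ op G S (dat a).res := by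
      rcases t2 h2 with h5 | h5
      · rcases hy with rfl | rfl
        · exact Or.inl h5
        · exact Or.inr h5
      · rcases hyp with h6 | h6
        · rw [h6] at h5; exact Or.inl h5
        · rw [h6] at h5; exact Or.inr h5
    rcases h4 with h4 | h4
    · left
      have h5 := cap_lq h h1 (op_symm h4) sr
      rcases (by omega : (dat a).st = 3 ∨ (dat a).st = 4) with h6 | h6
      · exfalso
        have h7 := r3 h6
        have h8 := (pt_all h.lev (StructAux.mem_sites.1 (arm_site ha).2.1).2.1).2.2.2.1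
        rw [← h7, h5, hf.pq] at h8
        exact hf.nq' (h8 ▸ (arm_site ha).2.1)
      · have h7 := r4 h6
        rw [h5] at h7
        obtain ⟨-, h8, -⟩ := side_end h hdat ha h7 hf.bq hf.sb
        exact cap_end h hdat h1 (arm_site ha).2.1 h8
    · right
      have h5 := cap_mt h1 (op_symm h4) sr
      rw [h5] at sr
      refine ⟨sr, ?_⟩
      rcases (by omega : (dat a).st = 3 ∨ (dat a).st = 4) with h6 | h6
      · right; left
        have h7 := r3 h6
        have h8 := (pt_all h.lev (StructAux.mem_sites.1 (arm_site ha).2.1).2.1).2.2.2.1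
        rw [← h7, h5] at h8
        rw [h8]
        exact self_core h hdat ha
      · have h7 := r4 h6
        rw [h5] at h7
        exact Or.inr (Or.inr (Or.inl h7))

/-- The arms touched by the operation at a capped end. -/
theorem hit_cap (h : Ctx G k S X Y) (hdat : DatOK G S X dat) {b' q q' l m s t : V}
    {a0 : V × V} (ha0 : a0 ∈ arms G S X) (h1 : Cap G S a0.1 a0.2 q q' l m s t)
    (ho : op G S a0.1 = {a0.2, b'}) (hcen : (dat a0).cen = m) {a : V × V}
    (ha : a ∈ arms G S X) {y : V}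
    (hy : y ∈ ter G S {a0.1, a0.2, q, m}) (ht : Hit G S (dat a) y) :
    KU G S dat a0.1 b' a ∨ ((dat a).cen ∈ op G S s ∧ (dat a).cen ≠ m) ∨
      (sd G S t = 0 ∧ (dat a).cen ∈ op G S t ∧ (dat a).cen ≠ m) ∨
      (sd G S t = 1 ∧ P (G := G) S (dat a) t) := by
  have us := StructAux.mem_sites.1 h1.us
  have hf := capF h h1
  have hb' : b' ∈ op G S a0.1 := by rw [ho]; simp
  have cm : (dat a).cen = m → KU G S dat a0.1 b' a := by
    intro h3
    have := cen_unique h hdat hf.sdm ha ha0 h3 hcen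
    exact Or.inl (Or.inl (by rw [this]))
  have hO : ∀ {r : V}, r ∈ op G S m → sd G S r = 0 → Hit G S (dat a) r →
      KU G S dat a0.1 b' a ∨ ((dat a).cen ∈ op G S r ∧ (dat a).cen ≠ m) := by
    intro r hr sr h2
    have h3 := touchO h (hdat a ha) (StructAux.op_white hf.mS hr) sr h2
    by_cases h4 : (dat a).cen = m
    · exact Or.inl (cm h4)
    · exact Or.inr ⟨h3, h4⟩
  have fin : a.1 = a0.1 ∨ (sd G S t = 1 ∧ P (G := G) S (dat a) t) →
      KU G S dat a0.1 b' a ∨ ((dat a).cen ∈ op G S s ∧ (dat a).cen ≠ m) ∨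
      (sd G S t = 0 ∧ (dat a).cen ∈ op G S t ∧ (dat a).cen ≠ m) ∨
      (sd G S t = 1 ∧ P (G := G) S (dat a) t) := by
    rintro (h2 | h2)
    · exact Or.inl (Or.inl (Or.inl h2))
    · exact Or.inr (Or.inr (Or.inr h2))
  rcases ter_cap h h1 ho hy with h2 | h2 | h2 | h2 | h2 | h2 | h2 | h2
  · exact Or.inl (lem_U h hdat h1.us h1.nm ha h2 ht)
  · subst h2
    rcases lem_Z h hdat h1.us h1.nm h1.ub ha ht with h3 | ⟨h3, h4⟩
    · exact Or.inl (Or.inl h3)
    · exfalso
      obtain ⟨rS, sr, rn, -⟩ := res_facts h ha (hdat a ha) (by omega)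
      rcases res_at h hdat ha (by omega) h4 hf.sb with ⟨h5, -⟩ | ⟨-, -, h5, m', hm⟩
      · omega
      have h6 := op_symm h4
      rw [h1.ob] at h6
      simp only [Finset.mem_insert, Finset.mem_singleton] at h6
      rcases h6 with h6 | h6 | h6
      · exact rn (h6 ▸ h1.us)
      · rw [h6, hf.pq] at h5
        exact hf.nq' (h5 ▸ (arm_site ha).2.1)
      · rw [h6, hf.pq'] at h5
        exact hf.nq (h5 ▸ (arm_site ha).2.1)
  · subst h2
    rcases lem_Z h hdat h1.us h1.nm hb' ha ht with h3 | h3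
    · exact Or.inl (Or.inl h3)
    · exact Or.inl (Or.inr (Or.inr h3))
  · apply fin
    refine cap_Q h hdat h1 ha ?_
    rcases h2 with rfl | rfl
    · exact touchU h (hdat a ha) hf.qS hf.sdq ht
    · refine P_pt h.lev hf.sdq ?_
      rw [hf.pq]
      exact touchU h (hdat a ha) hf.q'S hf.sdq' ht
  · exact fin (cap_L h hdat h1 ha0 rfl hcen ha h2 ht)
  · subst h2
    rcases hO (by rw [h1.om]; simp) h1.is ht with h3 | h3
    · exact Or.inl h3
    · exact Or.inr (Or.inl h3)
  · obtain ⟨rfl, st⟩ := h2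
    rcases hO (by rw [h1.om]; simp) st ht with h3 | h3
    · exact Or.inl h3
    · exact Or.inr (Or.inr (Or.inl ⟨st, h3⟩))
  · obtain ⟨st, h2⟩ := h2
    have hpt := pt_all h.lev st
    refine Or.inr (Or.inr (Or.inr ⟨st, ?_⟩))
    rcases h2 with rfl | rfl
    · exact touchU h (hdat a ha) hf.tS st ht
    · exact P_pt h.lev st (touchU h (hdat a ha) (hpt.2.2.2.2.2.2.2 hf.tS) hpt.2.2.1 ht)

end Bnd1Aux

open Classical in
/-- The bound for the kinds 5a, 5a'. -/
theorem bnd1_cap (h : Ctx G k S X Y) (hdat : DatOK G S X dat) {a : V × V}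
    (ha : a ∈ arms G S X) {b' q q' l m s t : V} (h1 : Cap G S a.1 a.2 q q' l m s t)
    (hi : Iso G S a.1 t)
    (ho : op G S a.1 = {a.2, b'}) (hcen : (dat a).cen = m) (hst : (dat a).st = 1) :
    ((arms G S X).filter (fun a' => (dat a).st ≤ (dat a').st ∧
      ∃ y ∈ ter G S {a.1, a.2, q, m}, Hit G S (dat a') y)).card ≤ 12 := by
  have hus := h1.us
  have hus' := StructAux.mem_sites.1 hus
  have hf := capF h h1
  have hb' : b' ∈ op G S a.1 := by rw [ho]; simp
  have hsm : s ∈ op G S m := by rw [h1.om]; simp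
  have htm : t ∈ op G S m := by rw [h1.om]; simp
  obtain ⟨k8, k6⟩ := cntK h hdat (arm_site ha).1 h1.nm hb'
  have o3 : ∀ {r : V}, sd G S r = 0 → r ∈ op G S m →
      ((arms G S X).filter (fun a' => 1 ≤ (dat a').st ∧ (dat a').cen ∈ op G S r ∧
        (dat a').cen ≠ (dat a).cen)).card ≤ 3 :=
    fun sr hr => cnt_O3 h hdat (hdat a ha) (by omega) sr (by rw [hcen]; exact hr)
  have hs3 := o3 h1.is hsm
  rcases hi with st | hi
  · -- 5a
    have hK : ((arms G S X).filter (fun a' => KU G S dat a.1 b' a')).card ≤ 6 := by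
      refine k6 fun a' ha' s3 hc hs => ?_
      obtain ⟨w, wS, wX, sw, wn, -, hw⟩ := nt_res3 h hdat (arm_site ha).1 h1.nm
        (by rw [ho, Finset.pair_comm]) ha' s3 hc
      rcases hw with hw | hw
      · have hqX : dom G S q ∈ X := by
          have hw' := op_symm (op_symm hw)
          rw [h1.ob] at hw'
          simp only [Finset.mem_insert, Finset.mem_singleton] at hw'
          rcases hw' with h3 | h3 | h3
          · exact absurd (h3 ▸ hus) wn
          · exact h3 ▸ wX
          · rw [← hf.pq', dom_pt h hf.sdq', ← h3]; exact wX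
        obtain ⟨z, hz⟩ := x1_un h hf.qS hf.sdq hqX (by rw [h1.oq]; simp) h1.sl
        obtain ⟨hz1, hz2⟩ := StructAux.mem_UN.1 hz
        have := cap_mt h1 hz1 hz2
        rw [this] at hz2; omega
      · exact wn (hw ▸ hs)
    have ht3 := o3 st htm
    refine card_union' ?_ hK (card_union' (fun a _ h3 => h3) hs3 ht3)
    rintro a' ha' ⟨h3, y, hy, ht⟩
    have h4 := hit_cap h hdat ha h1 ho hcen ha' hy ht
    rw [hcen]
    have h5 : 1 ≤ (dat a').st := by omega
    rcases h4 with h4 | h4 | h4 | h4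
    · exact Or.inl h4
    · exact Or.inr (Or.inl ⟨h5, h4⟩)
    · exact Or.inr (Or.inr ⟨h5, h4.2⟩)
    · omega
  · -- 5a'
    refine (card_union' (q := fun a' => KU G S dat a.1 b' a') (n := 4) ?_ k8
      (hs3.trans (by norm_num)))
    rintro a' ha' ⟨h3, y, hy, ht⟩
    have hpu := pt_mem h.lev hi
    have h4 := hit_cap h hdat ha h1 ho hcen ha' hy ht
    rw [hcen]
    have h5 : 1 ≤ (dat a').st := by omega
    have st : sd G S t = 1 := by
      rw [← hpu]; exact (pt_all h.lev hus'.2.1).2.2.1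
    rcases h4 with h4 | h4 | h4 | h4
    · exact Or.inl h4
    · exact Or.inr ⟨h5, h4⟩
    · omega
    · left
      refine lem_P h hdat hus h1.nm ha' (P_pt h.lev hus'.2.1 ?_)
      rw [hpu]; exact h4.2

open Classical in
/-- At most twelve arms of stage at least the stage of `a` are touched by the operation of an arm
`a` of stage at most one. -/
theorem bnd1 (h : Ctx G k S X Y) (hdat : DatOK G S X dat) {a : V × V}
    (ha : a ∈ arms G S X) (h1 : (dat a).st ≤ 1) {F : Finset V} (hF : F ∈ (dat a).Fs) :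
    ((arms G S X).filter (fun a' => (dat a).st ≤ (dat a').st ∧
      ∃ y ∈ ter G S F, Hit G S (dat a') y)).card ≤ 12 := by
  obtain ⟨b', ho, -⟩ := StructAux.card_two (site_op h.reg (arm_site ha).2.1) (arm_site ha).2.2
  have hA := hdat a ha
  generalize hd : dat a = d at hA h1 hF
  generalize hu : a.1 = u at hA
  generalize hb : a.2 = b at hA
  cases hA with
  | ub0 h2 hp hs =>
    subst hu hb
    rw [Finset.mem_singleton.1 hF, ← hd]
    refine bnd1_ub3 h hdat ha h2 ho (by rw [hd]) (by rw [hd]; exact h1) (fun h3 => ?_)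
    have := (StructAux.mem_sites.1 hs).2.1
    omega
  | ub1 h2 hp =>
    subst hu hb
    rw [Finset.mem_singleton.1 hF, ← hd]
    exact bnd1_ub3 h hdat ha h2 ho (by rw [hd]) (by rw [hd]) (fun h3 => by rw [hd])
  | cap1 h2 ht =>
    subst hu hb
    rw [Finset.mem_singleton.1 hF, ← hd]
    exact bnd1_cap h hdat ha h2 ht ho (by rw [hd]) (by rw [hd])
  | alp h3 hz => exact absurd h1 (by norm_num)
  | nsw h3 hx hy hx' hi => exact absurd h1 (by norm_num)
  | ub4 h3 => exact absurd h1 (by norm_num)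
  | cap4 h3 ht hn hq => exact absurd h1 (by norm_num)
  | cap5 h3 ht => exact absurd h1 (by norm_num)

end Pool.Agent.Lib.AndoD
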