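import Pool.Agent.Lib.AndoD.Bnd2B

/-!
# AndoD.Bnd2: the step of stage two (Lemma K)

`step2`: if all arms alive at `R` have stage at least two and one of them has stage two, there is
an operation of stage two which satisfies the bounds `StepOK`.
-/

set_option autoImplicit false
set_option linter.unusedSectionVars false
set_option linter.unusedSimpArgs false

namespace Pool.Agent.Lib.AndoD

open Pool.Agent.Lib.Ando Pool.Agent.Lib.AndoC

variable {V : Type*} [Fintype V] [DecidableEq V] {G : SimpleGraph V} [DecidableRel G.Adj]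

open SwAux SwFlipAux CntAux

variable {k : ℕ} {S : Finset V} {X Y : Finset (Finset V)} {dat : V × V → Dat V} {R : Finset V}

namespace Bnd2Aux

/-- The arm is alive. -/
def Al (G : SimpleGraph V) [DecidableRel G.Adj] (S : Finset V) (dat : V × V → Dat V)
    (R : Finset V) (a : V × V) : Prop := Alive (fun a => (dat a).Fs) (ter G S) R a

/-- The arm dies. -/
def Di (G : SimpleGraph V) [DecidableRel G.Adj] (S : Finset V) (dat : V × V → Dat V)
    (R F : Finset V) (a : V × V) : Prop := Dies (fun a => (dat a).Fs) (ter G S) R F a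

/-- The arms counted in `StepOK.low`. -/
def Low (G : SimpleGraph V) [DecidableRel G.Adj] (S : Finset V) (dat : V × V → Dat V)
    (R F : Finset V) (a' : V × V) : Prop :=
  ((dat a').st ≤ 2 ∧ Di G S dat R F a') ∨
    (3 ≤ (dat a').st ∧ (TMeet (fun a => (dat a).Fs) (ter G S) (ter G S F) a' ∨
      ¬ Disjoint (tb G S (dat a')) (ter G S F)))

/-- A free operation of stage two. -/
structure Oper (G : SimpleGraph V) [DecidableRel G.Adj] (S : Finset V) (X : Finset (Finset V))
    (dat : V × V → Dat V) (R : Finset V) (a : V × V) (x y e f o p x' y' : V) : Prop where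
  mem : a ∈ arms G S X
  st : (dat a).st = 2
  sw : Sw G S x y e f o p x' y'
  hy : y' ∈ sites G S
  hFs : (dat a).Fs = opts G S x y e
  free : Disjoint (ter G S {x, e, y'}) R

theorem Oper.memF {a : V × V} {x y e f o p x' y' : V}
    (hO : Oper G S X dat R a x y e f o p x' y') : ({x, e, y'} : Finset V) ∈ (dat a).Fs := by
  rw [hO.hFs, mem_opts, pt_eq hO.sw.sy]
  exact Or.inl ⟨hO.hy, rfl⟩

/-- The data of an arm of stage two with respect to any member of the core. -/
theorem st2_data' (h : Ctx G k S X Y) {u b : V} {d : Dat V} (hd : AD G S u b d) (h2 : d.st = 2)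
    {v : V} (hv : v ∈ d.core) : ∃ n f o p v' n', Sw G S v n b f o p v' n' ∧
      d.Fs = opts G S v n b ∧ d.core = {v, n} := by
  obtain ⟨y, o, hsw, -, hcore, hFs⟩ := st2_data hd h2
  obtain ⟨f, p, x', y', hS⟩ := hsw.toSw h.reg h.hk h.nt h.lev
  rw [hcore, Finset.mem_insert, Finset.mem_singleton] at hv
  rcases hv with rfl | rfl
  · exact ⟨y, f, o, p, x', y', hS, hFs, hcore⟩
  · exact ⟨u, f, o, p, y', x', hS.swapS, by rw [hFs, opts_comm], by
      rw [hcore, Finset.pair_comm]⟩

theorem exists_oper (h : Ctx G k S X Y) (hdat : DatOK G S X dat) {a : V × V}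
    (ha : a ∈ arms G S X) (h2 : (dat a).st = 2) (hal : Al G S dat R a) :
    ∃ x y e f o p x' y', Oper G S X dat R a x y e f o p x' y' := by
  obtain ⟨F, hF, hfree⟩ := hal
  simp only at hF
  obtain ⟨y, o, hsw, -, hcore, hFs⟩ := st2_data (hdat a ha) h2
  obtain ⟨f, p, x', y', hS⟩ := hsw.toSw h.reg h.hk h.nt h.lev
  rw [hFs] at hF
  rcases mem_opts.1 hF with ⟨h3, h4⟩ | ⟨h3, h4⟩
  · rw [pt_eq hS.sy] at h3 h4
    subst h4
    exact ⟨_, _, _, _, _, _, _, _, ⟨ha, h2, hS, h3, hFs, hfree⟩⟩
  · rw [pt_eq hS.sx] at h3 h4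
    subst h4
    exact ⟨_, _, _, _, _, _, _, _, ⟨ha, h2, hS.swapS, h3, by rw [hFs, opts_comm], hfree⟩⟩

theorem dies_meet {F : Finset V} {a' : V × V} (hd : Di G S dat R F a') :
    ∃ F' ∈ (dat a').Fs, Disjoint (ter G S F') R ∧ ∃ w ∈ ter G S F', w ∈ ter G S F := by
  obtain ⟨⟨F', hF', hfree⟩, hnot⟩ := hd
  refine ⟨F', hF', hfree, ?_⟩
  by_contra hcon
  push Not at hcon
  apply hnot
  refine ⟨F', hF', ?_⟩
  rw [Finset.disjoint_union_right]
  exact ⟨hfree, Finset.disjoint_left.2 hcon⟩

/-- An arm in `Low` has stage at least two and is touched. -/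
theorem low_cases {F : Finset V} {a' : V × V}
    (least : ∀ a' ∈ arms G S X, Al G S dat R a' → 2 ≤ (dat a').st)
    (ha' : a' ∈ arms G S X) (hl : Low G S dat R F a') :
    2 ≤ (dat a').st ∧ (∃ w ∈ ter G S F, Hit G S (dat a') w) ∧
      ((dat a').st = 2 → Di G S dat R F a') := by
  rcases hl with ⟨h1, h2⟩ | ⟨h1, h2⟩
  · refine ⟨least a' ha' h2.1, ?_, fun _ => h2⟩
    obtain ⟨F', hF', -, w, hw, hw2⟩ := dies_meet h2
    exact ⟨w, hw2, Or.inl ⟨F', hF', hw⟩⟩
  · refine ⟨by omega, ?_, fun h3 => by omega⟩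
    rcases h2 with ⟨F', hF', h3⟩ | h3
    · obtain ⟨w, hw, hw2⟩ := Finset.not_disjoint_iff.1 h3
      exact ⟨w, hw2, Or.inl ⟨F', hF', hw⟩⟩
    · obtain ⟨w, hw, hw2⟩ := Finset.not_disjoint_iff.1 h3
      exact ⟨w, hw2, Or.inr hw⟩

/-- A switch vertex whose partner is a site: its arms have stage two. -/
theorem st_two (h : Ctx G k S X Y) {u b : V} {d : Dat V} (hd : AD G S u b d) {v m : V}
    (hv : v ∈ d.core) (hm : Mate G S v m) (hp : pt G S v ∈ sites G S) : d.st = 2 := by
  obtain ⟨-, h1⟩ := core_mate h hd hv hm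
  obtain ⟨-, -, -, -, -, -, -, c8, -⟩ := core_facts h hd
  rcases h1 with h1 | h1
  · exact h1
  · exact absurd hp (c8 v hv h1)

theorem tch_x (h : Ctx G k S X Y) {x y e f o p x' y' : V} (hS : Sw G S x y e f o p x' y')
    {u b : V} {d : Dat V} (hd : AD G S u b d) (ht : Tch d x y x' y') :
    x ∈ d.core ∨ y' ∈ d.core ∨ x' ∈ d.core ∨ x' ∈ d.s1 ∨ x' ∈ d.s2 := by
  rcases ht with h1 | h1 | h1 | h1 | h1 | h1
  · exact Or.inl h1
  · exact Or.inl (core_mate h hd h1 hS.mate.symm).1
  · exact Or.inr (Or.inl h1)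
  · exact Or.inr (Or.inr (Or.inl h1))
  · exact Or.inr (Or.inr (Or.inr (Or.inl h1)))
  · exact Or.inr (Or.inr (Or.inr (Or.inr h1)))

/-- The core, the other partner. -/
def Ess (d : Dat V) (x x' : V) : Prop := x ∈ d.core ∨ x' ∈ d.core ∨ x' ∈ d.s1 ∨ x' ∈ d.s2

/-- The target is in a switch. -/
theorem catI (h : Ctx G k S X Y) (hdat : DatOK G S X dat)
    (least : ∀ a' ∈ arms G S X, Al G S dat R a' → 2 ≤ (dat a').st)
    {a : V × V} {x y e f o p x' y' : V} (hO : Oper G S X dat R a x y e f o p x' y') {m : V}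
    (hm : Mate G S y' m) {a' : V × V} (ha' : a' ∈ arms G S X)
    (hl : Low G S dat R {x, e, y'} a') :
    Ess (dat a') x x' ∨ (y' ∈ (dat a').core ∧ Al G S dat R a') ∨
      (pt G S m ∈ (dat a').core ∧ (dat a').st = 2 ∧ Di G S dat R {x, e, y'} a') := by
  have hS := hO.sw
  have hd := hdat a' ha'
  obtain ⟨h2, ⟨w, hw, ht⟩, hdie⟩ := low_cases least ha' hl
  rcases hit2 h hS hO.hy hw ha' hd h2 ht with h3 | ⟨h3, m', hm', h4⟩ | ⟨-, h3, -⟩
  · rcases tch_x h hS hd h3 with h4 | h4 | h4 | h4 | h4
    · exact Or.inl (Or.inl h4)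
    · have := st_two h hd h4 hm (by rw [pt_eq hS.sy']; exact hS.ysite)
      exact Or.inr (Or.inl ⟨h4, (hdie this).1⟩)
    · exact Or.inl (Or.inr (Or.inl h4))
    · exact Or.inl (Or.inr (Or.inr (Or.inl h4)))
    · exact Or.inl (Or.inr (Or.inr (Or.inr h4)))
  · have := mate_unique h.reg h.nt h.dz h.lev hm' hm
    subst this
    exact Or.inr (Or.inr ⟨h4, h3, hdie h3⟩)
  · exact absurd hm (h3 m)

/-- The target is not in a switch. -/
theorem catII (h : Ctx G k S X Y) (hdat : DatOK G S X dat)
    (least : ∀ a' ∈ arms G S X, Al G S dat R a' → 2 ≤ (dat a').st)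
    {a : V × V} {x y e f o p x' y' : V} (hO : Oper G S X dat R a x y e f o p x' y')
    (hm : ∀ m, ¬ Mate G S y' m) {a' : V × V} (ha' : a' ∈ arms G S X)
    (hl : Low G S dat R {x, e, y'} a') :
    (Ess (dat a') x x' ∧ ((dat a').st = 2 → Al G S dat R a')) ∨ y' ∈ (dat a').core ∨
      ((dat a').st = 3 ∧ ∃ c ∈ op G S y', c ∈ op G S (dat a').res) := by
  have hS := hO.sw
  have hd := hdat a' ha'
  obtain ⟨h2, ⟨w, hw, ht⟩, hdie⟩ := low_cases least ha' hl
  rcases hit2 h hS hO.hy hw ha' hd h2 ht with h3 | ⟨h3, m', hm', h4⟩ | ⟨h3, -, h4⟩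
  · rcases tch_x h hS hd h3 with h4 | h4 | h4 | h4 | h4
    · exact Or.inl ⟨Or.inl h4, fun e1 => (hdie e1).1⟩
    · exact Or.inr (Or.inl h4)
    · exact Or.inl ⟨Or.inr (Or.inl h4), fun e1 => (hdie e1).1⟩
    · exact Or.inl ⟨Or.inr (Or.inr (Or.inl h4)), fun e1 => (hdie e1).1⟩
    · exact Or.inl ⟨Or.inr (Or.inr (Or.inr h4)), fun e1 => (hdie e1).1⟩
  · exact absurd hm' (hm m')
  · exact Or.inr (Or.inr ⟨h3, h4⟩)

section

open Classical

theorem cntA (h : Ctx G k S X Y) (hdat : DatOK G S X dat) {x y e f o p x' y' : V}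
    (hS : Sw G S x y e f o p x' y') :
    ((arms G S X).filter (fun a => Ess (dat a) x x')).card ≤ 8 := by
  by_cases hs : x' ∈ sites G S
  · refine card_union' (q := fun a : V × V => x ∈ (dat a).core)
      (r := fun a : V × V => x' ∈ (dat a).core) (m := 4) (n := 4) ?_ (cnt_core h hdat x)
      (cnt_core h hdat x')
    rintro a ha (h1 | h1 | h1 | h1)
    · exact Or.inl h1
    · exact Or.inr h1
    · exact absurd h1 (s1_not h (hdat a ha) hs)
    · exact absurd h1 (s2_not' h (hdat a ha) hs)
  · refine card_union' (q := fun a : V × V => x ∈ (dat a).core)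
      (r := fun a : V × V => x' ∈ (dat a).s1 ∨ x' ∈ (dat a).s2) (m := 4) (n := 4) ?_
      (cnt_core h hdat x) ?_
    · rintro a ha (h1 | h1 | h1)
      · exact Or.inl h1
      · exact absurd ((core_facts h (hdat a ha)).2.2.1 h1) hs
      · exact Or.inr h1
    · exact card_union' (q := fun a : V × V => x' ∈ (dat a).s1)
        (r := fun a : V × V => x' ∈ (dat a).s2) (m := 2) (n := 2) (fun a _ h1 => h1)
        (cnt_s1 h hdat x') (cnt_s2' h hdat (sd_of_single hS.sx'))

theorem cntB (h : Ctx G k S X Y) (hdat : DatOK G S X dat) {x y e f o p x' y' : V}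
    (hS : Sw G S x y e f o p x' y') (hn : ∀ m, ¬ Mate G S x' m) :
    ((arms G S X).filter (fun a => Ess (dat a) x x')).card ≤ 6 := by
  by_cases hs : x' ∈ sites G S
  · refine card_union' (q := fun a : V × V => x ∈ (dat a).core)
      (r := fun a : V × V => x' ∈ (dat a).core) (m := 4) (n := 2) ?_ (cnt_core h hdat x)
      (cnt_core2 h hdat hn)
    rintro a ha (h1 | h1 | h1 | h1)
    · exact Or.inl h1
    · exact Or.inr h1
    · exact absurd h1 (s1_not h (hdat a ha) hs)
    · exact absurd h1 (s2_not' h (hdat a ha) hs)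
  · have sx' : sd G S x' = 1 := sd_of_single hS.sx'
    have hor : ∀ a ∈ arms G S X, Ess (dat a) x x' →
        x ∈ (dat a).core ∨ (x' ∈ (dat a).s1 ∨ x' ∈ (dat a).s2) := by
      rintro a ha (h1 | h1 | h1)
      · exact Or.inl h1
      · exact absurd ((core_facts h (hdat a ha)).2.2.1 h1) hs
      · exact Or.inr h1
    by_cases hX : dom G S x ∈ X
    · have hX' : dom G S x' ∈ X := by
        have := dom_pt h (sd_of_single hS.sx)
        rw [pt_eq hS.sx] at this
        rw [this]; exact hX
      refine card_union' (q := fun a : V × V => x ∈ (dat a).core)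
        (r := fun a : V × V => x' ∈ (dat a).s1 ∨ x' ∈ (dat a).s2) (m := 4) (n := 2) hor
        (cnt_core h hdat x) ?_
      by_cases hc : ∃ c ∈ op G S x', sd G S c = 0
      · obtain ⟨c, hc, sc⟩ := hc
        exact card_union' (q := fun a : V × V => x' ∈ (dat a).s1)
          (r := fun a : V × V => x' ∈ (dat a).s2) (m := 1) (n := 1) (fun a _ h1 => h1)
          (cnt_s1X h hdat hX') (cnt_s2 h hdat sx' hc sc)
      · push Not at hc
        refine card_union' (q := fun a : V × V => x' ∈ (dat a).s1)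
          (r := fun a : V × V => x' ∈ (dat a).s2) (m := 0) (n := 2) (fun a _ h1 => h1)
          (card_zero' fun a ha h1 => ?_) (cnt_s2' h hdat sx')
        obtain ⟨h2, h3⟩ := side_ex h hdat ha h1
        exact hc _ h2 h3
    · refine card_union' (q := fun a : V × V => x ∈ (dat a).core)
        (r := fun a : V × V => x' ∈ (dat a).s1 ∨ x' ∈ (dat a).s2) (m := 2) (n := 4) hor ?_ ?_
      · refine card_mono' (q := fun a : V × V => a.1 = y) ?_ (cnt_fst h y)
        intro a ha h1
        rcases ((core_facts h (hdat a ha)).2.2.2.1 x h1).2 with h2 | h2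
        · exfalso
          apply hX
          rw [h2]
          exact arm_X ha
        · exact mate_unique h.reg h.nt h.dz h.lev h2.symm hS.mate
      · exact card_union' (q := fun a : V × V => x' ∈ (dat a).s1)
          (r := fun a : V × V => x' ∈ (dat a).s2) (m := 2) (n := 2) (fun a _ h1 => h1)
          (cnt_s1 h hdat x') (cnt_s2' h hdat sx')

/-- An operation with at most twelve arms in `Low` satisfies the bounds. -/
theorem oper_step (least : ∀ a' ∈ arms G S X, Al G S dat R a' → 2 ≤ (dat a').st)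
    {a : V × V} {x y e f o p x' y' : V} (hO : Oper G S X dat R a x y e f o p x' y')
    (hc : ((arms G S X).filter (fun a' => Low G S dat R {x, e, y'} a')).card ≤ 12) :
    StepOK (arms G S X) (fun a => (dat a).st) (fun a => (dat a).Fs) (ter G S)
      (fun a => tb G S (dat a)) R a {x, e, y'} where
  mem := hO.mem
  memf := hO.memF
  free := hO.free
  least := by
    intro a' ha' h1
    simp only [hO.st]
    exact least a' ha' h1
  dies := by
    refine card_mono' ?_ hc
    intro a' ha' h1
    by_cases h2 : (dat a').st ≤ 2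
    · exact Or.inl ⟨h2, h1⟩
    · right
      refine ⟨by omega, Or.inl ?_⟩
      obtain ⟨F', hF', -, w, hw, hw2⟩ := dies_meet h1
      exact ⟨F', hF', Finset.not_disjoint_iff.2 ⟨w, hw, hw2⟩⟩
  low := by
    intro _
    refine card_mono' (q := fun a' => Low G S dat R {x, e, y'} a') ?_ hc
    intro a' _ h1
    exact h1
  mid := by
    intro h1
    simp only [hO.st] at h1
    omega
  high := by
    intro h1
    simp only [hO.st] at h1
    omega

end

end Bnd2Aux

open Bnd2Aux

open Classical in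
/-- The step of stage two. -/
theorem step2 (h : Ctx G k S X Y) (hdat : DatOK G S X dat) (R : Finset V)
    (least : ∀ a' ∈ arms G S X, Alive (fun a => (dat a).Fs) (ter G S) R a' → 2 ≤ (dat a').st)
    (hal : ∃ a ∈ arms G S X, (dat a).st = 2 ∧ Alive (fun a => (dat a).Fs) (ter G S) R a) :
    ∃ a F, StepOK (arms G S X) (fun a => (dat a).st) (fun a => (dat a).Fs) (ter G S)
      (fun a => tb G S (dat a)) R a F := by
  by_cases hI : ∃ a x y e f o p x' y' m, Oper G S X dat R a x y e f o p x' y' ∧ Mate G S y' m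
  · obtain ⟨a, x, y, e, f, o, p, x', y', m, hO, hm⟩ := hI
    have hS := hO.sw
    have hcat := fun a' ha' hl => catI h hdat least hO hm (a' := a') ha' hl
    by_cases c1 : ∀ a' ∈ arms G S X, y' ∈ (dat a').core → ¬ Al G S dat R a'
    · refine ⟨a, _, oper_step least hO ?_⟩
      refine card_union' (q := fun a' : V × V => Ess (dat a') x x')
        (r := fun a' : V × V => pt G S m ∈ (dat a').core) (m := 8) (n := 4) ?_
        (cntA h hdat hS) (cnt_core h hdat _)
      intro a' ha' hl
      rcases hcat a' ha' hl with h1 | ⟨h1, h2⟩ | ⟨h1, -⟩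
      · exact Or.inl h1
      · exact absurd h2 (c1 a' ha' h1)
      · exact Or.inr h1
    by_cases c2 : ∀ a' ∈ arms G S X, pt G S m ∈ (dat a').core → (dat a').st = 2 →
        ¬ Di G S dat R {x, e, y'} a'
    · refine ⟨a, _, oper_step least hO ?_⟩
      refine card_union' (q := fun a' : V × V => Ess (dat a') x x')
        (r := fun a' : V × V => y' ∈ (dat a').core) (m := 8) (n := 4) ?_
        (cntA h hdat hS) (cnt_core h hdat _)
      intro a' ha' hl
      rcases hcat a' ha' hl with h1 | ⟨h1, h2⟩ | ⟨h1, h2, h3⟩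
      · exact Or.inl h1
      · exact Or.inr h1
      · exact absurd h3 (c2 a' ha' h1 h2)
    by_cases c3 : pt G S m = x ∨ pt G S m = y ∨ pt G S m = x' ∨ Mate G S (pt G S m) x'
    · refine ⟨a, _, oper_step least hO ?_⟩
      refine card_union' (q := fun a' : V × V => Ess (dat a') x x')
        (r := fun a' : V × V => y' ∈ (dat a').core) (m := 8) (n := 4) ?_
        (cntA h hdat hS) (cnt_core h hdat _)
      intro a' ha' hl
      rcases hcat a' ha' hl with h1 | ⟨h1, h2⟩ | ⟨h1, h2, h3⟩
      · exact Or.inl h1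
      · exact Or.inr h1
      · left
        rcases c3 with h4 | h4 | h4 | h4
        · rw [h4] at h1; exact Or.inl h1
        · rw [h4] at h1
          exact Or.inl (core_mate h (hdat a' ha') h1 hS.mate.symm).1
        · rw [h4] at h1; exact Or.inr (Or.inl h1)
        · exact Or.inr (Or.inl (core_mate h (hdat a' ha') h1 h4).1)
    -- the special operation
    push Not at c1 c2 c3
    obtain ⟨a2, ha2, hc2, hal2⟩ := c1
    obtain ⟨a4, ha4, hc4, st4, hdie4⟩ := c2
    obtain ⟨c31, c32, c33, c34⟩ := c3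
    have hms : m ∈ sites G S := hm.2.1
    have pm : pt G S (pt G S m) = m := pt_pt h hms
    have hd2 := hdat a2 ha2
    have hd4 := hdat a4 ha4
    have hm's : pt G S m ∈ sites G S := (core_facts h hd4).2.2.1 hc4
    have st2' : (dat a2).st = 2 :=
      st_two h hd2 hc2 hm (by rw [pt_eq hS.sy']; exact hS.ysite)
    obtain ⟨n, f4, o4, p4, v4, n', hS4, hFs4, hcore4⟩ := st2_data' h hd4 st4 hc4
    obtain ⟨m2, f2, o2, p2, v2, n2, hS2, hFs2, hcore2⟩ := st2_data' h hd2 st2' hc2
    have e1 : m2 = m := mate_unique h.reg h.nt h.dz h.lev hS2.mate hm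
    subst e1
    have e2 : v2 = y := by rw [← pt_eq hS2.sx, pt_eq hS.sy']
    have e3 : n2 = pt G S m2 := (pt_eq hS2.sy).symm
    have e4 : v4 = m2 := by rw [← pt_eq hS4.sx, pm]
    subst e2 e3 e4
    -- the option of `C4` away from `m` is not free
    have hnf : n' ∈ sites G S → ¬ Disjoint (ter G S {pt G S v4, a4.2, n'}) R := by
      intro hn' hfr
      have hFmem : ({pt G S v4, a4.2, n'} : Finset V) ∈ (dat a4).Fs := by
        rw [hFs4, mem_opts, pt_eq hS4.sy]
        exact Or.inl ⟨hn', rfl⟩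
      have hnot : ¬ Disjoint (ter G S {pt G S v4, a4.2, n'}) (R ∪ ter G S {x, e, y'}) :=
        fun h1 => hdie4.2 ⟨_, hFmem, h1⟩
      rw [Finset.disjoint_union_right] at hnot
      have hnot2 : ¬ Disjoint (ter G S {pt G S v4, a4.2, n'}) (ter G S {x, e, y'}) :=
        fun h1 => hnot ⟨hfr, h1⟩
      obtain ⟨w, hw, hw2⟩ := Finset.not_disjoint_iff.1 hnot2
      have uniq : ∀ {z1 z2 z3 : V}, Mate G S z1 z2 → Mate G S z1 z3 → z2 = z3 := fun h1 h2 =>
        mate_unique h.reg h.nt h.dz h.lev h1 h2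
      rcases meet2 h hS hO.hy hS4 hn' hw2 hw with
        ((h1 | h1 | h1 | h1) | (h1 | h1 | h1 | h1)) | h1
      · exact c31 h1
      · exact c32 h1
      · exact c33 h1
      · -- pt m = y'
        have h2 : v4 = v2 := by rw [← pm, h1, pt_eq hS.sy']
        apply hm.2.2.2.1
        rw [h2, hS.sy']; simp
      · rw [h1] at hS4
        exact c32 (uniq hS4.mate.symm hS.mate)
      · rw [h1] at hS4
        exact c31 (uniq hS4.mate.symm hS.mate.symm)
      · rw [h1] at hS4
        exact c34 hS4.mate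
      · rw [h1] at hS4
        have h2 := uniq hS4.mate.symm hm
        exact (pt_all h.lev (StructAux.mem_sites.1 hms).2.1).2.2.2.2.1 h2
      · have h2 := uniq h1 hm
        have h3 : n = pt G S v4 := by rw [← pt_eq hS4.sy', h2]
        exact hS4.xy h3.symm
    -- the option of `C4` towards `m` is free
    have hfr4 : Disjoint (ter G S {n, a4.2, v4}) R := by
      obtain ⟨F, hF, hfr⟩ := hdie4.1
      simp only [hFs4] at hF
      rcases mem_opts.1 hF with ⟨h1, h2⟩ | ⟨h1, h2⟩
      · rw [pt_eq hS4.sy] at h1 h2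
        rw [h2] at hfr
        exact absurd hfr (hnf h1)
      · rw [pt_eq hS4.sx] at h2
        rw [h2] at hfr
        exact hfr
    -- the operation of `C2` towards `C4` is free
    obtain ⟨F2, hF2, hfr2⟩ := hal2
    simp only [hFs2] at hF2
    obtain ⟨i, j, hij, hop⟩ := Finset.card_eq_two.1 (CntAux.site_op h.reg hm's)
    obtain ⟨i', j', hij', hop'⟩ := Finset.card_eq_two.1 (CntAux.site_op h.reg hms)
    have hO2 : Oper G S X dat R a2 y' v4 a2.2 f2 o2 p2 v2 (pt G S v4) := by
      refine ⟨ha2, st2', hS2, hm's, hFs2, ?_⟩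
      rw [Finset.disjoint_left]
      intro w hw hwR
      have hcore : ((w = y' ∨ w = v2 ∨ w = v4 ∨ w = pt G S v4) ∨ (w = a2.2 ∨ w = f2) ∨ w = o2) →
          False := fun h1 => Finset.disjoint_left.1 hfr2 (opt_core h hS2 hF2 h1) hwR
      rcases (ter_opt h hS2 hm's hop w).1 hw with h1 | h1 | h1 | h1
      · exact hcore (Or.inl h1)
      · exact hcore (Or.inr (Or.inl h1))
      · have h2 : w ∈ op G S (pt G S v4) := by
          rw [hop, Finset.mem_insert, Finset.mem_singleton]; exact h1
        rw [hS4.ox, Finset.mem_insert, Finset.mem_singleton] at h2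
        exact Finset.disjoint_left.1 hfr4
          ((ter_opt h hS4.swapS hms hop' w).2 (Or.inr (Or.inl h2))) hwR
      · exact hcore (Or.inr (Or.inr h1))
    refine ⟨a2, _, oper_step least hO2 ?_⟩
    refine card_union' (q := fun a' : V × V => Ess (dat a') y' v2)
      (r := fun a' : V × V => pt G S v4 ∈ (dat a').core) (m := 8) (n := 4) ?_
      (cntA h hdat hS2) (cnt_core h hdat _)
    intro a' ha' hl
    rcases catI h hdat least hO2 hS4.mate ha' hl with h1 | ⟨h1, h2⟩ | ⟨h1, h2, h3⟩
    · exact Or.inl h1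
    · exact Or.inr h1
    · exfalso
      rw [pt_eq hS4.sy] at h1
      have hn' : n' ∈ sites G S := (core_facts h (hdat a' ha')).2.2.1 h1
      obtain ⟨c, hc, hcR⟩ := opt_other h hS4.swapS hms hn' hfr4 (hnf hn')
      obtain ⟨F, hF, hfr⟩ := h3.1
      exact dead_end h (hdat a' ha') h2 h1 hc hcR hF hfr
  · -- no free operation with target in a switch
    obtain ⟨a, ha, st2', hal⟩ := hal
    obtain ⟨x, y, e, f, o, p, x', y', hO⟩ := exists_oper h hdat ha st2' hal
    have hS := hO.sw
    have hm : ∀ m, ¬ Mate G S y' m := fun m hm => hI ⟨a, x, y, e, f, o, p, x', y', m, hO, hm⟩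
    refine ⟨a, _, oper_step least hO ?_⟩
    have hcat := fun a' ha' hl => catII h hdat least hO hm (a' := a') ha' hl
    obtain ⟨i, j, hij, hop⟩ := Finset.card_eq_two.1 (CntAux.site_op h.reg hO.hy)
    have hres : ((arms G S X).filter (fun a' : V × V => (dat a').st = 3 ∧
        ∃ c ∈ op G S y', c ∈ op G S (dat a').res)).card ≤ 4 := by
      refine card_union' (q := fun a' : V × V => (dat a').st = 3 ∧ i ∈ op G S (dat a').res)
        (r := fun a' : V × V => (dat a').st = 3 ∧ j ∈ op G S (dat a').res) (m := 2) (n := 2) ?_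
        (cnt_res3 h hdat hO.hy hm (by rw [hop]; simp))
        (cnt_res3 h hdat hO.hy hm (by rw [hop]; simp))
      rintro a' ha' ⟨h1, c, hc, h2⟩
      rw [hop, Finset.mem_insert, Finset.mem_singleton] at hc
      rcases hc with rfl | rfl
      · exact Or.inl ⟨h1, h2⟩
      · exact Or.inr ⟨h1, h2⟩
    have hrest : ((arms G S X).filter (fun a' : V × V => Ess (dat a') x x' ∧
        ((dat a').st = 2 → Al G S dat R a'))).card ≤ 6 := by
      by_cases hm' : ∃ m, Mate G S x' m
      · obtain ⟨m, hm'⟩ := hm'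
        have hx's : x' ∈ sites G S := hm'.1
        have hnf : ¬ Disjoint (ter G S {y, e, x'}) R := by
          intro hfr
          exact hI ⟨a, y, x, e, f, o, p, y', x', m,
            ⟨ha, st2', hS.swapS, hx's, by rw [hO.hFs, opts_comm], hfr⟩, hm'⟩
        obtain ⟨c, hc, hcR⟩ := opt_other h hS hO.hy hx's hO.free hnf
        refine (card_mono' (q := fun a' : V × V => x ∈ (dat a').core) ?_
          (cnt_core h hdat x)).trans (by norm_num)
        rintro a' ha' ⟨h1 | h1 | h1 | h1, h2⟩
        · exact h1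
        · exfalso
          have h3 := st_two h (hdat a' ha') h1 hm' (by rw [pt_eq hS.sx']; exact hS.xsite)
          obtain ⟨F, hF, hfr⟩ := h2 h3
          exact dead_end h (hdat a' ha') h3 h1 hc hcR hF hfr
        · exact absurd h1 (s1_not h (hdat a' ha') hx's)
        · exact absurd h1 (s2_not' h (hdat a' ha') hx's)
      · push Not at hm'
        exact card_mono' (fun a' _ h1 => h1.1) (cntB h hdat hS hm')
    refine card_union' (q := fun a' : V × V => Ess (dat a') x x' ∧
        ((dat a').st = 2 → Al G S dat R a'))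
      (r := fun a' : V × V => y' ∈ (dat a').core ∨
        ((dat a').st = 3 ∧ ∃ c ∈ op G S y', c ∈ op G S (dat a').res)) (m := 6) (n := 6)
      hcat hrest ?_
    exact card_union' (q := fun a' : V × V => y' ∈ (dat a').core)
      (r := fun a' : V × V => (dat a').st = 3 ∧ ∃ c ∈ op G S y', c ∈ op G S (dat a').res)
      (m := 2) (n := 4) (fun a' _ h1 => h1) (cnt_core2 h hdat hm) hres

end Pool.Agent.Lib.AndoD
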