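import Pool.Agent.Lib.AndoD.P1
import Pool.Agent.Lib.AndoC.Slide

/-!
# AndoD.P2: the O-vertices at a centre of stage one

`r` in O is adjacent to the centre of a LEAF / S / 5a arm of the site `u`.  Then the two other
neighbours of `r` are not both ends of switches with the third neighbour `r`.
-/

set_option autoImplicit false
set_option linter.unusedSectionVars false
set_option linter.unusedSimpArgs false

namespace Pool.Agent.Lib.AndoD

open Pool.Agent.Lib.Ando Pool.Agent.Lib.AndoC

variable {V : Type*} [Fintype V] [DecidableEq V] {G : SimpleGraph V} [DecidableRel G.Adj]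

open SwAux SwFlipAux

variable {S : Finset V} {r : V}

namespace P2Aux

/-- Two switches with different ends at the same third neighbour are disjoint. -/
theorem disj (hG : G.IsRegularOfDegree 3) {k : ℕ} (hk : 1 ≤ k) (hA : NoTriple G k)
    (hz : DZ G k) (hL : Level G k S) {x y e x2 y2 e2 : V} (h1 : SwE G S x y e r)
    (h2 : SwE G S x2 y2 e2 r) (hne : e ≠ e2) (z : V) (hz1 : z = x ∨ z = y)
    (hz2 : z = x2 ∨ z = y2) : False := by
  obtain ⟨f, p, x', y', h⟩ := h1.toSw hG hk hA hL
  -- z lies in both switches: so `e2` is an end of the first one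
  have he2 : e2 ∈ op G S z := by
    rcases hz2 with rfl | rfl
    · exact h2.xe
    · obtain ⟨-, -, -, -, h5⟩ := h2.mate
      rw [← h5]; exact h2.xe
  have hop : op G S z = {e, f} := by
    rcases hz1 with rfl | rfl
    · exact h.ox
    · exact h.oy
  rw [hop] at he2
  simp only [Finset.mem_insert, Finset.mem_singleton] at he2
  rcases he2 with h3 | h3
  · exact hne h3.symm
  · have : r ∈ op G S f := by rw [← h3, h2.oe]; simp
    rw [h.of] at this
    simp only [Finset.mem_insert, Finset.mem_singleton] at this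
    rcases this with h4 | h4 | h4
    · exact h.xo h4.symm
    · exact h.yo h4.symm
    · exact h.op' h4

/-- The exchange argument: the partner of `u` is outside one of the two switches. -/
theorem wlog_aux (hG : G.IsRegularOfDegree 3) {k : ℕ} (hk : 1 ≤ k) (hA : NoTriple G k)
    (hz : DZ G k) (hL : Level G k S) {x y e x2 y2 e2 v : V} (h1 : SwE G S x y e r)
    (h2 : SwE G S x2 y2 e2 r) (hne : e ≠ e2) :
    (v ≠ x ∧ v ≠ y) ∨ (v ≠ x2 ∧ v ≠ y2) := by
  by_contra hcon
  have a : v = x ∨ v = y := by tauto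
  have b : v = x2 ∨ v = y2 := by tauto
  exact disj hG hk hA hz hL h1 h2 hne v a b

/-- `u` is a site in no switch, with partner `v` outside `x`, `y`. -/
theorem outside {x y e f o p x' y' u v : V} (h : Sw G S x y e f o p x' y')
    (nm : ∀ y, ¬ Mate G S u y) (su : sm G S u = {v}) (v1 : v ≠ x) (v2 : v ≠ y) :
    u ≠ x ∧ u ≠ y ∧ u ≠ x' ∧ u ≠ y' := by
  refine ⟨fun h3 => nm y (h3 ▸ h.mate), fun h3 => nm x (h3 ▸ h.mate.symm), ?_, ?_⟩
  · intro h3
    rw [h3, h.sx'] at su
    exact v1 (Finset.singleton_injective su).symm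
  · intro h3
    rw [h3, h.sy'] at su
    exact v2 (Finset.singleton_injective su).symm

/-- First half, with the partner of `u` outside the first switch. -/
theorem half1 (hG : G.IsRegularOfDegree 3) {k : ℕ} (hk : 1 ≤ k) (hA : NoTriple G k)
    (hL : Level G k S) {x y e x2 y2 e2 u v b : V} (h1 : SwE G S x y e r)
    (h2 : SwE G S x2 y2 e2 r) (hne : e ≠ e2) (sr : sd G S r = 0)
    (hu : u ∈ sites G S) (nm : ∀ y, ¬ Mate G S u y) (hb : b ∈ op G S u) (hr : r ∈ op G S b)
    (su : sm G S u = {v}) (v1 : v ≠ x) (v2 : v ≠ y) : False := by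
  obtain ⟨f, p, x', y', h⟩ := h1.toSw hG hk hA hL
  obtain ⟨uS, sdu, zu⟩ := StructAux.mem_sites.1 hu
  obtain ⟨a1, a2, a3, a4⟩ := outside h nm su v1 v2
  obtain ⟨m1, m2, m3, m4, m5⟩ := h2.mate
  have smr : sm G S r = ∅ := sm_empty sr
  obtain ⟨be, bf⟩ := h.site_ne smr sdu a1 a2 a3 a4 hb
  have bS := StructAux.op_black uS hb
  have be2 : b ≠ e2 := by
    intro h3
    have : u ∈ op G S e2 := op_symm (h3 ▸ hb)
    rw [h2.oe] at this
    simp only [Finset.mem_insert, Finset.mem_singleton] at this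
    rcases this with h4 | h4 | h4
    · exact nm y2 (h4 ▸ h2.mate)
    · exact nm x2 (h4 ▸ h2.mate.symm)
    · rw [h4, sr] at sdu; omega
  have ce : e ∈ op G S r := op_symm (by rw [h1.oe]; simp)
  have ce2 : e2 ∈ op G S r := op_symm (by rw [h2.oe]; simp)
  have cb : b ∈ op G S r := op_symm hr
  have hc : (op G S r).card = 3 := by
    have := sd_add_op hG S r
    omega
  have oo : op G S r = {e, b, e2} := by
    symm
    apply Finset.eq_of_subset_of_card_le
    · intro z hz
      simp only [Finset.mem_insert, Finset.mem_singleton] at hz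
      rcases hz with rfl | rfl | rfl
      · exact ce
      · exact cb
      · exact ce2
    · rw [hc, Finset.card_eq_three.2 ⟨e, b, e2, be.symm, hne, be2, rfl⟩]
  have key := p1c hG hk hA hL h smr oo be.symm hne be2 (zu b hb)
    ((StructAux.mem_sites.1 m1).2.2 e2 h2.xe) hu hb a1 a2 a3 a4
  have : u ∈ op G S e2 := op_symm (by rw [key]; simp)
  rw [h2.oe] at this
  simp only [Finset.mem_insert, Finset.mem_singleton] at this
  rcases this with h4 | h4 | h4
  · exact nm y2 (h4 ▸ h2.mate)
  · exact nm x2 (h4 ▸ h2.mate.symm)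
  · rw [h4, sr] at sdu; omega

end P2Aux

/-- (P2) for a centre in Z. -/
theorem p2_site (hG : G.IsRegularOfDegree 3) {k : ℕ} (hk : 1 ≤ k) (hA : NoTriple G k)
    (hz : DZ G k) (hL : Level G k S) {x y e x2 y2 e2 u b : V} (h1 : SwE G S x y e r)
    (h2 : SwE G S x2 y2 e2 r) (hne : e ≠ e2) (sr : sd G S r = 0)
    (hu : u ∈ sites G S) (nm : ∀ y, ¬ Mate G S u y) (hb : b ∈ op G S u) (hr : r ∈ op G S b) :
    False := by
  obtain ⟨v, su⟩ := StructAux.sd_one (StructAux.mem_sites.1 hu).2.1
  rcases P2Aux.wlog_aux hG hk hA hz hL (v := v) h1 h2 hne with ⟨v1, v2⟩ | ⟨v1, v2⟩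
  · exact P2Aux.half1 hG hk hA hL h1 h2 hne sr hu nm hb hr su v1 v2
  · exact P2Aux.half1 hG hk hA hL h2 h1 hne.symm sr hu nm hb hr su v1 v2

namespace P2Aux

/-- Second half, with the partner of `u` outside the first switch. -/
theorem half2 (hG : G.IsRegularOfDegree 3) {k : ℕ} (hk : 1 ≤ k) (hA : NoTriple G k)
    (hL : Level G k S) {x y e x2 y2 e2 u v b q q' l m s t : V} (h1 : SwE G S x y e r)
    (h2 : SwE G S x2 y2 e2 r) (hne : e ≠ e2) (sr : sd G S r = 0)
    (hc : Cap G S u b q q' l m s t) (hr : r ∈ op G S m)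
    (su : sm G S u = {v}) (v1 : v ≠ x) (v2 : v ≠ y) : False := by
  obtain ⟨f, p, x', y', h⟩ := h1.toSw hG hk hA hL
  have hu := hc.us
  have nm := hc.nm
  have hb := hc.ub
  obtain ⟨uS, sdu, zu⟩ := StructAux.mem_sites.1 hu
  obtain ⟨a1, a2, a3, a4⟩ := outside h nm su v1 v2
  obtain ⟨m1, m2, m3, m4, m5⟩ := h2.mate
  have smr : sm G S r = ∅ := sm_empty sr
  have bS := StructAux.op_black uS hb
  have sb := zu b hb
  have sdq : sd G S q = 1 := sd_of_single hc.sq
  have sdq' : sd G S q' = 1 := sd_of_single hc.sq'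
  have hqb : q ∈ op G S b := by rw [hc.ob]; simp
  have hqb' : q' ∈ op G S b := by rw [hc.ob]; simp
  have qS : q ∈ S := StructAux.op_white bS hqb
  have qS' : q' ∈ S := StructAux.op_white bS hqb'
  have hlq : l ∈ op G S q := by rw [hc.oq]; simp
  have lS : l ∉ S := StructAux.op_black qS hlq
  have sdl : sd G S l = 1 := sd_of_single hc.sl
  have sdm : sd G S m = 1 := sd_of_single hc.sm'
  have mS : m ∉ S := by
    intro h3
    have : m ∈ sm G S l := by rw [hc.sl]; simp
    exact lS ((mem_sm.1 this).2.1 h3)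
  have rS := h.oS
  -- the other black neighbour of u
  obtain ⟨b', ou, bb'⟩ := StructAux.card_two (BasicAux.op_card_two hG sdu) hb
  have hb' : b' ∈ op G S u := by rw [ou]; simp
  have bS' := StructAux.op_black uS hb'
  have sb' := zu b' hb'
  obtain ⟨be, bf⟩ := h.site_ne smr sdu a1 a2 a3 a4 hb
  obtain ⟨be', bf'⟩ := h.site_ne smr sdu a1 a2 a3 a4 hb'
  have nend : ∀ {c : V}, c ∈ op G S u → c ≠ e2 := by
    intro c hc1 h3
    have : u ∈ op G S e2 := op_symm (h3 ▸ hc1)
    rw [h2.oe] at this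
    simp only [Finset.mem_insert, Finset.mem_singleton] at this
    rcases this with h4 | h4 | h4
    · exact nm y2 (h4 ▸ h2.mate)
    · exact nm x2 (h4 ▸ h2.mate.symm)
    · rw [h4, sr] at sdu; omega
  -- q and q' are no sites
  have qns : q ∉ sites G S := by
    intro h3
    have := (StructAux.mem_sites.1 h3).2.2 l hlq
    omega
  have quS : ∀ {z : V}, z ∈ S → z ∈ sm G S u → z = v := by
    intro z _ h3
    rw [su, Finset.mem_singleton] at h3
    exact h3
  have qns' : q' ∉ sites G S := by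
    intro h3
    obtain ⟨g, og, bg⟩ := StructAux.card_two (BasicAux.op_card_two hG sdq') (op_symm hqb')
    have hna : ¬ G.Adj u q' := by
      intro h4
      have h5 : u ∈ sm G S q' := mem_sm.2 ⟨h4.symm, fun _ => qS', fun _ => uS⟩
      rw [hc.sq', Finset.mem_singleton] at h5
      exact hc.uq h5
    have h6 := fact3g hG hk hA hL bS sb hu h3 ou og bb' bg hc.uq' hna
    refine nm q' ⟨hu, h3, hc.uq', ?_, by rw [ou, og, h6]⟩
    intro h7
    exact hna (mem_sm.1 h7).1
  have q1 : q ≠ x := fun h3 => qns (h3 ▸ h.xsite)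
  have q2 : q ≠ y := fun h3 => qns (h3 ▸ h.ysite)
  have q3 : q ≠ x' := by
    intro h3
    have h4 := hc.sq
    rw [h3, h.sx'] at h4
    exact qns' ((Finset.singleton_injective h4) ▸ h.xsite)
  have q4 : q ≠ y' := by
    intro h3
    have h4 := hc.sq
    rw [h3, h.sy'] at h4
    exact qns' ((Finset.singleton_injective h4) ▸ h.ysite)
  -- the flip
  have hT := h.flip_level hG hL
  have hd := h.flip_desc
  set T : Finset V := symmDiff S {x, y, e, f} with hTdef
  obtain ⟨-, u1, u2⟩ := h.rest_U smr uS sdu a1 a2 a3 a4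
  obtain ⟨qT, r1, r2⟩ := h.rest_U smr qS sdq q1 q2 q3 q4
  have uT : u ∈ T := (h.rest_U smr uS sdu a1 a2 a3 a4).1.2 uS
  have le : l ≠ e := by
    intro h3
    rw [h3, sd_of_empty h.se] at sdl; omega
  have lf : l ≠ f := by
    intro h3
    rw [h3, sd_of_empty h.sf] at sdl; omega
  have me : m ≠ e := by
    intro h3
    rw [h3, sd_of_empty h.se] at sdm; omega
  have mf : m ≠ f := by
    intro h3
    rw [h3, sd_of_empty h.sf] at sdm; omega
  obtain ⟨bT, b1, b2⟩ := h.rest_B bS be bf
  obtain ⟨bT', b1', b2'⟩ := h.rest_B bS' be' bf'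
  obtain ⟨lT, l1, l2⟩ := h.rest_B lS le lf
  obtain ⟨mT, mm1, mm2⟩ := h.rest_B mS me mf
  -- e2
  have he2 : e2 ∈ op G S r := op_symm (by rw [h2.oe]; simp)
  have eS2 := h.port_black he2
  have f2 := h.port_ne he2
  have se2 : sd G S e2 = 0 := (StructAux.mem_sites.1 m1).2.2 e2 h2.xe
  obtain ⟨eT2, e1', e2'⟩ := h.rest_B eS2 hne.symm f2
  have ce : e ∈ op G S r := op_symm (by rw [h1.oe]; simp)
  have cm : m ∈ op G S r := op_symm hr
  have em2 : e2 ≠ m := by
    intro h3
    rw [h3] at se2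
    omega
  have hcr : (op G S r).card = 3 := by
    have := sd_add_op hG S r
    omega
  have oo : op G S r = {e, e2, m} := by
    symm
    apply Finset.eq_of_subset_of_card_le
    · intro z hz
      simp only [Finset.mem_insert, Finset.mem_singleton] at hz
      rcases hz with rfl | rfl | rfl
      · exact ce
      · exact he2
      · exact cm
    · rw [hcr, Finset.card_eq_three.2 ⟨e, e2, m, hne, me.symm, em2, rfl⟩]
  have oT : op G T r = {e2, m} := by
    rw [hTdef, hd.opo smr, oo]
    ext z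
    simp only [Finset.mem_erase, Finset.mem_insert, Finset.mem_singleton]
    constructor
    · rintro ⟨h3, h4 | h4 | h4⟩
      · exact absurd h4 h3
      · exact Or.inl h4
      · exact Or.inr h4
    · rintro (h3 | h3)
      · exact ⟨fun h4 => hne (h4.symm.trans h3), Or.inr (Or.inl h3)⟩
      · exact ⟨fun h4 => me (h3.symm.trans h4), Or.inr (Or.inr h3)⟩
  -- the third neighbour of m
  obtain ⟨t', om, rt⟩ := StructAux.card_two (BasicAux.op_card_two hG sdm) hr
  have ht' : t' ∈ op G S m := by rw [om]; simp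
  have hzl : ZL G T r e e2 m l t' :=
    { wS := hd.oT
      sw := hd.smo
      ow := oT
      bl := em2
      sb := by unfold sd; rw [hTdef, e1']; exact se2
      sl := by rw [hTdef, mm1]; exact hc.sm'
      ol := by rw [hTdef, mm2, om]
      pw := rt.symm }
  have hsl := slide_desc hG hT hk hzl
  have hT2 := slide_level hG hT hk hzl
  set T2 : Finset V := symmDiff T {r, m} with hT2def
  have um : u ≠ t' := by
    intro h3
    have : m ∈ op G S u := op_symm (h3 ▸ ht')
    have := zu m this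
    omega
  have qm : q ≠ t' := by
    intro h3
    have : m ∈ op G S q := op_symm (h3 ▸ ht')
    rw [hc.oq] at this
    simp only [Finset.mem_insert, Finset.mem_singleton] at this
    rcases this with h4 | h4
    · rw [h4] at sdm; omega
    · have h5 := (mem_sm.1 (show m ∈ sm G S l by rw [hc.sl]; simp)).1
      rw [h4] at h5
      exact G.irrefl h5
  have ur : u ≠ r := by
    intro h3
    rw [h3, sr] at sdu; omega
  have qr : q ≠ r := by
    intro h3
    rw [h3, sr] at sdq; omega
  have bm : b ≠ m := by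
    intro h3
    rw [h3] at sb; omega
  have bl := hc.bl
  have bm' : b' ≠ m := by
    intro h3
    rw [h3] at sb'; omega
  have bl' : b' ≠ l := by
    intro h3
    rw [h3] at sb'; omega
  have hw : ∀ {a c : V}, a ∈ S → c ∉ S → a ≠ c := fun h1 h2 => ne_of h1 h2
  have tS' : t' ∈ S := StructAux.op_white mS ht'
  obtain ⟨c1, c2, c3⟩ := hsl.rest u ur (hw uS h.eS) (hw uS eS2) (hw uS mS) (hw uS lS) um
  obtain ⟨d1, d2, d3⟩ := hsl.rest q qr (hw qS h.eS) (hw qS eS2) (hw qS mS) (hw qS lS) qm
  obtain ⟨g1, g2, g3⟩ := hsl.rest b (hw rS bS).symm be (nend hb) bm bl (hw tS' bS).symm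
  obtain ⟨k1, k2, k3⟩ := hsl.rest b' (hw rS bS').symm be' (nend hb') bm' bl' (hw tS' bS').symm
  have smb : sm G S b = ∅ := sm_empty sb
  have smb' : sm G S b' = ∅ := sm_empty sb'
  have sbT : sm G T2 b = ∅ := g2.trans (b1.trans smb)
  have sbT' : sm G T2 b' = ∅ := k2.trans (b1'.trans smb')
  have key := fact3g hG hk hA hT2 (b := b) (fun h3 => bS (bT.1 (g1.1 h3))) (sd_of_empty sbT)
    (sites_of (c1.2 uT) (c2.trans (u1.trans su)) (c3.trans (u2.trans ou)) (sd_of_empty sbT)
      (sd_of_empty sbT'))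
    (sites_of (d1.2 (qT.2 qS)) (d2.trans (r1.trans hc.sq)) (d3.trans (r2.trans hc.oq))
      (sd_of_empty sbT) (sd_of_empty hsl.smm))
    (c3.trans (u2.trans ou)) (d3.trans (r2.trans hc.oq)) bb' bl hc.uq ?_
  · exact bl' key
  · intro h3
    have h5 : u ∈ sm G S q := mem_sm.2 ⟨h3.symm, fun _ => qS, fun _ => uS⟩
    rw [hc.sq, Finset.mem_singleton] at h5
    exact hc.uq' h5

end P2Aux

/-- (P2) for the centre of a capped end. -/
theorem p2_cap (hG : G.IsRegularOfDegree 3) {k : ℕ} (hk : 1 ≤ k) (hA : NoTriple G k)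
    (hz : DZ G k) (hL : Level G k S) {x y e x2 y2 e2 u b q q' l m s t : V}
    (h1 : SwE G S x y e r) (h2 : SwE G S x2 y2 e2 r) (hne : e ≠ e2) (sr : sd G S r = 0)
    (hc : Cap G S u b q q' l m s t) (hr : r ∈ op G S m) : False := by
  obtain ⟨v, su⟩ := StructAux.sd_one (StructAux.mem_sites.1 hc.us).2.1
  rcases P2Aux.wlog_aux hG hk hA hz hL (v := v) h1 h2 hne with ⟨v1, v2⟩ | ⟨v1, v2⟩
  · exact P2Aux.half2 hG hk hA hL h1 h2 hne sr hc hr su v1 v2
  · exact P2Aux.half2 hG hk hA hL h2 h1 hne.symm sr hc hr su v1 v2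

/-- (P2): an O-vertex at the centre of an arm of stage one. -/
theorem p2 (hG : G.IsRegularOfDegree 3) {k : ℕ} (hk : 1 ≤ k) (hA : NoTriple G k)
    (hz : DZ G k) (hL : Level G k S) {x y e x2 y2 e2 u b : V} {d : Dat V}
    (h1 : SwE G S x y e r) (h2 : SwE G S x2 y2 e2 r) (hne : e ≠ e2) (sr : sd G S r = 0)
    (ha : AD G S u b d) (hd : d.st ≤ 1) (hr : r ∈ op G S d.cen) : False := by
  cases ha with
  | ub0 h3 hp hs => exact p2_site hG hk hA hz hL h1 h2 hne sr h3.us h3.nm h3.ub hr
  | ub1 h3 hp => exact p2_site hG hk hA hz hL h1 h2 hne sr h3.us h3.nm h3.ub hr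
  | cap1 h3 ht => exact p2_cap hG hk hA hz hL h1 h2 hne sr h3 hr
  | alp h3 hz => exact absurd hd (by norm_num)
  | nsw h3 hx hy hx' hi => exact absurd hd (by norm_num)
  | ub4 h3 => exact absurd hd (by norm_num)
  | cap4 h3 ht hn hq => exact absurd hd (by norm_num)
  | cap5 h3 ht => exact absurd hd (by norm_num)

end Pool.Agent.Lib.AndoD
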