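import Pool.Agent.Lib.AndoD.Cnt
import Pool.Agent.Lib.AndoD.P2

/-!
# AndoD.CntS: numbers of arms with a given side, a given resource, centres around an O-vertex

Text: /team-store/b1c9a2_caseA_h59.md, section 3.
-/

set_option autoImplicit false
set_option linter.unusedSectionVars false

namespace Pool.Agent.Lib.AndoD

open Pool.Agent.Lib.Ando Pool.Agent.Lib.AndoC

variable {V : Type*} [Fintype V] [DecidableEq V] {G : SimpleGraph V} [DecidableRel G.Adj]

open CntAux CoreAux ExADAux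

variable {k : ℕ} {S : Finset V} {X Y : Finset (Finset V)} {dat : V × V → Dat V}

theorem dom_pt (h : Ctx G k S X Y) {u : V} (su : sd G S u = 1) :
    dom G S (pt G S u) = dom G S u := by
  have hp := pt_all h.lev su
  unfold dom
  rw [hp.2.1, hp.1]
  exact Finset.pair_comm _ _

/-- A site has no neighbour in L. -/
theorem site_not {w l : V} (sl : sd G S l = 1) (hl : l ∈ op G S w) : w ∉ sites G S := by
  intro hs
  have := (StructAux.mem_sites.1 hs).2.2 l hl
  omega

/-- If `w = (c, l)` is a side at the end of the arm `a`, then the end of `a` is `c`. -/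
theorem side_end (h : Ctx G k S X Y) (hdat : DatOK G S X dat) {a : V × V}
    (ha : a ∈ arms G S X) {w : V} (hw : w ∈ (dat a).s1) {c : V} (hc : c ∈ op G S w)
    (sc : sd G S c = 0) : a.2 = c ∧ a.1 ∈ op G S c ∧ w ∈ op G S c ∧ w ≠ a.1 ∧ w ∉ sm G S a.1 := by
  have hf := side1_facts h (hdat a ha) hw
  obtain ⟨l, hop, sl⟩ := hf.2.2.2.2.2.2.2.2.2.2
  have h1 : a.2 = c := by
    rw [hop, Finset.mem_insert, Finset.mem_singleton] at hc
    rcases hc with h2 | h2
    · exact h2.symm
    · rw [h2] at sc; omega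
  have h2 := (arm_site ha).2.2
  rw [h1] at h2
  exact ⟨h1, op_symm h2, op_symm hc, hf.2.2.2.2.2.1, hf.2.2.2.2.1⟩

/-- A side has a neighbour in Z. -/
theorem side_ex (h : Ctx G k S X Y) (hdat : DatOK G S X dat) {a : V × V}
    (ha : a ∈ arms G S X) {w : V} (hw : w ∈ (dat a).s1) : a.2 ∈ op G S w ∧ sd G S a.2 = 0 := by
  have hf := side1_facts h (hdat a ha) hw
  obtain ⟨-, us, hb⟩ := arm_site ha
  exact ⟨hf.2.2.2.1, (op_ne us hb).2⟩

/-- The arms with the side `w` at the end. -/
theorem cnt_s1 (h : Ctx G k S X Y) (hdat : DatOK G S X dat) (w : V) [DecidablePred fun a : V × V => w ∈ (dat a).s1] :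
    ((arms G S X).filter (fun a => w ∈ (dat a).s1)).card ≤ 2 := by
  by_contra hcon
  have hpos : 0 < ((arms G S X).filter (fun a => w ∈ (dat a).s1)).card := by omega
  obtain ⟨a0, ha0⟩ := Finset.card_pos.1 hpos
  obtain ⟨h0, w0⟩ := Finset.mem_filter.1 ha0
  obtain ⟨hc, sc⟩ := side_ex h hdat h0 w0
  apply hcon
  have hwc := op_symm hc
  have h4 : ((op G S a0.2).erase w).card = 2 := by
    rw [Finset.card_erase_of_mem hwc, op3 h.reg sc]
  rw [← h4]
  refine Finset.card_le_card_of_injOn (fun a => a.1) ?_ ?_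
  · intro a ha
    obtain ⟨h5, h6⟩ := Finset.mem_filter.1 (Finset.mem_coe.1 ha)
    obtain ⟨h7, h8, h9, h10, -⟩ := side_end h hdat h5 h6 hc sc
    exact Finset.mem_coe.2 (Finset.mem_erase.2 ⟨h10.symm, h8⟩)
  · intro a ha b hb hab
    obtain ⟨h5, h6⟩ := Finset.mem_filter.1 (Finset.mem_coe.1 ha)
    obtain ⟨h7, h8⟩ := Finset.mem_filter.1 (Finset.mem_coe.1 hb)
    exact Prod.ext hab ((side_end h hdat h5 h6 hc sc).1.trans (side_end h hdat h7 h8 hc sc).1.symm)

/-- Two different arms with the side `w` at the end: their sites are partners. -/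
theorem side_two (h : Ctx G k S X Y) (hdat : DatOK G S X dat) {a a' : V × V}
    (ha : a ∈ arms G S X) (ha' : a' ∈ arms G S X) {w : V} (hw : w ∈ (dat a).s1)
    (hw' : w ∈ (dat a').s1) (hne : a ≠ a') : a.2 = a'.2 ∧ a'.1 ∈ sm G S a.1 := by
  obtain ⟨hc, sc⟩ := side_ex h hdat ha hw
  obtain ⟨h1, h2, -⟩ := side_end h hdat ha' hw' hc sc
  have hu : a.1 ≠ a'.1 := fun h3 => hne (Prod.ext h3 h1.symm)
  refine ⟨h1.symm, ?_⟩
  by_contra h3
  obtain ⟨-, us, hb⟩ := arm_site ha
  obtain ⟨-, us', hb'⟩ := arm_site ha'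
  have hm := mate_of h us us' hb (h1 ▸ hb') hu h3
  have hst := (side1_facts h (hdat a ha) hw).2.2.2.2.2.2.1
  have := (core_facts h (hdat a ha)).2.2.2.2.2.1 (by omega) (by omega)
  exact this.2 _ hm

/-- At most one arm has the side `w` at the end if the domino of `w` is in `X`. -/
theorem side_uniqueX (h : Ctx G k S X Y) (hdat : DatOK G S X dat) {w : V}
    (hX : dom G S w ∈ X) {a a' : V × V} (ha : a ∈ arms G S X) (hw : w ∈ (dat a).s1)
    (ha' : a' ∈ arms G S X) (hw' : w ∈ (dat a').s1) : a = a' := by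
  by_contra hne
  obtain ⟨h1, h2⟩ := side_two h hdat ha ha' hw hw' hne
  obtain ⟨hf1, hf2, -, -, -, -, -, -, -, -, l, hop, sl⟩ := side1_facts h (hdat a ha) hw
  obtain ⟨-, us, hb⟩ := arm_site ha
  obtain ⟨-, us', hb'⟩ := arm_site ha'
  exact nt2 h hf1 hf2 hX hop (op_ne us hb).2 sl us us' h2 hb (h1 ▸ hb')

theorem cnt_s1X (h : Ctx G k S X Y) (hdat : DatOK G S X dat) {w : V} (hX : dom G S w ∈ X)
    [DecidablePred fun a : V × V => w ∈ (dat a).s1] :
    ((arms G S X).filter (fun a => w ∈ (dat a).s1)).card ≤ 1 :=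
  card_le_one' fun _ ha h1 _ hb h2 => side_uniqueX h hdat hX ha h1 hb h2

/-- The side at the centre. -/
theorem s2_cen (h : Ctx G k S X Y) (hdat : DatOK G S X dat) {a : V × V}
    (ha : a ∈ arms G S X) {w : V} (hw : w ∈ (dat a).s2) :
    (dat a).cen ∈ op G S w ∧ sd G S (dat a).cen = 1 := by
  have hf := side2_facts h (hdat a ha) hw
  exact ⟨op_symm hf.2.2.1, hf.2.2.2.2.2.2.2.1⟩

theorem s2_not (h : Ctx G k S X Y) (hdat : DatOK G S X dat) {a : V × V}
    (ha : a ∈ arms G S X) {w : V} (hw : w ∈ (dat a).s2) : w ∉ sites G S := by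
  obtain ⟨h1, h2⟩ := s2_cen h hdat ha hw
  exact site_not h2 h1

/-- The arms with the side `w` at the centre: at most one if `w` has a neighbour in Z. -/
theorem cnt_s2 (h : Ctx G k S X Y) (hdat : DatOK G S X dat) {w c : V} (sw : sd G S w = 1)
    (hc : c ∈ op G S w) (sc : sd G S c = 0) [DecidablePred fun a : V × V => w ∈ (dat a).s2] :
    ((arms G S X).filter (fun a => w ∈ (dat a).s2)).card ≤ 1 := by
  obtain ⟨y, hy, hcy⟩ := StructAux.card_two (BasicAux.op_card_two h.reg sw) hc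
  refine card_le_one' fun a ha h1 b hb h2 => ?_
  have key : ∀ {a : V × V}, a ∈ arms G S X → w ∈ (dat a).s2 → (dat a).cen = y := by
    intro a ha h3
    obtain ⟨h4, h5⟩ := s2_cen h hdat ha h3
    rw [hy, Finset.mem_insert, Finset.mem_singleton] at h4
    rcases h4 with h4 | h4
    · rw [h4] at h5; omega
    · exact h4
  have h6 := s2_cen h hdat ha h1
  have e1 := key ha h1
  exact cen_unique h hdat (e1 ▸ h6.2) ha hb e1 (key hb h2)

/-- The arms with the side `w` at the centre, in general. -/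
theorem cnt_s2' (h : Ctx G k S X Y) (hdat : DatOK G S X dat) {w : V} (sw : sd G S w = 1)
    [DecidablePred fun a : V × V => w ∈ (dat a).s2] :
    ((arms G S X).filter (fun a => w ∈ (dat a).s2)).card ≤ 2 := by
  rw [← BasicAux.op_card_two h.reg sw]
  refine Finset.card_le_card_of_injOn (fun a => (dat a).cen) ?_ ?_
  · intro a ha
    obtain ⟨h5, h6⟩ := Finset.mem_filter.1 (Finset.mem_coe.1 ha)
    exact Finset.mem_coe.2 (s2_cen h hdat h5 h6).1
  · intro a ha b hb hab
    obtain ⟨h5, h6⟩ := Finset.mem_filter.1 (Finset.mem_coe.1 ha)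
    obtain ⟨h7, h8⟩ := Finset.mem_filter.1 (Finset.mem_coe.1 hb)
    exact cen_unique h hdat (s2_cen h hdat h7 h8).2 h5 h7 hab rfl

/-- Where a resource at the vertex `c` of Z comes from. -/
theorem res_at (h : Ctx G k S X Y) (hdat : DatOK G S X dat) {a : V × V} (ha : a ∈ arms G S X)
    (h3 : 3 ≤ (dat a).st) {c : V} (hc : c ∈ op G S (dat a).res) (sc : sd G S c = 0) :
    ((dat a).st = 4 ∧ a.2 = c ∧ a.1 ∈ op G S c ∧ (dat a).res ∈ (dat a).s1) ∨
      ((dat a).st = 3 ∧ (dat a).res = pt G S a.1 ∧ pt G S (dat a).res = a.1 ∧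
        ∃ m, Mate G S a.1 m) := by
  obtain ⟨rS, sr, rn, -, r3, r4⟩ := res_facts h ha (hdat a ha) h3
  have hcf := core_facts h (hdat a ha)
  have h4 := hcf.2.2.2.2.2.2.1
  have h5 : (dat a).st = 3 ∨ (dat a).st = 4 := by omega
  rcases h5 with h5 | h5
  · right
    refine ⟨h5, r3 h5, ?_, ?_⟩
    · rw [r3 h5]
      exact (pt_all h.lev (StructAux.mem_sites.1 (arm_site ha).2.1).2.1).2.2.2.1
    · obtain ⟨m, hm, -⟩ := hcf.2.2.2.2.1 (Or.inr h5)
      exact ⟨m, hm⟩
  · left
    have h6 := r4 h5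
    obtain ⟨h7, h8, -⟩ := side_end h hdat ha h6 hc sc
    exact ⟨h5, h7, h8, h6⟩

/-- Two resources of stage three at the end `c` of a site `u` in no switch agree. -/
theorem res3_unique (h : Ctx G k S X Y) (hdat : DatOK G S X dat) {u c : V}
    (hu : u ∈ sites G S) (hn : ∀ y, ¬ Mate G S u y) (hc : c ∈ op G S u) {a a' : V × V}
    (ha : a ∈ arms G S X) (ha' : a' ∈ arms G S X) (s3 : (dat a).st = 3)
    (s3' : (dat a').st = 3) (h1 : c ∈ op G S (dat a).res) (h1' : c ∈ op G S (dat a').res) :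
    a.1 = a'.1 := by
  obtain ⟨cS, sc⟩ := op_ne hu hc
  have hu' := StructAux.mem_sites.1 hu
  have fact : ∀ {a : V × V}, a ∈ arms G S X → (dat a).st = 3 → c ∈ op G S (dat a).res →
      (dat a).res ∈ S ∧ sd G S (dat a).res = 1 ∧ (dat a).res ∉ sites G S ∧
        pt G S (dat a).res = a.1 ∧ (dat a).res ∉ sm G S u := by
    intro a ha s3 h1
    obtain ⟨rS, sr, rn, -⟩ := res_facts h ha (hdat a ha) (by omega)
    rcases res_at h hdat ha (by omega) h1 sc with ⟨h2, -⟩ | ⟨-, h2, h3, m, hm⟩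
    · omega
    · refine ⟨rS, sr, rn, h3, fun h4 => ?_⟩
      have h5 := pt_mem h.lev (sm_symm h4)
      rw [h3] at h5
      exact hn m (h5 ▸ hm)
  obtain ⟨r1, r2, r3, r4, r5⟩ := fact ha s3 h1
  obtain ⟨t1, t2, t3, t4, t5⟩ := fact ha' s3' h1'
  by_contra hne
  have hx : (dat a).res ≠ (dat a').res := by
    intro h2
    rw [h2, t4] at r4
    exact hne r4.symm
  have hur : u ≠ (dat a).res := fun h2 => r3 (h2 ▸ hu)
  have hut : u ≠ (dat a').res := fun h2 => t3 (h2 ▸ hu)
  rcases h.nt S h.lev c u (dat a).res (dat a').res cS sc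
    (StructAux.mem_UN.2 ⟨op_symm hc, hu'.2.1⟩) (StructAux.mem_UN.2 ⟨op_symm h1, r2⟩)
    (StructAux.mem_UN.2 ⟨op_symm h1', t2⟩) hur hut hx with h2 | h2 | h2
  · exact r5 (sm_of_adj hu'.1 r1 h2)
  · exact t5 (sm_of_adj hu'.1 t1 h2)
  · have h3 := pt_mem h.lev (sm_of_adj r1 t1 h2)
    rw [r4] at h3
    exact t3 (h3 ▸ (arm_site ha).2.1)

theorem cnt_res3 (h : Ctx G k S X Y) (hdat : DatOK G S X dat) {u c : V}
    (hu : u ∈ sites G S) (hn : ∀ y, ¬ Mate G S u y) (hc : c ∈ op G S u)
    [DecidablePred fun a : V × V => (dat a).st = 3 ∧ c ∈ op G S (dat a).res] :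
    ((arms G S X).filter (fun a => (dat a).st = 3 ∧ c ∈ op G S (dat a).res)).card ≤ 2 := by
  by_cases hex : ∃ a ∈ arms G S X, (dat a).st = 3 ∧ c ∈ op G S (dat a).res
  · obtain ⟨a0, ha0, s0, h0⟩ := hex
    refine card_mono' (q := fun a : V × V => a.1 = a0.1) ?_ (cnt_fst h a0.1)
    rintro a ha ⟨s1, h1⟩
    exact res3_unique h hdat hu hn hc ha ha0 s1 s0 h1 h0
  · push Not at hex
    refine (card_zero' fun a ha h1 => hex a ha h1.1 h1.2).trans (by norm_num)

/-- (NT) for a resource of stage three at the end `c` of a site `u = (c, b)` in no switch: there is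
a vertex `w'` of type ZL with domino in `X` which is adjacent to `b` or the partner of `u`. -/
theorem nt_res3 (h : Ctx G k S X Y) (hdat : DatOK G S X dat) {u c b : V}
    (hu : u ∈ actS G S X) (hn : ∀ y, ¬ Mate G S u y) (ho : op G S u = {c, b}) {a : V × V}
    (ha : a ∈ arms G S X) (s3 : (dat a).st = 3) (h1 : c ∈ op G S (dat a).res) :
    ∃ w', w' ∈ S ∧ dom G S w' ∈ X ∧ sd G S w' = 1 ∧ w' ∉ sites G S ∧
      (∃ y l, op G S w' = {y, l} ∧ sd G S y = 0 ∧ sd G S l = 1) ∧
      (w' ∈ op G S b ∨ w' = pt G S u) := by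
  have hus : u ∈ sites G S := (Finset.mem_filter.1 hu).1
  have hc : c ∈ op G S u := by rw [ho]; simp
  obtain ⟨cS, sc⟩ := op_ne hus hc
  obtain ⟨rS, sr, rn, ⟨c', l, hop, sc', sl⟩, -⟩ := res_facts h ha (hdat a ha) (by omega)
  rcases res_at h hdat ha (by omega) h1 sc with ⟨h2, -⟩ | ⟨-, h2, h3, m, hm⟩
  · omega
  have hcc : c = c' := by
    rw [hop, Finset.mem_insert, Finset.mem_singleton] at h1
    rcases h1 with h4 | h4
    · exact h4
    · rw [h4] at sc; omega
  subst hcc
  have hX : dom G S (dat a).res ∈ X := by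
    have h4 := arm_X ha
    rw [← h3, dom_pt h sr] at h4
    exact h4
  obtain ⟨w', y, l', w'S, wX, -, sw', ow', sy, sl', hall⟩ := nt_zl h rS sr hX hop sc sl
  have hur : u ≠ (dat a).res := fun h4 => rn (h4 ▸ hus)
  have hus' : u ∉ sm G S (dat a).res := by
    intro h4
    have h5 := pt_mem h.lev h4
    rw [h3] at h5
    exact hn m (h5 ▸ hm)
  refine ⟨w', w'S, wX, sw', site_not sl' (by rw [ow']; simp), ⟨y, l', ow', sy, sl'⟩, ?_⟩
  rcases hall u hus hc hur hus' (Finset.mem_filter.1 hu).2.2 with h4 | h4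
  · left
    have h5 : b = y := by
      have h6 : y ∈ op G S u := by rw [h4]; simp
      have h7 : b ∈ op G S u := by rw [ho]; simp
      rw [h4, Finset.mem_insert, Finset.mem_singleton] at h7
      rcases h7 with h7 | h7
      · have h8 := site_op h.reg hus
        rw [ho, h7] at h8
        simp at h8
      · exact h7
    rw [h5]
    exact op_symm (by rw [ow']; simp)
  · exact Or.inr (pt_mem h.lev h4).symm

/-- The arms whose centre is adjacent to the vertex `p` of O, except for the centre `b`. -/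
theorem cnt_O4 (h : Ctx G k S X Y) (hdat : DatOK G S X dat) {p b : V} (sp : sd G S p = 0)
    (hb : b ∈ op G S p)
    [DecidablePred fun a : V × V => (dat a).cen ∈ op G S p ∧ (dat a).cen ≠ b] :
    ((arms G S X).filter (fun a => (dat a).cen ∈ op G S p ∧ (dat a).cen ≠ b)).card ≤ 4 := by
  classical
  obtain ⟨e, e2, hop, -, -, -⟩ := StructAux.card_three (op3 h.reg sp) hb
  have np : p ∉ sites G S := fun h1 => by
    have := (StructAux.mem_sites.1 h1).2.1
    omega
  have one : ∀ {e : V}, e ∈ op G S p →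
      ((arms G S X).filter (fun a => (dat a).cen = e)).card ≤ 2 := by
    intro e he
    have h2 := h.lev.tf e
    have h3 : sd G S e = 0 ∨ sd G S e = 1 := by omega
    rcases h3 with h3 | h3
    · exact cnt_cenZ h hdat h3 (op_symm he) np
    · exact (cnt_cenL h hdat h3).trans (by norm_num)
  refine card_union' (q := fun a => (dat a).cen = e) (r := fun a => (dat a).cen = e2) ?_
    (one (by rw [hop]; simp)) (one (by rw [hop]; simp))
  rintro a _ ⟨h1, h2⟩
  rw [hop] at h1
  simp only [Finset.mem_insert, Finset.mem_singleton] at h1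
  tauto

/-- The arms of stage at least one whose centre is adjacent to the vertex `p` of O, except for the
centre `b` of an arm of stage at most one. -/
theorem cnt_O3 (h : Ctx G k S X Y) (hdat : DatOK G S X dat) {u b0 : V} {d : Dat V}
    (hd : AD G S u b0 d) (h1 : d.st ≤ 1) {p : V} (sp : sd G S p = 0) (hb : p ∈ op G S d.cen)
    [DecidablePred fun a : V × V => 1 ≤ (dat a).st ∧ (dat a).cen ∈ op G S p ∧
      (dat a).cen ≠ d.cen] :
    ((arms G S X).filter (fun a => 1 ≤ (dat a).st ∧ (dat a).cen ∈ op G S p ∧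
      (dat a).cen ≠ d.cen)).card ≤ 3 := by
  classical
  obtain ⟨e, e2, hop, -, -, hee⟩ := StructAux.card_three (op3 h.reg sp) (op_symm hb)
  have np : p ∉ sites G S := fun h1 => by
    have := (StructAux.mem_sites.1 h1).2.1
    omega
  have two : ∀ {e : V}, e ∈ op G S p →
      ((arms G S X).filter (fun a => 1 ≤ (dat a).st ∧ (dat a).cen = e)).card ≤ 2 := by
    intro e he
    have h2 := h.lev.tf e
    have h3 : sd G S e = 0 ∨ sd G S e = 1 := by omega
    rcases h3 with h3 | h3
    · exact card_mono' (fun a _ h4 => h4.2) (cnt_cenZ h hdat h3 (op_symm he) np)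
    · exact (card_mono' (fun a _ h4 => h4.2) (cnt_cenL h hdat h3)).trans (by norm_num)
  have one : ∀ {e : V}, e ∈ op G S p → (∀ x z, x ∈ op G S e → ¬ Mate G S x z) →
      ((arms G S X).filter (fun a => 1 ≤ (dat a).st ∧ (dat a).cen = e)).card ≤ 1 := by
    intro e he hn
    have h2 := h.lev.tf e
    have h3 : sd G S e = 0 ∨ sd G S e = 1 := by omega
    rcases h3 with h3 | h3
    · exact cnt_cenZ1 h hdat h3 (op_symm he) sp hn
    · exact card_mono' (fun a _ h4 => h4.2) (cnt_cenL h hdat h3)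
  have hep : e ∈ op G S p := by rw [hop]; simp
  have hep2 : e2 ∈ op G S p := by rw [hop]; simp
  have split : ∀ a ∈ arms G S X, (1 ≤ (dat a).st ∧ (dat a).cen ∈ op G S p ∧
      (dat a).cen ≠ d.cen) → (1 ≤ (dat a).st ∧ (dat a).cen = e) ∨
        (1 ≤ (dat a).st ∧ (dat a).cen = e2) := by
    rintro a _ ⟨h0, h1, h2⟩
    rw [hop] at h1
    simp only [Finset.mem_insert, Finset.mem_singleton] at h1
    tauto
  -- an end of a switch adjacent to `p`
  have swe : ∀ {e x z : V}, e ∈ op G S p → x ∈ op G S e → Mate G S x z →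
      SwE G S x z e p := by
    intro e x z he hx hm
    have hex : e ∈ op G S x := op_symm hx
    have sde : sd G S e = 0 := (op_ne hm.1 hex).2
    have hz : z ∈ op G S e := op_symm (by rw [← hm.2.2.2.2]; exact hex)
    obtain ⟨o, ho, xo, zo⟩ := StructAux.card_three' (op3 h.reg sde) hx hz hm.2.2.1
    have hpo : p = o := by
      have h5 := op_symm he
      rw [ho] at h5
      simp only [Finset.mem_insert, Finset.mem_singleton] at h5
      rcases h5 with h5 | h5 | h5
      · exact absurd hm.1 (h5 ▸ np)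
      · exact absurd hm.2.1 (h5 ▸ np)
      · exact h5
    rw [hpo]
    exact ⟨hm, hex, ho, xo, zo⟩
  by_cases hn : ∀ x z, x ∈ op G S e → ¬ Mate G S x z
  · exact card_union' split (one hep hn) (two hep2)
  · by_cases hn2 : ∀ x z, x ∈ op G S e2 → ¬ Mate G S x z
    · exact card_union' split (two hep) (one hep2 hn2)
    · exfalso
      push Not at hn hn2
      obtain ⟨x, y, hx, hm⟩ := hn
      obtain ⟨x2, y2, hx2, hm2⟩ := hn2
      exact p2 h.reg h.hk h.nt h.dz h.lev (swe hep hx hm) (swe hep2 hx2 hm2) hee sp hd h1 hb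

end Pool.Agent.Lib.AndoD
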