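import Pool.Agent.Lib.AndoD.Defs
import Pool.Agent.Lib.AndoC.Basic

/-!
# AndoD.Pt: the partner function, basic facts
-/

set_option autoImplicit false
set_option linter.unusedSectionVars false

namespace Pool.Agent.Lib.AndoD

open Pool.Agent.Lib.Ando Pool.Agent.Lib.AndoC

variable {V : Type*} [Fintype V] [DecidableEq V] {G : SimpleGraph V} [DecidableRel G.Adj]

theorem pt_of {S : Finset V} {v w : V} (h : sm G S v = {w}) : pt G S v = w := by
  have h1 : ∃ w, sm G S v = {w} := ⟨w, h⟩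
  unfold pt
  rw [dif_pos h1]
  have h2 := h.symm.trans h1.choose_spec
  exact (Finset.singleton_injective h2).symm

theorem pt_sm {S : Finset V} {v : V} (h : sd G S v = 1) : sm G S v = {pt G S v} := by
  obtain ⟨w, hw⟩ := StructAux.sd_one h
  rw [pt_of hw]
  exact hw

theorem pt_mem {k : ℕ} {S : Finset V} (hL : Level G k S) {v w : V} (h : w ∈ sm G S v) :
    pt G S v = w := pt_of (BasicAux.sm_eq hL h)

theorem pt_all {k : ℕ} {S : Finset V} (hL : Level G k S) {v : V} (h : sd G S v = 1) :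
    sm G S v = {pt G S v} ∧ sm G S (pt G S v) = {v} ∧ sd G S (pt G S v) = 1 ∧
      pt G S (pt G S v) = v ∧ pt G S v ≠ v ∧ G.Adj v (pt G S v) ∧ (pt G S v ∈ S ↔ v ∈ S) := by
  have h1 := pt_sm h
  have hm : pt G S v ∈ sm G S v := by rw [h1]; simp
  have h2 : sm G S (pt G S v) = {v} := BasicAux.sm_eq hL (sm_symm hm)
  refine ⟨h1, h2, ?_, pt_of h2, ?_, (mem_sm.1 hm).1, (mem_sm.1 hm).2⟩
  · unfold sd; rw [h2]; simp
  · intro h3
    have := (mem_sm.1 hm).1
    rw [h3] at this
    exact G.irrefl this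

theorem pt_iff {S : Finset V} {v w : V} (hv : sd G S v = 1) :
    pt G S v = w ↔ w ∈ sm G S v := by
  rw [pt_sm hv, Finset.mem_singleton, eq_comm]

end Pool.Agent.Lib.AndoD
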