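import Pool.Agent.Lib.AndoD.P1
import Pool.Agent.Lib.AndoD.Pt
import Pool.Agent.Lib.Ando.Ter

/-!
# AndoD.P3: the O-port of a switch and the arms of stage at least two

`mem_ter_O`: a vertex of type O in `ter F` is in `F` or adjacent to a black vertex of `F`.
`p3`: if the O-port `o` of the switch `x`, `y` is in the territory of an option of an arm of
stage at least two, then the core of the arm meets `{x, y, x*, y*}` or a side is `x*` or `y*`.
-/

set_option autoImplicit false
set_option linter.unusedSectionVars false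
set_option linter.unusedSimpArgs false

namespace Pool.Agent.Lib.AndoD

open Pool.Agent.Lib.Ando Pool.Agent.Lib.AndoC

variable {V : Type*} [Fintype V] [DecidableEq V] {G : SimpleGraph V} [DecidableRel G.Adj]

open SwAux SwFlipAux

/-- An isolated vertex in a territory. -/
theorem mem_ter_O {S F : Finset V} {o : V} (oS : o ∈ S) (so : sm G S o = ∅)
    (h : o ∈ ter G S F) : o ∈ F ∨ ∃ c ∈ F, c ∉ S ∧ c ∈ op G S o := by
  unfold ter at h
  simp only [Finset.mem_union, Finset.mem_filter, Finset.mem_univ, true_and] at h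
  rcases h with (h | ⟨c, hc, ha⟩) | ⟨w, -, hw⟩
  · exact Or.inl h
  · right
    refine ⟨c, hc, ?_, ?_⟩
    · intro cS
      have : c ∈ sm G S o := mem_sm.2 ⟨ha.symm, fun _ => oS, fun _ => cS⟩
      rw [so] at this
      simp at this
    · rw [mem_op]
      refine ⟨ha.symm, fun h1 => ?_⟩
      have : c ∈ sm G S o := mem_sm.2 ⟨ha.symm, h1⟩
      rw [so] at this
      simp at this
  · have := sm_symm hw
    rw [so] at this
    simp at this

variable {S : Finset V} {x y e o : V}

/-- (P3) -/
theorem p3 (hG : G.IsRegularOfDegree 3) {k : ℕ} (hk : 1 ≤ k) (hA : NoTriple G k)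
    (hL : Level G k S) (hs : SwE G S x y e o) (ho : sd G S o = 0)
    {u b : V} {d : Dat V} (ha : AD G S u b d) (h2 : 2 ≤ d.st) {F : Finset V} (hF : F ∈ d.Fs)
    (hoF : o ∈ ter G S F) :
    (∃ z ∈ d.core, z = x ∨ z = y ∨ z = pt G S x ∨ z = pt G S y) ∨
      ∃ z ∈ d.s1 ∪ d.s2, z = pt G S x ∨ z = pt G S y := by
  obtain ⟨f, p, x', y', h⟩ := hs.toSw hG hk hA hL
  have hpx : pt G S x = x' := pt_eq h.sx
  have hpy : pt G S y = y' := pt_eq h.sy
  rw [hpx, hpy]
  have so : sm G S o = ∅ := sm_empty ho
  have oS := h.oS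
  have key : ∀ {x1 y1 e1 o1 : V}, SwE G S x1 y1 e1 o1 → e1 ∈ op G S o →
      (∃ z ∈ ({x1, y1} : Finset V), z = x ∨ z = y ∨ z = x' ∨ z = y') := by
    intro x1 y1 e1 o1 h1 he
    by_contra hcon
    push Not at hcon
    obtain ⟨c1, c2, c3, c4⟩ := hcon x1 (by simp)
    obtain ⟨d1, d2, d3, d4⟩ := hcon y1 (by simp)
    obtain ⟨m1, m2, m3, m4, m5⟩ := h1.mate
    have s1 := StructAux.mem_sites.1 m1
    have s2 := StructAux.mem_sites.1 m2
    have hne : e1 ≠ e := by
      intro e2
      have : x1 ∈ op G S e := by rw [← e2, h1.oe]; simp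
      rw [h.oe] at this
      simp only [Finset.mem_insert, Finset.mem_singleton] at this
      rcases this with h3 | h3 | h3
      · exact c1 h3
      · exact c2 h3
      · have := s1.2.1
        rw [h3, ho] at this
        omega
    refine p1a hG hA hL h so he hne (s1.2.2 e1 h1.xe)
      (StructAux.mem_UN.2 ⟨by rw [h1.oe]; simp, s1.2.1⟩)
      (StructAux.mem_UN.2 ⟨by rw [h1.oe]; simp, s2.2.1⟩) m3 ?_ c1 c2 c3 c4 d1 d2 d3 d4
    intro h3
    exact m4 (mem_sm.2 ⟨h3, fun _ => s1.1, fun _ => s2.1⟩)
  have nsd : ∀ {z w : V}, sm G S z = {w} → o ≠ z := by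
    intro z w h1 h3
    rw [← h3, so] at h1
    simp at h1
  have nS : ∀ {z : V}, z ∈ sites G S → o ≠ z := by
    intro z h1 h3
    have := (StructAux.mem_sites.1 h1).2.1
    rw [← h3, ho] at this
    omega
  have sit : ∀ {z m l : V}, z ∈ S → m ∈ op G S z → sm G S m = {l} → z ∉ sites G S := by
    intro z m l zS h1 h3 h4
    have := (StructAux.mem_sites.1 h4).2.2 m h1
    rw [sd_of_single h3] at this
    omega
  have hF' := mem_ter_O oS so hoF
  cases ha with
  | ub0 h1 hp hs' => exact absurd h2 (by norm_num)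
  | ub1 h1 hp => exact absurd h2 (by norm_num)
  | cap1 h1 ht => exact absurd h2 (by norm_num)
  | @alp y1 e1 o1 h1 hz =>
    left
    apply key h1
    obtain ⟨m1, m2, m3, m4, m5⟩ := h1.mate
    simp only [opts, Finset.mem_union] at hF
    have hcase : (pt G S y1 ∈ sites G S ∧ F = {u, b, pt G S y1}) ∨
        (pt G S u ∈ sites G S ∧ F = {y1, b, pt G S u}) := by
      rcases hF with hF | hF
      · left
        split_ifs at hF with h3
        · exact ⟨h3, Finset.mem_singleton.1 hF⟩
        · simp at hF
      · right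
        split_ifs at hF with h3
        · exact ⟨h3, Finset.mem_singleton.1 hF⟩
        · simp at hF
    rcases hcase with ⟨h3, rfl⟩ | ⟨h3, rfl⟩
    · rcases hF' with h4 | ⟨c, h4, h5, h6⟩
      · simp only [Finset.mem_insert, Finset.mem_singleton] at h4
        rcases h4 with h4 | h4 | h4
        · exact absurd h4 (nS m1)
        · exact absurd (h4 ▸ oS) (StructAux.op_black (StructAux.mem_sites.1 m1).1 h1.xe)
        · exact absurd h4 (nS h3)
      · simp only [Finset.mem_insert, Finset.mem_singleton] at h4
        rcases h4 with h4 | h4 | h4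
        · exact absurd (h4 ▸ (StructAux.mem_sites.1 m1).1) h5
        · rw [h4] at h6; exact h6
        · exact absurd (h4 ▸ (StructAux.mem_sites.1 h3).1) h5
    · rcases hF' with h4 | ⟨c, h4, h5, h6⟩
      · simp only [Finset.mem_insert, Finset.mem_singleton] at h4
        rcases h4 with h4 | h4 | h4
        · exact absurd h4 (nS m2)
        · exact absurd (h4 ▸ oS) (StructAux.op_black (StructAux.mem_sites.1 m1).1 h1.xe)
        · exact absurd h4 (nS h3)
      · simp only [Finset.mem_insert, Finset.mem_singleton] at h4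
        rcases h4 with h4 | h4 | h4
        · exact absurd (h4 ▸ (StructAux.mem_sites.1 m2).1) h5
        · rw [h4] at h6; exact h6
        · exact absurd (h4 ▸ (StructAux.mem_sites.1 h3).1) h5
  | @nsw y1 e1 o1 x2 h1 hx hy hx' hi =>
    left
    apply key h1
    obtain ⟨m1, m2, m3, m4, m5⟩ := h1.mate
    have hx2 : x2 ∈ sites G S := by
      rcases hx' with rfl | rfl
      · exact m1
      · exact m2
    simp only [Finset.mem_singleton] at hF
    subst hF
    rcases hF' with h4 | ⟨c, h4, h5, h6⟩
    · simp only [Finset.mem_insert, Finset.mem_singleton] at h4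
      rcases h4 with h4 | h4
      · exact absurd h4 (nS hx2)
      · exact absurd (h4 ▸ oS) (StructAux.op_black (StructAux.mem_sites.1 m1).1 h1.xe)
    · simp only [Finset.mem_insert, Finset.mem_singleton] at h4
      rcases h4 with h4 | h4
      · exact absurd (h4 ▸ (StructAux.mem_sites.1 hx2).1) h5
      · rw [h4] at h6; exact h6
  | @ub4 b q w h1 =>
    simp only [Finset.mem_singleton] at hF
    subst hF
    obtain ⟨uS, su, zu⟩ := StructAux.mem_sites.1 h1.us
    have bS := StructAux.op_black uS h1.ub
    have hb : b ∈ op G S o := by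
      rcases hF' with h4 | ⟨c, h4, h5, h6⟩
      · simp only [Finset.mem_insert, Finset.mem_singleton] at h4
        rcases h4 with h4 | h4
        · exact absurd h4 (nS h1.us)
        · exact absurd (h4 ▸ oS) bS
      · simp only [Finset.mem_insert, Finset.mem_singleton] at h4
        rcases h4 with h4 | h4
        · exact absurd (h4 ▸ uS) h5
        · rw [h4] at h6; exact h6
    have wS : w ∈ S := StructAux.op_white bS (by rw [h1.ob]; simp)
    have ux : u ≠ x := fun h3 => h1.nm y (h3 ▸ h.mate)
    have uy : u ≠ y := fun h3 => h1.nm x (h3 ▸ h.mate.symm)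
    have wx : w ≠ x := fun h3 => h1.zl (h3 ▸ h.xsite)
    have wy : w ≠ y := fun h3 => h1.zl (h3 ▸ h.ysite)
    by_cases ux' : u = x'
    · exact Or.inl ⟨u, by simp, by tauto⟩
    by_cases uy' : u = y'
    · exact Or.inl ⟨u, by simp, by tauto⟩
    by_cases wx' : w = x'
    · exact Or.inr ⟨w, by simp, by tauto⟩
    by_cases wy' : w = y'
    · exact Or.inr ⟨w, by simp, by tauto⟩
    exfalso
    have hbe : b ≠ e := by
      intro e2
      have h3 : u ∈ op G S e := by rw [← e2, h1.ob]; simp
      rw [h.oe] at h3
      simp only [Finset.mem_insert, Finset.mem_singleton] at h3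
      rcases h3 with h3 | h3 | h3
      · exact ux h3
      · exact uy h3
      · exact nS h1.us h3.symm
    refine p1a hG hA hL h so hb hbe (zu b h1.ub)
      (StructAux.mem_UN.2 ⟨by rw [h1.ob]; simp, su⟩)
      (StructAux.mem_UN.2 ⟨by rw [h1.ob]; simp, h1.sw⟩) h1.uw ?_ ux uy ux' uy' wx wy wx' wy'
    intro h3
    exact h1.nw (mem_sm.2 ⟨h3, fun _ => uS, fun _ => wS⟩)
  | @cap4 b q q' l m s t h1 ht hn hq =>
    simp only [Finset.mem_singleton] at hF
    subst hF
    right
    obtain ⟨uS, su, zu⟩ := StructAux.mem_sites.1 h1.us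
    have bS := StructAux.op_black uS h1.ub
    have qS : q ∈ S := StructAux.op_white bS (by rw [h1.ob]; simp)
    have qS' : q' ∈ S := StructAux.op_white bS (by rw [h1.ob]; simp)
    have lS : l ∉ S := StructAux.op_black qS (by rw [h1.oq]; simp)
    have mS : m ∉ S := by
      intro h3
      have : m ∈ sm G S l := by rw [h1.sl]; simp
      exact lS ((mem_sm.1 this).2.1 h3)
    have tS : t ∈ S := StructAux.op_white mS (by rw [h1.om]; simp)
    have hm : m ∈ op G S o := by
      rcases hF' with h4 | ⟨c, h4, h5, h6⟩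
      · simp only [Finset.mem_insert, Finset.mem_singleton] at h4
        rcases h4 with h4 | h4 | h4 | h4
        · exact absurd h4 (nS h1.us)
        · exact absurd (h4 ▸ oS) bS
        · exact absurd h4 (nsd h1.sq)
        · exact absurd (h4 ▸ oS) mS
      · simp only [Finset.mem_insert, Finset.mem_singleton] at h4
        rcases h4 with h4 | h4 | h4 | h4
        · exact absurd (h4 ▸ uS) h5
        · have h7 : o ∈ op G S b := op_symm (h4 ▸ h6)
          rw [h1.ob] at h7
          simp only [Finset.mem_insert, Finset.mem_singleton] at h7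
          rcases h7 with h7 | h7 | h7
          · exact absurd h7 (nS h1.us)
          · exact absurd h7 (nsd h1.sq)
          · exact absurd h7 (nsd h1.sq')
        · exact absurd (h4 ▸ qS) h5
        · rw [h4] at h6; exact h6
    have tm : m ∈ op G S t := op_symm (by rw [h1.om]; simp)
    by_cases tx' : t = x'
    · exact ⟨t, by simp, Or.inl tx'⟩
    by_cases ty' : t = y'
    · exact ⟨t, by simp, Or.inr ty'⟩
    exfalso
    exact p1b hG hk hL h so hm (sd_of_single h1.sm')
      (StructAux.mem_UN.2 ⟨by rw [h1.om]; simp, ht⟩)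
      (fun h3 => sit tS tm h1.sm' (h3 ▸ h.xsite)) (fun h3 => sit tS tm h1.sm' (h3 ▸ h.ysite))
      tx' ty'
  | @cap5 b q q' l m s t h1 ht =>
    simp only [Finset.mem_singleton] at hF
    subst hF
    subst ht
    right
    obtain ⟨uS, su, zu⟩ := StructAux.mem_sites.1 h1.us
    have bS := StructAux.op_black uS h1.ub
    have qS : q ∈ S := StructAux.op_white bS (by rw [h1.ob]; simp)
    have tS : t ∈ S := StructAux.op_white bS (by rw [h1.ob]; simp)
    have lS : l ∉ S := StructAux.op_black qS (by rw [h1.oq]; simp)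
    have mS : m ∉ S := by
      intro h3
      have : m ∈ sm G S l := by rw [h1.sl]; simp
      exact lS ((mem_sm.1 this).2.1 h3)
    have hm : m ∈ op G S o := by
      rcases hF' with h4 | ⟨c, h4, h5, h6⟩
      · simp only [Finset.mem_insert, Finset.mem_singleton] at h4
        rcases h4 with h4 | h4 | h4 | h4
        · exact absurd h4 (nS h1.us)
        · exact absurd (h4 ▸ oS) bS
        · exact absurd h4 (nsd h1.sq)
        · exact absurd (h4 ▸ oS) mS
      · simp only [Finset.mem_insert, Finset.mem_singleton] at h4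
        rcases h4 with h4 | h4 | h4 | h4
        · exact absurd (h4 ▸ uS) h5
        · have h7 : o ∈ op G S b := op_symm (h4 ▸ h6)
          rw [h1.ob] at h7
          simp only [Finset.mem_insert, Finset.mem_singleton] at h7
          rcases h7 with h7 | h7 | h7
          · exact absurd h7 (nS h1.us)
          · exact absurd h7 (nsd h1.sq)
          · exact absurd h7 (nsd h1.sq')
        · exact absurd (h4 ▸ qS) h5
        · rw [h4] at h6; exact h6
    have tm : m ∈ op G S t := op_symm (by rw [h1.om]; simp)
    by_cases tx' : t = x'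
    · exact ⟨t, by simp, Or.inl tx'⟩
    by_cases ty' : t = y'
    · exact ⟨t, by simp, Or.inr ty'⟩
    exfalso
    exact p1b hG hk hL h so hm (sd_of_single h1.sm')
      (StructAux.mem_UN.2 ⟨by rw [h1.om]; simp, sd_of_single h1.sq'⟩)
      (fun h3 => sit tS tm h1.sm' (h3 ▸ h.xsite)) (fun h3 => sit tS tm h1.sm' (h3 ▸ h.ysite))
      tx' ty'

end Pool.Agent.Lib.AndoD
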