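import Pool.Agent.Lib.AndoD.Cnt
import Pool.Agent.Lib.AndoD.CntS
import Pool.Agent.Lib.AndoD.TouchZ
import Pool.Agent.Lib.AndoD.TouchO
import Pool.Agent.Lib.AndoD.P3
import Pool.Agent.Lib.AndoD.BndS

/-!
# AndoD.Bnd2A: the operations of stage two

`ter_opt`: the territory of the operation `{x, e, y'}` (`y' = y*` a site).
`hit2`: the arms of stage at least two which touch it.
`meet2`: two such operations.
-/

set_option autoImplicit false
set_option linter.unusedSectionVars false
set_option linter.unusedSimpArgs false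

namespace Pool.Agent.Lib.AndoD

open Pool.Agent.Lib.Ando Pool.Agent.Lib.AndoC

variable {V : Type*} [Fintype V] [DecidableEq V] {G : SimpleGraph V} [DecidableRel G.Adj]

open SwAux SwFlipAux

variable {k : ℕ} {S : Finset V} {X Y : Finset (Finset V)}

/-- The members of the territory of an operation of stage two. -/
theorem ter_opt (h : Ctx G k S X Y) {x y e f o p x' y' : V} (hS : Sw G S x y e f o p x' y')
    (hz : y' ∈ sites G S) {i j : V} (hop : op G S y' = {i, j}) (w : V) :
    w ∈ ter G S {x, e, y'} ↔ (w = x ∨ w = x' ∨ w = y ∨ w = y') ∨ (w = e ∨ w = f) ∨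
      (w = i ∨ w = j) ∨ w = o := by
  have hzz := (StructAux.mem_sites.1 hz).2.2
  have si : sm G S i = ∅ := sm_empty (hzz i (by rw [hop]; simp))
  have sj : sm G S j = ∅ := sm_empty (hzz j (by rw [hop]; simp))
  have so : ∀ z, z ∈ sm G S o → z = x ∨ z = y := by
    intro z hz1
    rcases hS.io with h1 | h1 | h1
    · rw [h1] at hz1; simp at hz1
    · rw [h1, hS.sx', Finset.mem_singleton] at hz1; exact Or.inl hz1
    · rw [h1, hS.sy', Finset.mem_singleton] at hz1; exact Or.inr hz1
  have hx1 : ∀ z, z ∈ sm G S x ∪ op G S x ↔ z = x' ∨ z = e ∨ z = f := by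
    intro z
    rw [Finset.mem_union, hS.sx, hS.ox]
    simp
  have he1 : ∀ z, z ∈ sm G S e ∪ op G S e ↔ z = x ∨ z = y ∨ z = o := by
    intro z
    rw [Finset.mem_union, hS.se, hS.oe]
    simp
  have hy1 : ∀ z, z ∈ sm G S y' ∪ op G S y' ↔ z = y ∨ z = i ∨ z = j := by
    intro z
    rw [Finset.mem_union, hS.sy', hop]
    simp
  rw [TerAux.mem_ter]
  constructor
  · rintro (h1 | ⟨v, hv, h1⟩ | ⟨v, hv, c, hc, h1⟩)
    · simp only [Finset.mem_insert, Finset.mem_singleton] at h1
      rcases h1 with h1 | h1 | h1 <;> tauto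
    · simp only [Finset.mem_insert, Finset.mem_singleton] at hv
      rcases hv with rfl | rfl | rfl
      · rcases (hx1 w).1 h1 with h2 | h2 | h2 <;> tauto
      · rcases (he1 w).1 h1 with h2 | h2 | h2 <;> tauto
      · rcases (hy1 w).1 h1 with h2 | h2 | h2 <;> tauto
    · simp only [Finset.mem_insert, Finset.mem_singleton] at hv
      rcases hv with rfl | rfl | rfl
      · rcases (hx1 c).1 hc with rfl | rfl | rfl
        · rw [hS.sx', Finset.mem_singleton] at h1; tauto
        · rw [hS.se] at h1; simp at h1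
        · rw [hS.sf] at h1; simp at h1
      · rcases (he1 c).1 hc with rfl | rfl | rfl
        · rw [hS.sx, Finset.mem_singleton] at h1; tauto
        · rw [hS.sy, Finset.mem_singleton] at h1; tauto
        · rcases so w h1 with h2 | h2 <;> tauto
      · rcases (hy1 c).1 hc with rfl | rfl | rfl
        · rw [hS.sy, Finset.mem_singleton] at h1; tauto
        · rw [si] at h1; simp at h1
        · rw [sj] at h1; simp at h1
  · have fx : ∀ z, z = x' ∨ z = e ∨ z = f → ∃ v ∈ ({x, e, y'} : Finset V),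
        z ∈ sm G S v ∪ op G S v := fun z hz1 => ⟨x, by simp, (hx1 z).2 hz1⟩
    have fe : ∀ z, z = x ∨ z = y ∨ z = o → ∃ v ∈ ({x, e, y'} : Finset V),
        z ∈ sm G S v ∪ op G S v := fun z hz1 => ⟨e, by simp, (he1 z).2 hz1⟩
    have fy : ∀ z, z = y ∨ z = i ∨ z = j → ∃ v ∈ ({x, e, y'} : Finset V),
        z ∈ sm G S v ∪ op G S v := fun z hz1 => ⟨y', by simp, (hy1 z).2 hz1⟩
    rintro ((h1 | h1 | h1 | h1) | (h1 | h1) | (h1 | h1) | h1)
    · exact Or.inl (by simp [h1])
    · exact Or.inr (Or.inl (fx w (by tauto)))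
    · exact Or.inr (Or.inl (fe w (by tauto)))
    · exact Or.inl (by simp [h1])
    · exact Or.inl (by simp [h1])
    · exact Or.inr (Or.inl (fx w (by tauto)))
    · exact Or.inr (Or.inl (fy w (by tauto)))
    · exact Or.inr (Or.inl (fy w (by tauto)))
    · exact Or.inr (Or.inl (fe w (by tauto)))

/-- Two sites with a common end. -/
theorem common2 (h : Ctx G k S X Y) {s x y : V} (hs : s ∈ sites G S) (hx : x ∈ sites G S)
    (h1 : y ∈ op G S s) (h2 : y ∈ op G S x) : s = x ∨ s = pt G S x ∨ Mate G S x s := by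
  by_cases e1 : s = x
  · exact Or.inl e1
  by_cases e2 : s ∈ sm G S x
  · exact Or.inr (Or.inl (pt_mem h.lev e2).symm)
  · exact Or.inr (Or.inr (ExADAux.mate_of h hx hs h2 h1 (fun e => e1 e.symm) e2))

/-- A mate of a member of the core is in the core. -/
theorem core_mate (h : Ctx G k S X Y) {u b : V} {d : Dat V} (hd : AD G S u b d) {x s : V}
    (hx : x ∈ d.core) (hm : Mate G S x s) : s ∈ d.core ∧ (d.st = 2 ∨ d.st = 3) := by
  obtain ⟨c1, c2, c3, c4, c5, c6, -⟩ := core_facts h hd
  by_cases h2 : d.st = 2 ∨ d.st = 3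
  · refine ⟨?_, h2⟩
    obtain ⟨y, hy, hc⟩ := c5 h2
    rw [hc] at hx ⊢
    simp only [Finset.mem_insert, Finset.mem_singleton] at hx ⊢
    rcases hx with rfl | rfl
    · exact Or.inr (mate_unique h.reg h.nt h.dz h.lev hm hy)
    · exact Or.inl (mate_unique h.reg h.nt h.dz h.lev hm hy.symm)
  · obtain ⟨hc, hnm⟩ := c6 (fun e => h2 (Or.inl e)) (fun e => h2 (Or.inr e))
    rw [hc, Finset.mem_singleton] at hx
    subst hx
    exact absurd hm (hnm s)

theorem s1_not (h : Ctx G k S X Y) {u b : V} {d : Dat V} (hd : AD G S u b d) {w : V}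
    (hw : w ∈ sites G S) : w ∉ d.s1 := fun h1 => (side1_facts h hd h1).2.2.1 hw

theorem s2_not' (h : Ctx G k S X Y) {u b : V} {d : Dat V} (hd : AD G S u b d) {w : V}
    (hw : w ∈ sites G S) : w ∉ d.s2 := by
  intro h1
  obtain ⟨-, -, h3, -, -, -, -, h4, -⟩ := side2_facts h hd h1
  have := (StructAux.mem_sites.1 hw).2.2 _ (op_symm h3)
  omega

/-- The arm with data `d` touches the core `x`, `y` or the partners `x'`, `y'`. -/
def Tch (d : Dat V) (x y x' y' : V) : Prop :=
  x ∈ d.core ∨ y ∈ d.core ∨ y' ∈ d.core ∨ x' ∈ d.core ∨ x' ∈ d.s1 ∨ x' ∈ d.s2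

theorem Tch.a {d : Dat V} {x y x' y' : V} (h : x ∈ d.core) : Tch d x y x' y' := Or.inl h

theorem Tch.b {d : Dat V} {x y x' y' : V} (h : y ∈ d.core) : Tch d x y x' y' := Or.inr (Or.inl h)

theorem Tch.c {d : Dat V} {x y x' y' : V} (h : y' ∈ d.core) : Tch d x y x' y' :=
  Or.inr (Or.inr (Or.inl h))

theorem Tch.d {d : Dat V} {x y x' y' : V} (h : x' ∈ d.core) : Tch d x y x' y' :=
  Or.inr (Or.inr (Or.inr (Or.inl h)))

theorem Tch.e {d : Dat V} {x y x' y' : V} (h : x' ∈ d.s1) : Tch d x y x' y' :=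
  Or.inr (Or.inr (Or.inr (Or.inr (Or.inl h))))

theorem Tch.f {d : Dat V} {x y x' y' : V} (h : x' ∈ d.s2) : Tch d x y x' y' :=
  Or.inr (Or.inr (Or.inr (Or.inr (Or.inr h))))

/-- The vertices of U in the territory. -/
theorem hit2U (h : Ctx G k S X Y) {x y e f o p x' y' : V} (hS : Sw G S x y e f o p x' y')
    (hz : y' ∈ sites G S) {v : V} (hv : v = x ∨ v = x' ∨ v = y ∨ v = y') {u b : V} {d : Dat V}
    (hd : AD G S u b d) (ht : Hit G S d v) : Tch d x y x' y' := by
  have nx1 := s1_not h hd hS.xsite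
  have ny1 := s1_not h hd hS.ysite
  have nz1 := s1_not h hd hz
  have nx2 := s2_not' h hd hS.xsite
  have ny2 := s2_not' h hd hS.ysite
  have nz2 := s2_not' h hd hz
  rcases hv with hv | hv | hv | hv
  · rw [hv] at ht
    have := touchU h hd hS.xS (sd_of_single hS.sx) ht
    rw [pt_eq hS.sx] at this
    rcases this with h1 | h1 | h1 | h1 | h1 | h1
    · exact .a h1
    · exact .d h1
    · exact absurd h1 nx1
    · exact .e h1
    · exact absurd h1 nx2
    · exact .f h1
  · rw [hv] at ht
    have := touchU h hd hS.x'S (sd_of_single hS.sx') ht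
    rw [pt_eq hS.sx'] at this
    rcases this with h1 | h1 | h1 | h1 | h1 | h1
    · exact .d h1
    · exact .a h1
    · exact .e h1
    · exact absurd h1 nx1
    · exact .f h1
    · exact absurd h1 nx2
  · rw [hv] at ht
    have := touchU h hd hS.yS (sd_of_single hS.sy) ht
    rw [pt_eq hS.sy] at this
    rcases this with h1 | h1 | h1 | h1 | h1 | h1
    · exact .b h1
    · exact .c h1
    · exact absurd h1 ny1
    · exact absurd h1 nz1
    · exact absurd h1 ny2
    · exact absurd h1 nz2
  · rw [hv] at ht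
    have := touchU h hd hS.y'S (sd_of_single hS.sy') ht
    rw [pt_eq hS.sy'] at this
    rcases this with h1 | h1 | h1 | h1 | h1 | h1
    · exact .c h1
    · exact .b h1
    · exact absurd h1 nz1
    · exact absurd h1 ny1
    · exact absurd h1 nz2
    · exact absurd h1 ny2

theorem tb_st {S : Finset V} {d : Dat V} {v : V} (h : v ∈ tb G S d) : 3 ≤ d.st := by
  by_contra hlt
  unfold tb at h
  rw [if_neg hlt] at h
  simp at h

theorem pt_pt (h : Ctx G k S X Y) {z : V} (hz : z ∈ sites G S) : pt G S (pt G S z) = z :=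
  (pt_all h.lev (StructAux.mem_sites.1 hz).2.1).2.2.2.1

/-- The ends of the switch. -/
theorem hit2E (h : Ctx G k S X Y) {x y e f o p x' y' : V} (hS : Sw G S x y e f o p x' y')
    (hz : y' ∈ sites G S) {v : V} (hv : v ∈ op G S x) {u b : V} {d : Dat V}
    (ha : (u, b) ∈ arms G S X) (hd : AD G S u b d) (ht : Hit G S d v) : Tch d x y x' y' := by
  have hx := hS.xsite
  have hy := hS.ysite
  have px : pt G S x = x' := pt_eq hS.sx
  have py : pt G S y = y' := pt_eq hS.sy
  have px' : pt G S x' = x := pt_eq hS.sx'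
  obtain ⟨c1, c2, c3, c4, c5, c6, c7, c8, c9⟩ := core_facts h hd
  have mu : ∀ {v : V}, Mate G S x v → v = y := fun hm =>
    mate_unique h.reg h.nt h.dz h.lev hm hS.mate
  obtain ⟨vS, sv⟩ := CoreAux.op_ne hx hv
  rcases ht with hv1 | hv1
  · rcases (touchZ h hd vS sv).1 hv1 with ⟨z, hzc, h3⟩ | ⟨-, z, hzc, hzs, h3⟩
    · rcases common2 h (c3 hzc) hx h3 hv with h4 | h4 | h4
      · exact .a (h4 ▸ hzc)
      · rw [px] at h4
        exact .d (h4 ▸ hzc)
      · exact .b (mu h4 ▸ hzc)
    · have pz := pt_pt h (c3 hzc)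
      rcases common2 h hzs hx h3 hv with h4 | h4 | h4
      · rw [h4, px] at pz
        exact .d (pz ▸ hzc)
      · rw [h4, px, px'] at pz
        exact .a (pz ▸ hzc)
      · rw [mu h4, py] at pz
        exact .c (pz ▸ hzc)
  · have h3 := (touchZ h hd vS sv).2 hv1
    have h3' : 3 ≤ d.st := tb_st hv1
    obtain ⟨rS, sr, rn, -, r3, r4⟩ := res_facts h ha hd h3'
    have hin : ∀ {c q : V}, op G S c = {x, y, q} →
        (sm G S q = ∅ ∨ q = x' ∨ q = y') → d.res ∈ op G S c → d.res = x' := by
      intro c q hc hq h4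
      rw [hc] at h4
      simp only [Finset.mem_insert, Finset.mem_singleton] at h4
      rcases h4 with h4 | h4 | h4
      · exact absurd (h4 ▸ hx) rn
      · exact absurd (h4 ▸ hy) rn
      · rcases hq with h5 | h5 | h5
        · rw [h4, sd_of_empty h5] at sr; omega
        · exact h4.trans h5
        · exact absurd (h4.trans h5 ▸ hz) rn
    have hr : d.res = x' := by
      have hv' := hv
      rw [hS.ox, Finset.mem_insert, Finset.mem_singleton] at hv'
      rcases hv' with h5 | h5
      · exact hin hS.oe hS.io (h5 ▸ op_symm h3)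
      · exact hin hS.of hS.ip (h5 ▸ op_symm h3)
    have h4 : d.st = 3 ∨ d.st = 4 := by omega
    rcases h4 with h4 | h4
    · have h5 := r3 h4
      have h6 := pt_pt h (c3 c1)
      rw [← h5, hr, px'] at h6
      exact .a (h6 ▸ c1)
    · have h5 := r4 h4
      rw [hr] at h5
      exact .e h5

/-- The ends of the target. -/
theorem hit2I (h : Ctx G k S X Y) {x y e f o p x' y' : V} (hS : Sw G S x y e f o p x' y')
    (hz : y' ∈ sites G S) {v : V} (hv : v ∈ op G S y') {u b : V} {d : Dat V}
    (ha : (u, b) ∈ arms G S X) (hd : AD G S u b d) (ht : Hit G S d v) :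
    Tch d x y x' y' ∨ (d.st = 2 ∧ ∃ m, Mate G S y' m ∧ pt G S m ∈ d.core) ∨
      (d.st = 3 ∧ (∀ m, ¬ Mate G S y' m) ∧ ∃ c ∈ op G S y', c ∈ op G S d.res) := by
  have hx := hS.xsite
  have hy := hS.ysite
  have py : pt G S y = y' := pt_eq hS.sy
  have py' : pt G S y' = y := pt_eq hS.sy'
  obtain ⟨c1, c2, c3, c4, c5, c6, c7, c8, c9⟩ := core_facts h hd
  obtain ⟨vS, sv⟩ := CoreAux.op_ne hz hv
  rcases ht with hv1 | hv1
  · rcases (touchZ h hd vS sv).1 hv1 with ⟨z, hzc, h3⟩ | ⟨h0, z, hzc, hzs, h3⟩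
    · rcases common2 h (c3 hzc) hz h3 hv with h4 | h4 | h4
      · exact Or.inl (.c (h4 ▸ hzc))
      · rw [py'] at h4
        exact Or.inl (.b (h4 ▸ hzc))
      · exact Or.inl (.c (core_mate h hd hzc h4.symm).1)
    · have pz := pt_pt h (c3 hzc)
      rcases common2 h hzs hz h3 hv with h4 | h4 | h4
      · rw [h4, py'] at pz
        exact Or.inl (.b (pz ▸ hzc))
      · rw [h4, py', py] at pz
        exact Or.inl (.c (pz ▸ hzc))
      · exact Or.inr (Or.inl ⟨h0, _, h4, by rw [pz]; exact hzc⟩)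
  · have h3 := (touchZ h hd vS sv).2 hv1
    have h3' : 3 ≤ d.st := tb_st hv1
    obtain ⟨rS, sr, rn, ⟨c, l, hcl, sc, sl⟩, r3, r4⟩ := res_facts h ha hd h3'
    have h4 : d.st = 3 ∨ d.st = 4 := by omega
    rcases h4 with h4 | h4
    · by_cases hm : ∃ m, Mate G S y' m
      · exfalso
        obtain ⟨m, hm⟩ := hm
        obtain ⟨f2, o2, p2, y2, m2, hS2⟩ := exists_Sw h.reg h.hk h.nt h.lev hm hv
        have e2 : y2 = y := by
          rw [← pt_eq hS2.sx, py']
        have h5 : d.res ∈ op G S v := op_symm h3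
        rw [hS2.oe] at h5
        simp only [Finset.mem_insert, Finset.mem_singleton] at h5
        have h6 : d.res = m2 := by
          rcases h5 with h5 | h5 | h5
          · exact absurd (h5 ▸ hz) rn
          · exact absurd (h5 ▸ hm.2.1) rn
          · rcases hS2.io with h7 | h7 | h7
            · rw [h5, sd_of_empty h7] at sr; omega
            · exact absurd (h5.trans (h7.trans e2) ▸ hy) rn
            · exact h5.trans h7
        have h7 := r3 h4
        have h8 := pt_pt h (c3 c1)
        rw [← h7, h6, pt_eq hS2.sy'] at h8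
        have h9 : m ∈ d.core := h8 ▸ c1
        have h10 := (core_mate h hd h9 hm.symm).1
        have := c8 y' h10 h4
        rw [py'] at this
        exact this hy
      · push Not at hm
        exact Or.inr (Or.inr ⟨h4, hm, v, hv, h3⟩)
    · have h5 := side1_facts h hd (r4 h4)
      have hb := h5.2.2.2.1
      obtain ⟨bS, sb⟩ := CoreAux.op_ne (c3 c1) c2
      have hvc : v = c := by
        rw [hcl, Finset.mem_insert, Finset.mem_singleton] at h3
        rcases h3 with h6 | h6
        · exact h6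
        · rw [h6] at sv; omega
      have hbc : b = c := by
        rw [hcl, Finset.mem_insert, Finset.mem_singleton] at hb
        rcases hb with h6 | h6
        · exact h6
        · rw [h6] at sb; omega
      rcases common2 h (c3 c1) hz (y := v) (by rw [hvc, ← hbc]; exact c2) hv with h6 | h6 | h6
      · exact Or.inl (.c (h6 ▸ c1))
      · rw [py'] at h6
        exact Or.inl (.b (h6 ▸ c1))
      · exact absurd h6.symm ((c6 (by omega) (by omega)).2 y')

/-- The classification of the arms of stage at least two which touch `ter {x, e, y'}`. -/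
theorem hit2 (h : Ctx G k S X Y) {x y e f o p x' y' : V} (hS : Sw G S x y e f o p x' y')
    (hz : y' ∈ sites G S) {w : V} (hw : w ∈ ter G S {x, e, y'}) {u b : V} {d : Dat V}
    (ha : (u, b) ∈ arms G S X) (hd : AD G S u b d) (h2 : 2 ≤ d.st) (ht : Hit G S d w) :
    Tch d x y x' y' ∨ (d.st = 2 ∧ ∃ m, Mate G S y' m ∧ pt G S m ∈ d.core) ∨
      (d.st = 3 ∧ (∀ m, ¬ Mate G S y' m) ∧ ∃ c ∈ op G S y', c ∈ op G S d.res) := by
  obtain ⟨i, j, hij, hop⟩ := Finset.card_eq_two.1 (CntAux.site_op h.reg hz)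
  have px : pt G S x = x' := pt_eq hS.sx
  have py : pt G S y = y' := pt_eq hS.sy
  rcases (ter_opt h hS hz hop w).1 hw with h1 | h1 | h1 | h1
  · exact Or.inl (hit2U h hS hz h1 hd ht)
  · refine Or.inl (hit2E h hS hz ?_ ha hd ht)
    rw [hS.ox, Finset.mem_insert, Finset.mem_singleton]
    exact h1
  · refine hit2I h hS hz ?_ ha hd ht
    rw [hop, Finset.mem_insert, Finset.mem_singleton]
    exact h1
  · rcases hS.io with h3 | h3 | h3
    · left
      rw [h1] at ht
      rcases ht with ⟨F, hF, h4⟩ | h4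
      · rcases p3 h.reg h.hk h.nt h.lev hS.swE (sd_of_empty h3) hd h2 hF h4 with
          ⟨z, hz1, hz2⟩ | ⟨z, hz1, hz2⟩
        · rw [px, py] at hz2
          rcases hz2 with h5 | h5 | h5 | h5
          · exact .a (h5 ▸ hz1)
          · exact .b (h5 ▸ hz1)
          · exact .d (h5 ▸ hz1)
          · exact .c (h5 ▸ hz1)
        · rw [px, py] at hz2
          rw [Finset.mem_union] at hz1
          rcases hz2 with h5 | h5
          · rw [h5] at hz1
            rcases hz1 with h6 | h6
            · exact .e h6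
            · exact .f h6
          · rw [h5] at hz1
            rcases hz1 with h6 | h6
            · exact absurd h6 (s1_not h hd hz)
            · exact absurd h6 (s2_not' h hd hz)
      · exfalso
        have h5 := tb_st h4
        unfold tb at h4
        rw [if_pos h5] at h4
        obtain ⟨rS, sr, -⟩ := res_facts h ha hd h5
        rcases mem_ter_O hS.oS h3 h4 with h6 | ⟨c, h6, h7, -⟩
        · rw [Finset.mem_singleton] at h6
          rw [← h6, sd_of_empty h3] at sr
          omega
        · rw [Finset.mem_singleton] at h6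
          exact h7 (h6 ▸ rS)
    · exact Or.inl (hit2U h hS hz (Or.inr (Or.inl (h1.trans h3))) hd ht)
    · exact Or.inl (hit2U h hS hz (Or.inr (Or.inr (Or.inr (h1.trans h3)))) hd ht)

end Pool.Agent.Lib.AndoD
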