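import Mathlib

/-!
# AndoD.PackDefs: the abstract packing problem (definitions)

Arms `a` in a finite set `A` with stage `st a`, a finite set `Fs a` of operations `f` with
territory `T f`, and (for stages 3 and 4) a resource territory `TB a`.
-/

set_option autoImplicit false

namespace Pool.Agent.Lib.AndoD

variable {α β V : Type*} [DecidableEq α] [DecidableEq β] [DecidableEq V]

/-- The arm `a` is alive at the set `R` of used vertices: some operation of it is free. -/
def Alive (Fs : α → Finset β) (T : β → Finset V) (R : Finset V) (a : α) : Prop :=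
  ∃ f ∈ Fs a, Disjoint (T f) R

/-- The arm `a` dies if `T f` is added to `R`. -/
def Dies (Fs : α → Finset β) (T : β → Finset V) (R : Finset V) (f : β) (a : α) : Prop :=
  Alive Fs T R a ∧ ¬ Alive Fs T (R ∪ T f) a

/-- Some operation of the arm `a'` meets the set `U`. -/
def TMeet (Fs : α → Finset β) (T : β → Finset V) (U : Finset V) (a' : α) : Prop :=
  ∃ f' ∈ Fs a', ¬ Disjoint (T f') U

open Classical in
/-- The bounds for the choice of the operation `f` of the arm `a` at the state `R`. -/
structure StepOK (A : Finset α) (st : α → ℕ) (Fs : α → Finset β) (T : β → Finset V)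
    (TB : α → Finset V) (R : Finset V) (a : α) (f : β) : Prop where
  mem : a ∈ A
  memf : f ∈ Fs a
  free : Disjoint (T f) R
  least : ∀ a' ∈ A, Alive Fs T R a' → st a ≤ st a'
  dies : (A.filter (fun a' => Dies Fs T R f a')).card ≤ 12
  low : st a ≤ 2 → (A.filter (fun a' => (st a' ≤ 2 ∧ Dies Fs T R f a') ∨
    (3 ≤ st a' ∧ (TMeet Fs T (T f) a' ∨ ¬ Disjoint (TB a') (T f))))).card ≤ 12
  mid : st a = 3 → (A.filter (fun a' => (st a' = 3 ∧ (TMeet Fs T (T f) a' ∨
    ¬ Disjoint (TB a') (T f))) ∨ (st a' = 4 ∧ ¬ Disjoint (TB a') (T f)))).card ≤ 6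
  high : st a = 4 → (A.filter (fun a' => st a' = 4 ∧ ¬ Disjoint (TB a') (T f))).card ≤ 6

/-- The used vertices. -/
def used (T : β → Finset V) (P : Finset (α × β)) : Finset V := P.biUnion (fun p => T p.2)

end Pool.Agent.Lib.AndoD
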