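import Pool.Agent.Lib.AndoD.Bnd2A
import Pool.Agent.Lib.AndoD.PackDefs

/-!
# AndoD.Bnd2B: the operations of stage two, second part

`st2_data`, `mem_opts`: the data of an arm of stage two; `dead_end`: it is dead if an end of its
switch is used; `opt_other`: if one option is free and the other one is not, an end of the other
target is used; `meet2`: two operations which meet.
-/

set_option autoImplicit false
set_option linter.unusedSectionVars false
set_option linter.unusedSimpArgs false

namespace Pool.Agent.Lib.AndoD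

open Pool.Agent.Lib.Ando Pool.Agent.Lib.AndoC

variable {V : Type*} [Fintype V] [DecidableEq V] {G : SimpleGraph V} [DecidableRel G.Adj]

open SwAux SwFlipAux

variable {k : ℕ} {S : Finset V} {X Y : Finset (Finset V)}

theorem st2_data {u b : V} {d : Dat V} (hd : AD G S u b d) (h2 : d.st = 2) :
    ∃ y o, SwE G S u y b o ∧ (pt G S u ∈ sites G S ∨ pt G S y ∈ sites G S) ∧
      d.core = {u, y} ∧ d.Fs = opts G S u y b := by
  cases hd with
  | ub0 h hp hs => exact absurd h2 (by norm_num)
  | ub1 h hp => exact absurd h2 (by norm_num)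
  | cap1 h ht => exact absurd h2 (by norm_num)
  | alp h hz => exact ⟨_, _, h, hz, rfl, rfl⟩
  | nsw h hx hy hx' hi => exact absurd h2 (by norm_num)
  | ub4 h => exact absurd h2 (by norm_num)
  | cap4 h ht hn hq => exact absurd h2 (by norm_num)
  | cap5 h ht => exact absurd h2 (by norm_num)

theorem mem_opts {x y e : V} {F : Finset V} : F ∈ opts G S x y e ↔
    (pt G S y ∈ sites G S ∧ F = {x, e, pt G S y}) ∨
      (pt G S x ∈ sites G S ∧ F = {y, e, pt G S x}) := by
  unfold opts
  rw [Finset.mem_union]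
  constructor
  · rintro (h | h)
    · split_ifs at h with h1
      · exact Or.inl ⟨h1, Finset.mem_singleton.1 h⟩
      · simp at h
    · split_ifs at h with h1
      · exact Or.inr ⟨h1, Finset.mem_singleton.1 h⟩
      · simp at h
  · rintro (⟨h, h1⟩ | ⟨h, h1⟩)
    · left; rw [if_pos h, h1]; simp
    · right; rw [if_pos h, h1]; simp

theorem opts_comm (x y e : V) : opts G S x y e = opts G S y x e := by
  ext F
  rw [mem_opts, mem_opts]
  tauto

/-- The part of the territory which does not depend on the option. -/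
theorem opt_core (h : Ctx G k S X Y) {x y e f o p x' y' : V} (hS : Sw G S x y e f o p x' y')
    {F : Finset V} (hF : F ∈ opts G S x y e) {w : V}
    (hw : (w = x ∨ w = x' ∨ w = y ∨ w = y') ∨ (w = e ∨ w = f) ∨ w = o) : w ∈ ter G S F := by
  rcases mem_opts.1 hF with ⟨h1, h2⟩ | ⟨h1, h2⟩
  · rw [pt_eq hS.sy] at h1 h2
    obtain ⟨i, j, hij, hop⟩ := Finset.card_eq_two.1 (CntAux.site_op h.reg h1)
    rw [h2]
    refine (ter_opt h hS h1 hop w).2 ?_
    rcases hw with h3 | h3 | h3
    · exact Or.inl h3
    · exact Or.inr (Or.inl h3)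
    · exact Or.inr (Or.inr (Or.inr h3))
  · rw [pt_eq hS.sx] at h1 h2
    obtain ⟨i, j, hij, hop⟩ := Finset.card_eq_two.1 (CntAux.site_op h.reg h1)
    rw [h2]
    refine (ter_opt h hS.swapS h1 hop w).2 ?_
    rcases hw with (h3 | h3 | h3 | h3) | h3 | h3
    · exact Or.inl (Or.inr (Or.inr (Or.inl h3)))
    · exact Or.inl (Or.inr (Or.inr (Or.inr h3)))
    · exact Or.inl (Or.inl h3)
    · exact Or.inl (Or.inr (Or.inl h3))
    · exact Or.inr (Or.inl h3)
    · exact Or.inr (Or.inr (Or.inr h3))

/-- An arm of stage two is dead if an end of its switch is used. -/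
theorem dead_end (h : Ctx G k S X Y) {u b : V} {d : Dat V} (hd : AD G S u b d) (h2 : d.st = 2)
    {v c : V} (hv : v ∈ d.core) (hc : c ∈ op G S v) {R : Finset V} (hR : c ∈ R) {F : Finset V}
    (hF : F ∈ d.Fs) : ¬ Disjoint (ter G S F) R := by
  obtain ⟨y, o, hsw, -, hcore, hFs⟩ := st2_data hd h2
  obtain ⟨f, p, x', y', hS⟩ := hsw.toSw h.reg h.hk h.nt h.lev
  rw [hFs] at hF
  have hop : c = b ∨ c = f := by
    rw [hcore, Finset.mem_insert, Finset.mem_singleton] at hv
    have : op G S v = {b, f} := by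
      rcases hv with rfl | rfl
      · exact hS.ox
      · exact hS.oy
    rw [this, Finset.mem_insert, Finset.mem_singleton] at hc
    exact hc
  rw [Finset.not_disjoint_iff]
  exact ⟨c, opt_core h hS hF (Or.inr (Or.inl hop)), hR⟩

/-- If the option towards `y'` is free and the one towards `x'` is not, an end of `x'` is
used. -/
theorem opt_other (h : Ctx G k S X Y) {x y e f o p x' y' : V} (hS : Sw G S x y e f o p x' y')
    (hy : y' ∈ sites G S) (hx : x' ∈ sites G S) {R : Finset V}
    (h1 : Disjoint (ter G S {x, e, y'}) R) (h2 : ¬ Disjoint (ter G S {y, e, x'}) R) :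
    ∃ c ∈ op G S x', c ∈ R := by
  obtain ⟨i, j, hij, hop⟩ := Finset.card_eq_two.1 (CntAux.site_op h.reg hy)
  obtain ⟨i2, j2, hij2, hop2⟩ := Finset.card_eq_two.1 (CntAux.site_op h.reg hx)
  obtain ⟨w, hw, hwR⟩ := Finset.not_disjoint_iff.1 h2
  have hnot : w ∉ ter G S {x, e, y'} := fun h3 => Finset.disjoint_left.1 h1 h3 hwR
  rw [ter_opt h hS hy hop] at hnot
  rcases (ter_opt h hS.swapS hx hop2 w).1 hw with h3 | h3 | h3 | h3
  · refine absurd (Or.inl ?_) hnot
    rcases h3 with h3 | h3 | h3 | h3
    · exact Or.inr (Or.inr (Or.inl h3))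
    · exact Or.inr (Or.inr (Or.inr h3))
    · exact Or.inl h3
    · exact Or.inr (Or.inl h3)
  · exact absurd (Or.inr (Or.inl h3)) hnot
  · refine ⟨w, ?_, hwR⟩
    rw [hop2, Finset.mem_insert, Finset.mem_singleton]
    exact h3
  · exact absurd (Or.inr (Or.inr (Or.inr h3))) hnot

/-- Two operations which meet. -/
theorem meet2 (h : Ctx G k S X Y) {x y e f o p x' y' : V} (hS : Sw G S x y e f o p x' y')
    (hy : y' ∈ sites G S) {a b c d q r a' b' : V} (hS2 : Sw G S a b c d q r a' b')
    (hb : b' ∈ sites G S) {w : V} (hw : w ∈ ter G S {x, e, y'}) (hw2 : w ∈ ter G S {a, c, b'}) :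
    ((a = x ∨ a = y ∨ a = x' ∨ a = y') ∨ (b = x ∨ b = y ∨ b = x' ∨ b = y')) ∨
      Mate G S y' b' := by
  obtain ⟨i, j, hij, hop⟩ := Finset.card_eq_two.1 (CntAux.site_op h.reg hy)
  obtain ⟨i2, j2, hij2, hop2⟩ := Finset.card_eq_two.1 (CntAux.site_op h.reg hb)
  have px : pt G S x = x' := pt_eq hS.sx
  have py : pt G S y = y' := pt_eq hS.sy
  have px' : pt G S x' = x := pt_eq hS.sx'
  have py' : pt G S y' = y := pt_eq hS.sy'
  have pa : pt G S a = a' := pt_eq hS2.sx
  have pb : pt G S b = b' := pt_eq hS2.sy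
  have pa' : pt G S a' = a := pt_eq hS2.sx'
  have pb' : pt G S b' = b := pt_eq hS2.sy'
  have hx := hS.xsite
  have hyy := hS.ysite
  have ha := hS2.xsite
  have hbb := hS2.ysite
  have hm := ter_opt h hS hy hop w
  have hm2 := ter_opt h hS2 hb hop2 w
  -- partners of x, y, x', y'
  have clo : ∀ {z : V}, (z = x ∨ z = x' ∨ z = y ∨ z = y') →
      (pt G S z = x ∨ pt G S z = y ∨ pt G S z = x' ∨ pt G S z = y') := by
    intro z hz
    rcases hz with rfl | rfl | rfl | rfl
    · exact Or.inr (Or.inr (Or.inl px))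
    · exact Or.inl px'
    · exact Or.inr (Or.inr (Or.inr py))
    · exact Or.inr (Or.inl py')
  have clo' : ∀ {z : V}, (z = x ∨ z = x' ∨ z = y ∨ z = y') →
      (z = x ∨ z = y ∨ z = x' ∨ z = y') := by
    intro z hz
    rcases hz with hz | hz | hz | hz
    · exact Or.inl hz
    · exact Or.inr (Or.inr (Or.inl hz))
    · exact Or.inr (Or.inl hz)
    · exact Or.inr (Or.inr (Or.inr hz))
  have fin : (w = x ∨ w = x' ∨ w = y ∨ w = y') → (w = a ∨ w = a' ∨ w = b ∨ w = b') →
      ((a = x ∨ a = y ∨ a = x' ∨ a = y') ∨ (b = x ∨ b = y ∨ b = x' ∨ b = y')) := by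
    intro h1 h2
    rcases h2 with h2 | h2 | h2 | h2
    · exact Or.inl (h2 ▸ clo' h1)
    · have := clo h1
      rw [h2, pa'] at this
      exact Or.inl this
    · exact Or.inr (h2 ▸ clo' h1)
    · have := clo h1
      rw [h2, pb'] at this
      exact Or.inr this
  have wcol : ∀ {z u : V}, u ∈ sites G S → z ∈ op G S u → z ∉ S := fun h1 h2 =>
    (CoreAux.op_ne h1 h2).1
  -- members of the second territory by type
  have secU : w ∈ S → sd G S w = 1 → (w = a ∨ w = a' ∨ w = b ∨ w = b') := by
    intro wS sw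
    rcases hm2.1 hw2 with h1 | h1 | h1 | h1
    · exact h1
    · exact absurd wS (wcol ha (by rw [hS2.ox]; simp [h1]))
    · exact absurd wS (wcol hb (by rw [hop2]; simp [h1]))
    · rcases hS2.io with h2 | h2 | h2
      · rw [h1, sd_of_empty h2] at sw; omega
      · exact Or.inr (Or.inl (h1.trans h2))
      · exact Or.inr (Or.inr (Or.inr (h1.trans h2)))
  have secB : w ∉ S → (w ∈ op G S a ∨ w ∈ op G S b') := by
    intro wS
    rcases hm2.1 hw2 with h1 | h1 | h1 | h1
    · exfalso
      apply wS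
      rcases h1 with h1 | h1 | h1 | h1 <;> rw [h1]
      · exact hS2.xS
      · exact hS2.x'S
      · exact hS2.yS
      · exact hS2.y'S
    · left; rw [hS2.ox]; simpa using h1
    · right; rw [hop2]; simpa using h1
    · exact absurd (h1 ▸ hS2.oS) wS
  have muxy : ∀ {v : V}, Mate G S x v → v = y := fun hm =>
    mate_unique h.reg h.nt h.dz h.lev hm hS.mate
  rcases hm.1 hw with h1 | h1 | h1 | h1
  · left
    refine fin h1 (secU ?_ ?_)
    · rcases h1 with h1 | h1 | h1 | h1 <;> rw [h1]
      · exact hS.xS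
      · exact hS.x'S
      · exact hS.yS
      · exact hS.y'S
    · rcases h1 with h1 | h1 | h1 | h1 <;> rw [h1]
      · exact sd_of_single hS.sx
      · exact sd_of_single hS.sx'
      · exact sd_of_single hS.sy
      · exact sd_of_single hS.sy'
  · left
    have hwx : w ∈ op G S x := by rw [hS.ox]; simpa using h1
    rcases secB (wcol hx hwx) with h2 | h2
    · left
      rcases common2 h ha hx h2 hwx with h3 | h3 | h3
      · exact Or.inl h3
      · exact Or.inr (Or.inr (Or.inl (h3.trans px)))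
      · exact Or.inr (Or.inl (muxy h3))
    · right
      rcases common2 h hb hx h2 hwx with h3 | h3 | h3
      · rw [h3, px] at pb'
        exact Or.inr (Or.inr (Or.inl pb'.symm))
      · rw [h3, px, px'] at pb'
        exact Or.inl pb'.symm
      · rw [muxy h3, py] at pb'
        exact Or.inr (Or.inr (Or.inr pb'.symm))
  · have hwy : w ∈ op G S y' := by rw [hop]; simpa using h1
    rcases secB (wcol hy hwy) with h2 | h2
    · left
      rcases common2 h ha hy h2 hwy with h3 | h3 | h3
      · exact Or.inl (Or.inr (Or.inr (Or.inr h3)))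
      · exact Or.inl (Or.inr (Or.inl (h3.trans py')))
      · have := mate_unique h.reg h.nt h.dz h.lev h3.symm hS2.mate
        exact Or.inr (Or.inr (Or.inr (Or.inr this.symm)))
    · rcases common2 h hb hy h2 hwy with h3 | h3 | h3
      · rw [h3, py'] at pb'
        exact Or.inl (Or.inr (Or.inr (Or.inl pb'.symm)))
      · rw [h3, py', py] at pb'
        exact Or.inl (Or.inr (Or.inr (Or.inr (Or.inr pb'.symm))))
      · exact Or.inr h3
  · rcases hS.io with h2 | h2 | h2
    · left
      have hd : AD G S a c ⟨2, opts G S a b c, a, c, {a, b}, ∅, ∅⟩ :=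
        .alp hS2.swE (Or.inr (by rw [pb]; exact hb))
      rcases p3 h.reg h.hk h.nt h.lev hS.swE (sd_of_empty h2) hd le_rfl
          (F := {a, c, b'}) (mem_opts.2 (Or.inl ⟨by rw [pb]; exact hb, by rw [pb]⟩))
          (h1 ▸ hw2) with ⟨z, hz1, hz2⟩ | ⟨z, hz1, hz2⟩
      · rw [px, py] at hz2
        simp only [Finset.mem_insert, Finset.mem_singleton] at hz1
        rcases hz1 with rfl | rfl
        · exact Or.inl hz2
        · exact Or.inr hz2
      · simp at hz1
    · have h3 : w = x' := h1.trans h2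
      exact Or.inl (fin (Or.inr (Or.inl h3)) (secU (h3 ▸ hS.x'S)
        (h3 ▸ sd_of_single hS.sx')))
    · have h3 : w = y' := h1.trans h2
      exact Or.inl (fin (Or.inr (Or.inr (Or.inr h3))) (secU (h3 ▸ hS.y'S)
        (h3 ▸ sd_of_single hS.sy')))

end Pool.Agent.Lib.AndoD
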