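import Pool.Agent.Lib.AndoD.CntS
import Pool.Agent.Lib.AndoD.BndS
import Pool.Agent.Lib.AndoD.P3
import Pool.Agent.Lib.AndoD.TouchO
import Pool.Agent.Lib.AndoD.TouchZ
import Pool.Agent.Lib.AndoD.TouchL
import Pool.Agent.Lib.AndoD.PackDefs

/-!
# AndoD.Bnd3: the bounds for the arms of stage 3

An arm of stage 3 at the end `e` of the switch `x`, `y`: its territory is `x, y, x*, y*, e, f, o`.
An arm `a'` of stage at least 3 whose territory meets it is an arm of `x` or `y`, or `x*` or `y*` is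
a side of it; an arm whose resource territory meets it is an arm of `x` or `y`, or its resource is
`x*` or `y*`.
-/

set_option autoImplicit false
set_option linter.unusedSectionVars false

namespace Pool.Agent.Lib.AndoD

open Pool.Agent.Lib.Ando Pool.Agent.Lib.AndoC

variable {V : Type*} [Fintype V] [DecidableEq V] {G : SimpleGraph V} [DecidableRel G.Adj]

open CntAux CoreAux ExADAux

variable {k : ℕ} {S : Finset V} {X Y : Finset (Finset V)} {dat : V × V → Dat V}

namespace Bnd3Aux

/-- The data of an arm of stage 3. -/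
theorem st3 {u b : V} {d : Dat V} (hd : AD G S u b d) (h3 : d.st = 3) :
    ∃ y o, SwE G S u y b o ∧ d.core = {u, y} ∧ d.s1 = ∅ ∧ d.s2 = ∅ ∧ d.cen = b ∧
      pt G S u ∉ sites G S ∧ pt G S y ∉ sites G S ∧ d.res = pt G S u ∧
      ∃ x', (x' = u ∨ x' = y) ∧ Iso G S x' o ∧ d.Fs = {{x', b}} := by
  cases hd with
  | ub0 _ _ _ => exact absurd h3 (by norm_num)
  | ub1 _ _ => exact absurd h3 (by norm_num)
  | cap1 _ _ => exact absurd h3 (by norm_num)
  | alp _ _ => exact absurd h3 (by norm_num)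
  | ub4 _ => exact absurd h3 (by norm_num)
  | cap4 _ _ _ _ => exact absurd h3 (by norm_num)
  | cap5 _ _ => exact absurd h3 (by norm_num)
  | nsw h hx hy hx' hi => exact ⟨_, _, h, rfl, rfl, rfl, rfl, hx, hy, rfl, _, hx', hi, rfl⟩

/-- The vertices of the territory of an arm of stage 3. -/
theorem ter3 (h : Ctx G k S X Y) {x b y o : V} {d : Dat V} (hd : AD G S x b d) (h3 : d.st = 3)
    (hs : SwE G S x y b o) (hc : d.core = {x, y}) (h1 : d.s1 = ∅) (h2 : d.s2 = ∅)
    (hb : d.cen = b) {F : Finset V} (hF : F ∈ d.Fs) {z : V} (hz : z ∈ ter G S F) :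
    (z = o ∧ sd G S z = 0 ∧ z ∈ S) ∨
    (z ∈ S ∧ sd G S z = 1 ∧ (z = x ∨ z = y ∨ z = pt G S x ∨ z = pt G S y)) ∨
    (z ∉ S ∧ sd G S z = 0 ∧ z ∈ op G S x) := by
  have hH : Hit G S d z := Or.inl ⟨F, hF, hz⟩
  have sx := (StructAux.mem_sites.1 hs.mate.1).2.1
  have sy := (StructAux.mem_sites.1 hs.mate.2.1).2.1
  have htf := h.lev.tf z
  by_cases zS : z ∈ S
  · by_cases s0 : sd G S z = 0
    · left
      have h4 := touchO h hd zS s0 hH
      rw [hb] at h4
      have h5 := op_symm h4
      rw [hs.oe] at h5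
      simp only [Finset.mem_insert, Finset.mem_singleton] at h5
      rcases h5 with h5 | h5 | h5
      · rw [h5] at s0; omega
      · rw [h5] at s0; omega
      · exact ⟨h5, s0, zS⟩
    · right; left
      have s1 : sd G S z = 1 := by omega
      refine ⟨zS, s1, ?_⟩
      have hp := pt_all h.lev s1
      have h4 := touchU h hd zS s1 hH
      rw [hc, h1, h2] at h4
      simp only [Finset.mem_insert, Finset.mem_singleton, Finset.notMem_empty, or_false] at h4
      rcases h4 with (h4 | h4) | h4 | h4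
      · exact Or.inl h4
      · exact Or.inr (Or.inl h4)
      · right; right; left
        rw [← h4, hp.2.2.2.1]
      · right; right; right
        rw [← h4, hp.2.2.2.1]
  · by_cases s0 : sd G S z = 0
    · right; right
      refine ⟨zS, s0, ?_⟩
      rcases (touchZ h hd zS s0).1 ⟨F, hF, hz⟩ with ⟨x1, hx1, h4⟩ | ⟨h4, -⟩
      · rw [hc, Finset.mem_insert, Finset.mem_singleton] at hx1
        rcases hx1 with rfl | rfl
        · exact h4
        · rw [hs.mate.2.2.2.2]; exact h4
      · omega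
    · exfalso
      have s1 : sd G S z = 1 := by omega
      have h4 := ((touchL h hd zS s1).1 ⟨F, hF, hz⟩).1
      rw [hb] at h4
      have := (StructAux.mem_sites.1 hs.mate.1).2.2 b hs.xe
      omega

/-- own arms -/
theorem own_of (h : Ctx G k S X Y) (hdat : DatOK G S X dat) {x y : V} (hm : Mate G S x y)
    {a : V × V} (ha : a ∈ arms G S X) {z : V} (hz : z ∈ (dat a).core) (hz' : z = x ∨ z = y) :
    a.1 = x ∨ a.1 = y := by
  rcases ((core_facts h (hdat a ha)).2.2.2.1 z hz).2 with h1 | h1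
  · rw [← h1]; exact hz'
  · rcases hz' with rfl | rfl
    · exact Or.inr (mate_unique h.reg h.nt h.dz h.lev h1.symm hm)
    · exact Or.inl (mate_unique h.reg h.nt h.dz h.lev h1.symm hm.symm)

/-- The arms of stage at least 3 with a territory that meets the one of an arm of stage 3. -/
theorem keyT (h : Ctx G k S X Y) (hdat : DatOK G S X dat) {x b y o : V} {d : Dat V}
    (hd : AD G S x b d) (h3 : d.st = 3)
    (hs : SwE G S x y b o) (hc : d.core = {x, y}) (h1 : d.s1 = ∅) (h2 : d.s2 = ∅)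
    (hb : d.cen = b) (nx : pt G S x ∉ sites G S) (ny : pt G S y ∉ sites G S)
    {F : Finset V} (hF : F ∈ d.Fs) {a : V × V} (ha : a ∈ arms G S X) (h3' : 3 ≤ (dat a).st)
    {F' : Finset V} (hF' : F' ∈ (dat a).Fs) {z : V} (hz : z ∈ ter G S F)
    (hz' : z ∈ ter G S F') :
    (a.1 = x ∨ a.1 = y) ∨ ((dat a).st = 4 ∧ ((pt G S x ∈ (dat a).s1 ∨ pt G S x ∈ (dat a).s2) ∨
      (pt G S y ∈ (dat a).s1 ∨ pt G S y ∈ (dat a).s2))) := by
  have hA := hdat a ha
  have cf := core_facts h hA
  have hx := hs.mate.1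
  have hy := hs.mate.2.1
  have ncx : pt G S x ∉ (dat a).core := fun h4 => nx (cf.2.2.1 h4)
  have ncy : pt G S y ∉ (dat a).core := fun h4 => ny (cf.2.2.1 h4)
  have n1 : ∀ {w : V}, w ∈ sites G S → w ∉ (dat a).s1 := fun h4 h5 =>
    (side1_facts h hA h5).2.2.1 h4
  have n2 : ∀ {w : V}, w ∈ sites G S → w ∉ (dat a).s2 := fun h4 h5 =>
    s2_not h hdat ha h5 h4
  have st4 : ∀ {w : V}, w ∈ (dat a).s1 ∨ w ∈ (dat a).s2 → (dat a).st = 4 := by
    rintro w (h4 | h4)
    · have := (side1_facts h hA h4).2.2.2.2.2.2.1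
      omega
    · exact (side2_facts h hA h4).2.2.2.2.2.2.1
  have hpx := pt_all h.lev (StructAux.mem_sites.1 hx).2.1
  have hpy := pt_all h.lev (StructAux.mem_sites.1 hy).2.1
  rcases ter3 h hd h3 hs hc h1 h2 hb hF hz with ⟨rfl, s0, zS⟩ | ⟨zS, s1, h4⟩ | ⟨zS, s0, h4⟩
  · rcases p3 h.reg h.hk h.nt h.lev hs s0 hA (by omega) hF' hz' with
      ⟨w, hw, h5⟩ | ⟨w, hw, h5⟩
    · left
      rcases h5 with h5 | h5 | h5 | h5
      · exact own_of h hdat hs.mate ha hw (Or.inl h5)
      · exact own_of h hdat hs.mate ha hw (Or.inr h5)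
      · exact absurd (h5 ▸ hw) ncx
      · exact absurd (h5 ▸ hw) ncy
    · right
      rw [Finset.mem_union] at hw
      refine ⟨st4 hw, ?_⟩
      rcases h5 with rfl | rfl
      · exact Or.inl hw
      · exact Or.inr hw
  · have hH : Hit G S (dat a) z := Or.inl ⟨F', hF', hz'⟩
    have h5 := touchU h hA zS s1 hH
    have main : ∀ {w : V}, (w ∈ (dat a).core ∨ w ∈ (dat a).s1 ∨ w ∈ (dat a).s2) →
        (w = x ∨ w = y ∨ w = pt G S x ∨ w = pt G S y) →
        (a.1 = x ∨ a.1 = y) ∨ ((dat a).st = 4 ∧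
          ((pt G S x ∈ (dat a).s1 ∨ pt G S x ∈ (dat a).s2) ∨
          (pt G S y ∈ (dat a).s1 ∨ pt G S y ∈ (dat a).s2))) := by
      rintro w h6 h7
      rcases h6 with h6 | h6
      · left
        rcases h7 with h7 | h7 | h7 | h7
        · exact own_of h hdat hs.mate ha h6 (Or.inl h7)
        · exact own_of h hdat hs.mate ha h6 (Or.inr h7)
        · exact absurd (h7 ▸ h6) ncx
        · exact absurd (h7 ▸ h6) ncy
      · have h8 : w ∉ sites G S := by
          intro h9
          rcases h6 with h6 | h6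
          · exact n1 h9 h6
          · exact n2 h9 h6
        right
        refine ⟨st4 h6, ?_⟩
        rcases h7 with rfl | rfl | rfl | rfl
        · exact absurd hx h8
        · exact absurd hy h8
        · exact Or.inl h6
        · exact Or.inr h6
    have h7 : pt G S z = x ∨ pt G S z = y ∨ pt G S z = pt G S x ∨ pt G S z = pt G S y := by
      rcases h4 with rfl | rfl | rfl | rfl
      · exact Or.inr (Or.inr (Or.inl rfl))
      · exact Or.inr (Or.inr (Or.inr rfl))
      · exact Or.inl hpx.2.2.2.1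
      · exact Or.inr (Or.inl hpy.2.2.2.1)
    rcases h5 with h5 | h5 | h5 | h5 | h5 | h5
    · exact main (Or.inl h5) h4
    · exact main (Or.inl h5) h7
    · exact main (Or.inr (Or.inl h5)) h4
    · exact main (Or.inr (Or.inl h5)) h7
    · exact main (Or.inr (Or.inr h5)) h4
    · exact main (Or.inr (Or.inr h5)) h7
  · left
    rcases (touchZ h hA zS s0).1 ⟨F', hF', hz'⟩ with ⟨x1, hx1, h5⟩ | ⟨h5, -⟩
    · rcases BndSAux.share h hx (cf.2.2.1 hx1) h4 h5 with h6 | h6 | h6
      · exact own_of h hdat hs.mate ha hx1 (Or.inl h6)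
      · exact absurd (h6 ▸ hx1) ncx
      · exact own_of h hdat hs.mate ha hx1
          (Or.inr (mate_unique h.reg h.nt h.dz h.lev h6 hs.mate))
    · omega

/-- The arms of stage at least 3 whose resource meets the territory of an arm of stage 3. -/
theorem keyB (h : Ctx G k S X Y) (hdat : DatOK G S X dat) {x b y o : V} {d : Dat V}
    (hd : AD G S x b d) (h3 : d.st = 3)
    (hs : SwE G S x y b o) (hc : d.core = {x, y}) (h1 : d.s1 = ∅) (h2 : d.s2 = ∅)
    (hb : d.cen = b)
    {F : Finset V} (hF : F ∈ d.Fs) {a : V × V} (ha : a ∈ arms G S X) (h3' : 3 ≤ (dat a).st)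
    {z : V} (hz : z ∈ ter G S F) (hz' : z ∈ tb G S (dat a)) :
    (dat a).res = pt G S x ∨ (dat a).res = pt G S y := by
  have hA := hdat a ha
  have rf := res_facts h ha hA h3'
  have hx := hs.mate.1
  have hy := hs.mate.2.1
  have hpx := pt_all h.lev (StructAux.mem_sites.1 hx).2.1
  have hpy := pt_all h.lev (StructAux.mem_sites.1 hy).2.1
  have hpr := pt_all h.lev rf.2.1
  have hz2 : z ∈ ter G S {(dat a).res} := by
    unfold tb at hz'
    rw [if_pos h3'] at hz'
    exact hz'
  rcases ter3 h hd h3 hs hc h1 h2 hb hF hz with ⟨rfl, s0, zS⟩ | ⟨zS, s1, h4⟩ | ⟨zS, s0, h4⟩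
  · exfalso
    rcases TouchOAux.ter_0 s0 hz2 with h4 | ⟨f, h4, h5⟩
    · rw [Finset.mem_singleton] at h4
      rw [h4] at s0
      omega
    · rw [Finset.mem_singleton] at h4
      subst h4
      exact StructAux.op_black rf.1 h5 zS
  · obtain ⟨w, hw, h5⟩ := TouchUAux.ter_U h.lev zS s1 hz2
    have h6 : w = (dat a).res := by
      rcases h5 with h5 | ⟨f, h5, h6, -⟩
      · exact Finset.mem_singleton.1 h5
      · rw [Finset.mem_singleton] at h5
        exact absurd rf.1 (h5 ▸ h6)
    have h7 : w = x ∨ w = y ∨ w = pt G S x ∨ w = pt G S y := by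
      rcases hw with rfl | rfl
      · exact h4
      · rcases h4 with rfl | rfl | rfl | rfl
        · exact Or.inr (Or.inr (Or.inl rfl))
        · exact Or.inr (Or.inr (Or.inr rfl))
        · exact Or.inl hpx.2.2.2.1
        · exact Or.inr (Or.inl hpy.2.2.2.1)
    rw [h6] at h7
    rcases h7 with h7 | h7 | h7 | h7
    · exact absurd (h7 ▸ hx) rf.2.2.1
    · exact absurd (h7 ▸ hy) rf.2.2.1
    · exact Or.inl h7
    · exact Or.inr h7
  · have h5 := op_symm ((touchZ h hA zS s0).2 hz')
    -- `res` is the third neighbour of an end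
    obtain ⟨f, p, x', y', hsw⟩ := hs.toSw h.reg h.hk h.nt h.lev
    have hthird : ∀ {q : V}, op G S z = {x, y, q} → (sm G S q = ∅ ∨ q = x' ∨ q = y') →
        (dat a).res = pt G S x ∨ (dat a).res = pt G S y := by
      intro q hq hi
      rw [hq] at h5
      simp only [Finset.mem_insert, Finset.mem_singleton] at h5
      rcases h5 with h5 | h5 | h5
      · exact absurd (h5 ▸ hx) rf.2.2.1
      · exact absurd (h5 ▸ hy) rf.2.2.1
      · rcases hi with h6 | h6 | h6
        · exfalso
          have := rf.2.1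
          unfold sd at this
          rw [h5, h6] at this
          simp at this
        · left
          rw [h5, h6, SwAux.pt_eq hsw.sx]
        · right
          rw [h5, h6, SwAux.pt_eq hsw.sy]
    rw [hsw.ox, Finset.mem_insert, Finset.mem_singleton] at h4
    rcases h4 with rfl | rfl
    · exact hthird hsw.oe hsw.io
    · exact hthird hsw.of hsw.ip

/-- The arms of one site `x` and the arms of stage 4 with the side `x*`. -/
theorem cnt3 (h : Ctx G k S X Y) (hdat : DatOK G S X dat) {x : V}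
    (hx : x ∈ sites G S) :
    ((arms G S X).filter (fun a => a.1 = x ∨ pt G S x ∈ (dat a).s1)).card ≤ 3 := by
  classical
  by_cases hX : dom G S x ∈ X
  · have hX' : dom G S (pt G S x) ∈ X := by
      rw [dom_pt h (StructAux.mem_sites.1 hx).2.1]; exact hX
    exact card_union' (fun _ _ h1 => h1) (cnt_fst h x) (cnt_s1X h hdat hX')
  · refine (card_union' (m := 0) (n := 2) (q := fun a : V × V => a.1 = x)
      (r := fun a : V × V => pt G S x ∈ (dat a).s1) (fun _ _ h1 => h1) ?_
      (cnt_s1 h hdat _)).trans (by norm_num)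
    refine card_zero' fun a ha h1 => hX ?_
    rw [← h1]
    exact arm_X ha

/-- The arms with the side `x*`. -/
theorem cnt3' (h : Ctx G k S X Y) (hdat : DatOK G S X dat) {x : V}
    (hx : x ∈ sites G S) :
    ((arms G S X).filter (fun a => pt G S x ∈ (dat a).s1 ∨ pt G S x ∈ (dat a).s2)).card ≤ 3 := by
  classical
  have hpx := pt_all h.lev (StructAux.mem_sites.1 hx).2.1
  by_cases hc : ∃ c ∈ op G S (pt G S x), sd G S c = 0
  · obtain ⟨c, hc, sc⟩ := hc
    exact card_union' (fun _ _ h1 => h1) (cnt_s1 h hdat _) (cnt_s2 h hdat hpx.2.2.1 hc sc)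
  · refine (card_union' (m := 0) (n := 2) (q := fun a : V × V => pt G S x ∈ (dat a).s1)
      (r := fun a : V × V => pt G S x ∈ (dat a).s2) (fun _ _ h1 => h1) ?_
      (cnt_s2' h hdat hpx.2.2.1)).trans (by norm_num)
    refine card_zero' fun a ha h1 => hc ?_
    obtain ⟨h2, h3⟩ := side_ex h hdat ha h1
    exact ⟨_, h2, h3⟩

end Bnd3Aux

open Bnd3Aux

open Classical in
/-- The bounds for the arms of stage 3. -/
theorem step3 (h : Ctx G k S X Y) (hdat : DatOK G S X dat) {R : Finset V} {a : V × V}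
    (ha : a ∈ arms G S X) (h3 : (dat a).st = 3) {F : Finset V} (hF : F ∈ (dat a).Fs)
    (hfree : Disjoint (ter G S F) R)
    (hleast : ∀ a' ∈ arms G S X, Alive (fun a => (dat a).Fs) (ter G S) R a' →
      (dat a).st ≤ (dat a').st) :
    StepOK (arms G S X) (fun a => (dat a).st) (fun a => (dat a).Fs) (ter G S)
      (fun a => tb G S (dat a)) R a F := by
  have hA := hdat a ha
  obtain ⟨y, o, hs, hc, h1, h2, hb, nx, ny, hr, -⟩ := st3 hA h3
  have hx := hs.mate.1
  have hy := hs.mate.2.1
  have hpx := pt_all h.lev (StructAux.mem_sites.1 hx).2.1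
  have hpy := pt_all h.lev (StructAux.mem_sites.1 hy).2.1
  refine ⟨ha, hF, hfree, hleast, ?_, ?_, ?_, ?_⟩
  · -- dies
    have hB : ((arms G S X).filter (fun a' => (a'.1 = a.1 ∨ a'.1 = y) ∨
        ((pt G S a.1 ∈ (dat a').s1 ∨ pt G S a.1 ∈ (dat a').s2) ∨
        (pt G S y ∈ (dat a').s1 ∨ pt G S y ∈ (dat a').s2)))).card ≤ (2 + 2) + (3 + 3) :=
      card_union' (fun _ _ h4 => h4)
        (card_union' (fun _ _ h4 => h4) (cnt_fst h a.1) (cnt_fst h y))
        (card_union' (fun _ _ h4 => h4) (cnt3' h hdat hx) (cnt3' h hdat hy))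
    refine (card_mono' ?_ hB).trans (by norm_num)
    rintro a' ha' ⟨⟨F', hF', hd1⟩, h5⟩
    have h6 : 3 ≤ (dat a').st := by
      have := hleast a' ha' ⟨F', hF', hd1⟩
      omega
    have h7 : ¬ Disjoint (ter G S F') (ter G S F) := by
      intro h8
      exact h5 ⟨F', hF', Finset.disjoint_union_right.2 ⟨hd1, h8⟩⟩
    obtain ⟨z, hz', hz⟩ := Finset.not_disjoint_iff.1 h7
    rcases keyT h hdat hA h3 hs hc h1 h2 hb nx ny hF ha' h6 hF' hz hz' with h8 | ⟨-, h8⟩
    · exact Or.inl h8
    · exact Or.inr h8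
  · intro h4
    omega
  · -- mid
    intro _
    have hB : ((arms G S X).filter (fun a' => (a'.1 = a.1 ∨ pt G S a.1 ∈ (dat a').s1) ∨
        (a'.1 = y ∨ pt G S y ∈ (dat a').s1))).card ≤ 3 + 3 :=
      card_union' (fun _ _ h4 => h4) (cnt3 h hdat hx) (cnt3 h hdat hy)
    refine (card_mono' ?_ hB).trans (by norm_num)
    -- the resources
    have hres : ∀ a' ∈ arms G S X, 3 ≤ (dat a').st → ¬ Disjoint (tb G S (dat a')) (ter G S F) →
        (a'.1 = a.1 ∨ pt G S a.1 ∈ (dat a').s1) ∨ (a'.1 = y ∨ pt G S y ∈ (dat a').s1) := by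
      intro a' ha' h6 h7
      obtain ⟨z, hz', hz⟩ := Finset.not_disjoint_iff.1 h7
      have h8 := keyB h hdat hA h3 hs hc h1 h2 hb hF ha' h6 hz hz'
      have rf := res_facts h ha' (hdat a' ha') h6
      have cf := core_facts h (hdat a' ha')
      have h9 : (dat a').st = 3 ∨ (dat a').st = 4 := by
        have := cf.2.2.2.2.2.2.1
        omega
      rcases h9 with h9 | h9
      · have h10 := rf.2.2.2.2.1 h9
        have hp' := pt_all h.lev (StructAux.mem_sites.1 (arm_site ha').2.1).2.1
        rcases h8 with h8 | h8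
        · left; left
          rw [← hp'.2.2.2.1, ← h10, h8, hpx.2.2.2.1]
        · right; left
          rw [← hp'.2.2.2.1, ← h10, h8, hpy.2.2.2.1]
      · have h10 := rf.2.2.2.2.2 h9
        rcases h8 with h8 | h8
        · rw [h8] at h10
          exact Or.inl (Or.inr h10)
        · rw [h8] at h10
          exact Or.inr (Or.inr h10)
    rintro a' ha' (⟨h5, h6 | h6⟩ | ⟨h5, h6⟩)
    · obtain ⟨F', hF', h7⟩ := h6
      obtain ⟨z, hz', hz⟩ := Finset.not_disjoint_iff.1 h7
      rcases keyT h hdat hA h3 hs hc h1 h2 hb nx ny hF ha' (by omega) hF' hz hz' with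
        h8 | ⟨h8, -⟩
      · rcases h8 with h8 | h8
        · exact Or.inl (Or.inl h8)
        · exact Or.inr (Or.inl h8)
      · exfalso
        have : (dat a').st = 3 := h5
        omega
    · exact hres a' ha' (by have : (dat a').st = 3 := h5; omega) h6
    · exact hres a' ha' (by have : (dat a').st = 4 := h5; omega) h6
  · intro h4
    omega

end Pool.Agent.Lib.AndoD
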