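import Pool.Agent.Lib.AndoD.CntS
import Pool.Agent.Lib.AndoD.BndS
import Pool.Agent.Lib.AndoD.TouchO
import Pool.Agent.Lib.AndoD.TouchL
import Pool.Agent.Lib.AndoD.F5d
import Pool.Agent.Lib.AndoD.PackDefs

/-!
# AndoD.Bnd4: the bounds for the arms of stage 4

Text: /team-store/b1c9a2_caseA_h59.md, section 4, lines (W) and (I) for stage 4.
-/

set_option autoImplicit false
set_option linter.unusedSectionVars false

namespace Pool.Agent.Lib.AndoD

open Pool.Agent.Lib.Ando Pool.Agent.Lib.AndoC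

variable {V : Type*} [Fintype V] [DecidableEq V] {G : SimpleGraph V} [DecidableRel G.Adj]

namespace Bnd4Aux

open CoreAux TouchUAux TerAux ExADAux CntAux

/-- Core or sides. -/
def M (d : Dat V) (z : V) : Prop := z ∈ d.core ∨ z ∈ d.s1 ∨ z ∈ d.s2

theorem P_M {S : Finset V} {d : Dat V} {w : V} (hP : P (G := G) S d w) :
    M d w ∨ M d (pt G S w) := by
  unfold P at hP
  unfold M
  tauto

variable {k : ℕ} {S : Finset V} {X Y : Finset (Finset V)} {dat : V × V → Dat V}

theorem core4 (h : Ctx G k S X Y) (hdat : DatOK G S X dat) {a : V × V} (ha : a ∈ arms G S X)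
    (h4 : (dat a).st = 4) : (dat a).core = {a.1} ∧ ∀ y, ¬ Mate G S a.1 y :=
  (core_facts h (hdat a ha)).2.2.2.2.2.1 (by omega) (by omega)

theorem own_of (h : Ctx G k S X Y) (hdat : DatOK G S X dat) {a a' : V × V}
    (ha : a ∈ arms G S X) (ha' : a' ∈ arms G S X) (h4 : (dat a).st = 4) {c : V}
    (hc : c ∈ op G S a.1) (hc' : c ∈ op G S a'.1) : a'.1 = a.1 ∨ a'.1 = pt G S a.1 := by
  rcases BndSAux.share h (arm_site ha).2.1 (arm_site ha').2.1 hc hc' with h1 | h1 | h1
  · exact Or.inl h1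
  · exact Or.inr h1
  · exact absurd h1 ((core4 h hdat ha h4).2 _)

/-- A side at the end of `a` which is also a side of `a'`. -/
theorem side_own (h : Ctx G k S X Y) (hdat : DatOK G S X dat) {a a' : V × V}
    (ha : a ∈ arms G S X) (ha' : a' ∈ arms G S X) (h4 : (dat a).st = 4) {w : V}
    (hw : w ∈ (dat a).s1) (hw' : w ∈ (dat a').s1 ∨ w ∈ (dat a').s2) :
    a'.1 = a.1 ∨ a'.1 = pt G S a.1 := by
  have hf := side1_facts h (hdat a ha) hw
  obtain ⟨hc, sc⟩ := side_ex h hdat ha hw
  obtain ⟨-, us', hb'⟩ := arm_site ha'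
  rcases hw' with hw' | hw'
  · have h1 := (side_end h hdat ha' hw' hc sc).1
    exact own_of h hdat ha ha' h4 (arm_site ha).2.2 (h1 ▸ hb')
  · have hg := side2_facts h (hdat a' ha') hw'
    obtain ⟨c1, c2⟩ := s2_cen h hdat ha' hw'
    obtain ⟨-, q, q', s1, -, sq, -, -, oq, smc, -, -⟩ := (cen_facts h (hdat a' ha')).2.2 c2
    have hq := side1_facts h (hdat a' ha') (w := q) (by rw [s1]; simp)
    have hsb' := (op_ne us' hb').2
    have hqw : q ∉ sm G S w := by
      intro h1
      exact hg.2.2.2.2.2.1 (by rw [pt_mem h.lev h1, s1]; simp)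
    rcases f5_ctx h hf.1 hf.2.1 hc sc c1 smc hq.1 hq.2.1 hq.2.2.2.1 hsb' (by rw [oq]; simp) hqw
      us' hb' hq.2.2.2.2.1 with h1 | h1
    · exact own_of h hdat ha ha' h4 (arm_site ha).2.2 (by rw [h1]; simp)
    · exact absurd h1 hg.2.2.2.1

theorem pt_swap (h : Ctx G k S X Y) {u v : V} (hv : v ∈ sites G S)
    (huv : u = v ∨ u = pt G S v) : v = u ∨ v = pt G S u := by
  rcases huv with rfl | rfl
  · exact Or.inl rfl
  · exact Or.inr (BndSAux.pt_pt h.lev hv).symm

theorem core_site (h : Ctx G k S X Y) (hdat : DatOK G S X dat) {a : V × V}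
    (ha : a ∈ arms G S X) {z : V} (hz : z ∈ (dat a).core) : z ∈ sites G S :=
  (core_facts h (hdat a ha)).2.2.1 hz

theorem s1_not (h : Ctx G k S X Y) (hdat : DatOK G S X dat) {a : V × V}
    (ha : a ∈ arms G S X) {z : V} (hz : z ∈ (dat a).s1) : z ∉ sites G S :=
  (side1_facts h (hdat a ha) hz).2.2.1

/-- The data of an arm of stage four. -/
theorem kind4 (h : Ctx G k S X Y) {u b : V} {d : Dat V} (hd : AD G S u b d) (h4 : d.st = 4) :
    ∃ v0 y0 : V, sd G S v0 = 1 ∧ (∀ z ∈ d.s1, pt G S z ∈ d.s1 ∨ pt G S z = v0) ∧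
      (∀ z ∈ d.s2, pt G S z = v0) ∧
      (∀ y ∈ S, sd G S y = 0 → d.cen ∈ op G S y → y = y0) ∧
      (sd G S d.cen = 1 → ∀ z ∈ op G S d.cen, sd G S z = 1 → z ∈ d.s1 ∨ z ∈ d.s2) ∧
      (sd G S d.cen = 1 → ∀ z ∈ S, sd G S z = 1 → pt G S d.cen ∈ op G S z → z ∈ d.s1) := by
  have capv : ∀ {q q' l m s t : V}, Cap G S u b q q' l m s t → ∀ z ∈ S, sd G S z = 1 →
      pt G S m ∈ op G S z → z ∈ ({q, q'} : Finset V) := by
    intro q q' l m s t hc z hz sz hl
    have hf := capF h hc
    rw [hf.pm] at hl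
    by_cases hzq : z = q
    · rw [hzq]; simp
    · have hlS : l ∉ S := StructAux.op_black hz hl
      have hlq : l ∈ op G S q := by rw [hc.oq]; simp
      have h1 := AndoB.fact1g_sm h.reg h.lev h.hk hlS hf.sdl
        (StructAux.mem_UN.2 ⟨op_symm hlq, hf.sdq⟩) (StructAux.mem_UN.2 ⟨op_symm hl, sz⟩)
        (Ne.symm hzq)
      rw [hc.sq, Finset.singleton_inj] at h1
      rw [← h1]; simp
  have capO' : ∀ {q q' l m s t : V}, Cap G S u b q q' l m s t → sd G S t = 1 →
      ∀ y ∈ S, sd G S y = 0 → m ∈ op G S y → y = s := by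
    intro q q' l m s t hc st y _ sy hm
    have h1 := op_symm hm
    rw [hc.om, Finset.mem_insert, Finset.mem_singleton] at h1
    rcases h1 with h1 | h1
    · exact h1
    · rw [h1] at sy; omega
  have capt : ∀ {q q' l m s t : V}, Cap G S u b q q' l m s t →
      ∀ z ∈ op G S m, sd G S z = 1 → z = t := by
    intro q q' l m s t hc z hz sz
    rw [hc.om, Finset.mem_insert, Finset.mem_singleton] at hz
    rcases hz with h1 | h1
    · have := hc.is
      rw [h1] at sz; omega
    · exact h1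
  have capq : ∀ {q q' l m s t : V}, Cap G S u b q q' l m s t →
      ∀ z ∈ ({q, q'} : Finset V), pt G S z ∈ ({q, q'} : Finset V) := by
    intro q q' l m s t hc z hz
    have hf := capF h hc
    rcases Finset.mem_insert.1 hz with h1 | h1
    · rw [h1, hf.pq]; simp
    · rw [Finset.mem_singleton.1 h1, hf.pq']; simp
  cases hd with
  | ub0 h1 _ _ => exact absurd h4 (by norm_num)
  | ub1 h1 _ => exact absurd h4 (by norm_num)
  | cap1 h1 _ => exact absurd h4 (by norm_num)
  | alp h1 _ => exact absurd h4 (by norm_num)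
  | nsw h1 _ _ _ _ => exact absurd h4 (by norm_num)
  | ub4 h1 =>
    rename_i p w
    have hp := pt_all h.lev h1.sw
    have hb := op_ne h1.us h1.ub
    have hu := StructAux.mem_sites.1 h1.us
    refine ⟨pt G S w, p, hp.2.2.1, ?_, ?_, ?_, ?_, ?_⟩
    · intro z hz
      rw [Finset.mem_singleton.1 hz]
      exact Or.inr rfl
    · intro z hz
      exact absurd hz (Finset.notMem_empty _)
    · intro y _ sy hc
      have h2 := op_symm hc
      rw [h1.ob] at h2
      simp only [Finset.mem_insert, Finset.mem_singleton] at h2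
      rcases h2 with h2 | h2 | h2
      · rw [h2] at sy; omega
      · exact h2
      · have := h1.sw
        rw [h2] at sy; omega
    · intro h2
      exact absurd (hb.2.symm.trans h2) (by norm_num)
    · intro h2
      exact absurd (hb.2.symm.trans h2) (by norm_num)
  | cap4 h1 h2 h3 h5 =>
    rename_i q q' l m s t
    have hp := pt_all h.lev h2
    refine ⟨pt G S t, s, hp.2.2.1, ?_, ?_, capO' h1 h2, ?_, fun _ => capv h1⟩
    · intro z hz
      exact Or.inl (capq h1 z hz)
    · intro z hz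
      rw [Finset.mem_singleton.1 hz]
    · intro _ z hz sz
      rw [capt h1 z hz sz]
      exact Or.inr (Finset.mem_singleton_self _)
  | cap5 h1 h2 =>
    rename_i q q' l m s t
    have hf := capF h h1
    have hu := StructAux.mem_sites.1 h1.us
    have hp := pt_all h.lev hu.2.1
    refine ⟨pt G S u, s, hp.2.2.1, ?_, ?_, capO' h1 (h2 ▸ hf.sdq'), ?_, fun _ => capv h1⟩
    · intro z hz
      exact Or.inl (capq h1 z hz)
    · intro z hz
      exact absurd hz (Finset.notMem_empty _)
    · intro _ z hz sz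
      rw [capt h1 z hz sz, h2]
      left; simp

/-- An arm of stage four with centre in Z. -/
theorem kindZ (h : Ctx G k S X Y) {u b : V} {d : Dat V} (hd : AD G S u b d) (h4 : d.st = 4)
    (sc : sd G S d.cen = 0) : ∃ p w, Ub4 G S u b p w := by
  cases hd with
  | ub0 h1 _ _ => exact absurd h4 (by norm_num)
  | ub1 h1 _ => exact absurd h4 (by norm_num)
  | cap1 h1 _ => exact absurd h4 (by norm_num)
  | alp h1 _ => exact absurd h4 (by norm_num)
  | nsw h1 _ _ _ _ => exact absurd h4 (by norm_num)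
  | ub4 h1 => exact ⟨_, _, h1⟩
  | cap4 h1 _ _ _ => exact absurd ((capF h h1).sdm.symm.trans sc) (by norm_num)
  | cap5 h1 _ => exact absurd ((capF h h1).sdm.symm.trans sc) (by norm_num)

/-- `z` is a side of `a` and in the core or a side of `a'`. -/
theorem M_own (h : Ctx G k S X Y) (hdat : DatOK G S X dat) {a a' : V × V}
    (ha : a ∈ arms G S X) (ha' : a' ∈ arms G S X) (h4 : (dat a).st = 4) {z : V}
    (hz : z ∈ (dat a).s1) (hM : M (dat a') z) : a'.1 = a.1 ∨ a'.1 = pt G S a.1 := by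
  rcases hM with h1 | h1 | h1
  · exact absurd (core_site h hdat ha' h1) (s1_not h hdat ha hz)
  · exact side_own h hdat ha ha' h4 hz (Or.inl h1)
  · exact side_own h hdat ha ha' h4 hz (Or.inr h1)

/-- Two options of stage four meet. -/
theorem tt (h : Ctx G k S X Y) (hdat : DatOK G S X dat) {a a' : V × V}
    (ha : a ∈ arms G S X) (ha' : a' ∈ arms G S X) (h4 : (dat a).st = 4)
    (h4' : (dat a').st = 4) {v0 : V}
    (k1 : ∀ z ∈ (dat a).s1, pt G S z ∈ (dat a).s1 ∨ pt G S z = v0)
    (k2 : ∀ z ∈ (dat a).s2, pt G S z = v0)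
    (k4 : sd G S (dat a).cen = 1 → ∀ z ∈ op G S (dat a).cen, sd G S z = 1 →
      z ∈ (dat a).s1 ∨ z ∈ (dat a).s2)
    {F F' : Finset V} (hF : F ∈ (dat a).Fs) (hF' : F' ∈ (dat a').Fs)
    (hm : ¬ Disjoint (ter G S F') (ter G S F)) :
    (a'.1 = a.1 ∨ a'.1 = pt G S a.1) ∨ M (dat a') (pt G S a.1) ∨ M (dat a') v0 ∨
      (∃ y ∈ S, sd G S y = 0 ∧ (dat a).cen ∈ op G S y ∧ (dat a').cen ∈ op G S y ∧
        (dat a').cen ≠ (dat a).cen) ∨
      (∃ t ∈ (dat a).s2, t ∈ (dat a').s2 ∧ (dat a').cen ≠ (dat a).cen) := by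
  obtain ⟨y, hy', hy⟩ := Finset.not_disjoint_iff.1 hm
  obtain ⟨hco, hnm⟩ := core4 h hdat ha h4
  obtain ⟨hco', hnm'⟩ := core4 h hdat ha' h4'
  have hd := hdat a ha
  have hd' := hdat a' ha'
  have us := (arm_site ha).2.1
  have us' := (arm_site ha').2.1
  -- the same centre
  have same : (dat a').cen = (dat a).cen → a'.1 = a.1 ∨ a'.1 = pt G S a.1 := by
    intro h1
    have h2 := h.lev.tf (dat a).cen
    have h3 : sd G S (dat a).cen = 0 ∨ sd G S (dat a).cen = 1 := by omega
    rcases h3 with h3 | h3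
    · have h5 := cen_Z h hdat h3 ha rfl
      have h6 := cen_Z h hdat h3 ha' h1
      exact own_of h hdat ha ha' h4 (op_symm h5.2.2) (op_symm h6.2.2)
    · rw [cen_unique h hdat h3 ha' ha h1 rfl]
      exact Or.inl rfl
  -- a vertex `t` in `s2`
  have two : ∀ t ∈ (dat a).s2, M (dat a') t → (a'.1 = a.1 ∨ a'.1 = pt G S a.1) ∨
      (∃ t ∈ (dat a).s2, t ∈ (dat a').s2 ∧ (dat a').cen ≠ (dat a).cen) := by
    intro t ht hM
    rcases hM with h1 | h1 | h1
    · exact absurd (core_site h hdat ha' h1) (s2_not h hdat ha ht)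
    · exact Or.inl (pt_swap h us' (side_own h hdat ha' ha h4' h1 (Or.inr ht)))
    · by_cases h2 : (dat a').cen = (dat a).cen
      · exact Or.inl (same h2)
      · exact Or.inr ⟨t, ht, h1, h2⟩
  by_cases hyS : y ∈ S
  · have h2 := h.lev.tf y
    have h3 : sd G S y = 0 ∨ sd G S y = 1 := by omega
    rcases h3 with h3 | h3
    · have c1 := touchO h hd hyS h3 (Or.inl ⟨F, hF, hy⟩)
      have c2 := touchO h hd' hyS h3 (Or.inl ⟨F', hF', hy'⟩)
      by_cases h5 : (dat a').cen = (dat a).cen
      · exact Or.inl (same h5)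
      · exact Or.inr (Or.inr (Or.inr (Or.inl ⟨y, hyS, h3, c1, c2, h5⟩)))
    · have p1 := touchU h hd hyS h3 (Or.inl ⟨F, hF, hy⟩)
      have p2 := touchU h hd' hyS h3 (Or.inl ⟨F', hF', hy'⟩)
      have hp := pt_all h.lev h3
      -- the common vertex
      obtain ⟨z, hz1, hz2⟩ : ∃ z, M (dat a) z ∧ (M (dat a') z ∨ M (dat a') (pt G S z)) := by
        rcases P_M p1 with h5 | h5
        · exact ⟨y, h5, P_M p2⟩
        · refine ⟨pt G S y, h5, ?_⟩
          rw [hp.2.2.2.1]
          exact (P_M p2).symm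
      rcases hz1 with h5 | h5 | h5
      · rw [hco, Finset.mem_singleton] at h5
        rw [h5] at hz2
        rcases hz2 with h6 | h6
        · left; left
          rcases h6 with h6 | h6 | h6
          · rw [hco', Finset.mem_singleton] at h6
            exact h6.symm
          · exact absurd us (s1_not h hdat ha' h6)
          · exact absurd us (s2_not h hdat ha' h6)
        · exact Or.inr (Or.inl h6)
      · rcases hz2 with h6 | h6
        · exact Or.inl (M_own h hdat ha ha' h4 h5 h6)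
        · rcases k1 z h5 with h7 | h7
          · exact Or.inl (M_own h hdat ha ha' h4 h7 h6)
          · rw [h7] at h6
            exact Or.inr (Or.inr (Or.inl h6))
      · rcases hz2 with h6 | h6
        · rcases two z h5 h6 with h7 | h7
          · exact Or.inl h7
          · exact Or.inr (Or.inr (Or.inr (Or.inr h7)))
        · rw [k2 z h5] at h6
          exact Or.inr (Or.inr (Or.inl h6))
  · have h2 := h.lev.tf y
    have h3 : sd G S y = 0 ∨ sd G S y = 1 := by omega
    rcases h3 with h3 | h3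
    · rcases (touchZ h hd hyS h3).1 ⟨F, hF, hy⟩ with ⟨x, hx, c1⟩ | ⟨h5, -⟩
      · rcases (touchZ h hd' hyS h3).1 ⟨F', hF', hy'⟩ with ⟨x', hx', c2⟩ | ⟨h5, -⟩
        · rw [hco, Finset.mem_singleton] at hx
          rw [hco', Finset.mem_singleton] at hx'
          rw [hx] at c1
          rw [hx'] at c2
          exact Or.inl (own_of h hdat ha ha' h4 c1 c2)
        · omega
      · omega
    · obtain ⟨l1, l2⟩ := (touchL h hd hyS h3).1 ⟨F, hF, hy⟩
      obtain ⟨l3, l5⟩ := (touchL h hd' hyS h3).1 ⟨F', hF', hy'⟩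
      have hp := pt_all h.lev l1
      have hp' := pt_all h.lev l3
      have hcc : (dat a').cen = (dat a).cen ∨ (dat a').cen = pt G S (dat a).cen := by
        rcases l2 with l2 | l2
        · rcases l5 with l5 | l5
          · exact Or.inl (l5.symm.trans l2)
          · right
            rw [← l2, l5, hp'.2.2.2.1]
        · rcases l5 with l5 | l5
          · exact Or.inr (l5.symm.trans l2)
          · left
            rw [← hp.2.2.2.1, ← l2, l5, hp'.2.2.2.1]
      rcases hcc with hcc | hcc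
      · exact Or.inl (same hcc)
      · obtain ⟨-, q, q', s1, -, -, -, -, oq, -, -, -⟩ := (cen_facts h hd').2.2 l3
        have hq : q ∈ (dat a').s1 := by rw [s1]; simp
        have hqc : q ∈ op G S (dat a).cen := by
          have h5 : pt G S (dat a').cen ∈ op G S q := by rw [oq]; simp
          rw [hcc, hp.2.2.2.1] at h5
          exact op_symm h5
        rcases k4 l1 q hqc (side1_facts h hd' hq).2.1 with h6 | h6
        · exact Or.inl (M_own h hdat ha ha' h4 h6 (Or.inr (Or.inl hq)))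
        · rcases two q h6 (Or.inr (Or.inl hq)) with h7 | h7
          · exact Or.inl h7
          · exact Or.inr (Or.inr (Or.inr (Or.inr h7)))

/-- The resource of an arm of stage four meets an option of stage four. -/
theorem bt (h : Ctx G k S X Y) (hdat : DatOK G S X dat) {a a' : V × V}
    (ha : a ∈ arms G S X) (ha' : a' ∈ arms G S X) (h4 : (dat a).st = 4)
    (h4' : (dat a').st = 4) {v0 : V}
    (k1 : ∀ z ∈ (dat a).s1, pt G S z ∈ (dat a).s1 ∨ pt G S z = v0)
    (k2 : ∀ z ∈ (dat a).s2, pt G S z = v0)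
    (k4 : sd G S (dat a).cen = 1 → ∀ z ∈ op G S (dat a).cen, sd G S z = 1 →
      z ∈ (dat a).s1 ∨ z ∈ (dat a).s2)
    (k5 : sd G S (dat a).cen = 1 → ∀ z ∈ S, sd G S z = 1 → pt G S (dat a).cen ∈ op G S z →
      z ∈ (dat a).s1)
    {F : Finset V} (hF : F ∈ (dat a).Fs)
    (hm : ¬ Disjoint (tb G S (dat a')) (ter G S F)) :
    a'.1 = a.1 ∨ (a'.1 = pt G S a.1 ∨ (dat a').res = pt G S a.1) ∨ (dat a').res = v0 := by
  obtain ⟨y, hy', hy⟩ := Finset.not_disjoint_iff.1 hm
  obtain ⟨hco, hnm⟩ := core4 h hdat ha h4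
  have hd := hdat a ha
  have hd' := hdat a' ha'
  have us := (arm_site ha).2.1
  have us' := (arm_site ha').2.1
  obtain ⟨rS, sr, rn, ⟨c, l, hop, sc, sl⟩, -, r4⟩ := res_facts h ha' hd' (by omega)
  have hr := r4 h4'
  have htb : tb G S (dat a') = ter G S {(dat a').res} := by
    unfold tb; rw [if_pos (by omega)]
  -- own arms
  have own : (a'.1 = a.1 ∨ a'.1 = pt G S a.1) → a'.1 = a.1 ∨
      (a'.1 = pt G S a.1 ∨ (dat a').res = pt G S a.1) ∨ (dat a').res = v0 := by
    rintro (h1 | h1)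
    · exact Or.inl h1
    · exact Or.inr (Or.inl (Or.inl h1))
  -- the resource is a side of `a`
  have side : ((dat a').res ∈ (dat a).s1 ∨ (dat a').res ∈ (dat a).s2) →
      a'.1 = a.1 ∨ a'.1 = pt G S a.1 := by
    rintro (h1 | h1)
    · exact side_own h hdat ha ha' h4 h1 (Or.inl hr)
    · exact pt_swap h us' (side_own h hdat ha' ha h4' hr (Or.inr h1))
  by_cases hyS : y ∈ S
  · have h2 := h.lev.tf y
    have h3 : sd G S y = 0 ∨ sd G S y = 1 := by omega
    rw [htb] at hy'
    rcases h3 with h3 | h3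
    · exfalso
      rcases TouchOAux.ter_0 h3 hy' with h5 | ⟨f, hf, h5⟩
      · rw [Finset.mem_singleton.1 h5] at h3
        omega
      · rw [Finset.mem_singleton.1 hf] at h5
        exact StructAux.op_black rS h5 hyS
    · have hp := pt_all h.lev h3
      have hyr : y = (dat a').res ∨ pt G S y = (dat a').res := by
        obtain ⟨z, hz, h5⟩ := ter_U h.lev hyS h3 hy'
        have hzr : z = (dat a').res := by
          rcases h5 with h5 | ⟨f, h5, h6, -⟩
          · exact Finset.mem_singleton.1 h5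
          · rw [Finset.mem_singleton.1 h5] at h6
            exact absurd rS h6
        rcases hz with hz | hz
        · exact Or.inl (hz ▸ hzr)
        · exact Or.inr (hz ▸ hzr)
      have p1 := touchU h hd hyS h3 (Or.inl ⟨F, hF, hy⟩)
      obtain ⟨z, hz1, hz2⟩ : ∃ z, M (dat a) z ∧
          ((dat a').res = z ∨ (dat a').res = pt G S z) := by
        rcases P_M p1 with h5 | h5
        · refine ⟨y, h5, ?_⟩
          rcases hyr with h6 | h6
          · exact Or.inl h6.symm
          · exact Or.inr h6.symm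
        · refine ⟨pt G S y, h5, ?_⟩
          rw [hp.2.2.2.1]
          rcases hyr with h6 | h6
          · exact Or.inr h6.symm
          · exact Or.inl h6.symm
      rcases hz1 with h5 | h5 | h5
      · rw [hco, Finset.mem_singleton] at h5
        rw [h5] at hz2
        rcases hz2 with h6 | h6
        · exact absurd us (h6 ▸ rn)
        · exact Or.inr (Or.inl (Or.inr h6))
      · rcases hz2 with h6 | h6
        · exact own (side (Or.inl (h6 ▸ h5)))
        · rcases k1 z h5 with h7 | h7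
          · exact own (side (Or.inl (h6 ▸ h7)))
          · exact Or.inr (Or.inr (h6.trans h7))
      · rcases hz2 with h6 | h6
        · exact own (side (Or.inr (h6 ▸ h5)))
        · exact Or.inr (Or.inr (h6.trans (k2 z h5)))
  · have h2 := h.lev.tf y
    have h3 : sd G S y = 0 ∨ sd G S y = 1 := by omega
    rcases h3 with h3 | h3
    · have c2 := (touchZ h hd' hyS h3).2 hy'
      rcases (touchZ h hd hyS h3).1 ⟨F, hF, hy⟩ with ⟨x, hx, c1⟩ | ⟨h5, -⟩
      · rw [hco, Finset.mem_singleton] at hx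
        rw [hx] at c1
        have h6 := side_end h hdat ha' hr c2 h3
        exact own (own_of h hdat ha ha' h4 c1 (h6.1 ▸ (arm_site ha').2.2))
      · omega
    · obtain ⟨l1, l2⟩ := (touchL h hd hyS h3).1 ⟨F, hF, hy⟩
      have l3 := (touchL h hd' hyS h3).2 hy'
      have hp := pt_all h.lev l1
      have hcc : (dat a).cen ∈ op G S (dat a').res ∨ pt G S (dat a).cen ∈ op G S (dat a').res := by
        rcases l2 with l2 | l2
        · rw [← l2]; exact l3
        · rw [l2, hp.2.2.2.1] at l3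
          exact l3.symm
      rcases hcc with h5 | h5
      · exact own (side (k4 l1 _ (op_symm h5) sr))
      · exact own (side (Or.inl (k5 l1 _ rS sr h5)))

section

open Classical

theorem cnt_M (h : Ctx G k S X Y) (hdat : DatOK G S X dat) {v : V} (sv : sd G S v = 1) :
    ((arms G S X).filter (fun a => (dat a).st = 4 ∧ M (dat a) v)).card ≤ 3 := by
  by_cases hs : v ∈ sites G S
  · refine (card_mono' (q := fun a : V × V => a.1 = v) ?_ (cnt_fst h v)).trans (by norm_num)
    rintro a ha ⟨h4, h1 | h1 | h1⟩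
    · rw [(core4 h hdat ha h4).1, Finset.mem_singleton] at h1
      exact h1.symm
    · exact absurd hs (s1_not h hdat ha h1)
    · exact absurd hs (s2_not h hdat ha h1)
  · by_cases h1 : ∃ a ∈ arms G S X, v ∈ (dat a).s1
    · obtain ⟨a0, h0, w0⟩ := h1
      obtain ⟨hc, sc⟩ := side_ex h hdat h0 w0
      refine card_union' (q := fun a : V × V => v ∈ (dat a).s1)
        (r := fun a : V × V => v ∈ (dat a).s2) ?_ (cnt_s1 h hdat v) (cnt_s2 h hdat sv hc sc)
      rintro a ha ⟨-, h1 | h1 | h1⟩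
      · exact absurd (core_site h hdat ha h1) hs
      · exact Or.inl h1
      · exact Or.inr h1
    · refine (card_mono' (q := fun a : V × V => v ∈ (dat a).s2) ?_
        (cnt_s2' h hdat sv)).trans (by norm_num)
      rintro a ha ⟨-, h2 | h2 | h2⟩
      · exact absurd (core_site h hdat ha h2) hs
      · exact absurd ⟨a, ha, h2⟩ h1
      · exact h2

theorem cnt_res4 (h : Ctx G k S X Y) (hdat : DatOK G S X dat) (v : V) :
    ((arms G S X).filter (fun a => (dat a).st = 4 ∧ (a.1 = v ∨ (dat a).res = v))).card ≤ 2 := by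
  by_cases hs : v ∈ sites G S
  · refine card_mono' (q := fun a : V × V => a.1 = v) ?_ (cnt_fst h v)
    rintro a ha ⟨h4, h1 | h1⟩
    · exact h1
    · have := (res_facts h ha (hdat a ha) (by omega)).2.2.1
      rw [h1] at this
      exact absurd hs this
  · refine card_mono' (q := fun a : V × V => v ∈ (dat a).s1) ?_ (cnt_s1 h hdat v)
    rintro a ha ⟨h4, h1 | h1⟩
    · exact absurd (h1 ▸ (arm_site ha).2.1) hs
    · have := (res_facts h ha (hdat a ha) (by omega)).2.2.2.2.2 h4
      rw [h1] at this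
      exact this

/-- The arms of stage four with centre `e` adjacent to a vertex of O. -/
theorem cen4 (h : Ctx G k S X Y) (hdat : DatOK G S X dat) {e y : V} (sy : sd G S y = 0)
    (he : e ∈ op G S y) :
    ((arms G S X).filter (fun a => (dat a).st = 4 ∧ (dat a).cen = e)).card ≤ 1 := by
  have h2 := h.lev.tf e
  have h3 : sd G S e = 0 ∨ sd G S e = 1 := by omega
  rcases h3 with h3 | h3
  · refine card_le_one' fun a ha ⟨s1, e1⟩ a' ha' ⟨s2, e2⟩ => ?_
    obtain ⟨b1, u1, v1⟩ := cen_Z h hdat h3 ha e1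
    obtain ⟨b2, u2, v2⟩ := cen_Z h hdat h3 ha' e2
    obtain ⟨p, w, hub⟩ := kindZ h (hdat a ha) s1 (by rw [e1]; exact h3)
    have ob := hub.ob
    rw [b1] at ob
    have hu := StructAux.mem_sites.1 u1
    have hu' := StructAux.mem_sites.1 u2
    have hyp : y = p := by
      have h5 := op_symm he
      rw [ob] at h5
      simp only [Finset.mem_insert, Finset.mem_singleton] at h5
      rcases h5 with h5 | h5 | h5
      · rw [h5] at sy; omega
      · exact h5
      · have := hub.sw
        rw [h5] at sy; omega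
    have h6 := v2
    rw [ob] at h6
    simp only [Finset.mem_insert, Finset.mem_singleton] at h6
    rcases h6 with h6 | h6 | h6
    · exact Prod.ext h6.symm (b1.trans b2.symm)
    · rw [← hyp] at h6
      rw [h6] at hu'
      omega
    · exact absurd (h6 ▸ u2) hub.zl
  · exact (card_mono' (fun a _ h4 => h4.2) (cnt_cenL h hdat h3))

theorem cnt_D (h : Ctx G k S X Y) (hdat : DatOK G S X dat) {c y0 : V}
    (k3 : ∀ y ∈ S, sd G S y = 0 → c ∈ op G S y → y = y0) :
    ((arms G S X).filter (fun a => (dat a).st = 4 ∧ ∃ y ∈ S, sd G S y = 0 ∧ c ∈ op G S y ∧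
      (dat a).cen ∈ op G S y ∧ (dat a).cen ≠ c)).card ≤ 2 := by
  by_cases hex : ∃ y ∈ S, sd G S y = 0 ∧ c ∈ op G S y
  · obtain ⟨y, hy, sy, hc⟩ := hex
    have hy0 := k3 y hy sy hc
    subst hy0
    obtain ⟨e, e2, hop, -, -, -⟩ := StructAux.card_three (op3 h.reg sy) hc
    refine card_union' (q := fun a : V × V => (dat a).st = 4 ∧ (dat a).cen = e)
      (r := fun a : V × V => (dat a).st = 4 ∧ (dat a).cen = e2) ?_
      (cen4 h hdat sy (by rw [hop]; simp)) (cen4 h hdat sy (by rw [hop]; simp))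
    rintro a ha ⟨h4, y', hy', sy', hc', hca, hne⟩
    rw [k3 y' hy' sy' hc', hop] at hca
    simp only [Finset.mem_insert, Finset.mem_singleton] at hca
    rcases hca with h5 | h5 | h5
    · exact absurd h5 hne
    · exact Or.inl ⟨h4, h5⟩
    · exact Or.inr ⟨h4, h5⟩
  · refine (card_zero' ?_).trans (by norm_num)
    rintro a _ ⟨-, y, hy, sy, hc, -⟩
    exact hex ⟨y, hy, sy, hc⟩

theorem cnt_E (h : Ctx G k S X Y) (hdat : DatOK G S X dat) {a : V × V}
    (ha : a ∈ arms G S X) :
    ((arms G S X).filter (fun a' => ∃ t ∈ (dat a).s2, t ∈ (dat a').s2 ∧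
      (dat a').cen ≠ (dat a).cen)).card ≤ 1 := by
  refine card_le_one' ?_
  rintro a1 h1 ⟨t1, m1, n1, c1⟩ a2 h2 ⟨t2, m2, n2, c2⟩
  have ht : t1 = t2 := by
    have h3 := (side2_facts h (hdat a ha) m1).2.2.2.2.2.2.2.2
    rw [h3, Finset.mem_singleton] at m2
    exact m2.symm
  subst ht
  have st := (side2_facts h (hdat a ha) m1).2.1
  have hc := (s2_cen h hdat ha m1).1
  obtain ⟨y, hy, hcy⟩ := StructAux.card_two (BasicAux.op_card_two h.reg st) hc
  have key : ∀ {a' : V × V}, a' ∈ arms G S X → t1 ∈ (dat a').s2 →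
      (dat a').cen ≠ (dat a).cen → (dat a').cen = y := by
    intro a' h3 h5 h6
    have h7 := (s2_cen h hdat h3 h5).1
    rw [hy, Finset.mem_insert, Finset.mem_singleton] at h7
    rcases h7 with h7 | h7
    · exact absurd h7 h6
    · exact h7
  have e1 := key h1 n1 c1
  have e2 := key h2 n2 c2
  exact cen_unique h hdat (e1 ▸ (s2_cen h hdat h1 n1).2) h1 h2 e1 e2

end

end Bnd4Aux

open Bnd4Aux CntAux CoreAux

section

open Classical

variable {k : ℕ} {S : Finset V} {X Y : Finset (Finset V)} {dat : V × V → Dat V}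

/-- (W) for stage four. -/
theorem bnd4_T (h : Ctx G k S X Y) (hdat : DatOK G S X dat) {a : V × V}
    (ha : a ∈ arms G S X) (h4 : (dat a).st = 4) {F : Finset V} (hF : F ∈ (dat a).Fs) :
    ((arms G S X).filter (fun a' => (dat a').st = 4 ∧
      ∃ F' ∈ (dat a').Fs, ¬ Disjoint (ter G S F') (ter G S F))).card ≤ 11 := by
  obtain ⟨v0, y0, sv, k1, k2, k3, k4, -⟩ := kind4 h (hdat a ha) h4
  have us := StructAux.mem_sites.1 (arm_site ha).2.1
  have hp := pt_all h.lev us.2.1
  have c1 := cnt_fst h a.1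
  have c2 := cnt_M h hdat hp.2.2.1
  have c3 := cnt_M h hdat sv
  have c4 := cnt_D h hdat k3
  have c5 := cnt_E h hdat ha
  have step := card_union' (A := arms G S X)
    (p := fun a' => (dat a').st = 4 ∧ ∃ F' ∈ (dat a').Fs, ¬ Disjoint (ter G S F') (ter G S F))
    (q := fun a' => (a'.1 = a.1 ∨ ((dat a').st = 4 ∧ M (dat a') (pt G S a.1))) ∨
      ((dat a').st = 4 ∧ M (dat a') v0))
    (r := fun a' => ((dat a').st = 4 ∧ ∃ y ∈ S, sd G S y = 0 ∧ (dat a).cen ∈ op G S y ∧
      (dat a').cen ∈ op G S y ∧ (dat a').cen ≠ (dat a).cen) ∨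
      (∃ t ∈ (dat a).s2, t ∈ (dat a').s2 ∧ (dat a').cen ≠ (dat a).cen))
    ?_ (card_union' (fun _ _ h1 => h1) (card_union' (fun _ _ h1 => h1) c1 c2) c3)
    (card_union' (fun _ _ h1 => h1) c4 c5)
  · exact step
  · rintro a' ha' ⟨h4', F', hF', hm⟩
    rcases tt h hdat ha ha' h4 h4' k1 k2 k4 hF hF' hm with (h1 | h1) | h1 | h1 | h1 | h1
    · exact Or.inl (Or.inl (Or.inl h1))
    · refine Or.inl (Or.inl (Or.inr ⟨h4', Or.inl ?_⟩))
      rw [(core4 h hdat ha' h4').1, h1]; simp
    · exact Or.inl (Or.inl (Or.inr ⟨h4', h1⟩))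
    · exact Or.inl (Or.inr ⟨h4', h1⟩)
    · exact Or.inr (Or.inl ⟨h4', h1⟩)
    · exact Or.inr (Or.inr h1)

/-- (I) for stage four: resources against an option. -/
theorem bnd4_B (h : Ctx G k S X Y) (hdat : DatOK G S X dat) {a : V × V}
    (ha : a ∈ arms G S X) (h4 : (dat a).st = 4) {F : Finset V} (hF : F ∈ (dat a).Fs) :
    ((arms G S X).filter (fun a' => (dat a').st = 4 ∧
      ¬ Disjoint (tb G S (dat a')) (ter G S F))).card ≤ 6 := by
  obtain ⟨v0, y0, sv, k1, k2, k3, k4, k5⟩ := kind4 h (hdat a ha) h4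
  have c1 := cnt_fst h a.1
  have c2 := cnt_res4 h hdat (pt G S a.1)
  have c3 := cnt_res4 h hdat v0
  refine card_union' (A := arms G S X)
    (q := fun a' => a'.1 = a.1 ∨ ((dat a').st = 4 ∧
      (a'.1 = pt G S a.1 ∨ (dat a').res = pt G S a.1)))
    (r := fun a' => (dat a').st = 4 ∧ (a'.1 = v0 ∨ (dat a').res = v0))
    ?_ (card_union' (fun _ _ h1 => h1) c1 c2) c3
  rintro a' ha' ⟨h4', hm⟩
  rcases bt h hdat ha ha' h4 h4' k1 k2 k4 k5 hF hm with h1 | h1 | h1
  · exact Or.inl (Or.inl h1)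
  · exact Or.inl (Or.inr ⟨h4', h1⟩)
  · exact Or.inr ⟨h4', Or.inr h1⟩

/-- The greedy step at stage four: any option of any arm that is alive. -/
theorem step4 (h : Ctx G k S X Y) (hdat : DatOK G S X dat) {R : Finset V} {a : V × V}
    (ha : a ∈ arms G S X) (h4 : (dat a).st = 4) {F : Finset V} (hF : F ∈ (dat a).Fs)
    (hfree : Disjoint (ter G S F) R)
    (hleast : ∀ a' ∈ arms G S X, Alive (fun a => (dat a).Fs) (ter G S) R a' →
      (dat a).st ≤ (dat a').st) :
    StepOK (arms G S X) (fun a => (dat a).st) (fun a => (dat a).Fs) (ter G S)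
      (fun a => tb G S (dat a)) R a F where
  mem := ha
  memf := hF
  free := hfree
  least := hleast
  dies := by
    refine (card_mono' ?_ (bnd4_T h hdat ha h4 hF)).trans (by norm_num)
    rintro a' ha' ⟨h1, h2⟩
    have h3 := hleast a' ha' h1
    have h5 := (core_facts h (hdat a' ha')).2.2.2.2.2.2.1
    refine ⟨by omega, ?_⟩
    obtain ⟨F', hF', h6⟩ := h1
    refine ⟨F', hF', fun h7 => h2 ⟨F', hF', ?_⟩⟩
    rw [Finset.disjoint_union_right]
    exact ⟨h6, h7⟩
  low := fun h1 => by omega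
  mid := fun h1 => by omega
  high := fun _ => bnd4_B h hdat ha h4 hF

end

end Pool.Agent.Lib.AndoD
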