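import Pool.Agent.Lib.AndoD.ChainX
import Pool.Agent.Lib.AndoC.ChnT
import Pool.Agent.Lib.AndoC.Fact3

/-!
# AndoD.NT: ZL vertices whose domino is in `X`

`nt_zl` (NT): `w = (b, l)` of type ZL with domino in `X`.  There is a ZL vertex `w' = (y, l')` in
`X`, in another domino, such that every site `u` at `b`, not the partner of `w`, whose partner is
not LL, has the ends `b`, `y` or the partner `w'`.
`nt2` (NT2): no two partners are both sites at `b`.
`x1_un` (X1): `w` in `X`, adjacent to `l` in L: the partner of `l` has a neighbour in U.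
-/

set_option autoImplicit false
set_option linter.unusedSectionVars false

namespace Pool.Agent.Lib.AndoD

open Pool.Agent.Lib.Ando Pool.Agent.Lib.AndoC

variable {V : Type*} [Fintype V] [DecidableEq V] {G : SimpleGraph V} [DecidableRel G.Adj]

namespace NTAux

theorem sd_sm {S : Finset V} {v w : V} (h : sm G S v = {w}) : sd G S v = 1 := by
  unfold sd; rw [h]; simp

/-- The backward slides along a chain free `l 0`. -/
theorem free (hG : G.IsRegularOfDegree 3) {k : ℕ} (hk : 1 ≤ k) {l m w w' : ℕ → V} :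
    ∀ (n : ℕ) (S : Finset V) (y : V), Level G k S → Chn G S n l m w w' y →
      ∃ T, Level G k T ∧ l 0 ∉ T ∧ sd G T (l 0) = 0 ∧
        ∀ a, ((a ∈ S ∧ sd G S a = 1 ∧ ∀ i < n, a ≠ w i ∧ a ≠ w' i) ∨
          (a ∉ S ∧ sd G S a = 0 ∧ a ≠ y)) →
          (a ∈ T ↔ a ∈ S) ∧ sm G T a = sm G S a ∧ op G T a = op G S a := by
  intro n
  induction n with
  | zero =>
    intro S y _ hc
    exact absurd hc.hn (by decide)
  | succ n ih =>
    intro S y hL hc
    obtain ⟨p, hz⟩ := chn_zl hG hc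
    have hT := slide_level hG hL hk hz
    have hd := slide_desc hG hL hk hz
    obtain ⟨pS, sp, vS, smv, bS, mS, lS, sml, pw, vw, lm, lb, nwl⟩ := third hG hL hk hz
    set T1 := symmDiff S {w (n + 1 - 1), m (n + 1 - 1)} with hT1
    have ne : ∀ {y z : V}, y ∈ S → z ∉ S → y ≠ z := fun h1 h2 e => h2 (e ▸ h1)
    have sdl : sd G S (l (n + 1 - 1)) = 1 := sd_sm sml
    have sdm : sd G S (m (n + 1 - 1)) = 1 := sd_sm hz.sl
    have key : ∀ a, ((a ∈ S ∧ sd G S a = 1 ∧ ∀ i < n + 1, a ≠ w i ∧ a ≠ w' i) ∨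
          (a ∉ S ∧ sd G S a = 0 ∧ a ≠ y)) →
          (a ∈ T1 ↔ a ∈ S) ∧ sm G T1 a = sm G S a ∧ op G T1 a = op G S a := by
      rintro a (⟨aS, sa, ha⟩ | ⟨aS, sa, hay⟩)
      · obtain ⟨h1, h2⟩ := ha (n + 1 - 1) (by omega)
        refine hd.rest a h1 h2 (ne aS bS) (ne aS mS) (ne aS lS) ?_
        rintro rfl
        rcases sp with h3 | h3
        · rw [sa] at h3; exact one_ne_zero h3
        · exact h2 h3
      · refine hd.rest a (ne hz.wS aS).symm (ne vS aS).symm hay ?_ ?_ (ne pS aS).symm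
        · rintro rfl; rw [sa] at sdm; exact zero_ne_one sdm
        · rintro rfl; rw [sa] at sdl; exact zero_ne_one sdl
    rcases Nat.eq_zero_or_pos n with h0 | h0
    · subst h0
      refine ⟨T1, hT, hd.mT, ?_, key⟩
      have := hd.smm
      unfold sd
      rw [this]
      simp
    · have hc' := chn_slide hG hk hL hc (by omega)
      have hn : n + 1 - 1 = n := by omega
      rw [hn] at hc'
      have hT1' : T1 = symmDiff S {w n, m n} := by rw [hT1, hn]
      rw [← hT1'] at hc'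
      obtain ⟨T, h1, h2, h3, h4⟩ := ih T1 _ hT hc'
      refine ⟨T, h1, h2, h3, fun a ha => ?_⟩
      obtain ⟨k1, k2, k3⟩ := key a ha
      have hcond : ((a ∈ T1 ∧ sd G T1 a = 1 ∧ ∀ i < n, a ≠ w i ∧ a ≠ w' i) ∨
          (a ∉ T1 ∧ sd G T1 a = 0 ∧ a ≠ l n)) := by
        have hsd : sd G T1 a = sd G S a := by unfold sd; rw [k2]
        rcases ha with ⟨aS, sa, ha⟩ | ⟨aS, sa, hay⟩
        · exact Or.inl ⟨k1.2 aS, by rw [hsd, sa], fun i hi => ha i (by omega)⟩
        · refine Or.inr ⟨fun h => aS (k1.1 h), by rw [hsd, sa], ?_⟩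
          rintro rfl
          rw [hn] at sdl
          rw [sa] at sdl
          exact zero_ne_one sdl
      obtain ⟨j1, j2, j3⟩ := h4 a hcond
      exact ⟨j1.trans k1, j2.trans k2, j3.trans k3⟩

end NTAux

open NTAux

/-- NT. -/
theorem nt_zl {k : ℕ} {S : Finset V} {X Y : Finset (Finset V)} (h : Ctx G k S X Y)
    {w b l : V} (wS : w ∈ S) (sw : sd G S w = 1) (hX : dom G S w ∈ X)
    (ow : op G S w = {b, l}) (sb : sd G S b = 0) (sl : sd G S l = 1) :
    ∃ w' y l', w' ∈ S ∧ dom G S w' ∈ X ∧ dom G S w' ≠ dom G S w ∧ sd G S w' = 1 ∧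
      op G S w' = {y, l'} ∧ sd G S y = 0 ∧ sd G S l' = 1 ∧
      ∀ u ∈ sites G S, b ∈ op G S u → u ≠ w → u ∉ sm G S w →
        (∀ v ∈ sm G S u, ∃ c ∈ op G S v, sd G S c = 0) →
        op G S u = {b, y} ∨ w' ∈ sm G S u := by
  have hG := h.reg
  have hL := h.lev
  have hbw : b ∈ op G S w := by rw [ow]; simp
  have hlw : l ∈ op G S w := by rw [ow]; simp
  have bS : b ∉ S := StructAux.op_black wS hbw
  have lS : l ∉ S := StructAux.op_black wS hlw
  have bl : b ≠ l := by
    rintro rfl; rw [sl] at sb; exact one_ne_zero sb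
  have hwU : w ∈ UN G S l := StructAux.mem_UN.2 ⟨op_symm hlw, sw⟩
  obtain ⟨n, ll, mm, ww, ww', y, hl0, hc, hX'⟩ := chain_exg hG h.hk hL h.hx lS sl hwU hX
  have hn := hc.hn
  have hlast : n - 1 < n := by omega
  obtain ⟨hne, hwX⟩ := hX' (n - 1) hlast
  have sdw : sd G S (ww (n - 1)) = 1 := sd_sm (hc.sw _ hlast)
  have sdm : sd G S (mm (n - 1)) = 1 := sd_sm (hc.sm' _ hlast)
  refine ⟨ww (n - 1), y, mm (n - 1), hc.wS _ hlast, hwX, hne, sdw, ?_, hc.sy, sdm, ?_⟩
  · rw [hc.oy, Finset.pair_comm]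
  intro u hu hbu huw husw hpt
  have hu' := StructAux.mem_sites.1 hu
  by_contra hcon
  push Not at hcon
  obtain ⟨hcon1, hcon2⟩ := hcon
  obtain ⟨b', hb', bb'⟩ := StructAux.card_two (BasicAux.op_card_two hG hu'.2.1) hbu
  have hbu' : b' ∈ op G S u := by rw [hb']; simp
  have sb' : sd G S b' = 0 := hu'.2.2 b' hbu'
  have bS' : b' ∉ S := StructAux.op_black hu'.1 hbu'
  have hb'y : b' ≠ y := by
    rintro rfl; exact hcon1 hb'
  -- `u` is not in the dominoes of the chain
  have back : ∀ i < n, sm G S (ww' i) = {ww i} := fun i hi =>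
    BasicAux.sm_eq hL (sm_symm (by rw [hc.sw i hi]; simp))
  have hmi : ∀ i < n, mm i ∈ op G S (ww i) ∧ sd G S (mm i) = 1 := by
    intro i hi
    refine ⟨?_, sd_sm (hc.sm' i hi)⟩
    by_cases h1 : i + 1 < n
    · rw [hc.ow i h1]; simp
    · have : i = n - 1 := by omega
      rw [this, hc.oy]; simp
  have huc : ∀ i < n, u ≠ ww i ∧ u ≠ ww' i := by
    intro i hi
    refine ⟨?_, ?_⟩
    · rintro rfl
      obtain ⟨h1, h2⟩ := hmi i hi
      have := hu'.2.2 _ h1
      rw [h2] at this; exact one_ne_zero this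
    · rintro rfl
      by_cases h1 : i + 1 < n
      · obtain ⟨c, hc1, hc2⟩ := hpt (ww i) (by rw [back i hi]; simp)
        have hU : ww i ∈ UN G S (mm i) :=
          StructAux.mem_UN.2 ⟨op_symm (hmi i hi).1, sd_sm (hc.sw i hi)⟩
        have := hc.ll i h1 _ hU c hc1
        rw [hc2] at this; exact zero_ne_one this
      · have : i = n - 1 := by omega
        subst this
        exact hcon2 (by rw [back _ hi]; simp)
  have hwc : ∀ i < n, w ≠ ww i ∧ w ≠ ww' i := by
    intro i hi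
    refine ⟨fun e => (hX' i hi).1 (by rw [e]), fun e => (hX' i hi).1 ?_⟩
    rw [e, DomAux.dom_of G (back i hi), DomAux.dom_of G (hc.sw i hi), Finset.pair_comm]
  have hby : b ≠ y := by
    rintro rfl
    have h1 : u ∈ UN G S b := StructAux.mem_UN.2 ⟨op_symm hbu, hu'.2.1⟩
    have h2 : w ∈ UN G S b := StructAux.mem_UN.2 ⟨op_symm hbw, sw⟩
    have h3 : ww (n - 1) ∈ UN G S b :=
      StructAux.mem_UN.2 ⟨op_symm (by rw [hc.oy]; simp), sdw⟩
    rcases h.nt S hL b u w _ bS sb h1 h2 h3 huw (huc _ hlast).1 (hwc _ hlast).1 with h4 | h4 | h4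
    · exact husw (mem_sm.2 ⟨h4.symm, ⟨fun _ => wS, fun _ => hu'.1⟩⟩)
    · exact hcon2 (mem_sm.2 ⟨h4, ⟨fun _ => hu'.1, fun _ => hc.wS _ hlast⟩⟩)
    · apply hne
      have h5 : ww (n - 1) ∈ sm G S w := mem_sm.2 ⟨h4, ⟨fun _ => wS, fun _ => hc.wS _ hlast⟩⟩
      exact ((dom_eq hL sw sdw).2 (Or.inr h5)).symm
  obtain ⟨T, hT, hl0T, sT0, hrest⟩ := free hG h.hk n S y hL hc
  rw [hl0] at hl0T sT0
  have ru := hrest u (Or.inl ⟨hu'.1, hu'.2.1, huc⟩)
  have rw' := hrest w (Or.inl ⟨wS, sw, hwc⟩)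
  have rb := hrest b (Or.inr ⟨bS, sb, hby⟩)
  have rb' := hrest b' (Or.inr ⟨bS', sb', hb'y⟩)
  have sTb : sd G T b = 0 := by unfold sd at sb ⊢; rw [rb.2.1]; exact sb
  have sTb' : sd G T b' = 0 := by unfold sd at sb' ⊢; rw [rb'.2.1]; exact sb'
  have hwT : w ∈ sites G T := by
    refine StructAux.mem_sites.2 ⟨rw'.1.2 wS, ?_, ?_⟩
    · unfold sd at sw ⊢; rw [rw'.2.1]; exact sw
    · intro x hx
      rw [rw'.2.2, ow, Finset.mem_insert, Finset.mem_singleton] at hx
      rcases hx with rfl | rfl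
      · exact sTb
      · exact sT0
  have huT : u ∈ sites G T := by
    refine StructAux.mem_sites.2 ⟨ru.1.2 hu'.1, ?_, ?_⟩
    · have := hu'.2.1
      unfold sd at this ⊢; rw [ru.2.1]; exact this
    · intro x hx
      rw [ru.2.2, hb', Finset.mem_insert, Finset.mem_singleton] at hx
      rcases hx with rfl | rfl
      · exact sTb
      · exact sTb'
  have hbT : b ∉ T := fun h' => bS (rb.1.1 h')
  have nuw : ¬ G.Adj u w := fun e => husw (mem_sm.2 ⟨e.symm, ⟨fun _ => wS, fun _ => hu'.1⟩⟩)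
  have := fact3g hG h.hk h.nt hT hbT sTb huT hwT (ru.2.2.trans hb') (rw'.2.2.trans ow) bb' bl
    huw nuw
  rw [this, sl] at sb'
  exact one_ne_zero sb'

/-- NT2: if `w` is of type ZL with domino in `X`, then no two partners are sites at its end. -/
theorem nt2 {k : ℕ} {S : Finset V} {X Y : Finset (Finset V)} (h : Ctx G k S X Y)
    {w b l u v : V} (wS : w ∈ S) (sw : sd G S w = 1) (hX : dom G S w ∈ X)
    (ow : op G S w = {b, l}) (sb : sd G S b = 0) (sl : sd G S l = 1)
    (hu : u ∈ sites G S) (hv : v ∈ sites G S) (huv : v ∈ sm G S u) (bu : b ∈ op G S u)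
    (bv : b ∈ op G S v) : False := by
  have hG := h.reg
  have hL := h.lev
  have hbw : b ∈ op G S w := by rw [ow]; simp
  have hlw : l ∈ op G S w := by rw [ow]; simp
  have hu' := StructAux.mem_sites.1 hu
  have hv' := StructAux.mem_sites.1 hv
  have bS : b ∉ S := StructAux.op_black wS hbw
  have lS : l ∉ S := StructAux.op_black wS hlw
  obtain ⟨w', y, l', w'S, _, _, sw', ow', sy, sl', hall⟩ := nt_zl h wS sw hX ow sb sl
  have hs : ∀ z, z ∈ sites G S → z ≠ w := by
    rintro z hz rfl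
    have := (StructAux.mem_sites.1 hz).2.2 l hlw
    rw [sl] at this; exact one_ne_zero this
  have smu := BasicAux.sm_eq hL huv
  have smv := BasicAux.sm_eq hL (sm_symm huv)
  have hns : ∀ z z', z ∈ sites G S → z' ∈ sites G S → sm G S z = {z'} → z ∉ sm G S w := by
    intro z z' hz hz' hsm hmem
    have h1 := sm_symm hmem
    rw [hsm, Finset.mem_singleton] at h1
    exact hs z' hz' h1.symm
  have hl' : l' ∈ op G S w' := by rw [ow']; simp
  have hw's : w' ∉ sites G S := by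
    intro hz
    have := (StructAux.mem_sites.1 hz).2.2 l' hl'
    rw [sl'] at this; exact one_ne_zero this
  have hpt : ∀ z z', z' ∈ sites G S → sm G S z = {z'} →
      ∀ x ∈ sm G S z, ∃ c ∈ op G S x, sd G S c = 0 := by
    intro z z' hz' hsm x hx
    rw [hsm, Finset.mem_singleton] at hx
    subst hx
    have h1 := StructAux.mem_sites.1 hz'
    have h2 : (op G S x).Nonempty := by
      rw [← Finset.card_pos, BasicAux.op_card_two hG h1.2.1]; norm_num
    obtain ⟨c, hc⟩ := h2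
    exact ⟨c, hc, h1.2.2 c hc⟩
  have e1 : op G S u = {b, y} := by
    rcases hall u hu bu (hs u hu) (hns u v hu hv smu) (hpt u v hv smu) with h1 | h1
    · exact h1
    · rw [smu, Finset.mem_singleton] at h1
      exact absurd (h1 ▸ hv) hw's
  have e2 : op G S v = {b, y} := by
    rcases hall v hv bv (hs v hv) (hns v u hv hu smv) (hpt v u hu smv) with h1 | h1
    · exact h1
    · rw [smv, Finset.mem_singleton] at h1
      exact absurd (h1 ▸ hu) hw's
  have hyu : y ∈ op G S u := by rw [e1]; simp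
  have hyv : y ∈ op G S v := by rw [e2]; simp
  have hby : b ≠ y := by
    rintro rfl
    have := BasicAux.op_card_two hG hu'.2.1
    rw [e1] at this
    simp at this
  have yS : y ∉ S := StructAux.op_black hu'.1 hyu
  obtain ⟨-, -, x, xS, sx, xu, xv, ob, -⟩ := h.dz S hL b y u v bS yS hby hu'.1 hv'.1
    (mem_sm.1 huv).1 (mem_op.1 bu).1.symm (mem_op.1 bv).1.symm (mem_op.1 hyu).1.symm
    (mem_op.1 hyv).1.symm
  have hwb : w ∈ op G S b := op_symm hbw
  rw [ob, Finset.mem_insert, Finset.mem_insert, Finset.mem_singleton] at hwb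
  rcases hwb with h1 | h1 | h1
  · exact hs u hu h1.symm
  · exact hs v hv h1.symm
  · rw [h1, sx] at sw
    exact zero_ne_one sw

/-- X1. -/
theorem x1_un {k : ℕ} {S : Finset V} {X Y : Finset (Finset V)} (h : Ctx G k S X Y)
    {w l m : V} (wS : w ∈ S) (sw : sd G S w = 1) (hX : dom G S w ∈ X) (hl : l ∈ op G S w)
    (sl : sm G S l = {m}) : (UN G S m).Nonempty := by
  have hL := h.lev
  have lS : l ∉ S := StructAux.op_black wS hl
  have sl1 := sd_sm sl
  have hBD : dom G S l ∈ BD G S :=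
    Finset.mem_image.2 ⟨_, Finset.mem_filter.2 ⟨Finset.mem_univ _, lS, sl1⟩, rfl⟩
  have hD : ({l, m} : Finset V) ∈ Y := by
    rw [← DomAux.dom_of G sl]
    refine (h.hx.mem _ hBD).2 ⟨dom G S w, Finset.mem_inter.2 ⟨?_, hX⟩⟩
    rw [DomAux.dom_of G sl]
    exact (nd_side hL lS sl).2 ⟨w, Or.inl (StructAux.mem_UN.2 ⟨op_symm hl, sw⟩), rfl⟩
  obtain ⟨_, v, _, hv, _⟩ := hx_sides h.reg h.hk hL h.hx lS sl hD
  exact ⟨v, hv⟩

end Pool.Agent.Lib.AndoD
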