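import Pool.Agent.Lib.AndoD.Cnt
import Pool.Agent.Lib.AndoD.NT
import Pool.Agent.Lib.AndoD.F5d
import Pool.Agent.Lib.AndoB.Fact1g
import Pool.Agent.Lib.AndoC.Dom

/-!
# AndoD.BndB: two resource territories

`bndB`: the territory of the resource of an arm of stage at least 3 meets the resource territories of
at most 6 arms of stage at least 3.
-/

set_option autoImplicit false
set_option linter.unusedSectionVars false
set_option linter.unusedVariables false

namespace Pool.Agent.Lib.AndoD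

open Pool.Agent.Lib.Ando Pool.Agent.Lib.AndoC

variable {V : Type*} [Fintype V] [DecidableEq V] {G : SimpleGraph V} [DecidableRel G.Adj]

namespace BndBAux

open CntAux CoreAux ExADAux

open Classical

variable {k : ℕ} {S : Finset V} {X Y : Finset (Finset V)} {dat : V × V → Dat V}

/-- The vertices of the territory of a ZL vertex. -/
theorem ter_single {x v c l m : V} (sx : sm G S x = {v}) (sv : sm G S v = {x})
    (ox : op G S x = {c, l}) (sc : sd G S c = 0) (sl : sm G S l = {m}) {y : V}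
    (hy : y ∈ ter G S {x}) : y = x ∨ y = v ∨ y = c ∨ y = l ∨ y = m := by
  have hadj : ∀ z, G.Adj x z → z = v ∨ z = c ∨ z = l := by
    intro z hz
    by_cases h1 : (x ∈ S ↔ z ∈ S)
    · left
      have : z ∈ sm G S x := mem_sm.2 ⟨hz, h1.symm⟩
      rwa [sx, Finset.mem_singleton] at this
    · right
      have : z ∈ op G S x := mem_op.2 ⟨hz, fun h2 => h1 h2.symm⟩
      rwa [ox, Finset.mem_insert, Finset.mem_singleton] at this
  unfold ter at hy
  simp only [Finset.mem_union, Finset.mem_filter, Finset.mem_univ, true_and,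
    Finset.mem_singleton, exists_eq_left] at hy
  rcases hy with (h1 | h1) | ⟨w, hw, h1⟩
  · exact Or.inl h1
  · rcases hadj y h1 with h2 | h2 | h2 <;> tauto
  · rcases hadj w hw with h2 | h2 | h2
    · subst h2
      rw [sv, Finset.mem_singleton] at h1
      exact Or.inl h1
    · subst h2
      have : sm G S w = ∅ := Finset.card_eq_zero.1 sc
      rw [this] at h1
      exact absurd h1 (Finset.notMem_empty _)
    · subst h2
      rw [sl, Finset.mem_singleton] at h1
      tauto

/-- The data of a resource. -/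
structure RD (G : SimpleGraph V) [DecidableRel G.Adj] (S : Finset V) (x v c l m : V) : Prop where
  xS : x ∈ S
  vS : v ∈ S
  cS : c ∉ S
  lS : l ∉ S
  mS : m ∉ S
  dx : sd G S x = 1
  dv : sd G S v = 1
  dc : sd G S c = 0
  dl : sd G S l = 1
  dm : sd G S m = 1
  sx : sm G S x = {v}
  sv : sm G S v = {x}
  ox : op G S x = {c, l}
  sl : sm G S l = {m}
  sm' : sm G S m = {l}
  nx : x ∉ sites G S

theorem rd_of (h : Ctx G k S X Y) (hdat : DatOK G S X dat) {a : V × V} (ha : a ∈ arms G S X)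
    (h3 : 3 ≤ (dat a).st) : ∃ v c l m, RD G S (dat a).res v c l m := by
  obtain ⟨xS, dx, nx, ⟨c, l, ox, dc, dl⟩, -, -⟩ := res_facts h ha (hdat a ha) h3
  have h1 := pt_all h.lev dx
  have h2 := pt_all h.lev dl
  have hc : c ∈ op G S (dat a).res := by rw [ox]; simp
  have hl : l ∈ op G S (dat a).res := by rw [ox]; simp
  exact ⟨pt G S (dat a).res, c, l, pt G S l,
    ⟨xS, h1.2.2.2.2.2.2.2 xS, StructAux.op_black xS hc, StructAux.op_black xS hl,
      fun h5 => StructAux.op_black xS hl (h2.2.2.2.2.2.2.1 h5), dx, h1.2.2.1, dc, dl, h2.2.2.1,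
      h1.1, h1.2.1, ox, h2.1, h2.2.1, nx⟩⟩

theorem st3_of (h : Ctx G k S X Y) (hdat : DatOK G S X dat) {a : V × V} (ha : a ∈ arms G S X)
    (h3 : (dat a).st = 3) : a.1 ∈ sm G S (dat a).res ∧ a.1 ∈ sites G S ∧
      (∃ y, Mate G S a.1 y) ∧ dom G S (dat a).res ∈ X := by
  obtain ⟨-, us, -⟩ := arm_site ha
  obtain ⟨-, -, -, -, e1, -⟩ := res_facts h ha (hdat a ha) (by omega)
  obtain ⟨-, -, -, -, c1, -⟩ := core_facts h (hdat a ha)
  have hu := StructAux.mem_sites.1 us
  have h1 := pt_all h.lev hu.2.1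
  have h2 : a.1 ∈ sm G S (dat a).res := by
    rw [e1 h3, h1.2.1]; simp
  refine ⟨h2, us, ?_, ?_⟩
  · obtain ⟨y, hy, -⟩ := c1 (Or.inr h3)
    exact ⟨y, hy⟩
  · have h5 : dom G S a.1 = dom G S (dat a).res := by
      refine (dom_eq h.lev hu.2.1 ?_).2 (Or.inr (sm_symm h2))
      rw [e1 h3]; exact h1.2.2.1
    rw [← h5]
    exact arm_X ha

theorem st4_of (h : Ctx G k S X Y) (hdat : DatOK G S X dat) {a : V × V} (ha : a ∈ arms G S X)
    (h4 : (dat a).st = 4) : a.2 ∈ op G S (dat a).res ∧ sd G S a.2 = 0 ∧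
      (dat a).res ∉ sm G S a.1 ∧ (dat a).res ≠ a.1 ∧ a.1 ∈ sites G S ∧ a.2 ∈ op G S a.1 ∧
      ∀ y, ¬ Mate G S a.1 y := by
  obtain ⟨-, us, hb⟩ := arm_site ha
  obtain ⟨-, -, -, -, -, e1⟩ := res_facts h ha (hdat a ha) (by omega)
  obtain ⟨-, -, -, f1, f2, f3, -⟩ := side1_facts h (hdat a ha) (e1 h4)
  obtain ⟨-, -, -, -, -, c2, -⟩ := core_facts h (hdat a ha)
  exact ⟨f1, (op_ne us hb).2, f2, f3, us, hb, (c2 (by omega) (by omega)).2⟩

/-- In stage 4 the end is the Z-neighbour of the resource. -/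
theorem st4_end (h : Ctx G k S X Y) (hdat : DatOK G S X dat) {a : V × V} (ha : a ∈ arms G S X)
    (h4 : (dat a).st = 4) {v c l m : V} (hr : RD G S (dat a).res v c l m) : a.2 = c := by
  obtain ⟨h1, h2, -⟩ := st4_of h hdat ha h4
  rw [hr.ox, Finset.mem_insert, Finset.mem_singleton] at h1
  rcases h1 with h1 | h1
  · exact h1
  · rw [h1, hr.dl] at h2
    exact absurd h2 one_ne_zero

theorem rd_end {x v c l m c' : V} (hr : RD G S x v c l m) (hc : c' ∈ op G S x)
    (sc : sd G S c' = 0) : c' = c := by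
  rw [hr.ox, Finset.mem_insert, Finset.mem_singleton] at hc
  rcases hc with h1 | h1
  · exact h1
  · rw [h1, hr.dl] at sc
    exact absurd sc one_ne_zero

theorem rd_l {x v c l m l' : V} (hr : RD G S x v c l m) (hc : l' ∈ op G S x)
    (sc : sd G S l' = 1) : l' = l := by
  rw [hr.ox, Finset.mem_insert, Finset.mem_singleton] at hc
  rcases hc with h1 | h1
  · rw [h1, hr.dc] at sc
    exact absurd sc zero_ne_one
  · exact h1

/-- The arms of stage 4 with resource `x`. -/
theorem cnt4 (h : Ctx G k S X Y) (hdat : DatOK G S X dat) {x v c l m : V}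
    (hr : RD G S x v c l m) :
    ((arms G S X).filter (fun a => (dat a).st = 4 ∧ (dat a).res = x)).card ≤ 2 := by
  have h3 := op3 h.reg hr.dc
  have hxc : x ∈ op G S c := op_symm (by rw [hr.ox]; simp)
  have h4 : ((op G S c).erase x).card = 2 := by
    rw [Finset.card_erase_of_mem hxc, h3]
  rw [← h4]
  refine Finset.card_le_card_of_injOn (fun a => a.1) ?_ ?_
  · intro a ha
    obtain ⟨h5, h6, h7⟩ := Finset.mem_filter.1 (Finset.mem_coe.1 ha)
    have h8 := st4_of h hdat h5 h6
    have h9 := st4_end h hdat h5 h6 (h7 ▸ hr)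
    refine Finset.mem_coe.2 (Finset.mem_erase.2 ⟨?_, ?_⟩)
    · rw [← h7]; exact h8.2.2.2.1.symm
    · have := op_symm h8.2.2.2.2.2.1
      rwa [h9] at this
  · intro a ha b hb hab
    obtain ⟨h5, h6, h7⟩ := Finset.mem_filter.1 (Finset.mem_coe.1 ha)
    obtain ⟨h5', h6', h7'⟩ := Finset.mem_filter.1 (Finset.mem_coe.1 hb)
    have h9 := st4_end h hdat h5 h6 (h7 ▸ hr)
    have h9' := st4_end h hdat h5' h6' (h7' ▸ hr)
    exact Prod.ext hab (h9.trans h9'.symm)

/-- Two different arms of stage 4 with the same resource belong to two partners. -/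
theorem two4 (h : Ctx G k S X Y) (hdat : DatOK G S X dat) {x v c l m : V}
    (hr : RD G S x v c l m) {a b : V × V} (ha : a ∈ arms G S X) (hb : b ∈ arms G S X)
    (ha4 : (dat a).st = 4) (hb4 : (dat b).st = 4) (hax : (dat a).res = x) (hbx : (dat b).res = x)
    (hne : a ≠ b) : b.1 ∈ sm G S a.1 ∧ c ∈ op G S a.1 ∧ c ∈ op G S b.1 := by
  have h1 := st4_of h hdat ha ha4
  have h2 := st4_of h hdat hb hb4
  have e1 := st4_end h hdat ha ha4 (hax ▸ hr)
  have e2 := st4_end h hdat hb hb4 (hbx ▸ hr)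
  have n1 : a.1 ≠ b.1 := fun h5 => hne (Prod.ext h5 (e1.trans e2.symm))
  have c1 : c ∈ op G S a.1 := e1 ▸ h1.2.2.2.2.2.1
  have c2 : c ∈ op G S b.1 := e2 ▸ h2.2.2.2.2.2.1
  refine ⟨?_, c1, c2⟩
  by_contra hs
  exact h1.2.2.2.2.2.2 _ (mate_of h h1.2.2.2.2.1 h2.2.2.2.2.1 c1 c2 n1 hs)

theorem cnt4X (h : Ctx G k S X Y) (hdat : DatOK G S X dat) {x v c l m : V}
    (hr : RD G S x v c l m) (hX : dom G S x ∈ X) :
    ((arms G S X).filter (fun a => (dat a).st = 4 ∧ (dat a).res = x)).card ≤ 1 := by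
  refine card_le_one' fun a ha ⟨a4, ax⟩ b hb ⟨b4, bx⟩ => ?_
  by_contra hne
  obtain ⟨h1, h2, h3⟩ := two4 h hdat hr ha hb a4 b4 ax bx hne
  exact nt2 h hr.xS hr.dx hX hr.ox hr.dc hr.dl (arm_site ha).2.1 (arm_site hb).2.1 h1 h2 h3

/-- The arms of stage 3 with resource `x`. -/
theorem cnt3 (h : Ctx G k S X Y) (hdat : DatOK G S X dat) {x v c l m : V}
    (hr : RD G S x v c l m) :
    ((arms G S X).filter (fun a => (dat a).st = 3 ∧ (dat a).res = x)).card ≤ 2 := by
  refine card_mono' (q := fun a : V × V => a.1 = v) ?_ (cnt_fst h v)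
  rintro a ha ⟨a3, ax⟩
  have := (st3_of h hdat ha a3).1
  rw [ax, hr.sx, Finset.mem_singleton] at this
  exact this

theorem cnt3_zero (h : Ctx G k S X Y) (hdat : DatOK G S X dat) {x v c l m : V}
    (hr : RD G S x v c l m) (hv : v ∉ sites G S) {a : V × V} (ha : a ∈ arms G S X)
    (a3 : (dat a).st = 3) (ax : (dat a).res = x) : False := by
  have h1 := st3_of h hdat ha a3
  have h2 := h1.1
  rw [ax, hr.sx, Finset.mem_singleton] at h2
  exact hv (h2 ▸ h1.2.1)

/-- All arms with resource `x`. -/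
theorem cntR (h : Ctx G k S X Y) (hdat : DatOK G S X dat) {x v c l m : V}
    (hr : RD G S x v c l m) :
    ((arms G S X).filter (fun a => 3 ≤ (dat a).st ∧ (dat a).res = x)).card ≤ 3 := by
  by_cases hex : ∃ a ∈ arms G S X, (dat a).st = 3 ∧ (dat a).res = x
  · obtain ⟨a, ha, a3, ax⟩ := hex
    have hX : dom G S x ∈ X := ax ▸ (st3_of h hdat ha a3).2.2.2
    refine card_union' (q := fun a : V × V => (dat a).st = 3 ∧ (dat a).res = x)
      (r := fun a : V × V => (dat a).st = 4 ∧ (dat a).res = x) ?_ (cnt3 h hdat hr)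
      (cnt4X h hdat hr hX)
    rintro b hb ⟨b3, bx⟩
    have := (core_facts h (hdat b hb)).2.2.2.2.2.2.1
    rcases (by omega : (dat b).st = 3 ∨ (dat b).st = 4) with h1 | h1
    · exact Or.inl ⟨h1, bx⟩
    · exact Or.inr ⟨h1, bx⟩
  · push Not at hex
    refine (card_mono' (q := fun a : V × V => (dat a).st = 4 ∧ (dat a).res = x) ?_
      (cnt4 h hdat hr)).trans (by norm_num)
    rintro b hb ⟨b3, bx⟩
    have := (core_facts h (hdat b hb)).2.2.2.2.2.2.1
    rcases (by omega : (dat b).st = 3 ∨ (dat b).st = 4) with h1 | h1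
    · exact absurd bx (hex b hb h1)
    · exact ⟨h1, bx⟩

/-- When two territories of resources meet. -/
theorem meet {x v c l m x' v' c' l' m' : V} (hr : RD G S x v c l m)
    (hr' : RD G S x' v' c' l' m')
    (hm : ¬ Disjoint (ter G S {x'}) (ter G S {x})) :
    x' = x ∨ x' = v ∨ c ∈ op G S x' ∨ l ∈ op G S x' ∨ m ∈ op G S x' := by
  obtain ⟨y, h1, h2⟩ := Finset.not_disjoint_iff.1 hm
  have hc' : c' ∈ op G S x' := by rw [hr'.ox]; simp
  have hl' : l' ∈ op G S x' := by rw [hr'.ox]; simp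
  have ne0 : ∀ {p q : V}, sd G S p = 0 → sd G S q = 1 → p ≠ q := by
    intro p q hp hq hpq
    rw [hpq, hq] at hp
    exact one_ne_zero hp
  have ve : v' = v → x' = x := by
    intro h5
    have h6 : x' ∈ sm G S v' := by rw [hr'.sv]; simp
    rw [h5, hr.sv, Finset.mem_singleton] at h6
    exact h6
  have xe : v' = x → x' = v := by
    intro h5
    have h6 : x' ∈ sm G S v' := by rw [hr'.sv]; simp
    rw [h5, hr.sx, Finset.mem_singleton] at h6
    exact h6
  have me : ∀ {q : V}, m' = q → sd G S q = 1 → ∀ p, sm G S q = {p} → l' = p := by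
    intro q h5 _ p hp
    have h6 : l' ∈ sm G S m' := by rw [hr'.sm']; simp
    rw [h5, hp, Finset.mem_singleton] at h6
    exact h6
  rcases ter_single hr.sx hr.sv hr.ox hr.dc hr.sl h2 with h3 | h3 | h3 | h3 | h3 <;>
    rcases ter_single hr'.sx hr'.sv hr'.ox hr'.dc hr'.sl h1 with h4 | h4 | h4 | h4 | h4
  · exact Or.inl (h4.symm.trans h3)
  · exact Or.inr (Or.inl (xe (h4.symm.trans h3)))
  · exact absurd (h3 ▸ hr.xS) (h4 ▸ hr'.cS)
  · exact absurd (h3 ▸ hr.xS) (h4 ▸ hr'.lS)
  · exact absurd (h3 ▸ hr.xS) (h4 ▸ hr'.mS)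
  · exact Or.inr (Or.inl (h4.symm.trans h3))
  · exact Or.inl (ve (h4.symm.trans h3))
  · exact absurd (h3 ▸ hr.vS) (h4 ▸ hr'.cS)
  · exact absurd (h3 ▸ hr.vS) (h4 ▸ hr'.lS)
  · exact absurd (h3 ▸ hr.vS) (h4 ▸ hr'.mS)
  · exact absurd (h4 ▸ hr'.xS) (h3 ▸ hr.cS)
  · exact absurd (h4 ▸ hr'.vS) (h3 ▸ hr.cS)
  · have : c = c' := h3.symm.trans h4
    exact Or.inr (Or.inr (Or.inl (this ▸ hc')))
  · exact absurd (h3.symm.trans h4) (ne0 hr.dc hr'.dl)
  · exact absurd (h3.symm.trans h4) (ne0 hr.dc hr'.dm)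
  · exact absurd (h4 ▸ hr'.xS) (h3 ▸ hr.lS)
  · exact absurd (h4 ▸ hr'.vS) (h3 ▸ hr.lS)
  · exact absurd (h4.symm.trans h3) (ne0 hr'.dc hr.dl)
  · have : l = l' := h3.symm.trans h4
    exact Or.inr (Or.inr (Or.inr (Or.inl (this ▸ hl'))))
  · have : l' = m := me (h4.symm.trans h3) hr.dl m hr.sl
    exact Or.inr (Or.inr (Or.inr (Or.inr (this ▸ hl'))))
  · exact absurd (h4 ▸ hr'.xS) (h3 ▸ hr.mS)
  · exact absurd (h4 ▸ hr'.vS) (h3 ▸ hr.mS)
  · exact absurd (h4.symm.trans h3) (ne0 hr'.dc hr.dm)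
  · have : m = l' := h3.symm.trans h4
    exact Or.inr (Or.inr (Or.inr (Or.inr (this ▸ hl'))))
  · have : l' = l := me (h4.symm.trans h3) hr.dm l hr.sm'
    exact Or.inr (Or.inr (Or.inr (Or.inl (this ▸ hl'))))

/-- A resource at `m`: at most one arm of stage 4. -/
theorem cnt4m (h : Ctx G k S X Y) (hdat : DatOK G S X dat) {x v c l m x' v' c' l' m' : V}
    (hr : RD G S x v c l m) (hr' : RD G S x' v' c' l' m') (hm : m ∈ op G S x')
    (hx : x' ≠ v) :
    ((arms G S X).filter (fun a => (dat a).st = 4 ∧ (dat a).res = x')).card ≤ 1 := by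
  refine card_le_one' fun a ha ⟨a4, ax⟩ b hb ⟨b4, bx⟩ => ?_
  by_contra hne
  obtain ⟨h1, h2, h3⟩ := two4 h hdat hr' ha hb a4 b4 ax bx hne
  have hwx : x' ∉ sm G S x := by
    rw [hr.sx, Finset.mem_singleton]; exact hx
  exact f5_double h (x := x) (c := c) (m := l) (n := m) (w := x') hr.xS hr.dx
    (by rw [hr.ox]; simp) hr.dc (by rw [hr.ox]; simp) hr.sl hr'.xS hr'.dx
    (by rw [hr'.ox]; simp) hr'.dc hm hwx (arm_site ha).2.1 (arm_site hb).2.1 h1 h2 h3

/-- The arms whose resource is adjacent to `m`. -/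
theorem cntm (h : Ctx G k S X Y) (hdat : DatOK G S X dat) {x v c l m : V}
    (hr : RD G S x v c l m) :
    ((arms G S X).filter (fun a => 3 ≤ (dat a).st ∧ m ∈ op G S (dat a).res ∧
      (dat a).res ≠ v)).card ≤ 3 := by
  by_cases hex : ∃ a ∈ arms G S X, 3 ≤ (dat a).st ∧ m ∈ op G S (dat a).res ∧ (dat a).res ≠ v
  swap
  · push Not at hex
    refine (card_zero' ?_).trans (by norm_num)
    rintro a ha ⟨h1, h2, h3⟩
    exact h3 (hex a ha h1 h2)
  obtain ⟨a, ha, a3, am, av⟩ := hex
  obtain ⟨v1, c1, l1, m1, hr1⟩ := rd_of h hdat ha a3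
  have hUN : ∀ {b : V × V}, b ∈ arms G S X → 3 ≤ (dat b).st → m ∈ op G S (dat b).res →
      (dat b).res ∈ UN G S m := by
    intro b hb b3 bm
    obtain ⟨v2, c2, l2, m2, hr2⟩ := rd_of h hdat hb b3
    exact StructAux.mem_UN.2 ⟨op_symm bm, hr2.dx⟩
  by_cases hex2 : ∃ b ∈ arms G S X, 3 ≤ (dat b).st ∧ m ∈ op G S (dat b).res ∧ (dat b).res ≠ v ∧
      (dat b).res ≠ (dat a).res
  · obtain ⟨b, hb, b3, bm, bv, ba⟩ := hex2
    obtain ⟨v2, c2, l2, m2, hr2⟩ := rd_of h hdat hb b3
    have hp : sm G S (dat a).res = {(dat b).res} :=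
      AndoB.fact1g_sm h.reg h.lev h.hk hr.mS hr.dm (hUN ha a3 am) (hUN hb b3 bm) ba.symm
    have e1 : v1 = (dat b).res := by
      have := hr1.sx.symm.trans hp
      exact Finset.singleton_injective this
    have e2 : v2 = (dat a).res := by
      have h5 : (dat a).res ∈ sm G S (dat b).res := sm_symm (by rw [hp]; simp)
      rw [hr2.sx, Finset.mem_singleton] at h5
      exact h5.symm
    refine (card_union' (m := 1) (n := 1)
      (q := fun a' : V × V => (dat a').st = 4 ∧ (dat a').res = (dat a).res)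
      (r := fun a' : V × V => (dat a').st = 4 ∧ (dat a').res = (dat b).res) ?_
      (cnt4m h hdat hr hr1 am av) (cnt4m h hdat hr hr2 bm bv)).trans (by norm_num)
    rintro a' ha' ⟨h1, h2, h3⟩
    have hres : (dat a').res = (dat a).res ∨ (dat a').res = (dat b).res := by
      by_contra hcon
      push Not at hcon
      have h5 := AndoB.fact1g_sm h.reg h.lev h.hk hr.mS hr.dm (hUN ha a3 am) (hUN ha' h1 h2)
        hcon.1.symm
      rw [hp] at h5
      exact hcon.2 (Finset.singleton_injective h5).symm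
    have hst : (dat a').st ≠ 3 := by
      intro h5
      rcases hres with h6 | h6
      · exact cnt3_zero h hdat hr1 (e1 ▸ hr2.nx) ha' h5 h6
      · exact cnt3_zero h hdat hr2 (e2 ▸ hr1.nx) ha' h5 h6
    have h4 := (core_facts h (hdat a' ha')).2.2.2.2.2.2.1
    have : (dat a').st = 4 := by omega
    tauto
  · push Not at hex2
    refine card_mono' (q := fun a' : V × V => 3 ≤ (dat a').st ∧ (dat a').res = (dat a).res) ?_
      (cntR h hdat hr1)
    rintro a' ha' ⟨h1, h2, h3⟩
    exact ⟨h1, hex2 a' ha' h1 h2 h3⟩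

/-- The arms of stage 3 whose resource is adjacent to `y`, `y` with at most one pair of partners. -/
theorem cnt3m (h : Ctx G k S X Y) (hdat : DatOK G S X dat) {x v c l m : V}
    (hr : RD G S x v c l m) :
    ((arms G S X).filter (fun a => (dat a).st = 3 ∧ m ∈ op G S (dat a).res)).card ≤ 2 := by
  by_cases hex : ∃ a ∈ arms G S X, (dat a).st = 3 ∧ m ∈ op G S (dat a).res
  swap
  · push Not at hex
    refine (card_zero' ?_).trans (by norm_num)
    rintro a ha ⟨h1, h2⟩
    exact hex a ha h1 h2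
  obtain ⟨a, ha, a3, am⟩ := hex
  obtain ⟨v1, c1, l1, m1, hr1⟩ := rd_of h hdat ha (by omega)
  refine card_mono' (q := fun a' : V × V => (dat a').st = 3 ∧ (dat a').res = (dat a).res) ?_
    (cnt3 h hdat hr1)
  rintro b hb ⟨b3, bm⟩
  refine ⟨b3, ?_⟩
  by_contra hne
  obtain ⟨v2, c2, l2, m2, hr2⟩ := rd_of h hdat hb (by omega)
  have hp : sm G S (dat a).res = {(dat b).res} :=
    AndoB.fact1g_sm h.reg h.lev h.hk hr.mS hr.dm (StructAux.mem_UN.2 ⟨op_symm am, hr1.dx⟩)
      (StructAux.mem_UN.2 ⟨op_symm bm, hr2.dx⟩) (Ne.symm hne)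
  have e1 : v1 = (dat b).res := Finset.singleton_injective (hr1.sx.symm.trans hp)
  exact cnt3_zero h hdat hr1 (e1 ▸ hr2.nx) ha a3 rfl

/-- The other resources at `c` if no site without mate sits there. -/
theorem cnt3c (h : Ctx G k S X Y) (hdat : DatOK G S X dat) {x v c l m : V}
    (hr : RD G S x v c l m) :
    ((arms G S X).filter (fun a => (dat a).st = 3 ∧ c ∈ op G S (dat a).res ∧
      (dat a).res ≠ x ∧ (dat a).res ≠ v)).card ≤ 2 := by
  by_cases hex : ∃ a ∈ arms G S X, (dat a).st = 3 ∧ c ∈ op G S (dat a).res ∧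
      (dat a).res ≠ x ∧ (dat a).res ≠ v
  swap
  · push Not at hex
    refine (card_zero' ?_).trans (by norm_num)
    rintro a ha ⟨h1, h2, h3, h4⟩
    exact h4 (hex a ha h1 h2 h3)
  obtain ⟨a, ha, a3, ac, ax, av⟩ := hex
  obtain ⟨v1, c1, l1, m1, hr1⟩ := rd_of h hdat ha (by omega)
  refine card_mono' (q := fun a' : V × V => (dat a').st = 3 ∧ (dat a').res = (dat a).res) ?_
    (cnt3 h hdat hr1)
  rintro b hb ⟨b3, bc, bx, bv⟩
  refine ⟨b3, ?_⟩
  by_contra hne
  obtain ⟨v2, c2, l2, m2, hr2⟩ := rd_of h hdat hb (by omega)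
  have hxc : x ∈ op G S c := op_symm (by rw [hr.ox]; simp)
  have key := h.nt S h.lev c x (dat a).res (dat b).res hr.cS hr.dc
    (StructAux.mem_UN.2 ⟨hxc, hr.dx⟩) (StructAux.mem_UN.2 ⟨op_symm ac, hr1.dx⟩)
    (StructAux.mem_UN.2 ⟨op_symm bc, hr2.dx⟩) ax.symm bx.symm (Ne.symm hne)
  rcases key with h1 | h1 | h1
  · have h2 := sm_of_adj hr.xS hr1.xS h1
    rw [hr.sx, Finset.mem_singleton] at h2
    exact av h2
  · have h2 := sm_of_adj hr.xS hr2.xS h1
    rw [hr.sx, Finset.mem_singleton] at h2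
    exact bv h2
  · have h2 := sm_of_adj hr1.xS hr2.xS h1
    rw [hr1.sx, Finset.mem_singleton] at h2
    exact cnt3_zero h hdat hr1 (h2 ▸ hr2.nx) ha a3 rfl

/-- If a site without mate, not the partner of `x`, has the end `c`, there is no other resource
at `c`. -/
theorem no_c (h : Ctx G k S X Y) (hdat : DatOK G S X dat) {x v c l m s : V}
    (hr : RD G S x v c l m) (hs : s ∈ sites G S) (hcs : c ∈ op G S s)
    (nm : ∀ y, ¬ Mate G S s y) (hsv : s ≠ v) {a : V × V} (ha : a ∈ arms G S X)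
    (a3 : 3 ≤ (dat a).st) (ac : c ∈ op G S (dat a).res) (ax : (dat a).res ≠ x)
    (av : (dat a).res ≠ v) : False := by
  obtain ⟨v1, c1, l1, m1, hr1⟩ := rd_of h hdat ha a3
  have hs' := StructAux.mem_sites.1 hs
  have hxc : x ∈ op G S c := op_symm (by rw [hr.ox]; simp)
  have hsc := op_symm hcs
  have hac := op_symm ac
  have sx : s ≠ x := fun e => hr.nx (e ▸ hs)
  have sr : s ≠ (dat a).res := fun e => hr1.nx (e ▸ hs)
  have hmem : ∀ z ∈ op G S c, z = x ∨ z = s ∨ z = (dat a).res := by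
    intro z hz
    have h3 := op3 h.reg hr.dc
    by_contra hcon
    push Not at hcon
    have : ({x, s, (dat a).res, z} : Finset V) ⊆ op G S c := by
      intro w hw
      simp only [Finset.mem_insert, Finset.mem_singleton] at hw
      rcases hw with rfl | rfl | rfl | rfl
      · exact hxc
      · exact hsc
      · exact hac
      · exact hz
    have h4 := Finset.card_le_card this
    rw [h3, Finset.card_insert_of_notMem (by
      simp only [Finset.mem_insert, Finset.mem_singleton, not_or]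
      exact ⟨sx.symm, ax.symm, hcon.1.symm⟩), Finset.card_insert_of_notMem (by
      simp only [Finset.mem_insert, Finset.mem_singleton, not_or]
      exact ⟨sr, hcon.2.1.symm⟩), Finset.card_pair hcon.2.2.symm] at h4
    omega
  have key := h.nt S h.lev c x s (dat a).res hr.cS hr.dc
    (StructAux.mem_UN.2 ⟨hxc, hr.dx⟩) (StructAux.mem_UN.2 ⟨hsc, hs'.2.1⟩)
    (StructAux.mem_UN.2 ⟨hac, hr1.dx⟩) sx.symm ax.symm sr
  have hsa : s = v1 := by
    rcases key with h1 | h1 | h1
    · have h2 := sm_of_adj hr.xS hs'.1 h1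
      rw [hr.sx, Finset.mem_singleton] at h2
      exact absurd h2 hsv
    · have h2 := sm_of_adj hr.xS hr1.xS h1
      rw [hr.sx, Finset.mem_singleton] at h2
      exact absurd h2 av
    · have h2 := sm_of_adj hr1.xS hs'.1 h1.symm
      rw [hr1.sx, Finset.mem_singleton] at h2
      exact h2
  have h4 := (core_facts h (hdat a ha)).2.2.2.2.2.2.1
  rcases (by omega : (dat a).st = 3 ∨ (dat a).st = 4) with h5 | h5
  · obtain ⟨h6, -, ⟨y, hy⟩, -⟩ := st3_of h hdat ha h5
    rw [hr1.sx, Finset.mem_singleton, ← hsa] at h6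
    rw [h6] at hy
    exact nm y hy
  · obtain ⟨h6, h7, h8, h9, h10, h11, -⟩ := st4_of h hdat ha h5
    have e1 := st4_end h hdat ha h5 hr1
    have e2 := rd_end hr1 ac hr.dc
    have h12 : a.1 ∈ op G S c := by
      have := op_symm h11
      rwa [e1, ← e2] at this
    rcases hmem _ h12 with h13 | h13 | h13
    · exact hr.nx (h13 ▸ h10)
    · apply h8
      rw [h13, hsa]
      rw [hr1.sv]; simp
    · exact h9 h13.symm

end BndBAux

open BndBAux CntAux CoreAux ExADAux

section

open Classical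

variable {k : ℕ} {S : Finset V} {X Y : Finset (Finset V)} {dat : V × V → Dat V}

theorem bndB (h : Ctx G k S X Y) (hdat : DatOK G S X dat) {a : V × V} (ha : a ∈ arms G S X)
    (h3 : 3 ≤ (dat a).st) :
    ((arms G S X).filter (fun a' => 3 ≤ (dat a').st ∧
      ¬ Disjoint (tb G S (dat a')) (tb G S (dat a)))).card ≤ 6 := by
  obtain ⟨v, c, l, m, hr⟩ := rd_of h hdat ha h3
  have hst : ∀ {b : V × V}, b ∈ arms G S X → 3 ≤ (dat b).st → (dat b).st = 3 ∨ (dat b).st = 4 := by
    intro b hb b3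
    have := (core_facts h (hdat b hb)).2.2.2.2.2.2.1
    omega
  -- the reduction
  have hred : ∀ b ∈ arms G S X, 3 ≤ (dat b).st ∧
      ¬ Disjoint (tb G S (dat b)) (tb G S (dat a)) →
      ((dat b).res = (dat a).res ∨ (dat b).res = v) ∨
      (c ∈ op G S (dat b).res ∧ (dat b).res ≠ (dat a).res ∧ (dat b).res ≠ v) ∨
      (m ∈ op G S (dat b).res ∧ (dat b).res ≠ v) := by
    rintro b hb ⟨b3, hm⟩
    obtain ⟨v1, c1, l1, m1, hr1⟩ := rd_of h hdat hb b3
    unfold tb at hm
    rw [if_pos b3, if_pos h3] at hm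
    by_cases e1 : (dat b).res = (dat a).res
    · exact Or.inl (Or.inl e1)
    by_cases e2 : (dat b).res = v
    · exact Or.inl (Or.inr e2)
    rcases meet hr hr1 hm with h1 | h1 | h1 | h1 | h1
    · exact absurd h1 e1
    · exact absurd h1 e2
    · exact Or.inr (Or.inl ⟨h1, e1, e2⟩)
    · exfalso
      have hl : (dat a).res ∈ op G S l := op_symm (by rw [hr.ox]; simp)
      have := AndoB.fact1g_sm h.reg h.lev h.hk hr.lS hr.dl
        (StructAux.mem_UN.2 ⟨hl, hr.dx⟩) (StructAux.mem_UN.2 ⟨op_symm h1, hr1.dx⟩)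
        (Ne.symm e1)
      exact e2 (Finset.singleton_injective (this.symm.trans hr.sx))
    · exact Or.inr (Or.inr ⟨h1, e2⟩)
  -- site without mate at `c`
  by_cases hQ : ∃ s ∈ sites G S, c ∈ op G S s ∧ (∀ y, ¬ Mate G S s y) ∧ s ≠ v
  · obtain ⟨s, hs, hcs, nm, hsv⟩ := hQ
    rcases hst ha h3 with a3 | a4
    · -- stage 3
      have hv : v ∈ sites G S := by
        obtain ⟨h1, h2, -⟩ := st3_of h hdat ha a3
        rw [hr.sx, Finset.mem_singleton] at h1
        exact h1 ▸ h2
      refine card_union' (m := 3) (n := 3)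
        (q := fun b : V × V => 3 ≤ (dat b).st ∧ (dat b).res = (dat a).res)
        (r := fun b : V × V => 3 ≤ (dat b).st ∧ m ∈ op G S (dat b).res ∧ (dat b).res ≠ v) ?_
        (cntR h hdat hr) (cntm h hdat hr)
      intro b hb hb2
      rcases hred b hb hb2 with (h1 | h1) | ⟨h1, h2, h4⟩ | ⟨h1, h2⟩
      · exact Or.inl ⟨hb2.1, h1⟩
      · obtain ⟨v1, c1, l1, m1, hr1⟩ := rd_of h hdat hb hb2.1
        exact absurd hv (h1 ▸ hr1.nx)
      · exact absurd (no_c h hdat hr hs hcs nm hsv hb hb2.1 h1 h2 h4) id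
      · exact Or.inr ⟨hb2.1, h1, h2⟩
    · -- stage 4
      obtain ⟨f1, f2, f3, f4, f5, f6, f7⟩ := st4_of h hdat ha a4
      have ec := st4_end h hdat ha a4 hr
      rw [ec] at f6
      have hav : a.1 ≠ v := by
        intro e
        apply f3
        rw [e, hr.sv]; simp
      by_cases hD : ∃ w ∈ sites G S, w ∈ sm G S a.1 ∧ c ∈ op G S w
      · obtain ⟨w, hw, hwa, hcw⟩ := hD
        have hwv : w ≠ v := by
          intro e
          have h5 := sm_symm hwa
          rw [e, hr.sv, Finset.mem_singleton] at h5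
          exact f4 h5.symm
        by_cases hvr : ∃ b ∈ arms G S X, 3 ≤ (dat b).st ∧ (dat b).res = v
        · obtain ⟨b0, hb0, b03, b0v⟩ := hvr
          obtain ⟨v0, c0, l0, m0, hr0⟩ := rd_of h hdat hb0 b03
          rw [b0v] at hr0
          have e0 : v0 = (dat a).res := by
            have h5 : (dat a).res ∈ sm G S v := by rw [hr.sv]; simp
            rw [hr0.sx, Finset.mem_singleton] at h5
            exact h5.symm
          refine (card_union' (m := 2) (n := 2)
            (q := fun b : V × V => (dat b).st = 4 ∧ (dat b).res = (dat a).res)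
            (r := fun b : V × V => (dat b).st = 4 ∧ (dat b).res = v) ?_
            (cnt4 h hdat hr) (cnt4 h hdat hr0)).trans (by norm_num)
          intro b hb hb2
          rcases hred b hb hb2 with (h1 | h1) | ⟨h1, h2, h4⟩ | ⟨h1, h2⟩
          · rcases hst hb hb2.1 with b3 | b4
            · exact absurd (cnt3_zero h hdat hr hr0.nx hb b3 h1) id
            · exact Or.inl ⟨b4, h1⟩
          · rcases hst hb hb2.1 with b3 | b4
            · exact absurd (cnt3_zero h hdat hr0 (e0 ▸ hr.nx) hb b3 h1) id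
            · exact Or.inr ⟨b4, h1⟩
          · exact absurd (no_c h hdat hr hs hcs nm hsv hb hb2.1 h1 h2 h4) id
          · exfalso
            obtain ⟨v1, c1, l1, m1, hr1⟩ := rd_of h hdat hb hb2.1
            refine f5_double h (x := (dat b).res) (c := c1) (m := m) (n := l) (w := (dat a).res)
              hr1.xS hr1.dx (by rw [hr1.ox]; simp) hr1.dc h1 hr.sm' hr.xS hr.dx
              (by rw [hr.ox]; simp) hr.dc (by rw [hr.ox]; simp) ?_ f5 hw hwa f6 hcw
            intro h5
            have h6 := sm_symm h5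
            rw [hr.sx, Finset.mem_singleton] at h6
            exact h2 h6
        · push Not at hvr
          refine (card_union' (m := 2) (n := 2)
            (q := fun b : V × V => (dat b).st = 4 ∧ (dat b).res = (dat a).res)
            (r := fun b : V × V => (dat b).st = 3 ∧ (dat b).res = (dat a).res) ?_
            (cnt4 h hdat hr) (cnt3 h hdat hr)).trans (by norm_num)
          intro b hb hb2
          rcases hred b hb hb2 with (h1 | h1) | ⟨h1, h2, h4⟩ | ⟨h1, h2⟩
          · rcases hst hb hb2.1 with b3 | b4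
            · exact Or.inr ⟨b3, h1⟩
            · exact Or.inl ⟨b4, h1⟩
          · exact absurd h1 (hvr b hb hb2.1)
          · exact absurd (no_c h hdat hr hs hcs nm hsv hb hb2.1 h1 h2 h4) id
          · exfalso
            obtain ⟨v1, c1, l1, m1, hr1⟩ := rd_of h hdat hb hb2.1
            refine f5_double h (x := (dat b).res) (c := c1) (m := m) (n := l) (w := (dat a).res)
              hr1.xS hr1.dx (by rw [hr1.ox]; simp) hr1.dc h1 hr.sm' hr.xS hr.dx
              (by rw [hr.ox]; simp) hr.dc (by rw [hr.ox]; simp) ?_ f5 hw hwa f6 hcw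
            intro h5
            have h6 := sm_symm h5
            rw [hr.sx, Finset.mem_singleton] at h6
            exact h2 h6
      · push Not at hD
        -- only one arm of stage 4 with resource `x`
        have h41 : ((arms G S X).filter (fun b => (dat b).st = 4 ∧
            (dat b).res = (dat a).res)).card ≤ 1 := by
          refine card_le_one' fun b1 hb1 ⟨b14, b1x⟩ b2 hb2 ⟨b24, b2x⟩ => ?_
          have one : ∀ {b : V × V}, b ∈ arms G S X → (dat b).st = 4 →
              (dat b).res = (dat a).res → b = a := by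
            intro b hb b4 bx
            by_contra hne
            obtain ⟨h1, h2, h5⟩ := two4 h hdat hr ha hb a4 b4 rfl bx (Ne.symm hne)
            exact hD _ (arm_site hb).2.1 h1 h5
          exact (one hb1 b14 b1x).trans (one hb2 b24 b2x).symm
        have h12 : ((arms G S X).filter (fun b => 3 ≤ (dat b).st ∧
            ((dat b).res = (dat a).res ∨ (dat b).res = v))).card ≤ 3 := by
          by_cases hvr : ∃ b ∈ arms G S X, 3 ≤ (dat b).st ∧ (dat b).res = v
          · obtain ⟨b0, hb0, b03, b0v⟩ := hvr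
            obtain ⟨v0, c0, l0, m0, hr0⟩ := rd_of h hdat hb0 b03
            rw [b0v] at hr0
            have e0 : v0 = (dat a).res := by
              have h5 : (dat a).res ∈ sm G S v := by rw [hr.sv]; simp
              rw [hr0.sx, Finset.mem_singleton] at h5
              exact h5.symm
            refine card_union' (m := 1) (n := 2)
              (q := fun b : V × V => (dat b).st = 4 ∧ (dat b).res = (dat a).res)
              (r := fun b : V × V => (dat b).st = 4 ∧ (dat b).res = v) ?_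
              h41 (cnt4 h hdat hr0)
            rintro b hb ⟨b3', h1 | h1⟩
            · rcases hst hb b3' with b3 | b4
              · exact absurd (cnt3_zero h hdat hr hr0.nx hb b3 h1) id
              · exact Or.inl ⟨b4, h1⟩
            · rcases hst hb b3' with b3 | b4
              · exact absurd (cnt3_zero h hdat hr0 (e0 ▸ hr.nx) hb b3 h1) id
              · exact Or.inr ⟨b4, h1⟩
          · push Not at hvr
            refine card_union' (m := 1) (n := 2)
              (q := fun b : V × V => (dat b).st = 4 ∧ (dat b).res = (dat a).res)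
              (r := fun b : V × V => (dat b).st = 3 ∧ (dat b).res = (dat a).res) ?_
              h41 (cnt3 h hdat hr)
            rintro b hb ⟨b3', h1 | h1⟩
            · rcases hst hb b3' with b3 | b4
              · exact Or.inr ⟨b3, h1⟩
              · exact Or.inl ⟨b4, h1⟩
            · exact absurd h1 (hvr b hb b3')
        refine card_union' (m := 3) (n := 3)
          (q := fun b : V × V => 3 ≤ (dat b).st ∧
            ((dat b).res = (dat a).res ∨ (dat b).res = v))
          (r := fun b : V × V => 3 ≤ (dat b).st ∧ m ∈ op G S (dat b).res ∧ (dat b).res ≠ v) ?_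
          h12 (cntm h hdat hr)
        intro b hb hb2
        rcases hred b hb hb2 with h1 | ⟨h1, h2, h4⟩ | ⟨h1, h2⟩
        · exact Or.inl ⟨hb2.1, h1⟩
        · exact absurd (no_c h hdat hr hs hcs nm hsv hb hb2.1 h1 h2 h4) id
        · exact Or.inr ⟨hb2.1, h1, h2⟩
  · -- no such site
    push Not at hQ
    have a3 : (dat a).st = 3 := by
      rcases hst ha h3 with a3 | a4
      · exact a3
      · exfalso
        obtain ⟨f1, f2, f3, f4, f5, f6, f7⟩ := st4_of h hdat ha a4
        have ec := st4_end h hdat ha a4 hr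
        rw [ec] at f6
        have := hQ a.1 f5 f6 f7
        apply f3
        rw [this, hr.sv]; simp
    obtain ⟨g1, g2, ⟨y0, hy0⟩, g4⟩ := st3_of h hdat ha a3
    rw [hr.sx, Finset.mem_singleton] at g1
    -- no arm of stage 4 at `c`
    have no4 : ∀ b ∈ arms G S X, (dat b).st = 4 → c ∉ op G S b.1 := by
      intro b hb b4 hc
      obtain ⟨f1, f2, f3, f4, f5, f6, f7⟩ := st4_of h hdat hb b4
      have h5 := hQ b.1 f5 hc f7
      rw [h5, ← g1] at f7
      exact f7 y0 hy0
    have no4x : ∀ b ∈ arms G S X, (dat b).st = 4 → c ∉ op G S (dat b).res := by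
      intro b hb b4 hc
      obtain ⟨v1, c1, l1, m1, hr1⟩ := rd_of h hdat hb (by omega)
      obtain ⟨f1, f2, f3, f4, f5, f6, f7⟩ := st4_of h hdat hb b4
      have e1 := st4_end h hdat hb b4 hr1
      have e2 := rd_end hr1 hc hr.dc
      apply no4 b hb b4
      rw [e2, ← e1]; exact f6
    have no4m : ∀ b ∈ arms G S X, (dat b).st = 4 → (dat b).res ≠ v →
        m ∉ op G S (dat b).res := by
      intro b hb b4 hbv hm
      obtain ⟨v1, c1, l1, m1, hr1⟩ := rd_of h hdat hb (by omega)
      obtain ⟨f1, f2, f3, f4, f5, f6, f7⟩ := st4_of h hdat hb b4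
      have key := f5_ctx h (x := (dat a).res) (c := c) (m := l) (n := m) (w := (dat b).res)
        (u := b.1) (b := b.2) hr.xS hr.dx (by rw [hr.ox]; simp) hr.dc (by rw [hr.ox]; simp)
        hr.sl hr1.xS hr1.dx f1 f2 hm (by rw [hr.sx, Finset.mem_singleton]; exact hbv) f5 f6 f3
      rcases key with h5 | h5
      · exact no4 b hb b4 (by rw [h5]; simp)
      · have h6 := sm_symm h5
        rw [hr.sx, Finset.mem_singleton, ← g1] at h6
        exact f7 y0 (h6 ▸ hy0)
    have hv : v ∈ sites G S := g1 ▸ g2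
    refine card_union' (m := 4) (n := 2)
      (q := fun b : V × V => ((dat b).st = 3 ∧ (dat b).res = (dat a).res) ∨
        ((dat b).st = 3 ∧ c ∈ op G S (dat b).res ∧ (dat b).res ≠ (dat a).res ∧
          (dat b).res ≠ v))
      (r := fun b : V × V => (dat b).st = 3 ∧ m ∈ op G S (dat b).res) ?_
      (card_union' (m := 2) (n := 2)
        (q := fun b : V × V => (dat b).st = 3 ∧ (dat b).res = (dat a).res)
        (r := fun b : V × V => (dat b).st = 3 ∧ c ∈ op G S (dat b).res ∧
          (dat b).res ≠ (dat a).res ∧ (dat b).res ≠ v)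
        (fun _ _ h => h) (cnt3 h hdat hr) (cnt3c h hdat hr)) (cnt3m h hdat hr)
    intro b hb hb2
    rcases hred b hb hb2 with (h1 | h1) | ⟨h1, h2, h4⟩ | ⟨h1, h2⟩
    · rcases hst hb hb2.1 with b3 | b4
      · exact Or.inl (Or.inl ⟨b3, h1⟩)
      · exact absurd (by rw [h1, hr.ox]; simp : c ∈ op G S (dat b).res) (no4x b hb b4)
    · obtain ⟨v1, c1, l1, m1, hr1⟩ := rd_of h hdat hb hb2.1
      exact absurd hv (h1 ▸ hr1.nx)
    · rcases hst hb hb2.1 with b3 | b4
      · exact Or.inl (Or.inr ⟨b3, h1, h2, h4⟩)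
      · exact absurd h1 (no4x b hb b4)
    · rcases hst hb hb2.1 with b3 | b4
      · exact Or.inr ⟨b3, h1⟩
      · exact absurd h1 (no4m b hb b4 h2)

end

end Pool.Agent.Lib.AndoD
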