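import Pool.Agent.Lib.AndoD.Defs
import Pool.Agent.Lib.AndoC.ChainEx

/-!
# AndoD.ChainX: the chain from an arbitrary ZL vertex whose domino is in `X`

The same construction as in `AndoC.ChainEx`.
-/

set_option autoImplicit false
set_option linter.unusedSectionVars false

namespace Pool.Agent.Lib.AndoD

open Pool.Agent.Lib.Ando Pool.Agent.Lib.AndoC

variable {V : Type*} [Fintype V] [DecidableEq V] {G : SimpleGraph V} [DecidableRel G.Adj]

open ChainExAux in
/-- The chain from a black vertex of monochromatic degree one adjacent to a white domino of `X`. -/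
theorem chain_exg (hG : G.IsRegularOfDegree 3) {k : ℕ} (hk : 1 ≤ k) {S : Finset V}
    (hL : Level G k S) {X Y : Finset (Finset V)} (hX : HX G k S X Y) {l0 z : V}
    (hl0 : l0 ∉ S) (sl0 : sd G S l0 = 1) (hzU : z ∈ UN G S l0) (hz : dom G S z ∈ X) :
    ∃ (n : ℕ) (l m w w' : ℕ → V) (y : V), l 0 = l0 ∧ Chn G S n l m w w' y ∧
      ∀ i < n, dom G S (w i) ≠ dom G S z ∧ dom G S (w i) ∈ X := by
  obtain ⟨μ, hinj, hμ'⟩ := hX.inj _ hz
  have hμ : ∀ D ∈ Y, μ D ∈ ND G S D := fun D hD => (hμ' D hD).1
  -- the sequences
  let l : ℕ → V := fun i => (nx G S)^[i] l0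
  let m : ℕ → V := fun i => pr G S (l i)
  let w : ℕ → V := fun i => ch G S (m i)
  let w' : ℕ → V := fun i => pr G S (w i)
  have hl1 : ∀ i, l (i + 1) = nx G S (l i) := fun i => Function.iterate_succ_apply' _ _ _
  let prev : ℕ → Finset V := fun i => Nat.casesOn i (dom G S z) (fun j => dom G S (w j))
  -- the first state
  have inv0 : Inv (G := G) S X Y μ (l 0) (prev 0) := by
    have hY : dom G S l0 ∈ Y := by
      have hBD : dom G S l0 ∈ BD G S :=
        Finset.mem_image.2 ⟨_, Finset.mem_filter.2 ⟨Finset.mem_univ _, hl0, sl0⟩, rfl⟩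
      refine (hX.mem _ hBD).2 ⟨dom G S z, Finset.mem_inter.2 ⟨?_, hz⟩⟩
      rw [DomAux.dom_of G (pr_spec sl0)]
      exact (nd_side hL hl0 (pr_spec sl0)).2 ⟨z, Or.inl hzU, rfl⟩
    exact ⟨hl0, sl0, hY, ⟨z, hzU, rfl⟩, (hμ' _ hY).2.symm⟩
  have inv : ∀ i, (∀ j ≤ i, sd G S (l j) = 1) → Inv (G := G) S X Y μ (l i) (prev i) := by
    intro i
    induction i with
    | zero => exact fun _ => inv0
    | succ i ih =>
      intro hi
      have h1 := ih (fun j hj => hi j (by omega))
      have h2 := hi (i + 1) le_rfl
      rw [hl1] at h2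
      have h3 := next hG hk hL hX hμ hinj h1 h2
      rw [← hl1] at h3
      exact h3
  have FX : ∀ i, (∀ j ≤ i, sd G S (l j) = 1) → Fx (G := G) S X μ (l i) (prev i) :=
    fun i hi => fx hG hk hL hX hμ (inv i hi)
  -- the dominoes are different
  have hdis : ∀ i j, i < j → (∀ j' ≤ j, sd G S (l j') = 1) → dom G S (l i) ≠ dom G S (l j) := by
    intro i
    induction i with
    | zero =>
      intro j hj hs heq
      have f0 := FX 0 (fun j' hj' => hs j' (by omega))
      have fj := FX j hs
      have i0 := inv 0 (fun j' hj' => hs j' (by omega))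
      have ij := inv j hs
      obtain ⟨j, rfl⟩ : ∃ j', j = j' + 1 := ⟨j - 1, by omega⟩
      have h1 : ({prev 0, μ (dom G S (l 0))} : Finset (Finset V)) =
          {prev (j + 1), μ (dom G S (l (j + 1)))} := by
        rw [← f0.nd, ← fj.nd, heq]
      have h2 : prev 0 ∈ ({prev (j + 1), μ (dom G S (l (j + 1)))} : Finset (Finset V)) := by
        rw [← h1]
        simp
      rw [Finset.mem_insert, Finset.mem_singleton, ← heq] at h2
      rcases h2 with h2 | h2
      · have fj' := FX j (fun j' hj' => hs j' (by omega))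
        have ij' := inv j (fun j' hj' => hs j' (by omega))
        have h3 : prev (j + 1) = μ (dom G S (l j)) := fj'.wμ
        rw [h3] at h2
        exact (hμ' _ ij'.DY).2 h2.symm
      · exact i0.ne h2
    | succ i ih =>
      intro j hj hs heq
      obtain ⟨j, rfl⟩ : ∃ j', j = j' + 1 := ⟨j - 1, by omega⟩
      have fi := FX (i + 1) (fun j' hj' => hs j' (by omega))
      have fj := FX (j + 1) hs
      have ii := inv (i + 1) (fun j' hj' => hs j' (by omega))
      have h1 : ({prev (i + 1), μ (dom G S (l (i + 1)))} : Finset (Finset V)) =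
          {prev (j + 1), μ (dom G S (l (j + 1)))} := by
        rw [← fi.nd, ← fj.nd, heq]
      have h2 : prev (i + 1) ∈
          ({prev (j + 1), μ (dom G S (l (j + 1)))} : Finset (Finset V)) := by
        rw [← h1]
        simp
      rw [Finset.mem_insert, Finset.mem_singleton, ← heq] at h2
      rcases h2 with h2 | h2
      · have h3 : prev (i + 1) = μ (dom G S (l i)) :=
          (FX i (fun j' hj' => hs j' (by omega))).wμ
        have h4 : prev (j + 1) = μ (dom G S (l j)) :=
          (FX j (fun j' hj' => hs j' (by omega))).wμ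
        rw [h3, h4] at h2
        exact ih j (by omega) (fun j' hj' => hs j' (by omega))
          (hinj (inv i (fun j' hj' => hs j' (by omega))).DY
            (inv j (fun j' hj' => hs j' (by omega))).DY h2)
      · exact ii.ne h2
  -- the construction stops
  have hstop : ∃ n, sd G S (l n) = 0 := by
    by_contra hcon
    push Not at hcon
    have hall : ∀ j, sd G S (l j) = 1 := by
      intro j
      have h1 := hL.tf (l j)
      have h2 := hcon j
      omega
    have hinj' : Function.Injective (fun i => dom G S (l i)) := by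
      intro i j hij
      by_contra hne
      rcases lt_or_gt_of_ne hne with h | h
      · exact hdis i j h (fun j' _ => hall j') hij
      · exact hdis j i h (fun j' _ => hall j') hij.symm
    exact not_injective_infinite_finite _ hinj'
  classical
  obtain ⟨n, hn, hmin⟩ : ∃ n, sd G S (l n) = 0 ∧ ∀ j < n, sd G S (l j) = 1 := by
    refine ⟨Nat.find hstop, Nat.find_spec hstop, fun j hj => ?_⟩
    have h1 := hL.tf (l j)
    have h2 := Nat.find_min hstop hj
    omega
  have hn1 : 1 ≤ n := by
    by_contra h
    have h0 : n = 0 := by omega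
    rw [h0] at hn
    have : sd G S (l 0) = 1 := sl0
    omega
  have hlt : ∀ i < n, ∀ j ≤ i, sd G S (l j) = 1 := fun i hi j hj => hmin j (by omega)
  have hne : ∀ i < n, ∀ j < n, i ≠ j → dom G S (l i) ≠ dom G S (l j) := by
    intro i hi j hj hij heq
    rcases lt_or_gt_of_ne hij with h | h
    · exact hdis i j h (hlt j hj) heq
    · exact hdis j i h (hlt i hi) heq.symm
  have hwne : ∀ i < n, ∀ j < n, i ≠ j → dom G S (w i) ≠ dom G S (w j) := by
    intro i hi j hj hij heq
    have e1 : dom G S (w i) = μ (dom G S (l i)) := (FX i (hlt i hi)).wμ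
    have e2 : dom G S (w j) = μ (dom G S (l j)) := (FX j (hlt j hj)).wμ
    rw [e1, e2] at heq
    exact hne i hi j hj hij (hinj (inv i (hlt i hi)).DY (inv j (hlt j hj)).DY heq)
  have hsw : ∀ i < n, sm G S (w i) = {w' i} := fun i hi => pr_spec (FX i (hlt i hi)).sw
  have hsw' : ∀ i < n, sd G S (w' i) = 1 ∧ dom G S (w' i) = dom G S (w i) := by
    intro i hi
    obtain ⟨v, h1, h2, h3, h4, h5⟩ := DomAux.partner hL (FX i (hlt i hi)).sw
    have hv : v = w' i := by
      have := hsw i hi
      change sm G S (w i) = {v} at h1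
      rw [h1, Finset.singleton_inj] at this
      exact this
    subst hv
    refine ⟨h5, ?_⟩
    rw [DomAux.dom_of G h1, DomAux.dom_of G h2, Finset.pair_comm]
  have hml : ∀ i < n, dom G S (m i) = dom G S (l i) := by
    intro i hi
    rw [DomAux.dom_of G (FX i (hlt i hi)).sm1]
    have h2 : sm G S (m i) = {l i} := (FX i (hlt i hi)).sm2
    rw [DomAux.dom_of G h2, Finset.pair_comm]
  refine ⟨n, l, m, w, w', l n, rfl, ?_, ?_⟩
  · refine
      { hn := hn1
        lS := fun i hi => (inv i (hlt i hi)).lS
        sl := fun i hi => (FX i (hlt i hi)).sm1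
        sm' := fun i hi => (FX i (hlt i hi)).sm2
        wS := fun i hi => (FX i (hlt i hi)).wS
        sw := hsw
        ow := ?_
        oy := ?_
        my := ?_
        sy := hn
        dl := ?_
        dw := ?_
        ll := ?_ }
    · intro i hi
      have := (FX i (hlt i (by omega))).ow
      rw [← hl1] at this
      exact this
    · have := (FX (n - 1) (hlt (n - 1) (by omega))).ow
      rw [← hl1, Nat.sub_add_cancel hn1] at this
      exact this
    · have := (FX (n - 1) (hlt (n - 1) (by omega))).ne
      rw [← hl1, Nat.sub_add_cancel hn1] at this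
      exact this
    · intro i hi j hj hij
      refine ⟨fun h => hne i hi j hj hij (by rw [h]), fun h => hne i hi j hj hij ?_⟩
      rw [h, hml j hj]
    · intro i hi j hj hij
      refine ⟨fun h => hwne i hi j hj hij (by rw [h]), fun h => hwne i hi j hj hij ?_⟩
      rw [h, (hsw' j hj).2]
    · intro i hi u hu b hb
      have f := FX i (hlt i (by omega))
      have h0 : ∀ b ∈ op G S (ch G S (pr G S (l i))), sd G S b ≠ 0 := by
        intro b hb
        rw [f.ow, Finset.mem_insert, Finset.mem_singleton] at hb
        rcases hb with hb | hb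
        · rw [hb, DomAux.sd_of G f.sm2]
          norm_num
        · rw [hb, ← hl1, hmin (i + 1) hi]
          norm_num
      have h1 := ch_ll h0 u hu b hb
      have h2 := hL.tf b
      omega
  · intro i hi
    have e1 : dom G S (w i) = μ (dom G S (l i)) := (FX i (hlt i hi)).wμ
    have e2 := (hμ' _ (inv i (hlt i hi)).DY).2
    rw [← e1] at e2
    exact ⟨e2, (FX i (hlt i hi)).wX⟩

end Pool.Agent.Lib.AndoD
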