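import Pool.Agent.Lib.AndoD.Pt
import Pool.Agent.Lib.AndoD.SwBase
import Pool.Agent.Lib.AndoD.Core
import Pool.Agent.Lib.Ando.Ter

/-!
# AndoD.TouchU: the white vertices of monochromatic degree one touched by an arm

They are the sites of the core, the sides, and the partners of these.
Proof, by cases on hd; for w in ter F: w in F, or w is a neighbour of a member f of F, or w is in sm of
such a neighbour or of a member (w = pt of it, `pt_mem`, and pt (pt w) = w).
ub0, ub1: F = {u, b}: white neighbours: sm u = {pt u}, op b = {u, p, q}; q and p (if not in sm u) have sd = 0.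
ub4: op b = {u, p, w'}, w' in s1. cap: F = {u, b, q, m}: op b = {u, q, q'}, q, q' in s1; sm q = {q'}; op m = {s, t},
sd s = 0; t: cap1: sd t = 0 or t in sm u (t = pt u, pt t = u in the core); cap4: t in s2; cap5: t = q'.
alp: {x, e, pt y'}: x, y', pt x, pt y', op e = {x, y', o}: if sd o = 1 then o is pt x or pt y' (SwBase: the third
neighbour of a switch end is in O or the partner of one of the two sites). nsw: {x', e}: the same.
tb: res or pt res: nsw: res = pt x, x in the core; ub4, cap4, cap5: res in s1.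
-/

set_option autoImplicit false
set_option linter.unusedSectionVars false

namespace Pool.Agent.Lib.AndoD

open Pool.Agent.Lib.Ando Pool.Agent.Lib.AndoC

variable {V : Type*} [Fintype V] [DecidableEq V] {G : SimpleGraph V} [DecidableRel G.Adj]

namespace TouchUAux

open CoreAux TerAux

/-- A white vertex with one white neighbour touched by `F`: it or its partner is a member of `F` or
adjacent to a black member of `F`. -/
theorem ter_U {k : ℕ} {S : Finset V} (hL : Level G k S) {F : Finset V} {w : V} (hw : w ∈ S)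
    (sw : sd G S w = 1) (ht : w ∈ ter G S F) : ∃ z, (z = w ∨ z = pt G S w) ∧
      (z ∈ F ∨ ∃ f ∈ F, f ∉ S ∧ z ∈ op G S f) := by
  have hp := pt_all hL sw
  rcases mem_ter.1 ht with h1 | ⟨f, hf, h1⟩ | ⟨f, hf, g, hg, h1⟩
  · exact ⟨w, Or.inl rfl, Or.inl h1⟩
  · rcases Finset.mem_union.1 h1 with h1 | h1
    · exact ⟨f, Or.inr (pt_mem hL (sm_symm h1)).symm, Or.inl hf⟩
    · exact ⟨w, Or.inl rfl, Or.inr ⟨f, hf, StructAux.op_black hw (op_symm h1), h1⟩⟩
  · have h2 : pt G S w = g := pt_mem hL (sm_symm h1)
    have gS : g ∈ S := by rw [← h2]; exact hp.2.2.2.2.2.2.2 hw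
    rcases Finset.mem_union.1 hg with hg | hg
    · refine ⟨w, Or.inl rfl, Or.inl ?_⟩
      have h3 := pt_mem hL (sm_symm hg)
      have h4 := pt_mem hL h1
      rw [← h4, h3]
      exact hf
    · exact ⟨g, Or.inr h2.symm, Or.inr ⟨f, hf, StructAux.op_black gS (op_symm hg), hg⟩⟩

/-- The desired conclusion. -/
def P (S : Finset V) (d : Dat V) (w : V) : Prop :=
  w ∈ d.core ∨ pt G S w ∈ d.core ∨ w ∈ d.s1 ∨ pt G S w ∈ d.s1 ∨
      w ∈ d.s2 ∨ pt G S w ∈ d.s2

theorem P_pt {k : ℕ} {S : Finset V} (hL : Level G k S) {d : Dat V} {w : V}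
    (sw : sd G S w = 1) (h : P (G := G) S d (pt G S w)) : P (G := G) S d w := by
  unfold P at h ⊢
  rw [(pt_all hL sw).2.2.2.1] at h
  tauto

theorem P_of {k : ℕ} {S : Finset V} (hL : Level G k S) {d : Dat V} {w z : V}
    (sw : sd G S w = 1) (hz : z = w ∨ z = pt G S w) (h : P (G := G) S d z) :
    P (G := G) S d w := by
  rcases hz with rfl | rfl
  · exact h
  · exact P_pt hL sw h

theorem iso_P {k : ℕ} {S : Finset V} (hL : Level G k S) {d : Dat V} {u z : V} (hu : u ∈ d.core)
    (sz : sd G S z = 1) (h : Iso G S u z) : P (G := G) S d z := by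
  rcases h with h | h
  · omega
  · right; left
    rw [pt_mem hL (sm_symm h)]
    exact hu

/-- The capped end: everything except for the vertex `t`. -/
theorem cap_P {k : ℕ} {S : Finset V} {X Y : Finset (Finset V)} (h : Ctx G k S X Y)
    {u b q q' l m s t : V} (hc : Cap G S u b q q' l m s t) {d : Dat V} (hu : u ∈ d.core)
    (hs : d.s1 = {q, q'}) (ht : t ∈ S → sd G S t = 1 → P (G := G) S d t) {z : V} (hz : z ∈ S)
    (sz : sd G S z = 1) (hh : z ∈ ({u, b, q, m} : Finset V) ∨
      ∃ f ∈ ({u, b, q, m} : Finset V), f ∉ S ∧ z ∈ op G S f) : P (G := G) S d z := by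
  have hf := capF h hc
  have hq : P (G := G) S d q := Or.inr (Or.inr (Or.inl (by rw [hs]; simp)))
  have hq' : P (G := G) S d q' := Or.inr (Or.inr (Or.inl (by rw [hs]; simp)))
  have hu' : P (G := G) S d u := Or.inl hu
  rcases hh with h1 | ⟨f, h1, fS, h2⟩
  · simp only [Finset.mem_insert, Finset.mem_singleton] at h1
    rcases h1 with rfl | rfl | rfl | rfl
    · exact hu'
    · exact absurd hz hf.bS
    · exact hq
    · exact absurd hz hf.mS
  · simp only [Finset.mem_insert, Finset.mem_singleton] at h1
    rcases h1 with rfl | rfl | rfl | rfl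
    · exact absurd hf.uS fS
    · rw [hc.ob] at h2
      simp only [Finset.mem_insert, Finset.mem_singleton] at h2
      rcases h2 with rfl | rfl | rfl
      · exact hu'
      · exact hq
      · exact hq'
    · exact absurd hf.qS fS
    · rw [hc.om] at h2
      simp only [Finset.mem_insert, Finset.mem_singleton] at h2
      rcases h2 with rfl | rfl
      · exact absurd (hc.is.symm.trans sz) (by norm_num)
      · exact ht hz sz

/-- An end of a switch. -/
theorem sw_P {k : ℕ} {S : Finset V} {X Y : Finset (Finset V)} (h : Ctx G k S X Y)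
    {x y e o : V} (hs : SwE G S x y e o) {d : Dat V} (hd : d.core = {x, y}) {z : V}
    (sz : sd G S z = 1) (hz : z ∈ op G S e) : P (G := G) S d z := by
  rw [hs.oe] at hz
  obtain ⟨f, p, x', y', hw⟩ := hs.toSw h.reg h.hk h.nt h.lev
  simp only [Finset.mem_insert, Finset.mem_singleton] at hz
  rcases hz with rfl | rfl | rfl
  · left; rw [hd]; simp
  · left; rw [hd]; simp
  · rcases hw.io with h1 | h1 | h1
    · have := SwAux.sd_of_empty h1
      omega
    · right; left
      rw [h1, pt_of hw.sx', hd]; simp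
    · right; left
      rw [h1, pt_of hw.sy', hd]; simp

end TouchUAux

open TouchUAux CoreAux

theorem touchU {k : ℕ} {S : Finset V} {X Y : Finset (Finset V)} (h : Ctx G k S X Y) {u b : V}
    {d : Dat V} (hd : AD G S u b d) {w : V} (hw : w ∈ S) (sw : sd G S w = 1)
    (ht : Hit G S d w) : w ∈ d.core ∨ pt G S w ∈ d.core ∨ w ∈ d.s1 ∨ pt G S w ∈ d.s1 ∨
      w ∈ d.s2 ∨ pt G S w ∈ d.s2 := by
  change P (G := G) S d w
  -- reduction to `z`
  have red : ∀ {F : Finset V}, w ∈ ter G S F → (∀ z, z ∈ S → sd G S z = 1 →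
      (z ∈ F ∨ ∃ f ∈ F, f ∉ S ∧ z ∈ op G S f) → P (G := G) S d z) → P (G := G) S d w := by
    intro F h1 h2
    obtain ⟨z, hz, h3⟩ := ter_U h.lev hw sw h1
    have hp := pt_all h.lev sw
    refine P_of h.lev sw hz (h2 z ?_ ?_ h3)
    · rcases hz with rfl | rfl
      · exact hw
      · exact hp.2.2.2.2.2.2.2 hw
    · rcases hz with rfl | rfl
      · exact sw
      · exact hp.2.2.1
  -- resources
  have res : ∀ {r : V}, r ∈ S → P (G := G) S d r → w ∈ ter G S {r} → P (G := G) S d w := by
    intro r hr h1 h2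
    refine red h2 fun z _ _ h3 => ?_
    rcases h3 with h3 | ⟨f, h3, h4, -⟩
    · rw [Finset.mem_singleton.1 h3]; exact h1
    · rw [Finset.mem_singleton.1 h3] at h4
      exact absurd hr h4
  -- options `{u, b}`
  have ub : ∀ {p q : V}, u ∈ sites G S → b ∈ op G S u → u ∈ d.core → op G S b = {u, p, q} →
      Iso G S u p → (sd G S q = 1 → P (G := G) S d q) → w ∈ ter G S {u, b} →
      P (G := G) S d w := by
    intro p q hu hb hc ho hi hq h1
    refine red h1 fun z hz sz h2 => ?_
    obtain ⟨bS, sb⟩ := op_ne hu hb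
    rcases h2 with h2 | ⟨f, h2, fS, h3⟩
    · rcases Finset.mem_insert.1 h2 with rfl | h2
      · exact Or.inl hc
      · rw [Finset.mem_singleton.1 h2] at hz
        exact absurd hz bS
    · rcases Finset.mem_insert.1 h2 with rfl | h2
      · exact absurd (StructAux.mem_sites.1 hu).1 fS
      · rw [Finset.mem_singleton.1 h2, ho] at h3
        simp only [Finset.mem_insert, Finset.mem_singleton] at h3
        rcases h3 with rfl | rfl | rfl
        · exact Or.inl hc
        · exact iso_P h.lev hc sz hi
        · exact hq sz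
  cases hd with
  | ub0 h1 _ _ =>
    rcases ht with ⟨F, hF, h2⟩ | h2
    · rw [Finset.mem_singleton.1 hF] at h2
      exact ub h1.us h1.ub (Finset.mem_singleton_self _) h1.ob h1.ip
        (fun h3 => absurd (h1.iq.symm.trans h3) (by norm_num)) h2
    · exact absurd h2 (Finset.notMem_empty _)
  | ub1 h1 _ =>
    rcases ht with ⟨F, hF, h2⟩ | h2
    · rw [Finset.mem_singleton.1 hF] at h2
      exact ub h1.us h1.ub (Finset.mem_singleton_self _) h1.ob h1.ip
        (fun h3 => absurd (h1.iq.symm.trans h3) (by norm_num)) h2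
    · exact absurd h2 (Finset.notMem_empty _)
  | ub4 h1 =>
    rename_i p w0
    have hP : P (G := G) S ⟨4, {{u, b}}, w0, b, {u}, {w0}, ∅⟩ w0 :=
      Or.inr (Or.inr (Or.inl (Finset.mem_singleton_self _)))
    obtain ⟨bS, sb⟩ := op_ne h1.us h1.ub
    have hwS : w0 ∈ S := StructAux.op_white bS (by rw [h1.ob]; simp)
    rcases ht with ⟨F, hF, h2⟩ | h2
    · rw [Finset.mem_singleton.1 hF] at h2
      exact ub h1.us h1.ub (Finset.mem_singleton_self _) h1.ob h1.ip (fun _ => hP) h2
    · exact res hwS hP h2
  | cap1 h1 hi =>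
    rcases ht with ⟨F, hF, h2⟩ | h2
    · rw [Finset.mem_singleton.1 hF] at h2
      exact red h2 fun z hz sz h3 => cap_P h h1 (Finset.mem_singleton_self _) rfl
        (fun _ st => iso_P h.lev (Finset.mem_singleton_self _) st hi) hz sz h3
    · exact absurd h2 (Finset.notMem_empty _)
  | cap4 h1 _ _ _ =>
    rcases ht with ⟨F, hF, h2⟩ | h2
    · rw [Finset.mem_singleton.1 hF] at h2
      exact red h2 fun z hz sz h3 => cap_P h h1 (Finset.mem_singleton_self _) rfl
        (fun _ _ => Or.inr (Or.inr (Or.inr (Or.inr (Or.inl (Finset.mem_singleton_self _))))))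
        hz sz h3
    · exact res (capF h h1).qS (Or.inr (Or.inr (Or.inl (Finset.mem_insert_self _ _)))) h2
  | cap5 h1 hq =>
    rcases ht with ⟨F, hF, h2⟩ | h2
    · rw [Finset.mem_singleton.1 hF] at h2
      exact red h2 fun z hz sz h3 => cap_P h h1 (Finset.mem_singleton_self _) rfl
        (fun _ _ => Or.inr (Or.inr (Or.inl (by rw [hq]; simp)))) hz sz h3
    · exact res (capF h h1).qS (Or.inr (Or.inr (Or.inl (Finset.mem_insert_self _ _)))) h2
  | alp h1 h1z =>
    rename_i y o
    have hP : ∀ {z : V}, z ∈ S → sd G S z = 1 → (z ∈ ({u, y} : Finset V) ∨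
        pt G S z ∈ ({u, y} : Finset V) ∨ z ∈ op G S b) →
        P (G := G) S ⟨2, opts G S u y b, u, b, {u, y}, ∅, ∅⟩ z := by
      intro z hz sz h2
      rcases h2 with h2 | h2 | h2
      · exact Or.inl h2
      · exact Or.inr (Or.inl h2)
      · exact sw_P h h1 rfl sz h2
    have bS := (op_ne h1.mate.1 h1.xe).1
    have opt : ∀ {x y' : V}, x ∈ ({u, y} : Finset V) → y' ∈ ({u, y} : Finset V) →
        w ∈ ter G S {x, b, pt G S y'} →
        P (G := G) S ⟨2, opts G S u y b, u, b, {u, y}, ∅, ∅⟩ w := by
      intro x y' hx hy' h2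
      have site : ∀ {v : V}, v ∈ ({u, y} : Finset V) → v ∈ sites G S := by
        intro v hv
        rcases Finset.mem_insert.1 hv with rfl | hv
        · exact h1.mate.1
        · rw [Finset.mem_singleton.1 hv]; exact h1.mate.2.1
      have hxs := StructAux.mem_sites.1 (site hx)
      have hys := StructAux.mem_sites.1 (site hy')
      have hp := pt_all h.lev hys.2.1
      refine red h2 fun z hz sz h3 => ?_
      rcases h3 with h3 | ⟨f, h3, fS, h4⟩
      · simp only [Finset.mem_insert, Finset.mem_singleton] at h3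
        rcases h3 with rfl | rfl | rfl
        · exact hP hz sz (Or.inl hx)
        · exact absurd hz bS
        · refine hP hz sz (Or.inr (Or.inl ?_))
          rw [hp.2.2.2.1]; exact hy'
      · simp only [Finset.mem_insert, Finset.mem_singleton] at h3
        rcases h3 with rfl | rfl | rfl
        · exact absurd hxs.1 fS
        · exact hP hz sz (Or.inr (Or.inr h4))
        · exact absurd (hp.2.2.2.2.2.2.2 hys.1) fS
    rcases ht with ⟨F, hF, h2⟩ | h2
    · rcases Finset.mem_union.1 (show F ∈ opts G S u y b from hF) with h3 | h3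
      · split_ifs at h3
        · rw [Finset.mem_singleton.1 h3] at h2
          exact opt (by simp) (by simp) h2
        · exact absurd h3 (Finset.notMem_empty _)
      · split_ifs at h3
        · rw [Finset.mem_singleton.1 h3] at h2
          exact opt (by simp) (by simp) h2
        · exact absurd h3 (Finset.notMem_empty _)
    · exact absurd h2 (Finset.notMem_empty _)
  | nsw h1 h1a h1b hx' h1c =>
    rename_i y o x'
    have hus := StructAux.mem_sites.1 h1.mate.1
    have hp := pt_all h.lev hus.2.1
    have bS := (op_ne h1.mate.1 h1.xe).1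
    have hx2 : x' ∈ ({u, y} : Finset V) := by
      rcases hx' with rfl | rfl <;> simp
    have hx3 : x' ∈ S := by
      rcases hx' with rfl | rfl
      · exact hus.1
      · exact (StructAux.mem_sites.1 h1.mate.2.1).1
    rcases ht with ⟨F, hF, h2⟩ | h2
    · rw [Finset.mem_singleton.1 hF] at h2
      refine red h2 fun z hz sz h3 => ?_
      rcases h3 with h3 | ⟨f, h3, fS, h4⟩
      · rcases Finset.mem_insert.1 h3 with rfl | h3
        · exact Or.inl hx2
        · rw [Finset.mem_singleton.1 h3] at hz
          exact absurd hz bS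
      · rcases Finset.mem_insert.1 h3 with rfl | h3
        · exact absurd hx3 fS
        · rw [Finset.mem_singleton.1 h3] at h4
          exact sw_P h h1 rfl sz h4
    · refine res (r := pt G S u) (hp.2.2.2.2.2.2.2 hus.1) (Or.inr (Or.inl ?_)) h2
      rw [hp.2.2.2.1]
      exact Finset.mem_insert_self _ _

end Pool.Agent.Lib.AndoD
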