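import Pool.Agent.Lib.AndoD.Core
import Pool.Agent.Lib.AndoD.NT
import Pool.Agent.Lib.AndoD.TouchU

/-!
# AndoD.Cnt: numbers of arms with given data

Text: /team-store/b1c9a2_caseA_h59.md, section 3.
-/

set_option autoImplicit false
set_option linter.unusedSectionVars false

namespace Pool.Agent.Lib.AndoD

open Pool.Agent.Lib.Ando Pool.Agent.Lib.AndoC

variable {V : Type*} [Fintype V] [DecidableEq V] {G : SimpleGraph V} [DecidableRel G.Adj]

/-- Admissible data for all arms. -/
def DatOK (G : SimpleGraph V) [DecidableRel G.Adj] (S : Finset V) (X : Finset (Finset V))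
    (dat : V × V → Dat V) : Prop := ∀ a ∈ arms G S X, AD G S a.1 a.2 (dat a)

namespace CntAux

open CoreAux ExADAux

theorem arm_site {S : Finset V} {X : Finset (Finset V)} {a : V × V} (ha : a ∈ arms G S X) :
    a.1 ∈ actS G S X ∧ a.1 ∈ sites G S ∧ a.2 ∈ op G S a.1 := by
  obtain ⟨h1, h2⟩ := Finset.mem_filter.1 ha
  have h3 := (Finset.mem_product.1 h1).1
  exact ⟨h3, (Finset.mem_filter.1 h3).1, h2⟩

theorem arm_X {S : Finset V} {X : Finset (Finset V)} {a : V × V} (ha : a ∈ arms G S X) :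
    dom G S a.1 ∈ X := (Finset.mem_filter.1 (arm_site ha).1).2.1

/-- The third member of a neighbourhood. -/
theorem op3 (hG : G.IsRegularOfDegree 3) {S : Finset V} {b : V} (sb : sd G S b = 0) :
    (op G S b).card = 3 := by
  have := sd_add_op hG S b
  omega

theorem site_op (hG : G.IsRegularOfDegree 3) {S : Finset V} {u : V} (hu : u ∈ sites G S) :
    (op G S u).card = 2 := BasicAux.op_card_two hG (StructAux.mem_sites.1 hu).2.1

theorem card_le_two {α : Type*} {A : Finset α} {p : α → Prop} [DecidablePred p]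
    (h : ∀ a ∈ A, p a → ∀ b ∈ A, p b → ∀ c ∈ A, p c → a = b ∨ a = c ∨ b = c) :
    (A.filter p).card ≤ 2 := by
  by_contra hcon
  push Not at hcon
  obtain ⟨a, b, c, ha, hb, hc, h1, h2, h3⟩ := Finset.two_lt_card_iff.1 hcon
  have ha' := Finset.mem_filter.1 ha
  have hb' := Finset.mem_filter.1 hb
  have hc' := Finset.mem_filter.1 hc
  rcases h a ha'.1 ha'.2 b hb'.1 hb'.2 c hc'.1 hc'.2 with h4 | h4 | h4
  · exact h1 h4
  · exact h2 h4
  · exact h3 h4

theorem card_le_one' {α : Type*} {A : Finset α} {p : α → Prop} [DecidablePred p]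
    (h : ∀ a ∈ A, p a → ∀ b ∈ A, p b → a = b) : (A.filter p).card ≤ 1 := by
  refine Finset.card_le_one.2 fun a ha b hb => ?_
  have ha' := Finset.mem_filter.1 ha
  have hb' := Finset.mem_filter.1 hb
  exact h a ha'.1 ha'.2 b hb'.1 hb'.2

theorem card_union' {α : Type*} {A : Finset α} {p q r : α → Prop}
    [DecidablePred p] [DecidablePred q] [DecidablePred r] {m n : ℕ}
    (h : ∀ a ∈ A, p a → q a ∨ r a) (hq : (A.filter q).card ≤ m) (hr : (A.filter r).card ≤ n) :
    (A.filter p).card ≤ m + n := by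
  classical
  refine (Finset.card_le_card (t := A.filter q ∪ A.filter r) ?_).trans
    ((Finset.card_union_le _ _).trans (Nat.add_le_add hq hr))
  intro a ha
  obtain ⟨h1, h2⟩ := Finset.mem_filter.1 ha
  rw [Finset.mem_union, Finset.mem_filter, Finset.mem_filter]
  rcases h a h1 h2 with h3 | h3
  · exact Or.inl ⟨h1, h3⟩
  · exact Or.inr ⟨h1, h3⟩

theorem card_mono' {α : Type*} {A : Finset α} {p q : α → Prop} [DecidablePred p]
    [DecidablePred q] {m : ℕ}
    (h : ∀ a ∈ A, p a → q a) (hq : (A.filter q).card ≤ m) : (A.filter p).card ≤ m := by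
  refine (Finset.card_le_card ?_).trans hq
  intro a ha
  obtain ⟨h1, h2⟩ := Finset.mem_filter.1 ha
  exact Finset.mem_filter.2 ⟨h1, h a h1 h2⟩

theorem card_zero' {α : Type*} {A : Finset α} {p : α → Prop} [DecidablePred p] (h : ∀ a ∈ A, ¬ p a) :
    (A.filter p).card ≤ 0 := by
  rw [Finset.filter_false_of_mem h]; simp

end CntAux

open CntAux CoreAux ExADAux

section

open Classical

variable {k : ℕ} {S : Finset V} {X Y : Finset (Finset V)} {dat : V × V → Dat V}

/-- The arms of one site. -/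
theorem cnt_fst (h : Ctx G k S X Y) (x : V) :
    ((arms G S X).filter (fun a => a.1 = x)).card ≤ 2 := by
  by_cases hx : x ∈ sites G S
  · have h2 := site_op h.reg hx
    rw [← h2]
    refine Finset.card_le_card_of_injOn (fun a => a.2) ?_ ?_
    · intro a ha
      obtain ⟨h3, h4⟩ := Finset.mem_filter.1 (Finset.mem_coe.1 ha)
      have := (arm_site h3).2.2
      rw [h4] at this
      exact Finset.mem_coe.2 this
    · intro a ha b hb hab
      have h3 := (Finset.mem_filter.1 (Finset.mem_coe.1 ha)).2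
      have h4 := (Finset.mem_filter.1 (Finset.mem_coe.1 hb)).2
      exact Prod.ext (h3.trans h4.symm) hab
  · refine (card_zero' fun a ha h3 => hx ?_).trans (by norm_num)
    rw [← h3]; exact (arm_site ha).2.1

/-- The arms of the site `x` and of its mate. -/
theorem cnt_core (h : Ctx G k S X Y) (hdat : DatOK G S X dat) (x : V) :
    ((arms G S X).filter (fun a => x ∈ (dat a).core)).card ≤ 4 := by
  by_cases hm : ∃ m, Mate G S x m
  · obtain ⟨m, hm⟩ := hm
    refine card_union' (q := fun a : V × V => a.1 = x) (r := fun a : V × V => a.1 = m) ?_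
      (cnt_fst h x) (cnt_fst h m)
    intro a ha hx
    rcases ((core_facts h (hdat a ha)).2.2.2.1 x hx).2 with h3 | h3
    · exact Or.inl h3.symm
    · exact Or.inr (mate_unique h.reg h.nt h.dz h.lev h3.symm hm)
  · refine (card_mono' (q := fun a : V × V => a.1 = x) ?_ (cnt_fst h x)).trans (by norm_num)
    intro a ha hx
    rcases ((core_facts h (hdat a ha)).2.2.2.1 x hx).2 with h3 | h3
    · exact h3.symm
    · exact absurd ⟨_, h3.symm⟩ hm

/-- The arms of the site `x` which is in no switch. -/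
theorem cnt_core2 (h : Ctx G k S X Y) (hdat : DatOK G S X dat) {x : V}
    (hm : ∀ y, ¬ Mate G S x y) :
    ((arms G S X).filter (fun a => x ∈ (dat a).core)).card ≤ 2 := by
  refine card_mono' (q := fun a : V × V => a.1 = x) ?_ (cnt_fst h x)
  intro a ha hx
  rcases ((core_facts h (hdat a ha)).2.2.2.1 x hx).2 with h3 | h3
  · exact h3.symm
  · exact absurd h3.symm (hm _)

/-- The capped arms with centre `e`. -/
theorem cen_unique (h : Ctx G k S X Y) (hdat : DatOK G S X dat) {e : V} (se : sd G S e = 1)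
    {a1 a2 : V × V} (h1 : a1 ∈ arms G S X) (h2 : a2 ∈ arms G S X) (e1 : (dat a1).cen = e)
    (e2 : (dat a2).cen = e) : a1 = a2 := by
  obtain ⟨eS, -, c1⟩ := cen_facts h (hdat a1 h1)
  obtain ⟨-, -, c2⟩ := cen_facts h (hdat a2 h2)
  rw [e1] at c1 eS
  rw [e2] at c2
  obtain ⟨-, q1, q1', s1, n1, sq1, sq1', ob1, oq1, se1, sp1, -⟩ := c1 se
  obtain ⟨-, q2, q2', s2, n2, sq2, sq2', ob2, oq2, -, -, -⟩ := c2 se
  obtain ⟨-, u1s, b1⟩ := arm_site h1
  obtain ⟨-, u2s, b2⟩ := arm_site h2
  obtain ⟨b1S, sb1⟩ := op_ne u1s b1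
  obtain ⟨b2S, sb2⟩ := op_ne u2s b2
  have hp := pt_all h.lev se
  have plS : pt G S e ∉ S := fun h3 => eS (hp.2.2.2.2.2.2.1 h3)
  have f1 := side1_facts h (hdat a1 h1) (w := q1) (by rw [s1]; simp)
  have f2 := side1_facts h (hdat a2 h2) (w := q2) (by rw [s2]; simp)
  have g1 := side1_facts h (hdat a1 h1) (w := q1') (by rw [s1]; simp)
  have hl1 : pt G S e ∈ op G S q1 := by rw [oq1]; simp
  have hl2 : pt G S e ∈ op G S q2 := by rw [oq2]; simp
  -- the ends agree if one of the vertices is adjacent to both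
  have bb : ∀ {q : V}, a1.2 ∈ op G S q → op G S q = {a2.2, pt G S e} → a1.2 = a2.2 := by
    intro q h3 h4
    rw [h4, Finset.mem_insert, Finset.mem_singleton] at h3
    rcases h3 with h3 | h3
    · exact h3
    · rw [h3, hp.2.2.1] at sb1
      exact absurd sb1 (by norm_num)
  by_cases hq : q1 = q2
  · subst hq
    have hb : a1.2 = a2.2 := bb (by rw [oq1]; simp) oq2
    have hq' : q1' = q2' := Finset.singleton_injective (sq1.symm.trans sq2)
    have hu : a1.1 ∈ op G S a2.2 := by rw [← hb, ob1]; simp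
    rw [ob2] at hu
    simp only [Finset.mem_insert, Finset.mem_singleton] at hu
    rcases hu with hu | hu | hu
    · exact Prod.ext hu hb
    · exact absurd (hu ▸ u1s) f1.2.2.1
    · rw [← hq'] at hu
      exact absurd (hu ▸ u1s) g1.2.2.1
  · exfalso
    have m1 : q1 ∈ UN G S (pt G S e) := StructAux.mem_UN.2 ⟨op_symm hl1, f1.2.1⟩
    have m2 : q2 ∈ UN G S (pt G S e) := StructAux.mem_UN.2 ⟨op_symm hl2, f2.2.1⟩
    have hadj := AndoB.fact1g h.reg h.lev h.hk plS hp.2.2.1 m1 m2 hq
    have h5 : q2 ∈ sm G S q1 := sm_of_adj f1.1 f2.1 hadj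
    rw [sq1, Finset.mem_singleton] at h5
    have hb : a1.2 = a2.2 := by
      refine bb (q := q2) ?_ oq2
      rw [h5]; exact g1.2.2.2.1
    have hA : ∀ {c w : V}, c ∈ op G S w → G.Adj c w := fun h6 => (mem_op.1 h6).1.symm
    have := h.dz S h.lev a1.2 (pt G S e) q1 q2 b1S plS ?_ f1.1 f2.1 hadj
      (hA (by rw [oq1]; simp)) (hA (by rw [oq2, hb]; simp)) (hA hl1) (hA hl2)
    · have h7 := this.2.1
      rw [hp.2.2.1] at h7
      exact absurd h7 (by norm_num)
    · intro h6
      rw [h6, hp.2.2.1] at sb1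
      exact absurd sb1 (by norm_num)

theorem cnt_cenL (h : Ctx G k S X Y) (hdat : DatOK G S X dat) {e : V} (se : sd G S e = 1) :
    ((arms G S X).filter (fun a => (dat a).cen = e)).card ≤ 1 :=
  card_le_one' fun _ h1 e1 _ h2 e2 => cen_unique h hdat se h1 h2 e1 e2

/-- The arms with centre `e` in Z. -/
theorem cen_Z (h : Ctx G k S X Y) (hdat : DatOK G S X dat) {e : V} (se : sd G S e = 0)
    {a : V × V} (ha : a ∈ arms G S X) (e1 : (dat a).cen = e) :
    a.2 = e ∧ a.1 ∈ sites G S ∧ a.1 ∈ op G S e := by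
  obtain ⟨-, c1, -⟩ := cen_facts h (hdat a ha)
  have h1 : a.2 = e := by rw [← e1]; exact (c1 (by rw [e1]; exact se)).symm
  obtain ⟨-, us, hb⟩ := arm_site ha
  exact ⟨h1, us, by rw [← h1]; exact op_symm hb⟩

/-- The arms with centre `e` in Z, where `e` has a neighbour which is no site. -/
theorem cnt_cenZ (h : Ctx G k S X Y) (hdat : DatOK G S X dat) {e y : V} (se : sd G S e = 0)
    (hy : y ∈ op G S e) (ny : y ∉ sites G S) :
    ((arms G S X).filter (fun a => (dat a).cen = e)).card ≤ 2 := by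
  have h3 := op3 h.reg se
  have h4 : ((op G S e).erase y).card = 2 := by
    rw [Finset.card_erase_of_mem hy, h3]
  rw [← h4]
  refine Finset.card_le_card_of_injOn (fun a => a.1) ?_ ?_
  · intro a ha
    obtain ⟨h5, h6⟩ := Finset.mem_filter.1 (Finset.mem_coe.1 ha)
    obtain ⟨-, h7, h8⟩ := cen_Z h hdat se h5 h6
    exact Finset.mem_coe.2 (Finset.mem_erase.2 ⟨fun h9 => ny (h9 ▸ h7), h8⟩)
  · intro a ha b hb hab
    obtain ⟨h5, h6⟩ := Finset.mem_filter.1 (Finset.mem_coe.1 ha)
    obtain ⟨h7, h8⟩ := Finset.mem_filter.1 (Finset.mem_coe.1 hb)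
    exact Prod.ext hab ((cen_Z h hdat se h5 h6).1.trans (cen_Z h hdat se h7 h8).1.symm)

/-- The arms of stage at least one with centre `e` in Z, where `e` has an isolated neighbour and is
no end of a switch. -/
theorem cnt_cenZ1 (h : Ctx G k S X Y) (hdat : DatOK G S X dat) {e y : V} (se : sd G S e = 0)
    (hy : y ∈ op G S e) (sy : sd G S y = 0)
    (hn : ∀ x z, x ∈ op G S e → ¬ Mate G S x z) :
    ((arms G S X).filter (fun a => 1 ≤ (dat a).st ∧ (dat a).cen = e)).card ≤ 1 := by
  refine card_le_one' fun a ha ⟨s1, e1⟩ a' ha' ⟨s2, e2⟩ => ?_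
  obtain ⟨b1, u1, v1⟩ := cen_Z h hdat se ha e1
  obtain ⟨b2, u2, v2⟩ := cen_Z h hdat se ha' e2
  by_contra hne
  have hu : a.1 ≠ a'.1 := fun h3 => hne (Prod.ext h3 (b1.trans b2.symm))
  have hy1 : y ≠ a.1 := by
    rintro rfl
    have := (StructAux.mem_sites.1 u1).2.1
    omega
  have hy2 : y ≠ a'.1 := by
    rintro rfl
    have := (StructAux.mem_sites.1 u2).2.1
    omega
  have hs : a'.1 ∈ sm G S a.1 := by
    by_contra h3
    exact hn _ _ v1 (mate_of h u1 u2 (op_symm v1) (op_symm v2) hu h3)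
  -- then the stage is zero
  obtain ⟨z, hz, z1, z2⟩ := StructAux.card_three' (op3 h.reg se) v1 v2 hu
  have hyz : y = z := by
    rw [hz] at hy
    simp only [Finset.mem_insert, Finset.mem_singleton] at hy
    rcases hy with h3 | h3 | h3
    · exact absurd h3 hy1
    · exact absurd h3 hy2
    · exact h3
  subst hyz
  have sd1 : sd G S a'.1 = 1 := (StructAux.mem_sites.1 u2).2.1
  have key : ∀ {q : V}, q ∈ op G S a.2 → q ≠ a.1 → sd G S q = 1 → q = a'.1 := by
    intro q h3 h4 h5
    rw [b1, hz] at h3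
    simp only [Finset.mem_insert, Finset.mem_singleton] at h3
    rcases h3 with h3 | h3 | h3
    · exact absurd h3 h4
    · exact h3
    · rw [h3] at h5; omega
  have hA := hdat a ha
  have sw : ∀ {x y' e' o : V}, SwE G S x y' e' o → x = a.1 → False := by
    intro x y' e' o h3 h4
    exact hn _ _ v1 (h4 ▸ h3.mate)
  have cap : ∀ {q q' l m s t : V}, Cap G S a.1 a.2 q q' l m s t → False := by
    intro q q' l m s t h3
    have hf := capF h h3
    have h4 := key (op_symm hf.bq) h3.uq.symm hf.sdq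
    have h5 := key (op_symm hf.bq') h3.uq'.symm hf.sdq'
    exact h3.qq (h4.trans h5.symm)
  generalize dat a = d at hA s1
  generalize ha1 : a.1 = u at *
  generalize ha2 : a.2 = b at *
  cases hA with
  | ub0 h3 _ _ => exact absurd s1 (by norm_num)
  | ub1 h3 h4 =>
    rename_i p q
    apply h4
    have hq : q = y := by
      have h5 : q ∈ op G S b := by rw [h3.ob]; simp
      rw [b1, hz] at h5
      simp only [Finset.mem_insert, Finset.mem_singleton] at h5
      rcases h5 with h5 | h5 | h5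
      · exact absurd h5.symm h3.uq
      · have := h3.iq
        rw [h5] at this; omega
      · exact h5
    have hp : p = a'.1 := by
      have h5 : p ∈ op G S b := by rw [h3.ob]; simp
      rw [b1, hz] at h5
      simp only [Finset.mem_insert, Finset.mem_singleton] at h5
      rcases h5 with h5 | h5 | h5
      · exact absurd h5.symm h3.up
      · exact h5
      · exact absurd (h5.trans hq.symm) h3.pq
    rw [hp]
    exact ⟨hs, u2⟩
  | cap1 h3 _ => exact cap h3
  | alp h3 _ => exact sw h3 rfl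
  | nsw h3 _ _ _ _ => exact sw h3 rfl
  | ub4 h3 =>
    rename_i p w
    have h5 : w = a'.1 := key (by rw [h3.ob]; simp) h3.uw.symm h3.sw
    exact h3.nw (h5 ▸ hs)
  | cap4 h3 _ _ _ => exact cap h3
  | cap5 h3 _ => exact cap h3

end

end Pool.Agent.Lib.AndoD
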