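import Pool.Agent.Lib.AndoC.Defs
import Pool.Agent.Lib.AndoC.BadCap

/-!
# MP_b1c9a2_co (Strong Ando conjecture), Case A, the packing: definitions

Text: /team-store/b1c9a2_caseA_h59.md.  Libraries `Pool.Agent.Lib.Ando`, `Pool.Agent.Lib.AndoC`.

Conventions: S = white vertices. Z / L = black vertices with sd = 0 / 1, O / U = white vertices
with sd = 0 / 1.  v* = `pt G S v` = the partner of a vertex with sd = 1.  Site = U-vertex both of
whose black neighbours are in Z.  Active sites: `actS G S X` (helper68's count lemma).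
An ARM is a pair (u, b), u an active site, b in op S u.  Every arm has data `Dat` (stage, set of
options F, resource, centre, core, sides); the kinds of arms are the constructors of `AD`.
-/

set_option autoImplicit false
set_option linter.unusedSectionVars false

namespace Pool.Agent.Lib.AndoD

open Pool.Agent.Lib.Ando Pool.Agent.Lib.AndoC

variable {V : Type*} [Fintype V] [DecidableEq V] (G : SimpleGraph V) [DecidableRel G.Adj]

/-- The partner of a vertex of monochromatic degree one (the vertex itself otherwise). -/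
noncomputable def pt (S : Finset V) (v : V) : V :=
  open Classical in if h : ∃ w, sm G S v = {w} then h.choose else v

/-- Two adjacent white vertices with two common black neighbours form a pendant diamond. -/
def DZ (k : ℕ) : Prop :=
  ∀ T : Finset V, Level G k T → ∀ b b' u u' : V, b ∉ T → b' ∉ T → b ≠ b' → u ∈ T → u' ∈ T →
    G.Adj u u' → G.Adj b u → G.Adj b u' → G.Adj b' u → G.Adj b' u' →
    sd G T b = 0 ∧ sd G T b' = 0 ∧ ∃ x, x ∈ T ∧ sd G T x = 0 ∧ x ≠ u ∧ x ≠ u' ∧
      op G T b = {u, u', x} ∧ op G T b' = {u, u', x}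

/-- The standing hypotheses of Case A (`X`, `Y` from `exists_HX`, `lex` from `exists_lexmin`). -/
structure Ctx (k : ℕ) (S : Finset V) (X Y : Finset (Finset V)) : Prop where
  reg : G.IsRegularOfDegree 3
  hk : 1 ≤ k
  lev : Level G k S
  nt : NoTriple G k
  dl : DL1 G k
  dz : DZ G k
  lex : LexMin G k S
  hx : HX G k S X Y

/-- `u` and `v` are mates: non-partner sites with the same two black neighbours (a switch). -/
def Mate (S : Finset V) (u v : V) : Prop :=
  u ∈ sites G S ∧ v ∈ sites G S ∧ u ≠ v ∧ v ∉ sm G S u ∧ op G S u = op G S v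

/-- `p` is isolated after `u` has been flipped: `p` is in O or the partner of `u`. -/
def Iso (S : Finset V) (u p : V) : Prop := sd G S p = 0 ∨ p ∈ sm G S u

/-- The site `u` is in no switch and both other neighbours `p`, `q` of its end `b` are isolated
after the flip of `u` (`q` in O; `p` in O or the partner of `u`): kinds S-DOUBLE, LEAF, S. -/
structure Ub3 (S : Finset V) (u b p q : V) : Prop where
  us : u ∈ sites G S
  ub : b ∈ op G S u
  nm : ∀ y, ¬ Mate G S u y
  ob : op G S b = {u, p, q}
  up : u ≠ p
  uq : u ≠ q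
  pq : p ≠ q
  ip : Iso G S u p
  iq : sd G S q = 0

/-- The site `u` is in no switch, `b` is an end of it with the other neighbours `p` (isolated after
the flip of `u`) and `w` (type ZL, not the partner of `u`): kinds T1 and S1. -/
structure Ub4 (S : Finset V) (u b p w : V) : Prop where
  us : u ∈ sites G S
  ub : b ∈ op G S u
  nm : ∀ y, ¬ Mate G S u y
  ob : op G S b = {u, p, w}
  up : u ≠ p
  uw : u ≠ w
  pw : p ≠ w
  ip : Iso G S u p
  sw : sd G S w = 1
  nw : w ∉ sm G S u
  zl : w ∉ sites G S

/-- An end `e` of the switch `x`, `y`; its third neighbour is `o`. -/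
structure SwE (S : Finset V) (x y e o : V) : Prop where
  mate : Mate G S x y
  xe : e ∈ op G S x
  oe : op G S e = {x, y, o}
  xo : x ≠ o
  yo : y ≠ o

/-- A capped end `b` of the site `u` (in no switch): the other neighbours `q`, `q'` are partners,
`q = (b, l)`, `l` has partner `m`, and the white neighbours of `m` are `s` (in O) and `t`. -/
structure Cap (S : Finset V) (u b q q' l m s t : V) : Prop where
  us : u ∈ sites G S
  ub : b ∈ op G S u
  nm : ∀ y, ¬ Mate G S u y
  ob : op G S b = {u, q, q'}
  uq : u ≠ q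
  uq' : u ≠ q'
  qq : q ≠ q'
  sq : sm G S q = {q'}
  sq' : sm G S q' = {q}
  oq : op G S q = {b, l}
  bl : b ≠ l
  sl : sm G S l = {m}
  sm' : sm G S m = {l}
  om : op G S m = {s, t}
  st : s ≠ t
  is : sd G S s = 0

/-- The data of an arm: stage, options (sets of vertices to be flipped), resource, centre, core
(the site, or the two sites of the switch), sides at the end, side at the centre of a cap. -/
structure Dat (V : Type*) where
  /-- the stage -/
  st : ℕ
  /-- the options -/
  Fs : Finset (Finset V)
  /-- the resource -/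
  res : V
  /-- the centre -/
  cen : V
  /-- the core -/
  core : Finset V
  /-- the sides at the end -/
  s1 : Finset V
  /-- the side at the centre of a cap -/
  s2 : Finset V

/-- The options of an arm at the end `e` of the switch `x`, `y` of type alpha. -/
noncomputable def opts (S : Finset V) (x y e : V) : Finset (Finset V) :=
  (if pt G S y ∈ sites G S then {{x, e, pt G S y}} else ∅) ∪
    (if pt G S x ∈ sites G S then {{y, e, pt G S x}} else ∅)

/-- `AD G S u b d`: `d` is an admissible data of the arm `(u, b)`. -/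
inductive AD (S : Finset V) : V → V → Dat V → Prop
  | ub0 {u b p q : V} (h : Ub3 G S u b p q) (hp : p ∈ sm G S u) (hs : p ∈ sites G S) :
      AD S u b ⟨0, {{u, b}}, u, b, {u}, ∅, ∅⟩
  | ub1 {u b p q : V} (h : Ub3 G S u b p q) (hp : ¬ (p ∈ sm G S u ∧ p ∈ sites G S)) :
      AD S u b ⟨1, {{u, b}}, u, b, {u}, ∅, ∅⟩
  | cap1 {u b q q' l m s t : V} (h : Cap G S u b q q' l m s t) (ht : Iso G S u t) :
      AD S u b ⟨1, {{u, b, q, m}}, u, m, {u}, {q, q'}, ∅⟩
  | alp {x y e o : V} (h : SwE G S x y e o)
      (hz : pt G S x ∈ sites G S ∨ pt G S y ∈ sites G S) :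
      AD S x e ⟨2, opts G S x y e, x, e, {x, y}, ∅, ∅⟩
  | nsw {x y e o x' : V} (h : SwE G S x y e o) (hx : pt G S x ∉ sites G S)
      (hy : pt G S y ∉ sites G S) (hx' : x' = x ∨ x' = y) (hi : Iso G S x' o) :
      AD S x e ⟨3, {{x', e}}, pt G S x, e, {x, y}, ∅, ∅⟩
  | ub4 {u b p w : V} (h : Ub4 G S u b p w) :
      AD S u b ⟨4, {{u, b}}, w, b, {u}, {w}, ∅⟩
  | cap4 {u b q q' l m s t : V} (h : Cap G S u b q q' l m s t) (ht : sd G S t = 1)
      (hn : t ∉ sm G S u) (hq : t ≠ q') :
      AD S u b ⟨4, {{u, b, q, m}}, q, m, {u}, {q, q'}, {t}⟩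
  | cap5 {u b q q' l m s t : V} (h : Cap G S u b q q' l m s t) (ht : t = q') :
      AD S u b ⟨4, {{u, b, q, m}}, q, m, {u}, {q, q'}, ∅⟩

/-- The arms. -/
def arms (S : Finset V) (X : Finset (Finset V)) : Finset (V × V) :=
  (actS G S X ×ˢ Finset.univ).filter (fun a => a.2 ∈ op G S a.1)

/-- The territory of the resource (only for stages 3 and 4). -/
def tb (S : Finset V) (d : Dat V) : Finset V := if 3 ≤ d.st then ter G S {d.res} else ∅

/-- Some option of the arm with data `d`, or its resource, touches `y`. -/
def Hit (S : Finset V) (d : Dat V) (y : V) : Prop :=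
  (∃ F ∈ d.Fs, y ∈ ter G S F) ∨ y ∈ tb G S d

end Pool.Agent.Lib.AndoD
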