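import Pool.Agent.Lib.AndoD.Defs
import Pool.Agent.Lib.AndoC.Count
import Pool.Agent.Lib.Ando.DiaFin
import Pool.Agent.Lib.Ando.DiaSite

/-!
# AndoD.Last: the frame of the whole proof

It remains to show `Good H` for all `H` with the standing hypotheses `Ctx` and at least `6 k` active
sites.
-/

set_option autoImplicit false
set_option linter.unusedSectionVars false

namespace Pool.Agent.Lib.AndoD

open Pool.Agent.Lib.Ando Pool.Agent.Lib.AndoC

universe u

/-- Reduction of the theorem to the packing. -/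
theorem good_all
    (hP : ∀ (W : Type u) [Fintype W] [DecidableEq W] (H : SimpleGraph W) [DecidableRel H.Adj]
      (k : ℕ) (S : Finset W) (X Y : Finset (Finset W)), Ctx H k S X Y →
      6 * k ≤ (actS H S X).card → Good H) :
    ∀ (W : Type u) [Fintype W] [DecidableEq W] (H : SimpleGraph W) [DecidableRel H.Adj],
      H.IsRegularOfDegree 3 → Good H := by
  refine Dia.frame ?_
  intro W _ _ H _ hG hD k hk hS hN
  obtain ⟨S0, hS0⟩ := hS
  obtain ⟨S, hL, hm⟩ := exists_lexmin hS0
  have hdl := Dia.dl1_of_diamOK hG hD hk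
  obtain ⟨X, Y, hX, h6⟩ := count_main hG hdl hk hN hL (fun T hT => by
    rcases hm T hT with h | ⟨h, -⟩ <;> omega)
  exact hP W H k S X Y ⟨hG, hk, hL, hN, hdl,
    fun T hT b b' u u' hb hb' hbb hu hu' a0 a1 a2 a3 a4 =>
      Dia.dia_site hG hD hT hk hb hb' hbb hu hu' a0 a1 a2 a3 a4, hm, hX⟩ h6

section

variable {V : Type*} [Fintype V] [DecidableEq V] {G : SimpleGraph V} [DecidableRel G.Adj]

/-- Every active site has two arms. -/
theorem arms_card (hG : G.IsRegularOfDegree 3) (S : Finset V) (X : Finset (Finset V)) :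
    (arms G S X).card = 2 * (actS G S X).card := by
  have h1 : arms G S X = (actS G S X).biUnion
      (fun u => (op G S u).image (fun b => (u, b))) := by
    ext ⟨u, b⟩
    unfold arms
    rw [Finset.mem_filter, Finset.mem_product, Finset.mem_biUnion]
    constructor
    · rintro ⟨⟨hu, -⟩, hb⟩
      exact ⟨u, hu, Finset.mem_image.2 ⟨b, hb, rfl⟩⟩
    · rintro ⟨u', hu', hb⟩
      obtain ⟨b', hb', e⟩ := Finset.mem_image.1 hb
      obtain ⟨rfl, rfl⟩ := Prod.mk.inj e
      exact ⟨⟨hu', Finset.mem_univ _⟩, hb'⟩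
  rw [h1, Finset.card_biUnion]
  · rw [Finset.sum_congr rfl (g := fun _ => 2), Finset.sum_const, smul_eq_mul, mul_comm]
    intro u hu
    rw [Finset.card_image_of_injective _ (fun b b' e => (Prod.mk.inj e).2)]
    have h2 : sd G S u = 1 := (Finset.mem_filter.1 (Finset.mem_filter.1 hu).1).2.2.1
    have := sd_add_op hG S u
    omega
  · intro u hu u' hu' hne
    refine Finset.disjoint_left.2 ?_
    rintro ⟨x, y⟩ hx hx'
    obtain ⟨b, -, e⟩ := Finset.mem_image.1 hx
    obtain ⟨b', -, e'⟩ := Finset.mem_image.1 hx'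
    exact hne ((Prod.mk.inj e).1.trans (Prod.mk.inj e').1.symm)

end

end Pool.Agent.Lib.AndoD
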