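import Pool.Agent.Lib.AndoD.Defs
import Pool.Agent.Lib.AndoC.Basic
import Pool.Agent.Lib.Ando.OpZZ
import Pool.Agent.Lib.Ando.Ter

/-!
# AndoD.OpCap: the operations at a capped end

`F = {u, b, q, m}`: white path `s, m, t` (if `t` is isolated after the flip of `u`) or a white path
`s, m, t, t*` (resp. `s, m, q', b`).
-/

set_option autoImplicit false
set_option linter.unusedSectionVars false

namespace Pool.Agent.Lib.AndoD

open Pool.Agent.Lib.Ando Pool.Agent.Lib.AndoC

variable {V : Type*} [Fintype V] [DecidableEq V] {G : SimpleGraph V} [DecidableRel G.Adj]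

namespace OpCapAux

open Pool.Agent.Lib.Ando.OpZZAux

/-- the facts about a capped end -/
structure CF (G : SimpleGraph V) [DecidableRel G.Adj] (S : Finset V)
    (u b b' q q' l m s t : V) : Prop where
  uS : u ∈ S
  bS : b ∉ S
  bS' : b' ∉ S
  qS : q ∈ S
  qS' : q' ∈ S
  lS : l ∉ S
  mS : m ∉ S
  sS : s ∈ S
  tS : t ∈ S
  du : sd G S u = 1
  db : sd G S b = 0
  db' : sd G S b' = 0
  dq : sd G S q = 1
  dq' : sd G S q' = 1
  dl : sd G S l = 1
  dm : sd G S m = 1
  ds : sd G S s = 0
  ou : op G S u = {b, b'}
  bb : b ≠ b'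
  ob : op G S b = {u, q, q'}
  oq : op G S q = {b, l}
  om : op G S m = {s, t}
  sq : sm G S q = {q'}
  sq' : sm G S q' = {q}
  sl : sm G S l = {m}
  sm' : sm G S m = {l}
  uq : u ≠ q
  uq' : u ≠ q'
  qq : q ≠ q'
  st : s ≠ t
  bm : b ≠ m
  bl : b ≠ l
  bm' : b' ≠ m
  bl' : b' ≠ l
  lm : l ≠ m
  mu : m ∉ op G S u
  mq : m ∉ op G S q
  lu : l ∉ op G S u
  tu : t ≠ u
  tq : t ≠ q

theorem cf_of (hG : G.IsRegularOfDegree 3) {S : Finset V}
    {u b q q' l m s t : V} (h : Cap G S u b q q' l m s t) :
    ∃ b', CF G S u b b' q q' l m s t := by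
  have us' := StructAux.mem_sites.1 h.us
  have bS : b ∉ S := StructAux.op_black us'.1 h.ub
  have db : sd G S b = 0 := us'.2.2 b h.ub
  obtain ⟨b', hb', bb'⟩ := StructAux.card_two (BasicAux.op_card_two hG us'.2.1) h.ub
  have hbu' : b' ∈ op G S u := by rw [hb']; simp
  have bS' : b' ∉ S := StructAux.op_black us'.1 hbu'
  have db' : sd G S b' = 0 := us'.2.2 b' hbu'
  have hqb : q ∈ op G S b := by rw [h.ob]; simp
  have hqb' : q' ∈ op G S b := by rw [h.ob]; simp
  have qS := StructAux.op_white bS hqb
  have qS' := StructAux.op_white bS hqb'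
  have hlq : l ∈ op G S q := by rw [h.oq]; simp
  have lS := StructAux.op_black qS hlq
  have hml : m ∈ sm G S l := by rw [h.sl]; simp
  have mS : m ∉ S := fun h' => lS ((mem_sm.1 hml).2.1 h')
  have hs : s ∈ op G S m := by rw [h.om]; simp
  have ht : t ∈ op G S m := by rw [h.om]; simp
  have sS := StructAux.op_white mS hs
  have tS := StructAux.op_white mS ht
  have dq : sd G S q = 1 := by unfold sd; rw [h.sq]; simp
  have dq' : sd G S q' = 1 := by unfold sd; rw [h.sq']; simp
  have dl : sd G S l = 1 := by unfold sd; rw [h.sl]; simp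
  have dm : sd G S m = 1 := by unfold sd; rw [h.sm']; simp
  have bm : b ≠ m := by rintro rfl; rw [db] at dm; exact zero_ne_one dm
  have bm' : b' ≠ m := by rintro rfl; rw [db'] at dm; exact zero_ne_one dm
  have bl' : b' ≠ l := by rintro rfl; rw [db'] at dl; exact zero_ne_one dl
  have lm : l ≠ m := (mem_sm.1 hml).1.ne
  have mu : m ∉ op G S u := by
    intro h1; have := us'.2.2 m h1; rw [dm] at this; exact one_ne_zero this
  have lu : l ∉ op G S u := by
    intro h1; have := us'.2.2 l h1; rw [dl] at this; exact one_ne_zero this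
  have mq : m ∉ op G S q := by
    rw [h.oq, Finset.mem_insert, Finset.mem_singleton]
    rintro (h1 | h1)
    · exact bm h1.symm
    · exact lm h1.symm
  refine ⟨b', ⟨us'.1, bS, bS', qS, qS', lS, mS, sS, tS, us'.2.1, db, db', dq, dq', dl, dm, h.is,
    hb', bb', h.ob, h.oq, h.om, h.sq, h.sq', h.sl, h.sm', h.uq, h.uq', h.qq, h.st, bm, h.bl, bm',
    bl', lm, mu, mq, lu, ?_, ?_⟩⟩
  · rintro rfl; exact mu (op_symm ht)
  · rintro rfl; exact mq (op_symm ht)

variable {S : Finset V} {u b b' q q' l m s t : V}

theorem memF {w : V} : w ∈ ({u, b, q, m} : Finset V) ↔ w = u ∨ w = b ∨ w = q ∨ w = m := by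
  simp only [Finset.mem_insert, Finset.mem_singleton]

theorem opW (h : CF G S u b b' q q' l m s t) {v w : V} (hv : v ∈ S) (hw : w ∈ op G S v)
    (hF : w ∈ ({u, b, q, m} : Finset V)) : w = b ∨ w = m := by
  have hwS := StructAux.op_black hv hw
  rw [memF] at hF
  rcases hF with rfl | rfl | rfl | rfl
  · exact absurd h.uS hwS
  · exact Or.inl rfl
  · exact absurd h.qS hwS
  · exact Or.inr rfl

theorem opB (h : CF G S u b b' q q' l m s t) {v w : V} (hv : v ∉ S) (hw : w ∈ op G S v)
    (hF : w ∈ ({u, b, q, m} : Finset V)) : w = u ∨ w = q := by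
  have hwS := StructAux.op_white hv hw
  rw [memF] at hF
  rcases hF with rfl | rfl | rfl | rfl
  · exact Or.inl rfl
  · exact absurd hwS h.bS
  · exact Or.inr rfl
  · exact absurd hwS h.mS

theorem atb (h : CF G S u b b' q q' l m s t) {v : V} (hv : b ∈ op G S v) :
    v = u ∨ v = q ∨ v = q' := by
  have := op_symm hv
  rw [h.ob, Finset.mem_insert, Finset.mem_insert, Finset.mem_singleton] at this
  exact this

theorem atm (h : CF G S u b b' q q' l m s t) {v : V} (hv : m ∈ op G S v) : v = s ∨ v = t := by
  have := op_symm hv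
  rw [h.om, Finset.mem_insert, Finset.mem_singleton] at this
  exact this

theorem atu (h : CF G S u b b' q q' l m s t) {v : V} (hv : u ∈ op G S v) : v = b ∨ v = b' := by
  have := op_symm hv
  rw [h.ou, Finset.mem_insert, Finset.mem_singleton] at this
  exact this

theorem atq (h : CF G S u b b' q q' l m s t) {v : V} (hv : q ∈ op G S v) : v = b ∨ v = l := by
  have := op_symm hv
  rw [h.oq, Finset.mem_insert, Finset.mem_singleton] at this
  exact this

theorem ne_sd {v w : V} (h1 : sd G S v = 0) (h2 : sd G S w = 1) : v ≠ w := by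
  rintro rfl; rw [h1] at h2; exact zero_ne_one h2

/-- a vertex whose partners are flipped, with at most one flipped neighbour of the other colour -/
theorem le_one_of {v x : V} {F : Finset V} (hv : v ∉ F) (h1 : ∀ w ∈ sm G S v, w ∈ F)
    (h2 : ∀ w ∈ op G S v, w ∈ F → w = x) : sd G (symmDiff S F) v ≤ 1 := by
  have h3 := sd_not_mem (G := G) (S := S) hv
  have e1 : sm G S v \ F = ∅ := by
    rw [Finset.eq_empty_iff_forall_notMem]
    intro w hw
    rw [Finset.mem_sdiff] at hw
    exact hw.2 (h1 w hw.1)
  have e2 : op G S v ∩ F ⊆ {x} := by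
    intro w hw
    rw [Finset.mem_inter] at hw
    exact Finset.mem_singleton.2 (h2 w hw.1 hw.2)
  have e3 := Finset.card_le_card e2
  rw [Finset.card_singleton] at e3
  rw [e1, Finset.card_empty, zero_add] at h3
  exact h3.trans e3

/-- the vertices outside `F`, without `t` -/
theorem hout (htf : ∀ v, sd G S v ≤ 1) (h : CF G S u b b' q q' l m s t) {v : V}
    (hv : v ∉ ({u, b, q, m} : Finset V)) (hvt : v ≠ t) :
    sd G (symmDiff S {u, b, q, m}) v ≤ 1 := by
  have hv' := hv
  rw [memF] at hv'
  push Not at hv'
  obtain ⟨vu, vb, vq, vm⟩ := hv'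
  by_cases hvS : v ∈ S
  · by_cases h1 : v = q'
    · subst h1
      refine le_one_of (x := b) hv ?_ ?_
      · intro w hw
        rw [h.sq', Finset.mem_singleton] at hw
        rw [memF]; tauto
      · intro w hw hF
        rcases opW h hvS hw hF with h2 | h2
        · exact h2
        · subst h2
          rcases atm h hw with h3 | h3
          · exact absurd h3.symm (ne_sd h.ds h.dq')
          · exact absurd h3 hvt
    · by_cases h2 : v = s
      · subst h2
        refine sd_zero G hv h.ds (x := m) (fun w hw hF => ?_)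
        rcases opW h hvS hw hF with h3 | h3
        · subst h3
          rcases atb h hw with h4 | h4 | h4
          · exact absurd h4 vu
          · exact absurd h4 vq
          · exact absurd h4 h1
        · exact h3
      · refine sd_far G htf hv ?_
        rw [Finset.eq_empty_iff_forall_notMem]
        intro w hw
        rw [Finset.mem_inter] at hw
        rcases opW h hvS hw.1 hw.2 with h3 | h3
        · subst h3
          rcases atb h hw.1 with h4 | h4 | h4
          · exact vu h4
          · exact vq h4
          · exact h1 h4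
        · subst h3
          rcases atm h hw.1 with h4 | h4
          · exact h2 h4
          · exact hvt h4
  · by_cases h1 : v = b'
    · subst h1
      refine sd_zero G hv h.db' (x := u) (fun w hw hF => ?_)
      rcases opB h hvS hw hF with h3 | h3
      · exact h3
      · subst h3
        rcases atq h hw with h4 | h4
        · exact absurd h4 vb
        · exact absurd h4 h.bl'
    · by_cases h2 : v = l
      · subst h2
        refine le_one_of (x := q) hv ?_ ?_
        · intro w hw
          rw [h.sl, Finset.mem_singleton] at hw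
          rw [memF]; tauto
        · intro w hw hF
          rcases opB h hvS hw hF with h3 | h3
          · subst h3
            exact absurd (op_symm hw) h.lu
          · exact h3
      · refine sd_far G htf hv ?_
        rw [Finset.eq_empty_iff_forall_notMem]
        intro w hw
        rw [Finset.mem_inter] at hw
        rcases opB h hvS hw.1 hw.2 with h3 | h3
        · subst h3
          rcases atu h hw.1 with h4 | h4
          · exact vb h4
          · exact h1 h4
        · subst h3
          rcases atq h hw.1 with h4 | h4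
          · exact vb h4
          · exact h2 h4

theorem notin_sm {x y : V} (hx : sm G S x = {y}) {z : V} (hz : z ≠ y) : z ∉ sm G S x := by
  rw [hx, Finset.mem_singleton]; exact hz

theorem card_le_of {A : Finset V} {x : V} (h : ∀ w ∈ A, w = x) : A.card ≤ 1 := by
  have : A ⊆ {x} := fun w hw => Finset.mem_singleton.2 (h w hw)
  exact (Finset.card_le_card this).trans (by simp)

/-- the flipped vertices, without `m` -/
theorem hin (h : CF G S u b b' q q' l m s t) {v : V}
    (hv : v ∈ ({u, b, q, m} : Finset V)) (hvm : v ≠ m) :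
    sd G (symmDiff S {u, b, q, m}) v ≤ 1 := by
  have h0 := sd_mem G (S := S) hv
  rw [memF] at hv
  rcases hv with rfl | rfl | rfl | rfl
  · have e1 : (op G S v \ {v, b, q, m}).card ≤ 1 := by
      refine card_le_of (x := b') (fun w hw => ?_)
      rw [Finset.mem_sdiff, h.ou, Finset.mem_insert, Finset.mem_singleton, memF] at hw
      tauto
    have e2 : sm G S v ∩ {v, b, q, m} = ∅ := by
      rw [Finset.eq_empty_iff_forall_notMem]
      intro w hw
      rw [Finset.mem_inter, memF] at hw
      have hwS : w ∈ S := (mem_sm.1 hw.1).2.2 h.uS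
      rcases hw.2 with rfl | rfl | rfl | rfl
      · exact sm_irrefl G S _ hw.1
      · exact h.bS hwS
      · have := sm_symm hw.1
        rw [h.sq, Finset.mem_singleton] at this
        exact h.uq' this
      · exact h.mS hwS
    rw [e2, Finset.card_empty] at h0
    omega
  · have e1 : (op G S v \ {u, v, q, m}).card ≤ 1 := by
      refine card_le_of (x := q') (fun w hw => ?_)
      rw [Finset.mem_sdiff, h.ob, Finset.mem_insert, Finset.mem_insert, Finset.mem_singleton,
        memF] at hw
      tauto
    have e2 : sm G S v = ∅ := Finset.card_eq_zero.1 h.db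
    rw [e2, Finset.empty_inter, Finset.card_empty] at h0
    omega
  · have e1 : (op G S v \ {u, b, v, m}).card ≤ 1 := by
      refine card_le_of (x := l) (fun w hw => ?_)
      rw [Finset.mem_sdiff, h.oq, Finset.mem_insert, Finset.mem_singleton, memF] at hw
      tauto
    have e2 : sm G S v ∩ {u, b, v, m} = ∅ := by
      rw [Finset.eq_empty_iff_forall_notMem]
      intro w hw
      rw [Finset.mem_inter, memF, h.sq, Finset.mem_singleton] at hw
      obtain ⟨rfl, hw⟩ := hw
      rcases hw with h1 | h1 | h1 | h1
      · exact h.uq' h1.symm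
      · exact h.bS (h1 ▸ h.qS')
      · exact h.qq h1.symm
      · exact h.mS (h1 ▸ h.qS')
    rw [e2, Finset.card_empty] at h0
    omega
  · exact absurd rfl hvm

theorem nF (h : CF G S u b b' q q' l m s t) :
    s ∉ ({u, b, q, m} : Finset V) ∧ t ∉ ({u, b, q, m} : Finset V) := by
  constructor
  · rw [memF]
    rintro (rfl | rfl | rfl | rfl)
    · exact ne_sd h.ds h.du rfl
    · exact h.bS h.sS
    · exact ne_sd h.ds h.dq rfl
    · exact h.mS h.sS
  · rw [memF]
    rintro (h1 | h1 | h1 | h1)
    · exact h.tu h1
    · exact h.bS (h1 ▸ h.tS)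
    · exact h.tq h1
    · exact h.mS (h1 ▸ h.tS)

theorem sm_m (h : CF G S u b b' q q' l m s t) :
    sm G (symmDiff S {u, b, q, m}) m = {s, t} := by
  rw [sm_flip_mem G (by simp)]
  have e1 : op G S m \ {u, b, q, m} = {s, t} := by
    rw [h.om]
    ext w
    rw [Finset.mem_sdiff, Finset.mem_insert, Finset.mem_singleton]
    constructor
    · exact fun h1 => h1.1
    · rintro (rfl | rfl)
      · exact ⟨Or.inl rfl, (nF h).1⟩
      · exact ⟨Or.inr rfl, (nF h).2⟩
  have e2 : sm G S m ∩ {u, b, q, m} = ∅ := by
    rw [Finset.eq_empty_iff_forall_notMem]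
    intro w hw
    rw [Finset.mem_inter, memF, h.sm', Finset.mem_singleton] at hw
    obtain ⟨rfl, hw⟩ := hw
    rcases hw with h1 | h1 | h1 | h1
    · exact h.lS (h1 ▸ h.uS)
    · exact h.bl h1.symm
    · exact h.lS (h1 ▸ h.qS)
    · exact h.lm h1
  rw [e1, e2, Finset.union_empty]

theorem imbF (h : CF G S u b b' q q' l m s t) :
    ((({u, b, q, m} : Finset V) \ S).card : ℤ) - (((({u, b, q, m} : Finset V) ∩ S).card : ℕ) : ℤ)
      = 0 := by
  have e1 : ({u, b, q, m} : Finset V) \ S = {b, m} := by
    ext w
    rw [Finset.mem_sdiff, memF, Finset.mem_insert, Finset.mem_singleton]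
    constructor
    · rintro ⟨h1 | h1 | h1 | h1, h2⟩
      · exact absurd (h1 ▸ h.uS) h2
      · exact Or.inl h1
      · exact absurd (h1 ▸ h.qS) h2
      · exact Or.inr h1
    · rintro (rfl | rfl)
      · exact ⟨by tauto, h.bS⟩
      · exact ⟨by tauto, h.mS⟩
  have e2 : ({u, b, q, m} : Finset V) ∩ S = {u, q} := by
    ext w
    rw [Finset.mem_inter, memF, Finset.mem_insert, Finset.mem_singleton]
    constructor
    · rintro ⟨h1 | h1 | h1 | h1, h2⟩
      · exact Or.inl h1
      · exact absurd (h1 ▸ h2) h.bS
      · exact Or.inr h1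
      · exact absurd (h1 ▸ h2) h.mS
    · rintro (rfl | rfl)
      · exact ⟨by tauto, h.uS⟩
      · exact ⟨by tauto, h.qS⟩
  rw [e1, e2, Finset.card_pair h.bm, Finset.card_pair h.uq]
  norm_num

theorem mT (h : CF G S u b b' q q' l m s t) : m ∈ symmDiff S {u, b, q, m} := by
  rw [Finset.mem_symmDiff]
  exact Or.inr ⟨by simp, h.mS⟩

end OpCapAux

open OpCapAux Pool.Agent.Lib.Ando.OpZZAux

/-- The operation at a capped end, kinds 5a and 5a'. -/
theorem eff_cap1 (hG : G.IsRegularOfDegree 3) {S : Finset V} (htf : ∀ v, sd G S v ≤ 1)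
    {u b q q' l m s t : V} (h : Cap G S u b q q' l m s t) (ht : Iso G S u t) :
    Eff G S {u, b, q, m} 0 1 0 0 0 := by
  obtain ⟨b', hc⟩ := cf_of hG h
  have htT : sd G (symmDiff S {u, b, q, m}) t ≤ 1 := by
    rcases ht with ht | ht
    · refine sd_zero G (nF hc).2 ht (x := m) (fun w hw hF => ?_)
      rcases opW hc hc.tS hw hF with h3 | h3
      · subst h3
        rcases atb hc hw with h4 | h4 | h4
        · exact absurd h4 (ne_sd ht hc.du)
        · exact absurd h4 (ne_sd ht hc.dq)
        · exact absurd h4 (ne_sd ht hc.dq')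
      · exact h3
    · refine le_one_of (x := m) (nF hc).2 ?_ ?_
      · intro w hw
        have h1 := sm_symm ht
        have h2 : w = u := Finset.card_le_one.1 (htf t) w hw u h1
        rw [memF]; exact Or.inl h2
      · intro w hw hF
        rcases opW hc hc.tS hw hF with h3 | h3
        · subst h3
          rcases atb hc hw with h4 | h4 | h4
          · exact absurd h4 hc.tu
          · exact absurd h4 hc.tq
          · subst h4
            have := sm_symm ht
            rw [hc.sq', Finset.mem_singleton] at this
            exact absurd this hc.uq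
        · exact h3
  have hne : ∀ v, v ≠ m → sd G (symmDiff S {u, b, q, m}) v ≤ 1 := by
    intro v hv
    by_cases h1 : v ∈ ({u, b, q, m} : Finset V)
    · exact hin hc h1 hv
    · by_cases h2 : v = t
      · rw [h2]; exact htT
      · exact hout htf hc h1 h2
  have hm2 : sd G (symmDiff S {u, b, q, m}) m = 2 := by
    unfold sd
    rw [sm_m hc, Finset.card_pair hc.st]
  refine mk_eff G (fun v => ?_) (imbF hc)
    (cls_one G (closed_T G _) (mT hc) hm2 fun v _ h2 => ?_) (cls_none G fun v hv h2 => ?_)
  · by_cases hv : v = m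
    · rw [hv, hm2]
    · exact (hne v hv).trans (by norm_num)
  · by_contra hvb
    have := hne v hvb
    omega
  · by_cases hvb : v = m
    · rw [hvb] at hv
      exact (Finset.mem_compl.1 hv) (mT hc)
    · have := hne v hvb
      omega

/-- The operation at a capped end, kinds 5b and 5c. -/
theorem eff_cap4 (hG : G.IsRegularOfDegree 3) {S : Finset V} (htf : ∀ v, sd G S v ≤ 1)
    {u b q q' l m s t : V} (h : Cap G S u b q q' l m s t) (ht : sd G S t = 1)
    (hn : t ∉ sm G S u) : Eff G S {u, b, q, m} 0 2 2 0 0 := by
  obtain ⟨b', hc⟩ := cf_of hG h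
  obtain ⟨t', ht'⟩ := StructAux.sd_one ht
  have htm : m ∈ op G S t := op_symm (by rw [hc.om]; simp)
  have hmF : m ∈ ({u, b, q, m} : Finset V) := by simp
  have ht2 : sd G (symmDiff S {u, b, q, m}) t = 2 := by
    unfold sd
    rw [sm_flip_not_mem G (nF hc).2]
    by_cases h1 : t = q'
    · have e1 : sm G S t \ {u, b, q, m} = ∅ := by
        rw [h1, hc.sq']
        rw [Finset.eq_empty_iff_forall_notMem]
        intro w hw
        rw [Finset.mem_sdiff, Finset.mem_singleton, memF] at hw
        tauto
      have hbt : b ∈ op G S t := op_symm (by rw [hc.ob, h1]; simp)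
      have hbF : b ∈ ({u, b, q, m} : Finset V) := by simp
      have e2 : op G S t ∩ {u, b, q, m} = {b, m} := by
        ext w
        constructor
        · intro h0
          have h2 := Finset.mem_of_mem_inter_left h0
          have h3 := Finset.mem_of_mem_inter_right h0
          rcases opW hc hc.tS h2 h3 with h4 | h4
          · rw [h4]; simp
          · rw [h4]; simp
        · intro h0
          rcases Finset.mem_insert.1 h0 with h2 | h2
          · rw [h2]
            exact Finset.mem_inter.2 ⟨hbt, hbF⟩
          · rw [Finset.mem_singleton.1 h2]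
            exact Finset.mem_inter.2 ⟨htm, hmF⟩
      rw [e1, e2, Finset.empty_union, Finset.card_pair hc.bm]
    · have e1 : sm G S t \ {u, b, q, m} = {t'} := by
        rw [ht']
        ext w
        rw [Finset.mem_sdiff, Finset.mem_singleton]
        constructor
        · exact fun h2 => h2.1
        · rintro rfl
          refine ⟨rfl, ?_⟩
          have htt : w ∈ sm G S t := by rw [ht']; simp
          have hwS : w ∈ S := (mem_sm.1 htt).2.2 hc.tS
          rw [memF]
          rintro (h2 | h2 | h2 | h2)
          · exact hn (sm_symm (h2 ▸ htt))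
          · exact hc.bS (h2 ▸ hwS)
          · have := sm_symm htt
            rw [h2, hc.sq, Finset.mem_singleton] at this
            exact h1 this
          · exact hc.mS (h2 ▸ hwS)
      have e2 : op G S t ∩ {u, b, q, m} = {m} := by
        ext w
        rw [Finset.mem_inter, Finset.mem_singleton]
        constructor
        · rintro ⟨h2, h3⟩
          rcases opW hc hc.tS h2 h3 with h4 | h4
          · subst h4
            rcases atb hc h2 with h5 | h5 | h5
            · exact absurd h5 hc.tu
            · exact absurd h5 hc.tq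
            · exact absurd h5 h1
          · exact h4
        · rintro rfl
          exact ⟨htm, hmF⟩
      have hne : t' ≠ m := by
        rintro rfl
        have htt : t' ∈ sm G S t := by rw [ht']; simp
        exact hc.mS ((mem_sm.1 htt).2.2 hc.tS)
      rw [e1, e2]
      rw [show ({t'} : Finset V) ∪ {m} = {t', m} from rfl, Finset.card_pair hne]
  have hne : ∀ v, v ≠ m → v ≠ t → sd G (symmDiff S {u, b, q, m}) v ≤ 1 := by
    intro v hv hvt
    by_cases h1 : v ∈ ({u, b, q, m} : Finset V)
    · exact hin hc h1 hv
    · exact hout htf hc h1 hvt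
  have hm2 : sd G (symmDiff S {u, b, q, m}) m = 2 := by
    unfold sd
    rw [sm_m hc, Finset.card_pair hc.st]
  have htT : t ∈ symmDiff S {u, b, q, m} := by
    rw [Finset.mem_symmDiff]
    exact Or.inl ⟨hc.tS, (nF hc).2⟩
  refine mk_eff G (fun v => ?_) (imbF hc)
    (cls_two G (closed_T G _) (mT hc) (by rw [sm_m hc]; simp) hm2 ht2 fun v _ h2 => ?_)
    (cls_none G fun v hv h2 => ?_)
  · by_cases hv : v = m
    · rw [hv, hm2]
    · by_cases hv' : v = t
      · rw [hv', ht2]
      · exact (hne v hv hv').trans (by norm_num)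
  · by_contra hcon
    push Not at hcon
    have := hne v hcon.1 hcon.2
    omega
  · by_cases hvb : v = m
    · rw [hvb] at hv
      exact (Finset.mem_compl.1 hv) (mT hc)
    · by_cases hv' : v = t
      · rw [hv'] at hv
        exact (Finset.mem_compl.1 hv) htT
      · have := hne v hvb hv'
        omega

end Pool.Agent.Lib.AndoD
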