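import Pool.Agent.Lib.AndoD.SwBase
import Pool.Agent.Lib.Ando.OpZZ

/-!
# AndoD.OpSw: the operations at a switch

`eff_alp`: `F = {x, e, y'}`, `y'` a site: white path `y, e, o`, black path `h, y', g`.
`eff_nsw`: `F = {x', e}`: white path `o, e, y, y*`.
-/

set_option autoImplicit false
set_option linter.unusedSectionVars false

namespace Pool.Agent.Lib.AndoD

open Pool.Agent.Lib.Ando Pool.Agent.Lib.AndoC

variable {V : Type*} [Fintype V] [DecidableEq V] {G : SimpleGraph V} [DecidableRel G.Adj]

namespace OpSwAux

open Pool.Agent.Lib.Ando.OpZZAux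

theorem ne_bw {S : Finset V} {v w : V} (h1 : v ∈ S) (h2 : w ∉ S) : v ≠ w := fun e => h2 (e ▸ h1)

theorem sd_emp {S : Finset V} {v : V} (h : sm G S v = ∅) : sd G S v = 0 := by
  unfold sd; rw [h]; rfl

theorem card_le_of {A : Finset V} {x : V} (h : ∀ w ∈ A, w = x) : A.card ≤ 1 := by
  have : A ⊆ {x} := fun w hw => Finset.mem_singleton.2 (h w hw)
  exact (Finset.card_le_card this).trans (by simp)

/-- a vertex whose partners are flipped, with at most one flipped neighbour of the other colour -/
theorem le_one_of {S : Finset V} {v x : V} {F : Finset V} (hv : v ∉ F)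
    (h1 : ∀ w ∈ sm G S v, w ∈ F)
    (h2 : ∀ w ∈ op G S v, w ∈ F → w = x) : sd G (symmDiff S F) v ≤ 1 := by
  have h3 := sd_not_mem (G := G) (S := S) hv
  have e1 : sm G S v \ F = ∅ := by
    rw [Finset.eq_empty_iff_forall_notMem]
    intro w hw
    rw [Finset.mem_sdiff] at hw
    exact hw.2 (h1 w hw.1)
  have e3 : (op G S v ∩ F).card ≤ 1 := card_le_of (x := x) (fun w hw => by
    rw [Finset.mem_inter] at hw
    exact h2 w hw.1 hw.2)
  rw [e1, Finset.card_empty, zero_add] at h3
  exact h3.trans e3

end OpSwAux

open OpSwAux Pool.Agent.Lib.Ando.OpZZAux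

/-- The operation of type N. -/
theorem eff_nsw {S : Finset V} (htf : ∀ v, sd G S v ≤ 1) {x y e f o p x' y' : V}
    (h : Sw G S x y e f o p x' y') (hi : sm G S o = ∅ ∨ o = x') :
    Eff G S {x, e} 0 2 2 0 0 := by
  have hmem : ∀ w, w ∈ ({x, e} : Finset V) ↔ w = x ∨ w = e := by
    intro w
    rw [Finset.mem_insert, Finset.mem_singleton]
  have nye : y ≠ e := ne_bw h.yS h.eS
  have nxe : x ≠ e := ne_bw h.xS h.eS
  have oF : o ∉ ({x, e} : Finset V) := by
    rw [hmem]
    rintro (h1 | h1)
    · exact h.xo h1.symm
    · exact ne_bw h.oS h.eS h1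
  have yF : y ∉ ({x, e} : Finset V) := by
    rw [hmem]
    rintro (h1 | h1)
    · exact h.xy h1.symm
    · exact nye h1
  have smy : sm G (symmDiff S {x, e}) y = {y', e} := by
    rw [sm_flip_not_mem G yF, h.sy, h.oy]
    ext w
    simp only [Finset.mem_union, Finset.mem_sdiff, Finset.mem_inter, Finset.mem_insert,
      Finset.mem_singleton]
    constructor
    · rintro (⟨h1, -⟩ | ⟨h1, h2⟩)
      · exact Or.inl h1
      · rcases h2 with h2 | h2
        · exfalso
          rcases h1 with h1 | h1
          · exact nxe (h2.symm.trans h1)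
          · exact ne_bw h.xS h.fS (h2.symm.trans h1)
        · exact Or.inr h2
    · rintro (h1 | h1)
      · refine Or.inl ⟨h1, ?_⟩
        rintro (h2 | h2)
        · exact h.xy' (h2.symm.trans h1)
        · exact ne_bw h.y'S h.eS (h1.symm.trans h2)
      · exact Or.inr ⟨Or.inl h1, Or.inr h1⟩
  have sme : sm G (symmDiff S {x, e}) e = {y, o} := by
    rw [sm_flip_mem G (by simp), h.oe, h.se]
    ext w
    simp only [Finset.mem_union, Finset.mem_sdiff, Finset.mem_inter, Finset.mem_insert,
      Finset.mem_singleton, Finset.notMem_empty, false_and, or_false]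
    constructor
    · rintro ⟨h1 | h1, h2⟩
      · exact absurd (Or.inl h1) h2
      · exact h1
    · intro h1
      refine ⟨Or.inr h1, ?_⟩
      rcases h1 with rfl | rfl
      · rw [← hmem]; exact yF
      · rw [← hmem]; exact oF
  have sdy : sd G (symmDiff S {x, e}) y = 2 := by
    unfold sd
    rw [smy, Finset.card_pair (ne_bw h.y'S h.eS)]
  have sde : sd G (symmDiff S {x, e}) e = 2 := by
    unfold sd
    rw [sme, Finset.card_pair h.yo]
  have key : ∀ v, v ≠ y → v ≠ e → sd G (symmDiff S {x, e}) v ≤ 1 := by
    intro v hvy hve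
    by_cases hvx : v = x
    · subst hvx
      have h0 := sd_mem G (S := S) (F := {v, e}) (v := v) (by simp)
      have e1 : (op G S v \ {v, e}).card ≤ 1 := card_le_of (x := f) (fun w hw => by
        rw [Finset.mem_sdiff, h.ox, hmem, Finset.mem_insert, Finset.mem_singleton] at hw
        tauto)
      have e2 : sm G S v ∩ {v, e} = ∅ := by
        rw [Finset.eq_empty_iff_forall_notMem]
        intro w hw
        rw [Finset.mem_inter, hmem, h.sx, Finset.mem_singleton] at hw
        rcases hw.2 with h1 | h1
        · exact h.xx' (h1.symm.trans hw.1)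
        · exact ne_bw h.x'S h.eS (hw.1.symm.trans h1)
      rw [e2, Finset.card_empty] at h0
      omega
    have hvF : v ∉ ({x, e} : Finset V) := by
      rw [hmem]; tauto
    by_cases hvf : v = f
    · subst hvf
      refine sd_zero G hvF (sd_emp h.sf) (x := x) (fun w hw hF => ?_)
      rcases (hmem w).1 hF with h1 | h1
      · exact h1
      · subst h1
        have := StructAux.op_white h.fS hw
        exact absurd this h.eS
    by_cases hvo : v = o
    · subst hvo
      rcases hi with hi | hi
      · refine sd_zero G hvF (sd_emp hi) (x := e) (fun w hw hF => ?_)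
        rcases (hmem w).1 hF with h1 | h1
        · subst h1
          exact absurd h.xS (StructAux.op_black h.oS hw)
        · exact h1
      · refine le_one_of (x := e) hvF ?_ ?_
        · intro w hw
          rw [hi, h.sx', Finset.mem_singleton] at hw
          rw [hmem]; exact Or.inl hw
        · intro w hw hF
          rcases (hmem w).1 hF with h1 | h1
          · subst h1
            exact absurd h.xS (StructAux.op_black h.oS hw)
          · exact h1
    refine sd_far G htf hvF ?_
    rw [Finset.eq_empty_iff_forall_notMem]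
    intro w hw
    rw [Finset.mem_inter, hmem] at hw
    rcases hw.2 with h1 | h1
    · subst h1
      have h2 := op_symm hw.1
      rw [h.ox, Finset.mem_insert, Finset.mem_singleton] at h2
      tauto
    · subst h1
      have h2 := op_symm hw.1
      rw [h.oe, Finset.mem_insert, Finset.mem_insert, Finset.mem_singleton] at h2
      tauto
  have yT : y ∈ symmDiff S {x, e} := by
    rw [Finset.mem_symmDiff]
    exact Or.inl ⟨h.yS, yF⟩
  have eT : e ∈ symmDiff S {x, e} := by
    rw [Finset.mem_symmDiff]
    exact Or.inr ⟨by simp, h.eS⟩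
  refine mk_eff G (fun v => ?_) ?_
    (cls_two G (closed_T G _) yT (y := e) (by rw [smy]; simp) sdy sde fun v _ h2 => ?_)
    (cls_none G fun v hv h2 => ?_)
  · by_cases hv : v = y
    · rw [hv, sdy]
    · by_cases hv' : v = e
      · rw [hv', sde]
      · exact (key v hv hv').trans (by norm_num)
  · have e1 : ({x, e} : Finset V) \ S = {e} := by
      ext w
      rw [Finset.mem_sdiff, hmem, Finset.mem_singleton]
      constructor
      · rintro ⟨h1 | h1, h2⟩
        · exact absurd (h1 ▸ h.xS) h2
        · exact h1
      · rintro rfl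
        exact ⟨Or.inr rfl, h.eS⟩
    have e2 : ({x, e} : Finset V) ∩ S = {x} := by
      ext w
      rw [Finset.mem_inter, hmem, Finset.mem_singleton]
      constructor
      · rintro ⟨h1 | h1, h2⟩
        · exact h1
        · exact absurd (h1 ▸ h2) h.eS
      · rintro rfl
        exact ⟨Or.inl rfl, h.xS⟩
    rw [e1, e2]
    simp
  · by_contra hcon
    push Not at hcon
    have := key v hcon.1 hcon.2
    omega
  · rw [Finset.mem_compl] at hv
    by_cases h1 : v = y
    · exact hv (h1 ▸ yT)
    · by_cases h3 : v = e
      · exact hv (h3 ▸ eT)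
      · have := key v h1 h3
        omega

/-- The operation of type alpha. -/
theorem eff_alp (hG : G.IsRegularOfDegree 3) {S : Finset V} (htf : ∀ v, sd G S v ≤ 1) {x y e f o p x' y' : V}
    (h : Sw G S x y e f o p x' y') (hi : sm G S o = ∅ ∨ o = x') (hz : y' ∈ sites G S)
    (hp : p ≠ y') : Eff G S {x, e, y'} (-1) 1 0 1 0 := by
  have hz' := StructAux.mem_sites.1 hz
  have hmem : ∀ w, w ∈ ({x, e, y'} : Finset V) ↔ w = x ∨ w = e ∨ w = y' := by
    intro w
    rw [Finset.mem_insert, Finset.mem_insert, Finset.mem_singleton]
  have nye : y ≠ e := ne_bw h.yS h.eS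
  have nxe : x ≠ e := ne_bw h.xS h.eS
  have ny'e : y' ≠ e := ne_bw h.y'S h.eS
  have noy' : o ≠ y' := by
    rcases hi with hi | hi
    · intro h1
      rw [h1, h.sy'] at hi
      simp at hi
    · intro h1
      exact h.x'y' (hi.symm.trans h1)
  have oF : o ∉ ({x, e, y'} : Finset V) := by
    rw [hmem]
    rintro (h1 | h1 | h1)
    · exact h.xo h1.symm
    · exact ne_bw h.oS h.eS h1
    · exact noy' h1
  have yF : y ∉ ({x, e, y'} : Finset V) := by
    rw [hmem]
    rintro (h1 | h1 | h1)
    · exact h.xy h1.symm
    · exact nye h1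
    · exact h.yy' h1
  have y'e : y' ∉ op G S e := by
    rw [h.oe]
    simp only [Finset.mem_insert, Finset.mem_singleton]
    rintro (h1 | h1 | h1)
    · exact h.xy' h1.symm
    · exact h.yy' h1.symm
    · exact noy' h1.symm
  have y'f : y' ∉ op G S f := by
    rw [h.of]
    simp only [Finset.mem_insert, Finset.mem_singleton]
    rintro (h1 | h1 | h1)
    · exact h.xy' h1.symm
    · exact h.yy' h1.symm
    · exact hp h1.symm
  have ey' : e ∉ op G S y' := fun h1 => y'e (op_symm h1)
  have sme : sm G (symmDiff S {x, e, y'}) e = {y, o} := by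
    rw [sm_flip_mem G (by simp), h.oe, h.se]
    ext w
    simp only [Finset.mem_union, Finset.mem_sdiff, Finset.mem_inter, Finset.mem_insert,
      Finset.mem_singleton, Finset.notMem_empty, false_and, or_false]
    constructor
    · rintro ⟨h1 | h1, h2⟩
      · exact absurd (Or.inl h1) h2
      · exact h1
    · intro h1
      refine ⟨Or.inr h1, ?_⟩
      rcases h1 with rfl | rfl
      · rw [← hmem]; exact yF
      · rw [← hmem]; exact oF
  have sde : sd G (symmDiff S {x, e, y'}) e = 2 := by
    unfold sd
    rw [sme, Finset.card_pair h.yo]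
  have smy' : sm G (symmDiff S {x, e, y'}) y' = op G S y' := by
    rw [sm_flip_mem G (by simp), h.sy']
    ext w
    simp only [Finset.mem_union, Finset.mem_sdiff, Finset.mem_inter, Finset.mem_insert,
      Finset.mem_singleton]
    constructor
    · rintro (h1 | ⟨h1, h2⟩)
      · exact h1.1
      · exfalso
        subst h1
        apply yF
        rw [hmem]
        exact h2
    · intro h1
      refine Or.inl ⟨h1, ?_⟩
      have hwS := StructAux.op_black h.y'S h1
      rintro (h2 | h2 | h2)
      · exact hwS (h2 ▸ h.xS)
      · exact ey' (h2 ▸ h1)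
      · exact hwS (h2 ▸ h.y'S)
  have hc : (op G S y').card = 2 := by
    have := sd_add_op hG S y'
    omega
  have sdy' : sd G (symmDiff S {x, e, y'}) y' = 2 := by
    unfold sd
    rw [smy', hc]
  have key : ∀ v, v ≠ y' → v ≠ e → sd G (symmDiff S {x, e, y'}) v ≤ 1 := by
    intro v hvy hve
    by_cases hvx : v = x
    · subst hvx
      have h0 := sd_mem G (S := S) (F := {v, e, y'}) (v := v) (by simp)
      have e1 : (op G S v \ {v, e, y'}).card ≤ 1 := card_le_of (x := f) (fun w hw => by
        rw [Finset.mem_sdiff, h.ox, hmem, Finset.mem_insert, Finset.mem_singleton] at hw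
        tauto)
      have e2 : sm G S v ∩ {v, e, y'} = ∅ := by
        rw [Finset.eq_empty_iff_forall_notMem]
        intro w hw
        rw [Finset.mem_inter, hmem, h.sx, Finset.mem_singleton] at hw
        rcases hw.2 with h1 | h1 | h1
        · exact h.xx' (h1.symm.trans hw.1)
        · exact ne_bw h.x'S h.eS (hw.1.symm.trans h1)
        · exact h.x'y' (hw.1.symm.trans h1)
      rw [e2, Finset.card_empty] at h0
      omega
    have hvF : v ∉ ({x, e, y'} : Finset V) := by
      rw [hmem]; tauto
    by_cases hvf : v = f
    · subst hvf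
      refine sd_zero G hvF (sd_emp h.sf) (x := x) (fun w hw hF => ?_)
      rcases (hmem w).1 hF with h1 | h1 | h1
      · exact h1
      · subst h1
        have := StructAux.op_white h.fS hw
        exact absurd this h.eS
      · subst h1
        exact absurd hw y'f
    by_cases hvo : v = o
    · subst hvo
      rcases hi with hi | hi
      · refine sd_zero G hvF (sd_emp hi) (x := e) (fun w hw hF => ?_)
        rcases (hmem w).1 hF with h1 | h1 | h1
        · subst h1
          exact absurd h.xS (StructAux.op_black h.oS hw)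
        · exact h1
        · subst h1
          exact absurd h.y'S (StructAux.op_black h.oS hw)
      · refine le_one_of (x := e) hvF ?_ ?_
        · intro w hw
          rw [hi, h.sx', Finset.mem_singleton] at hw
          rw [hmem]; exact Or.inl hw
        · intro w hw hF
          rcases (hmem w).1 hF with h1 | h1 | h1
          · subst h1
            exact absurd h.xS (StructAux.op_black h.oS hw)
          · exact h1
          · subst h1
            exact absurd h.y'S (StructAux.op_black h.oS hw)
    by_cases hvyy : v = y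
    · subst hvyy
      refine le_one_of (x := e) hvF ?_ ?_
      · intro w hw
        rw [h.sy, Finset.mem_singleton] at hw
        rw [hmem]; exact Or.inr (Or.inr hw)
      · intro w hw hF
        rcases (hmem w).1 hF with h1 | h1 | h1
        · subst h1
          exact absurd h.xS (StructAux.op_black h.yS hw)
        · exact h1
        · subst h1
          exact absurd h.y'S (StructAux.op_black h.yS hw)
    by_cases hvz : y' ∈ op G S v
    · have hvop : v ∈ op G S y' := op_symm hvz
      have hvS : v ∉ S := StructAux.op_black h.y'S hvop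
      refine sd_zero G hvF (hz'.2.2 v hvop) (x := y') (fun w hw hF => ?_)
      rcases (hmem w).1 hF with h1 | h1 | h1
      · subst h1
        have h2 := op_symm hw
        rw [h.ox, Finset.mem_insert, Finset.mem_singleton] at h2
        rcases h2 with h2 | h2
        · exact absurd h2 hve
        · exact absurd h2 hvf
      · subst h1
        exact absurd (StructAux.op_white hvS hw) h.eS
      · exact h1
    refine sd_far G htf hvF ?_
    rw [Finset.eq_empty_iff_forall_notMem]
    intro w hw
    rw [Finset.mem_inter, hmem] at hw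
    rcases hw.2 with h1 | h1 | h1
    · subst h1
      have h2 := op_symm hw.1
      rw [h.ox, Finset.mem_insert, Finset.mem_singleton] at h2
      tauto
    · subst h1
      have h2 := op_symm hw.1
      rw [h.oe, Finset.mem_insert, Finset.mem_insert, Finset.mem_singleton] at h2
      tauto
    · subst h1
      exact hvz hw.1
  have eT : e ∈ symmDiff S {x, e, y'} := by
    rw [Finset.mem_symmDiff]
    exact Or.inr ⟨by simp, h.eS⟩
  have y'T : y' ∉ symmDiff S {x, e, y'} := by
    rw [Finset.mem_symmDiff]
    rintro (⟨-, h1⟩ | ⟨-, h1⟩)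
    · exact h1 (by simp)
    · exact h1 h.y'S
  refine mk_eff G (fun v => ?_) ?_
    (cls_one G (closed_T G _) eT sde fun v hv h2 => ?_)
    (cls_one G (closed_Tc G _) (Finset.mem_compl.2 y'T) sdy' fun v hv h2 => ?_)
  · by_cases hv : v = y'
    · rw [hv, sdy']
    · by_cases hv' : v = e
      · rw [hv', sde]
      · exact (key v hv hv').trans (by norm_num)
  · have e1 : ({x, e, y'} : Finset V) \ S = {e} := by
      ext w
      rw [Finset.mem_sdiff, hmem, Finset.mem_singleton]
      constructor
      · rintro ⟨h1 | h1 | h1, h2⟩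
        · exact absurd (h1 ▸ h.xS) h2
        · exact h1
        · exact absurd (h1 ▸ h.y'S) h2
      · rintro rfl
        exact ⟨Or.inr (Or.inl rfl), h.eS⟩
    have e2 : ({x, e, y'} : Finset V) ∩ S = {x, y'} := by
      ext w
      rw [Finset.mem_inter, hmem, Finset.mem_insert, Finset.mem_singleton]
      constructor
      · rintro ⟨h1 | h1 | h1, h2⟩
        · exact Or.inl h1
        · exact absurd (h1 ▸ h2) h.eS
        · exact Or.inr h1
      · rintro (rfl | rfl)
        · exact ⟨Or.inl rfl, h.xS⟩
        · exact ⟨Or.inr (Or.inr rfl), h.y'S⟩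
    rw [e1, e2, Finset.card_pair h.xy']
    simp
  · by_contra h1
    by_cases h3 : v = y'
    · exact y'T (h3 ▸ hv)
    · have := key v h3 h1
      omega
  · by_contra h1
    by_cases h3 : v = e
    · exact (Finset.mem_compl.1 hv) (h3 ▸ eT)
    · have := key v h1 h3
      omega

/-- Every option of an arm of type alpha. -/
theorem eff_opts {k : ℕ} {S : Finset V} {X Y : Finset (Finset V)} (c : Ctx G k S X Y)
    {x y e o : V} (h : SwE G S x y e o) {F : Finset V} (hF : F ∈ opts G S x y e) :
    Eff G S F (-1) 1 0 1 0 := by
  obtain ⟨f, p, x', y', hs⟩ := h.toSw c.reg c.hk c.nt c.lev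
  have main : ∀ {x y x' y' : V}, Sw G S x y e f o p x' y' → y' ∈ sites G S →
      Eff G S {x, e, y'} (-1) 1 0 1 0 := by
    intro x y x' y' hs hy
    refine eff_alp c.reg c.lev.tf hs ?_ hy ?_
    · rcases hs.io with h1 | h1 | h1
      · exact Or.inl h1
      · exact Or.inr h1
      · exact absurd hy (hs.swapS.inner c.reg c.hk c.nt c.lev h1)
    · intro h1
      exact hs.swapS.swapE.inner c.reg c.hk c.nt c.lev h1 hy
  unfold opts at hF
  rw [Finset.mem_union] at hF
  rcases hF with hF | hF
  · rw [SwAux.pt_eq hs.sy] at hF
    split_ifs at hF with h1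
    · rw [Finset.mem_singleton] at hF
      rw [hF]
      exact main hs h1
    · simp at hF
  · rw [SwAux.pt_eq hs.sx] at hF
    split_ifs at hF with h1
    · rw [Finset.mem_singleton] at hF
      rw [hF]
      exact main hs.swapS h1
    · simp at hF

/-- The operation of an arm of type N. -/
theorem eff_nsw_ctx {k : ℕ} {S : Finset V} {X Y : Finset (Finset V)} (c : Ctx G k S X Y)
    {x y e o x' : V} (h : SwE G S x y e o) (hx' : x' = x ∨ x' = y) (hi : Iso G S x' o) :
    Eff G S {x', e} 0 2 2 0 0 := by
  obtain ⟨f, p, x1, y1, hs⟩ := h.toSw c.reg c.hk c.nt c.lev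
  have main : ∀ {x y x' y' : V}, Sw G S x y e f o p x' y' → Iso G S x o →
      Eff G S {x, e} 0 2 2 0 0 := by
    intro x y x' y' hs hi
    refine eff_nsw c.lev.tf hs ?_
    rcases hi with h1 | h1
    · exact Or.inl (Finset.card_eq_zero.1 h1)
    · rw [hs.sx, Finset.mem_singleton] at h1
      exact Or.inr h1
  rcases hx' with rfl | rfl
  · exact main hs hi
  · exact main hs.swapS hi

end Pool.Agent.Lib.AndoD
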