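import Pool.Agent.Lib.AndoD.Core
import Pool.Agent.Lib.Ando.OpZZ
import Pool.Agent.Lib.Ando.OpZL

/-!
# AndoD.OpTok: the tokens `{x}`, `x` the resource of an arm of stage at least 3, and `{s}`, `s` a
site
-/

set_option autoImplicit false
set_option linter.unusedSectionVars false

namespace Pool.Agent.Lib.AndoD

open Pool.Agent.Lib.Ando Pool.Agent.Lib.AndoC

variable {V : Type*} [Fintype V] [DecidableEq V] {G : SimpleGraph V} [DecidableRel G.Adj]

/-- The token of a site. -/
theorem eff_site (hG : G.IsRegularOfDegree 3) {S : Finset V} (htf : ∀ v, sd G S v ≤ 1) {s : V}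
    (hs : s ∈ sites G S) : Eff G S {s} (-1) 0 0 1 0 := by
  have us := StructAux.mem_sites.1 hs
  have h2 := BasicAux.op_card_two hG us.2.1
  obtain ⟨b, b', hbb, hop⟩ := Finset.card_eq_two.1 h2
  exact eff_zz G htf us.1 hop hbb (us.2.2 b (by rw [hop]; simp)) (us.2.2 b' (by rw [hop]; simp))

/-- The token of a resource. -/
theorem eff_res {k : ℕ} {S : Finset V} {X Y : Finset (Finset V)} (h : Ctx G k S X Y) {u b : V}
    {d : Dat V} (ha : (u, b) ∈ arms G S X) (hd : AD G S u b d) (h3 : 3 ≤ d.st) :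
    Eff G S {d.res} (-1) 0 0 2 2 := by
  obtain ⟨h1, -, -, ⟨c, l, h2, h4, h5⟩, -, -⟩ := res_facts h ha hd h3
  exact eff_zl G h.lev.tf h1 h2 h4 h5

end Pool.Agent.Lib.AndoD
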