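import Pool.Agent.Lib.AndoD.OpUb
import Pool.Agent.Lib.AndoD.OpCap
import Pool.Agent.Lib.AndoD.OpTok
import Pool.Agent.Lib.AndoD.OpSw
import Pool.Agent.Lib.AndoD.SwBase

/-!
# AndoD.OpAll: the effect of every option of every arm
-/

set_option autoImplicit false
set_option linter.unusedSectionVars false

namespace Pool.Agent.Lib.AndoD

open Pool.Agent.Lib.Ando Pool.Agent.Lib.AndoC

variable {V : Type*} [Fintype V] [DecidableEq V] {G : SimpleGraph V} [DecidableRel G.Adj]


/-- The effect of the options. -/
theorem eff_AD {k : ℕ} {S : Finset V} {X Y : Finset (Finset V)} (h : Ctx G k S X Y) {u b : V}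
    {d : Dat V} (hd : AD G S u b d) {F : Finset V} (hF : F ∈ d.Fs) :
    (d.st ≤ 1 → Eff G S F 0 1 0 0 0) ∧ (d.st = 2 → Eff G S F (-1) 1 0 1 0) ∧
      (3 ≤ d.st → Eff G S F 0 2 2 0 0) := by
  cases hd with
  | ub0 h1 _ _ =>
    rw [Finset.mem_singleton] at hF
    subst hF
    exact ⟨fun _ => eff_ub3 h.reg h.lev.tf h1, fun h2 => absurd h2 (by norm_num),
      fun h2 => absurd h2 (by norm_num)⟩
  | ub1 h1 _ =>
    rw [Finset.mem_singleton] at hF
    subst hF
    exact ⟨fun _ => eff_ub3 h.reg h.lev.tf h1, fun h2 => absurd h2 (by norm_num),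
      fun h2 => absurd h2 (by norm_num)⟩
  | cap1 h1 h5 =>
    rw [Finset.mem_singleton] at hF
    subst hF
    exact ⟨fun _ => eff_cap1 h.reg h.lev.tf h1 h5, fun h2 => absurd h2 (by norm_num),
      fun h2 => absurd h2 (by norm_num)⟩
  | alp h1 h5 =>
    refine ⟨fun h2 => absurd h2 (by norm_num), fun _ => ?_, fun h2 => absurd h2 (by norm_num)⟩
    exact eff_opts h h1 hF
  | nsw h1 _ _ h5 h6 =>
    rw [Finset.mem_singleton] at hF
    subst hF
    refine ⟨fun h2 => absurd h2 (by norm_num), fun h2 => absurd h2 (by norm_num), fun _ => ?_⟩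
    exact eff_nsw_ctx h h1 h5 h6
  | ub4 h1 =>
    rw [Finset.mem_singleton] at hF
    subst hF
    exact ⟨fun h2 => absurd h2 (by norm_num), fun h2 => absurd h2 (by norm_num),
      fun _ => eff_ub4 h.reg h.lev.tf h1⟩
  | cap4 h1 h5 h6 _ =>
    rw [Finset.mem_singleton] at hF
    subst hF
    exact ⟨fun h2 => absurd h2 (by norm_num), fun h2 => absurd h2 (by norm_num),
      fun _ => eff_cap4 h.reg h.lev.tf h1 h5 h6⟩
  | cap5 h1 h5 =>
    rw [Finset.mem_singleton] at hF
    subst hF
    refine ⟨fun h2 => absurd h2 (by norm_num), fun h2 => absurd h2 (by norm_num), fun _ => ?_⟩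
    subst h5
    refine eff_cap4 h.reg h.lev.tf h1 ?_ ?_
    · unfold sd; rw [h1.sq', Finset.card_singleton]
    · intro h7
      have h8 := sm_symm h7
      rw [h1.sq', Finset.mem_singleton] at h8
      exact h1.uq h8

theorem Fs_nonempty {S : Finset V} {u b : V} {d : Dat V} (hd : AD G S u b d) :
    d.Fs.Nonempty ∧ ∀ F ∈ d.Fs, F.Nonempty := by
  have one : ∀ {F : Finset V}, F.Nonempty → ({F} : Finset (Finset V)).Nonempty ∧
      ∀ F' ∈ ({F} : Finset (Finset V)), F'.Nonempty := by
    intro F hF
    refine ⟨Finset.singleton_nonempty _, fun F' h => ?_⟩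
    rw [Finset.mem_singleton] at h
    rw [h]; exact hF
  cases hd with
  | ub0 h1 _ _ => exact one (Finset.insert_nonempty _ _)
  | ub1 h1 _ => exact one (Finset.insert_nonempty _ _)
  | cap1 h1 h5 => exact one (Finset.insert_nonempty _ _)
  | nsw h1 _ _ h5 h6 => exact one (Finset.insert_nonempty _ _)
  | ub4 h1 => exact one (Finset.insert_nonempty _ _)
  | cap4 h1 h5 h6 _ => exact one (Finset.insert_nonempty _ _)
  | cap5 h1 h5 => exact one (Finset.insert_nonempty _ _)
  | alp h1 h5 =>
    constructor
    · rename_i y o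
      rcases h5 with h5 | h5
      · refine ⟨{y, b, pt G S u}, Finset.mem_union_right _ ?_⟩
        rw [if_pos h5]; exact Finset.mem_singleton_self _
      · refine ⟨{u, b, pt G S y}, Finset.mem_union_left _ ?_⟩
        rw [if_pos h5]; exact Finset.mem_singleton_self _
    · intro F hF
      rcases Finset.mem_union.1 hF with hF | hF
      · split_ifs at hF with hz
        · rw [Finset.mem_singleton] at hF
          subst hF
          exact Finset.insert_nonempty _ _
        · exact absurd hF (Finset.notMem_empty _)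
      · split_ifs at hF with hz
        · rw [Finset.mem_singleton] at hF
          subst hF
          exact Finset.insert_nonempty _ _
        · exact absurd hF (Finset.notMem_empty _)

end Pool.Agent.Lib.AndoD
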