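import Mathlib

/-!
# AndoD.PackS: the greedy choice of the sites (abstract, Mathlib only)

Proof. Induction on n: Q for n; the members of A not disjoint from R (at most c) or from T3 s for
some s in Q (at most 3 each, `h3`) are at most c + 3 n < card A; take another one; it is not in Q
since T3 s is not empty.
-/

set_option autoImplicit false

namespace Pool.Agent.Lib.AndoD

variable {σ V : Type*} [DecidableEq σ] [DecidableEq V]

open Classical in
theorem packS (A : Finset σ) (T3 : σ → Finset V) (R : Finset V) (c : ℕ)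
    (hne : ∀ s ∈ A, (T3 s).Nonempty)
    (hR : (A.filter (fun s => ¬ Disjoint (T3 s) R)).card ≤ c)
    (h3 : ∀ s ∈ A, (A.filter (fun s' => ¬ Disjoint (T3 s') (T3 s))).card ≤ 3)
    (n : ℕ) (hc : c + 3 * n < A.card + 3) :
    ∃ Q : Finset σ, Q ⊆ A ∧ Q.card = n ∧ (∀ s ∈ Q, ∀ s' ∈ Q, s ≠ s' → Disjoint (T3 s) (T3 s')) ∧
      (∀ s ∈ Q, Disjoint (T3 s) R) := by
  induction n with
  | zero =>
    refine ⟨∅, by simp, by simp, ?_, ?_⟩
    · intro s hs; simp at hs
    · intro s hs; simp at hs
  | succ n ih =>
    obtain ⟨Q, hQ, hcard, hdis, hR'⟩ := ih (by omega)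
    have hB1 : (Q.biUnion (fun s => A.filter (fun s' => ¬ Disjoint (T3 s') (T3 s)))).card ≤
        Q.card * 3 :=
      Finset.card_biUnion_le_card_mul _ _ _ (fun s hs => h3 s (hQ hs))
    have hB2 : (A.filter (fun s => ¬ Disjoint (T3 s) R) ∪
        Q.biUnion (fun s => A.filter (fun s' => ¬ Disjoint (T3 s') (T3 s)))).card < A.card := by
      refine lt_of_le_of_lt (Finset.card_union_le _ _) ?_
      rw [hcard] at hB1
      omega
    obtain ⟨s, hsA, hsB⟩ := Finset.exists_mem_notMem_of_card_lt_card hB2
    rw [Finset.mem_union, not_or] at hsB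
    obtain ⟨hs1, hs2⟩ := hsB
    have hsR : Disjoint (T3 s) R := by
      by_contra hh
      exact hs1 (Finset.mem_filter.2 ⟨hsA, hh⟩)
    have hsQ : ∀ s' ∈ Q, Disjoint (T3 s) (T3 s') := by
      intro s' hs'
      by_contra hh
      exact hs2 (Finset.mem_biUnion.2 ⟨s', hs', Finset.mem_filter.2 ⟨hsA, hh⟩⟩)
    have hnot : s ∉ Q := by
      intro hh
      have h1 := hsQ s hh
      rw [disjoint_self] at h1
      exact (hne s hsA).ne_empty h1
    refine ⟨insert s Q, ?_, ?_, ?_, ?_⟩
    · exact Finset.insert_subset hsA hQ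
    · rw [Finset.card_insert_of_notMem hnot, hcard]
    · intro a ha b hb hab
      rw [Finset.mem_insert] at ha hb
      rcases ha with rfl | ha <;> rcases hb with rfl | hb
      · exact absurd rfl hab
      · exact hsQ b hb
      · exact (hsQ a ha).symm
      · exact hdis a ha b hb hab
    · intro a ha
      rw [Finset.mem_insert] at ha
      rcases ha with rfl | ha
      · exact hsR
      · exact hR' a ha

end Pool.Agent.Lib.AndoD
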