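import Pool.Agent.Lib.AndoD.PackB
import Pool.Agent.Lib.AndoD.PackS
import Pool.Agent.Lib.AndoD.Defs
import Pool.Agent.Lib.Ando.Assem

/-!
# AndoD.PackG: from the bounds to a good colouring

`packB` gives the arms `P` and the resources `Q`, `packS` the sites `Q'`; `assemble` gives `Good G`.
-/

set_option autoImplicit false
set_option linter.unusedSectionVars false

namespace Pool.Agent.Lib.AndoD

open Pool.Agent.Lib.Ando Pool.Agent.Lib.AndoC

variable {V : Type*} [Fintype V] [DecidableEq V] {G : SimpleGraph V} [DecidableRel G.Adj]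

namespace PackGAux

theorem ter_nonempty {S F : Finset V} (h : F.Nonempty) : (ter G S F).Nonempty := by
  obtain ⟨x, hx⟩ := h
  refine ⟨x, ?_⟩
  unfold ter
  rw [Finset.mem_union, Finset.mem_union]
  exact Or.inl (Or.inl hx)

end PackGAux

open PackGAux

open Classical in
/-- The final count. -/
theorem pack_good (hG : G.IsRegularOfDegree 3) {k : ℕ} {S : Finset V} (himb : imb S = 2 * k)
    (htf : ∀ v, sd G S v ≤ 1) (A : Finset (V × V)) (st : V × V → ℕ)
    (Fs : V × V → Finset (Finset V)) (res : V × V → V) (TB : V × V → Finset V) (As : Finset V)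
    (hTB : ∀ a, TB a = if 3 ≤ st a then ter G S {res a} else ∅)
    (hA : 12 * k ≤ A.card) (hAs : 6 * k ≤ As.card) (h4 : ∀ a ∈ A, st a ≤ 4)
    (hFs : ∀ a ∈ A, (Fs a).Nonempty) (hne : ∀ a ∈ A, ∀ F ∈ Fs a, F.Nonempty)
    (e1 : ∀ a ∈ A, ∀ F ∈ Fs a, st a ≤ 1 → Eff G S F 0 1 0 0 0)
    (e2 : ∀ a ∈ A, ∀ F ∈ Fs a, st a = 2 → Eff G S F (-1) 1 0 1 0)
    (e3 : ∀ a ∈ A, ∀ F ∈ Fs a, 3 ≤ st a → Eff G S F 0 2 2 0 0)
    (e4 : ∀ a ∈ A, 3 ≤ st a → Eff G S {res a} (-1) 0 0 2 2)
    (e5 : ∀ s ∈ As, Eff G S {s} (-1) 0 0 1 0)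
    (H : ∀ R : Finset V, (∃ a ∈ A, Alive Fs (ter G S) R a) →
      ∃ a f, StepOK A st Fs (ter G S) TB R a f)
    (Hb : ∀ a ∈ A, 3 ≤ st a →
      (A.filter (fun a' => 3 ≤ st a' ∧ ¬ Disjoint (TB a') (TB a))).card ≤ 6)
    (S1 : ∀ a ∈ A, ∀ F ∈ Fs a, st a ≠ 2 →
      (As.filter (fun s => ¬ Disjoint (ter G S {s}) (ter G S F))).card ≤ 3)
    (S2 : ∀ a ∈ A, ∀ F ∈ Fs a, st a = 2 →
      (As.filter (fun s => ¬ Disjoint (ter G S {s}) (ter G S F))).card ≤ 6)
    (S3 : ∀ a ∈ A, 3 ≤ st a →
      (As.filter (fun s => ¬ Disjoint (ter G S {s}) (TB a))).card ≤ 3)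
    (S4 : ∀ s ∈ As,
      (As.filter (fun s' => ¬ Disjoint (ter G S {s'}) (ter G S {s}))).card ≤ 3) : Good G := by
  obtain ⟨P, Q, hPc, hPA, hPP, hQA, hQst, hQc, hQQ, hQP⟩ := packB A st Fs (ter G S) TB h4 hFs
    (fun a ha f hf => ter_nonempty (hne a ha f hf))
    (fun a ha h3 => by rw [hTB, if_pos h3]; exact ter_nonempty (Finset.singleton_nonempty _))
    H Hb k hA
  set m := (P.filter (fun p => 3 ≤ st p.1)).card with hm
  set j := (P.filter (fun p => st p.1 = 2)).card with hj
  set i := (P.filter (fun p => st p.1 ≤ 1)).card with hi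
  have hsum : i + j + m = k := by
    rw [← hPc, hi, hj, hm]
    have e : P = P.filter (fun p => st p.1 ≤ 1) ∪ P.filter (fun p => st p.1 = 2) ∪
        P.filter (fun p => 3 ≤ st p.1) := by
      ext p
      simp only [Finset.mem_union, Finset.mem_filter]
      constructor
      · intro h
        have : st p.1 ≤ 1 ∨ st p.1 = 2 ∨ 3 ≤ st p.1 := by omega
        tauto
      · tauto
    conv_rhs => rw [e]
    rw [Finset.card_union_of_disjoint, Finset.card_union_of_disjoint]
    · rw [Finset.disjoint_left]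
      intro p hp hp'
      have h1 := (Finset.mem_filter.1 hp).2
      have h2 := (Finset.mem_filter.1 hp').2
      omega
    · rw [Finset.disjoint_left]
      intro p hp hp'
      have h2 := (Finset.mem_filter.1 hp').2
      rcases Finset.mem_union.1 hp with hp | hp
      · have h1 := (Finset.mem_filter.1 hp).2
        omega
      · have h1 := (Finset.mem_filter.1 hp).2
        omega
  set R : Finset V := P.biUnion (fun p => ter G S p.2) ∪ Q.biUnion TB with hR
  have hRc : (As.filter (fun s => ¬ Disjoint (ter G S {s}) R)).card ≤ 3 * i + 6 * j + 6 * m := by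
    have hsub : As.filter (fun s => ¬ Disjoint (ter G S {s}) R) ⊆
        P.biUnion (fun p => As.filter (fun s => ¬ Disjoint (ter G S {s}) (ter G S p.2))) ∪
          Q.biUnion (fun a => As.filter (fun s => ¬ Disjoint (ter G S {s}) (TB a))) := by
      intro s hs
      obtain ⟨hsA, hsR⟩ := Finset.mem_filter.1 hs
      obtain ⟨y, hy, hyR⟩ := Finset.not_disjoint_iff.1 hsR
      rw [hR, Finset.mem_union, Finset.mem_biUnion, Finset.mem_biUnion] at hyR
      rw [Finset.mem_union, Finset.mem_biUnion, Finset.mem_biUnion]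
      rcases hyR with ⟨p, hp, hyp⟩ | ⟨a, ha, hya⟩
      · exact Or.inl ⟨p, hp, Finset.mem_filter.2 ⟨hsA, Finset.not_disjoint_iff.2 ⟨y, hy, hyp⟩⟩⟩
      · exact Or.inr ⟨a, ha, Finset.mem_filter.2 ⟨hsA, Finset.not_disjoint_iff.2 ⟨y, hy, hya⟩⟩⟩
    refine (Finset.card_le_card hsub).trans ((Finset.card_union_le _ _).trans ?_)
    have h1 : (P.biUnion (fun p => As.filter
        (fun s => ¬ Disjoint (ter G S {s}) (ter G S p.2)))).card ≤ 3 * i + 6 * j + 3 * m := by
      refine Finset.card_biUnion_le.trans ?_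
      have hle : ∀ p ∈ P, (As.filter (fun s => ¬ Disjoint (ter G S {s}) (ter G S p.2))).card ≤
          (if st p.1 ≤ 1 then 3 else 0) + (if st p.1 = 2 then 6 else 0) +
            (if 3 ≤ st p.1 then 3 else 0) := by
        intro p hp
        obtain ⟨hpA, hpF⟩ := hPA p hp
        by_cases h2 : st p.1 = 2
        · have := S2 p.1 hpA p.2 hpF h2
          simp only [h2]
          simpa using this
        · have := S1 p.1 hpA p.2 hpF h2
          have h3 : st p.1 ≤ 1 ∨ 3 ≤ st p.1 := by omega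
          rcases h3 with h3 | h3
          · rw [if_pos h3]; omega
          · rw [if_pos h3]; omega
      refine (Finset.sum_le_sum hle).trans ?_
      rw [Finset.sum_add_distrib, Finset.sum_add_distrib, ← Finset.sum_filter,
        ← Finset.sum_filter, ← Finset.sum_filter, Finset.sum_const, Finset.sum_const,
        Finset.sum_const, ← hi, ← hj, ← hm]
      simp only [smul_eq_mul]
      omega
    have h2 : (Q.biUnion (fun a => As.filter
        (fun s => ¬ Disjoint (ter G S {s}) (TB a)))).card ≤ 3 * m := by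
      refine Finset.card_biUnion_le.trans ?_
      refine (Finset.sum_le_card_nsmul _ _ 3 (fun a ha => S3 a (hQA ha) (hQst a ha))).trans ?_
      rw [hQc, smul_eq_mul]
      omega
    omega
  obtain ⟨Q', hQ's, hQ'c, hQ'Q', hQ'R⟩ := packS As (fun s => ter G S {s}) R
    (3 * i + 6 * j + 6 * m) (fun s _ => ter_nonempty (Finset.singleton_nonempty _)) hRc S4 i
    (by omega)
  have hQ'P : ∀ s ∈ Q', ∀ p ∈ P, Disjoint (ter G S {s}) (ter G S p.2) := by
    intro s hs p hp
    refine (hQ'R s hs).mono_right ?_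
    intro y hy
    rw [hR, Finset.mem_union, Finset.mem_biUnion]
    exact Or.inl ⟨p, hp, hy⟩
  have hQ'Q : ∀ s ∈ Q', ∀ a ∈ Q, Disjoint (ter G S {s}) (TB a) := by
    intro s hs a ha
    refine (hQ'R s hs).mono_right ?_
    intro y hy
    rw [hR, Finset.mem_union, Finset.mem_biUnion, Finset.mem_biUnion]
    exact Or.inr ⟨a, ha, hy⟩
  have hTBt : ∀ a ∈ Q, TB a = ter G S {res a} := fun a ha => by rw [hTB, if_pos (hQst a ha)]
  -- the effects
  refine assemble hG himb htf (I := ((V × V) × Finset V) ⊕ ((V × V) ⊕ V))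
    (P.disjSum (Q.disjSum Q'))
    (Sum.elim (fun p => p.2) (Sum.elim (fun a => {res a}) (fun s => {s}))) ?_
    (Sum.elim (fun p => if st p.1 = 2 then -1 else 0) (Sum.elim (fun _ => -1) (fun _ => -1)))
    (Sum.elim (fun p => if 3 ≤ st p.1 then 2 else 1) (Sum.elim (fun _ => 0) (fun _ => 0)))
    (Sum.elim (fun p => if 3 ≤ st p.1 then 2 else 0) (Sum.elim (fun _ => 0) (fun _ => 0)))
    (Sum.elim (fun p => if st p.1 = 2 then 1 else 0) (Sum.elim (fun _ => 2) (fun _ => 1)))
    (Sum.elim (fun _ => 0) (Sum.elim (fun _ => 2) (fun _ => 0)))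
    ?_ ?_ ?_ ?_
  · rintro (p | a | s) hi1 (p' | a' | s') hj1 hij <;>
      simp only [Finset.inl_mem_disjSum, Finset.inr_mem_disjSum] at hi1 hj1 <;>
      simp only [Sum.elim_inl, Sum.elim_inr]
    · exact hPP p hi1 p' hj1 (fun e => hij (by rw [e]))
    · have := hQP a' hj1 p hi1
      rw [hTBt a' hj1] at this
      exact this.symm
    · exact (hQ'P s' hj1 p hi1).symm
    · have := hQP a hi1 p' hj1
      rw [hTBt a hi1] at this
      exact this
    · have := hQQ a hi1 a' hj1 (fun e => hij (by rw [e]))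
      rw [hTBt a hi1, hTBt a' hj1] at this
      exact this
    · have := hQ'Q s' hj1 a hi1
      rw [hTBt a hi1] at this
      exact this.symm
    · exact hQ'P s hi1 p' hj1
    · have := hQ'Q s hi1 a' hj1
      rw [hTBt a' hj1] at this
      exact this
    · exact hQ'Q' s hi1 s' hj1 (fun e => hij (by rw [e]))
  · rintro (p | a | s) hi1 <;>
      simp only [Finset.inl_mem_disjSum, Finset.inr_mem_disjSum] at hi1 <;>
      simp only [Sum.elim_inl, Sum.elim_inr]
    · obtain ⟨hpA, hpF⟩ := hPA p hi1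
      have h3 : st p.1 ≤ 1 ∨ st p.1 = 2 ∨ 3 ≤ st p.1 := by omega
      rcases h3 with h3 | h3 | h3
      · rw [if_neg (by omega), if_neg (by omega), if_neg (by omega), if_neg (by omega)]
        exact e1 p.1 hpA p.2 hpF h3
      · rw [if_pos h3, if_neg (by omega), if_neg (by omega), if_pos h3]
        exact e2 p.1 hpA p.2 hpF h3
      · rw [if_neg (by omega), if_pos h3, if_pos h3, if_neg (by omega)]
        exact e3 p.1 hpA p.2 hpF h3
    · exact e4 a (hQA hi1) (hQst a hi1)
    · exact e5 s (hQ's hi1)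
  · rw [Finset.sum_disjSum, Finset.sum_disjSum]
    simp only [Sum.elim_inl, Sum.elim_inr]
    rw [← Finset.sum_filter, Finset.sum_const, Finset.sum_const, Finset.sum_const, ← hj, hQc,
      hQ'c]
    simp only [smul_eq_mul, nsmul_eq_mul]
    push_cast [← hsum]
    ring
  · rw [Finset.sum_disjSum, Finset.sum_disjSum, Finset.sum_disjSum, Finset.sum_disjSum]
    simp only [Sum.elim_inl, Sum.elim_inr]
    have h1 : ∀ p ∈ P, (if 3 ≤ st p.1 then 2 else 1 : ℕ) =
        1 + (if 3 ≤ st p.1 then 1 else 0) := by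
      intro p _
      split_ifs <;> rfl
    rw [Finset.sum_congr rfl h1, Finset.sum_add_distrib, ← Finset.sum_filter,
      ← Finset.sum_filter]
    simp only [Finset.sum_const, smul_eq_mul]
    rw [← hj, ← hm, hQc, hQ'c, hPc]
    omega
  · rw [Finset.sum_disjSum, Finset.sum_disjSum, Finset.sum_disjSum, Finset.sum_disjSum]
    simp only [Sum.elim_inl, Sum.elim_inr]
    rw [← Finset.sum_filter]
    simp only [Finset.sum_const, smul_eq_mul]
    rw [← hm, hQc]
    omega

end Pool.Agent.Lib.AndoD
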