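import Pool.Agent.Lib.AndoD.Bnd1
import Pool.Agent.Lib.AndoD.Bnd3
import Pool.Agent.Lib.AndoD.Bnd2
import Pool.Agent.Lib.AndoD.Bnd4
import Pool.Agent.Lib.AndoD.BndB
import Pool.Agent.Lib.AndoD.BndS
import Pool.Agent.Lib.AndoD.OpAll
import Pool.Agent.Lib.AndoD.OpTok
import Pool.Agent.Lib.AndoD.ExAD
import Pool.Agent.Lib.AndoD.PackG
import Pool.Agent.Lib.AndoD.Last

/-!
# AndoD.Fin: every cubic graph has a Strong Ando colouring
-/

set_option autoImplicit false
set_option linter.unusedSectionVars false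

namespace Pool.Agent.Lib.AndoD

open Pool.Agent.Lib.Ando Pool.Agent.Lib.AndoC

section

variable {V : Type*} [Fintype V] [DecidableEq V] {G : SimpleGraph V} [DecidableRel G.Adj]

variable {k : ℕ} {S : Finset V} {X Y : Finset (Finset V)} {dat : V × V → Dat V}

open Classical in
/-- The bounds for the arms of stage 0 and 1. -/
theorem step1 (h : Ctx G k S X Y) (hdat : DatOK G S X dat) {R : Finset V} {a : V × V}
    (ha : a ∈ arms G S X) (h1 : (dat a).st ≤ 1) {F : Finset V} (hF : F ∈ (dat a).Fs)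
    (hfree : Disjoint (ter G S F) R)
    (hleast : ∀ a' ∈ arms G S X, Alive (fun a => (dat a).Fs) (ter G S) R a' →
      (dat a).st ≤ (dat a').st) :
    StepOK (arms G S X) (fun a => (dat a).st) (fun a => (dat a).Fs) (ter G S)
      (fun a => tb G S (dat a)) R a F := by
  have hB := bnd1 h hdat ha h1 hF
  have hdies : ∀ a' ∈ arms G S X, Dies (fun a => (dat a).Fs) (ter G S) R F a' →
      (dat a).st ≤ (dat a').st ∧ ∃ y ∈ ter G S F, Hit G S (dat a') y := by
    rintro a' ha' ⟨⟨F', hF', hd1⟩, h5⟩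
    have h7 : ¬ Disjoint (ter G S F') (ter G S F) := by
      intro h8
      exact h5 ⟨F', hF', Finset.disjoint_union_right.2 ⟨hd1, h8⟩⟩
    obtain ⟨z, hz', hz⟩ := Finset.not_disjoint_iff.1 h7
    exact ⟨hleast a' ha' ⟨F', hF', hd1⟩, z, hz, Or.inl ⟨F', hF', hz'⟩⟩
  refine ⟨ha, hF, hfree, hleast, ?_, ?_, ?_, ?_⟩
  · exact CntAux.card_mono' hdies hB
  · intro _
    refine CntAux.card_mono' ?_ hB
    rintro a' ha' (⟨-, h5⟩ | ⟨h5, h6 | h6⟩)
    · exact hdies a' ha' h5
    · obtain ⟨F', hF', h7⟩ := h6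
      obtain ⟨z, hz', hz⟩ := Finset.not_disjoint_iff.1 h7
      exact ⟨by have h8 : 3 ≤ (dat a').st := h5
                omega, z, hz, Or.inl ⟨F', hF', hz'⟩⟩
    · obtain ⟨z, hz', hz⟩ := Finset.not_disjoint_iff.1 h6
      exact ⟨by have h8 : 3 ≤ (dat a').st := h5
                omega, z, hz, Or.inr hz'⟩
  · intro h4
    omega
  · intro h4
    omega

open Classical in
/-- The step. -/
theorem step_all (h : Ctx G k S X Y) (hdat : DatOK G S X dat) (R : Finset V)
    (hex : ∃ a ∈ arms G S X, Alive (fun a => (dat a).Fs) (ter G S) R a) :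
    ∃ a F, StepOK (arms G S X) (fun a => (dat a).st) (fun a => (dat a).Fs) (ter G S)
      (fun a => tb G S (dat a)) R a F := by
  obtain ⟨a1, ha1, hal1⟩ := hex
  obtain ⟨a, ha, hmin⟩ := Finset.exists_min_image
    ((arms G S X).filter (fun a => Alive (fun a => (dat a).Fs) (ter G S) R a))
    (fun a => (dat a).st) ⟨a1, Finset.mem_filter.2 ⟨ha1, hal1⟩⟩
  obtain ⟨ha, hal⟩ := Finset.mem_filter.1 ha
  have hleast : ∀ a' ∈ arms G S X, Alive (fun a => (dat a).Fs) (ter G S) R a' →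
      (dat a).st ≤ (dat a').st := fun a' ha' h1 => hmin a' (Finset.mem_filter.2 ⟨ha', h1⟩)
  obtain ⟨F, hF, hfree⟩ := hal
  have h4 := (core_facts h (hdat a ha)).2.2.2.2.2.2.1
  have hst : (dat a).st ≤ 1 ∨ (dat a).st = 2 ∨ (dat a).st = 3 ∨ (dat a).st = 4 := by omega
  rcases hst with hst | hst | hst | hst
  · exact ⟨a, F, step1 h hdat ha hst hF hfree hleast⟩
  · exact step2 h hdat R (fun a' ha' h1 => by have := hleast a' ha' h1; omega)
      ⟨a, ha, hst, F, hF, hfree⟩
  · exact ⟨a, F, step3 h hdat ha hst hF hfree hleast⟩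
  · exact ⟨a, F, step4 h hdat ha hst hF hfree hleast⟩

/-- The packing. -/
theorem good_ctx (h : Ctx G k S X Y) (h6 : 6 * k ≤ (actS G S X).card) : Good G := by
  classical
  have hex : ∀ a : V × V, ∃ d, a ∈ arms G S X → AD G S a.1 a.2 d := by
    intro a
    by_cases ha : a ∈ arms G S X
    · obtain ⟨d, hd⟩ := exists_AD_arm h (u := a.1) (b := a.2) ha
      exact ⟨d, fun _ => hd⟩
    · exact ⟨⟨0, ∅, a.1, a.1, ∅, ∅, ∅⟩, fun h1 => absurd h1 ha⟩
  choose dat hdat using hex
  have hOK : DatOK G S X dat := fun a ha => hdat a ha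
  refine pack_good h.reg h.lev.imb_eq h.lev.tf (arms G S X) (fun a => (dat a).st)
    (fun a => (dat a).Fs) (fun a => (dat a).res) (fun a => tb G S (dat a)) (actS G S X)
    (fun _ => rfl) ?_ h6 ?_ ?_ ?_ ?_ ?_ ?_ ?_ ?_ (step_all h hOK) ?_ ?_ ?_ ?_ ?_
  · rw [arms_card h.reg]; omega
  · exact fun a ha => (core_facts h (hOK a ha)).2.2.2.2.2.2.1
  · exact fun a ha => (Fs_nonempty (hOK a ha)).1
  · exact fun a ha => (Fs_nonempty (hOK a ha)).2
  · exact fun a ha F hF h1 => (eff_AD h (hOK a ha) hF).1 h1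
  · exact fun a ha F hF h1 => (eff_AD h (hOK a ha) hF).2.1 h1
  · exact fun a ha F hF h1 => (eff_AD h (hOK a ha) hF).2.2 h1
  · exact fun a ha h1 => eff_res h (u := a.1) (b := a.2) ha (hOK a ha) h1
  · exact fun s hs => eff_site h.reg h.lev.tf (Finset.mem_filter.1 hs).1
  · exact fun a ha h1 => bndB h hOK ha h1
  · exact fun a ha F hF h1 => bndS1 h (hOK a ha) hF h1
  · exact fun a ha F hF h1 => bndS2 h (hOK a ha) hF h1
  · exact fun a ha h1 => bndS3 h (u := a.1) (b := a.2) ha (hOK a ha) h1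
  · exact fun s hs => bndS4 h hs

end

universe u

/-- **The theorem.** Every cubic graph has a Strong Ando colouring all of whose components are
paths with at most four vertices. -/
theorem good_cubic (W : Type u) [Fintype W] [DecidableEq W] (H : SimpleGraph W)
    [DecidableRel H.Adj] (hH : H.IsRegularOfDegree 3) : Good H :=
  good_all (fun _ _ _ _ _ _ _ _ _ h h6 => good_ctx h h6) W H hH

end Pool.Agent.Lib.AndoD
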