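import Pool.Agent.Lib.AndoD.Defs
import Pool.Agent.Lib.AndoC.Basic
import Pool.Agent.Lib.Ando.OpZZ
import Pool.Agent.Lib.Ando.Struct

/-!
# AndoD.OpUb: the operations `{u, b}` (general graph)

`eff_pair3`: both other neighbours `p`, `q` of `b` are isolated after the flip of `u`: one white
path with three vertices.  `eff_pair4`: `p` is isolated after the flip of `u`, `w` keeps its
partner: one white path with four vertices.  Corollaries for `Ub3`, `Ub4` and for a switch.
-/

set_option autoImplicit false
set_option linter.unusedSectionVars false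

namespace Pool.Agent.Lib.AndoD

open Pool.Agent.Lib.Ando Pool.Agent.Lib.AndoC

variable {V : Type*} [Fintype V] [DecidableEq V] {G : SimpleGraph V} [DecidableRel G.Adj]

namespace OpUbAux

open Pool.Agent.Lib.Ando.OpZZAux

theorem memF {u b w : V} : w ∈ ({u, b} : Finset V) ↔ w = u ∨ w = b := by
  rw [Finset.mem_insert, Finset.mem_singleton]

/-- a vertex whose partners are flipped, with at most one flipped neighbour of the other colour -/
theorem le_one_of {S : Finset V} {v x : V} {F : Finset V} (hv : v ∉ F)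
    (h1 : ∀ w ∈ sm G S v, w ∈ F)
    (h2 : ∀ w ∈ op G S v, w ∈ F → w = x) : sd G (symmDiff S F) v ≤ 1 := by
  have h3 := sd_not_mem (G := G) (S := S) hv
  have e1 : sm G S v \ F = ∅ := by
    rw [Finset.eq_empty_iff_forall_notMem]
    intro w hw
    rw [Finset.mem_sdiff] at hw
    exact hw.2 (h1 w hw.1)
  have e2 : op G S v ∩ F ⊆ {x} := by
    intro w hw
    rw [Finset.mem_inter] at hw
    exact Finset.mem_singleton.2 (h2 w hw.1 hw.2)
  have e3 := Finset.card_le_card e2
  rw [Finset.card_singleton] at e3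
  rw [e1, Finset.card_empty, zero_add] at h3
  exact h3.trans e3

/-- the partners of an `Iso` vertex are the flipped site -/
theorem iso_sm {S : Finset V} (htf : ∀ v, sd G S v ≤ 1) {u p : V} (h : Iso G S u p) :
    ∀ w ∈ sm G S p, w = u := by
  intro w hw
  rcases h with h | h
  · have : sm G S p = ∅ := Finset.card_eq_zero.1 h
    rw [this] at hw
    exact absurd hw (Finset.notMem_empty w)
  · have hu : u ∈ sm G S p := sm_symm h
    exact Finset.card_le_one.1 (htf p) w hw u hu

/-- the common facts -/
structure PF (G : SimpleGraph V) [DecidableRel G.Adj] (S : Finset V) (u b b' p q : V) : Prop where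
  uS : u ∈ S
  bS : b ∉ S
  bS' : b' ∉ S
  pS : p ∈ S
  qS : q ∈ S
  ou : op G S u = {b, b'}
  bb : b ≠ b'
  db : sd G S b = 0
  db' : sd G S b' = 0
  ob : op G S b = {u, p, q}
  up : u ≠ p
  uq : u ≠ q
  pq : p ≠ q

variable {S : Finset V} {u b b' p q : V}

theorem hub (h : PF G S u b b' p q) : u ≠ b := by rintro rfl; exact h.bS h.uS

theorem nF (h : PF G S u b b' p q) : p ∉ ({u, b} : Finset V) ∧ q ∉ ({u, b} : Finset V) := by
  constructor
  · rw [memF]; rintro (h1 | h1)
    · exact h.up h1.symm
    · exact h.bS (h1 ▸ h.pS)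
  · rw [memF]; rintro (h1 | h1)
    · exact h.uq h1.symm
    · exact h.bS (h1 ▸ h.qS)

theorem hout (htf : ∀ v, sd G S v ≤ 1) (h : PF G S u b b' p q) (hp : Iso G S u p) {v : V}
    (hv : v ∉ ({u, b} : Finset V)) (hvq : v ≠ q) : sd G (symmDiff S {u, b}) v ≤ 1 := by
  have hv' := hv
  rw [memF] at hv'
  push Not at hv'
  by_cases huv : u ∈ op G S v
  · have h1 : v ∈ op G S u := op_symm huv
    rw [h.ou, Finset.mem_insert, Finset.mem_singleton] at h1
    have h2 : v = b' := h1.resolve_left hv'.2
    subst h2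
    refine sd_zero G hv h.db' (x := u) (fun w hw hF => ?_)
    rcases memF.1 hF with h3 | h3
    · exact h3
    · subst h3
      exact absurd (StructAux.op_white h.bS' hw) h.bS
  · by_cases hbv : b ∈ op G S v
    · have h1 : v ∈ op G S b := op_symm hbv
      rw [h.ob, Finset.mem_insert, Finset.mem_insert, Finset.mem_singleton] at h1
      have h2 : v = p := by
        rcases h1 with h1 | h1 | h1
        · exact absurd h1 hv'.1
        · exact h1
        · exact absurd h1 hvq
      subst h2
      refine le_one_of (x := b) hv ?_ ?_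
      · intro w hw
        rw [iso_sm htf hp w hw]; simp
      · intro w hw hF
        rcases memF.1 hF with h3 | h3
        · subst h3; exact absurd hw huv
        · exact h3
    · refine sd_far G htf hv ?_
      rw [Finset.eq_empty_iff_forall_notMem]
      intro w hw
      rw [Finset.mem_inter, memF] at hw
      rcases hw.2 with h3 | h3
      · exact huv (h3 ▸ hw.1)
      · exact hbv (h3 ▸ hw.1)

theorem hu1 (h : PF G S u b b' p q) : sd G (symmDiff S {u, b}) u ≤ 1 := by
  have h1 := sd_mem G (S := S) (F := {u, b}) (v := u) (by simp)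
  have e1 : op G S u \ {u, b} ⊆ {b'} := by
    intro w hw
    rw [Finset.mem_sdiff, h.ou, memF, Finset.mem_insert, Finset.mem_singleton] at hw
    rw [Finset.mem_singleton]
    tauto
  have e2 : sm G S u ∩ {u, b} = ∅ := by
    rw [Finset.eq_empty_iff_forall_notMem]
    intro w hw
    rw [Finset.mem_inter, memF] at hw
    rcases hw.2 with h3 | h3
    · rw [h3] at hw
      exact sm_irrefl G S u hw.1
    · rw [h3] at hw
      exact h.bS ((mem_sm.1 hw.1).2.2 h.uS)
  have h2 := Finset.card_le_card e1
  rw [Finset.card_singleton] at h2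
  rw [e2, Finset.card_empty, add_zero] at h1
  exact h1.trans h2

theorem sm_b (h : PF G S u b b' p q) : sm G (symmDiff S {u, b}) b = {p, q} := by
  rw [sm_flip_mem G (by simp)]
  have e1 : op G S b \ {u, b} = {p, q} := by
    rw [h.ob]
    ext w
    rw [Finset.mem_sdiff, Finset.mem_insert, Finset.mem_insert, Finset.mem_singleton,
      Finset.mem_insert, Finset.mem_singleton]
    constructor
    · rintro ⟨h1, h2⟩
      tauto
    · rintro (h1 | h1)
      · refine ⟨Or.inr (Or.inl h1), ?_⟩
        have := (nF h).1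
        rw [memF] at this
        rw [h1]; exact this
      · refine ⟨Or.inr (Or.inr h1), ?_⟩
        have := (nF h).2
        rw [memF] at this
        rw [h1]; exact this
  have e2 : sm G S b = ∅ := Finset.card_eq_zero.1 h.db
  rw [e1, e2, Finset.empty_inter, Finset.union_empty]

theorem sd_b (h : PF G S u b b' p q) : sd G (symmDiff S {u, b}) b = 2 := by
  unfold sd
  rw [sm_b h, Finset.card_pair h.pq]

theorem bT (h : PF G S u b b' p q) : b ∈ symmDiff S {u, b} := by
  rw [Finset.mem_symmDiff]
  exact Or.inr ⟨by simp, h.bS⟩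

theorem imbF (h : PF G S u b b' p q) :
    ((({u, b} : Finset V) \ S).card : ℤ) - (((({u, b} : Finset V) ∩ S).card : ℕ) : ℤ) = 0 := by
  have e1 : ({u, b} : Finset V) \ S = {b} := by
    ext w
    rw [Finset.mem_sdiff, memF, Finset.mem_singleton]
    constructor
    · rintro ⟨h1 | h1, h2⟩
      · exact absurd (h1 ▸ h.uS) h2
      · exact h1
    · rintro rfl
      exact ⟨Or.inr rfl, h.bS⟩
  have e2 : ({u, b} : Finset V) ∩ S = {u} := by
    ext w
    rw [Finset.mem_inter, memF, Finset.mem_singleton]
    constructor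
    · rintro ⟨h1 | h1, h2⟩
      · exact h1
      · exact absurd (h1 ▸ h2) h.bS
    · rintro rfl
      exact ⟨Or.inl rfl, h.uS⟩
  rw [e1, e2, Finset.card_singleton, Finset.card_singleton]
  simp

end OpUbAux

open OpUbAux Pool.Agent.Lib.Ando.OpZZAux

/-- `{u, b}` with both other neighbours of `b` isolated after the flip of `u`. -/
theorem eff_pair3 {S : Finset V} (htf : ∀ v, sd G S v ≤ 1) {u b b' p q : V} (hu : u ∈ S)
    (ou : op G S u = {b, b'}) (bb : b ≠ b') (db : sd G S b = 0) (db' : sd G S b' = 0)
    (ob : op G S b = {u, p, q}) (up : u ≠ p) (uq : u ≠ q) (pq : p ≠ q)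
    (ip : Iso G S u p) (iq : Iso G S u q) : Eff G S {u, b} 0 1 0 0 0 := by
  have hbu : b ∈ op G S u := by rw [ou]; simp
  have hbu' : b' ∈ op G S u := by rw [ou]; simp
  have bS : b ∉ S := StructAux.op_black hu hbu
  have h : PF G S u b b' p q := ⟨hu, bS, StructAux.op_black hu hbu',
    StructAux.op_white bS (by rw [ob]; simp), StructAux.op_white bS (by rw [ob]; simp),
    ou, bb, db, db', ob, up, uq, pq⟩
  have hq1 : sd G (symmDiff S {u, b}) q ≤ 1 := by
    refine le_one_of (x := b) (nF h).2 ?_ ?_
    · intro w hw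
      rw [iso_sm htf iq w hw]; simp
    · intro w hw hF
      rcases memF.1 hF with h3 | h3
      · subst h3; exact absurd hu (StructAux.op_black h.qS hw)
      · exact h3
  have hne : ∀ v, v ≠ b → sd G (symmDiff S {u, b}) v ≤ 1 := by
    intro v hv
    by_cases hvu : v = u
    · rw [hvu]; exact hu1 h
    · by_cases hvq : v = q
      · rw [hvq]; exact hq1
      · exact hout htf h ip (by rw [memF]; tauto) hvq
  refine mk_eff G (fun v => ?_) (imbF h)
    (cls_one G (closed_T G _) (bT h) (sd_b h) fun v _ h2 => ?_) (cls_none G fun v hv h2 => ?_)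
  · by_cases hv : v = b
    · rw [hv, sd_b h]
    · exact (hne v hv).trans (by norm_num)
  · by_contra hvb
    have := hne v hvb
    omega
  · by_cases hvb : v = b
    · rw [hvb] at hv
      exact (Finset.mem_compl.1 hv) (bT h)
    · have := hne v hvb
      omega

/-- `{u, b}` with one other neighbour of `b` isolated after the flip of `u`, the other one keeps
its partner. -/
theorem eff_pair4 {S : Finset V} (htf : ∀ v, sd G S v ≤ 1) {u b b' p w : V} (hu : u ∈ S)
    (ou : op G S u = {b, b'}) (bb : b ≠ b') (db : sd G S b = 0) (db' : sd G S b' = 0)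
    (ob : op G S b = {u, p, w}) (up : u ≠ p) (uw : u ≠ w) (pw : p ≠ w)
    (ip : Iso G S u p) (dw : sd G S w = 1) (nw : w ∉ sm G S u) :
    Eff G S {u, b} 0 2 2 0 0 := by
  have hbu : b ∈ op G S u := by rw [ou]; simp
  have hbu' : b' ∈ op G S u := by rw [ou]; simp
  have bS : b ∉ S := StructAux.op_black hu hbu
  have h : PF G S u b b' p w := ⟨hu, bS, StructAux.op_black hu hbu',
    StructAux.op_white bS (by rw [ob]; simp), StructAux.op_white bS (by rw [ob]; simp),
    ou, bb, db, db', ob, up, uw, pw⟩
  have hwb : w ∈ op G S b := by rw [ob]; simp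
  have hwF : w ∉ ({u, b} : Finset V) := (nF h).2
  have hbw : b ∉ sm G S w := fun h1 => bS ((mem_sm.1 h1).2.2 h.qS)
  have hsmw : sm G (symmDiff S {u, b}) w = sm G S w ∪ {b} := by
    rw [sm_flip_not_mem G hwF]
    have hwu2 : u ∉ sm G S w := fun h => nw (sm_symm h)
    congr 1
    · rw [Finset.sdiff_eq_self_iff_disjoint, Finset.disjoint_left]
      intro z hz hzF
      rcases memF.1 hzF with h3 | h3
      · exact hwu2 (h3 ▸ hz)
      · exact hbw (h3 ▸ hz)
    · ext z
      rw [Finset.mem_inter, memF, Finset.mem_singleton]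
      constructor
      · rintro ⟨h1, h2 | h2⟩
        · rw [h2] at h1
          exact absurd hu (StructAux.op_black h.qS h1)
        · exact h2
      · intro h1
        rw [h1]
        exact ⟨op_symm hwb, Or.inr rfl⟩
  have hsw : sd G (symmDiff S {u, b}) w = 2 := by
    unfold sd
    rw [hsmw, Finset.card_union_of_disjoint (Finset.disjoint_singleton_right.2 hbw),
      Finset.card_singleton]
    unfold sd at dw
    rw [dw]
  have hwT : w ∈ symmDiff S {u, b} := by
    rw [Finset.mem_symmDiff]
    exact Or.inl ⟨h.qS, hwF⟩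
  have hne : ∀ v, v ≠ w → v ≠ b → sd G (symmDiff S {u, b}) v ≤ 1 := by
    intro v hvw hv
    by_cases hvu : v = u
    · rw [hvu]; exact hu1 h
    · exact hout htf h ip (by rw [memF]; tauto) hvw
  refine mk_eff G (fun v => ?_) (imbF h)
    (cls_two G (closed_T G _) hwT (y := b) (by rw [hsmw]; simp) hsw (sd_b h) fun v _ h2 => ?_)
    (cls_none G fun v hv h2 => ?_)
  · by_cases hv : v = b
    · rw [hv, sd_b h]
    · by_cases hvw : v = w
      · rw [hvw, hsw]
      · exact (hne v hvw hv).trans (by norm_num)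
  · by_contra hcon
    push Not at hcon
    have := hne v hcon.1 hcon.2
    omega
  · by_cases hvb : v = b
    · rw [hvb] at hv
      exact (Finset.mem_compl.1 hv) (bT h)
    · by_cases hvw : v = w
      · rw [hvw] at hv
        exact (Finset.mem_compl.1 hv) hwT
      · have := hne v hvw hvb
        omega

/-- The operations of the kinds `ub0`, `ub1`. -/
theorem eff_ub3 (hG : G.IsRegularOfDegree 3) {S : Finset V} (htf : ∀ v, sd G S v ≤ 1)
    {u b p q : V} (h : Ub3 G S u b p q) : Eff G S {u, b} 0 1 0 0 0 := by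
  have us' := StructAux.mem_sites.1 h.us
  obtain ⟨b', hb', bb'⟩ := StructAux.card_two (BasicAux.op_card_two hG us'.2.1) h.ub
  exact eff_pair3 htf us'.1 hb' bb' (us'.2.2 b h.ub) (us'.2.2 b' (by rw [hb']; simp)) h.ob
    h.up h.uq h.pq h.ip (Or.inl h.iq)

/-- The operation of the kind `ub4`. -/
theorem eff_ub4 (hG : G.IsRegularOfDegree 3) {S : Finset V} (htf : ∀ v, sd G S v ≤ 1)
    {u b p w : V} (h : Ub4 G S u b p w) : Eff G S {u, b} 0 2 2 0 0 := by
  have us' := StructAux.mem_sites.1 h.us
  obtain ⟨b', hb', bb'⟩ := StructAux.card_two (BasicAux.op_card_two hG us'.2.1) h.ub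
  exact eff_pair4 htf us'.1 hb' bb' (us'.2.2 b h.ub) (us'.2.2 b' (by rw [hb']; simp)) h.ob
    h.up h.uw h.pw h.ip h.sw h.nw

/-- The operation `{x, e}` at an end of a switch. -/
theorem eff_sw4 (hG : G.IsRegularOfDegree 3) {S : Finset V} (htf : ∀ v, sd G S v ≤ 1)
    {x y e o : V} (h : SwE G S x y e o) (hi : Iso G S x o) : Eff G S {x, e} 0 2 2 0 0 := by
  have us' := StructAux.mem_sites.1 h.mate.1
  have ys' := StructAux.mem_sites.1 h.mate.2.1
  obtain ⟨b', hb', bb'⟩ := StructAux.card_two (BasicAux.op_card_two hG us'.2.1) h.xe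
  exact eff_pair4 htf us'.1 hb' bb' (us'.2.2 e h.xe) (us'.2.2 b' (by rw [hb']; simp))
    (by rw [h.oe, Finset.pair_comm]) h.xo h.mate.2.2.1 h.yo.symm hi ys'.2.1 h.mate.2.2.2.1

end Pool.Agent.Lib.AndoD
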