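import Mathlib

/-! Union of two matchings is 2-colourable. -/

namespace AndoD

section Inv

variable {W : Type*} (p q : Equiv.Perm W)

private theorem inv_aux (hp : p * p = 1) (hq : q * q = 1) :
    ∀ n : ℤ, q * (p * q) ^ n * q = (p * q) ^ (-n) := by
  have hq' : q⁻¹ = q := inv_eq_of_mul_eq_one_right hq
  have hp' : p⁻¹ = p := inv_eq_of_mul_eq_one_right hp
  have h1 : q * (p * q) * q⁻¹ = (p * q)⁻¹ := by
    rw [mul_inv_rev, hp', hq', mul_assoc, mul_assoc, hq, mul_one]
  intro n
  have h2 := congrArg (fun r => r ^ n) h1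
  simp only [conj_zpow] at h2
  rw [hq'] at h2
  rw [h2, inv_zpow, zpow_neg]

private theorem not_same (hp : p * p = 1) (hq : q * q = 1)
    (fp : ∀ w, p w ≠ w) (fq : ∀ w, q w ≠ w) (w : W) :
    ¬ (p * q).SameCycle w (q w) := by
  rintro ⟨n, hn⟩
  have key : ∀ j : ℤ, q (((p * q) ^ j) w) = ((p * q) ^ (-j)) (q w) := by
    intro j
    have h := inv_aux p q hp hq j
    have h2 := congrArg (fun r : Equiv.Perm W => r (q w)) h
    simp only [Equiv.Perm.mul_apply] at h2
    have h3 : q (q w) = w := by
      have := congrArg (fun r : Equiv.Perm W => r w) hq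
      simpa using this
    rw [h3] at h2
    exact h2
  rcases Int.even_or_odd' n with ⟨i, hi | hi⟩
  · have h1 := key i
    have hz : ∀ a b : ℤ, ((p * q) ^ a) (((p * q) ^ b) w) = ((p * q) ^ (a + b)) w := by
      intro a b
      rw [zpow_add, Equiv.Perm.mul_apply]
    rw [← hn, hz, hi] at h1
    have : -i + 2 * i = i := by ring
    rw [this] at h1
    exact fq _ h1
  · have h1 := key i
    have hz : ∀ a b : ℤ, ((p * q) ^ a) (((p * q) ^ b) w) = ((p * q) ^ (a + b)) w := by
      intro a b
      rw [zpow_add, Equiv.Perm.mul_apply]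
    rw [← hn, hz, hi] at h1
    have : -i + (2 * i + 1) = 1 + i := by ring
    rw [this, zpow_add, zpow_one, Equiv.Perm.mul_apply, Equiv.Perm.mul_apply] at h1
    exact fp _ h1.symm

/-- Two fixed point free involutions have a common 2-colouring. -/
theorem two_invol (hp : p * p = 1) (hq : q * q = 1)
    (fp : ∀ w, p w ≠ w) (fq : ∀ w, q w ≠ w) :
    ∃ F : W → Bool, (∀ w, F (p w) ≠ F w) ∧ ∀ w, F (q w) ≠ F w := by
  classical
  have hqq : ∀ w, q (q w) = w := by
    intro w
    have := congrArg (fun r : Equiv.Perm W => r w) hq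
    simpa using this
  have hinv : ∀ n : ℤ, ∀ w, q (((p * q) ^ n) (q w)) = ((p * q) ^ (-n)) w := by
    intro n w
    have h := inv_aux p q hp hq n
    have h2 := congrArg (fun r : Equiv.Perm W => r w) h
    simpa only [Equiv.Perm.mul_apply] using h2
  have hsc : ∀ w w', (p * q).SameCycle w w' → (p * q).SameCycle (q w) (q w') := by
    rintro w w' ⟨n, hn⟩
    refine ⟨-n, ?_⟩
    rw [← hinv n (q w), hqq, hn]
  have hpw : ∀ w, (p * q).SameCycle (q w) (p w) := by
    intro w
    refine ⟨1, ?_⟩
    rw [zpow_one, Equiv.Perm.mul_apply, hqq]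
  let s : Setoid W :=
    { r := fun w w' => (p * q).SameCycle w w' ∨ (p * q).SameCycle (q w) w'
      iseqv := by
        refine ⟨fun w => Or.inl (Equiv.Perm.SameCycle.refl _ _), ?_, ?_⟩
        · rintro a b (h | h)
          · exact Or.inl h.symm
          · have := hsc _ _ h
            rw [hqq] at this
            exact Or.inr this.symm
        · rintro a b c (h | h) (h' | h')
          · exact Or.inl (h.trans h')
          · exact Or.inr ((hsc _ _ h).trans h')
          · exact Or.inr (h.trans h')
          · have := hsc _ _ h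
            rw [hqq] at this
            exact Or.inl (this.trans h') }
  let rep : W → W := fun w => (Quotient.mk s w).out
  have hrep : ∀ w, s.r (rep w) w := fun w => Quotient.exact (Quotient.out_eq (Quotient.mk s w))
  have hrepeq : ∀ w w', s.r w w' → rep w = rep w' := by
    intro w w' h
    have : Quotient.mk s w = Quotient.mk s w' := Quotient.sound h
    simp only [rep, this]
  refine ⟨fun w => decide ((p * q).SameCycle (rep w) w), ?_, ?_⟩
  · intro w h
    have e1 : rep (p w) = rep w := (hrepeq w (p w) (Or.inr (hpw w))).symm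
    simp only [e1, decide_eq_decide] at h
    rcases hrep w with h1 | h1
    · have h2 := h.2 h1
      exact not_same p q hp hq fp fq w (h1.symm.trans (h2.trans (hpw w).symm))
    · have h2 := hsc _ _ h1
      rw [hqq] at h2
      have h3 := h.1 (h2.trans (hpw w))
      exact not_same p q hp hq fp fq w (h3.symm.trans h2)
  · intro w h
    have e1 : rep (q w) = rep w :=
      (hrepeq w (q w) (Or.inr (Equiv.Perm.SameCycle.refl _ _))).symm
    simp only [e1, decide_eq_decide] at h
    rcases hrep w with h1 | h1
    · have h2 := h.2 h1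
      exact not_same p q hp hq fp fq w (h1.symm.trans h2)
    · have h2 := hsc _ _ h1
      rw [hqq] at h2
      have h3 := h.1 h2
      exact not_same p q hp hq fp fq w (h3.symm.trans h2)

end Inv

open Classical in
/-- The total involution on two copies attached to a matching. -/
private noncomputable def ext {V : Type*} (P : V → V → Prop) (w : V × Bool) : V × Bool :=
  if h : ∃ y, P w.1 y then (h.choose, w.2) else (w.1, !w.2)

private theorem ext_pos {V : Type*} (P : V → V → Prop) (hu : ∀ x y z, P x y → P x z → y = z)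
    {x y : V} (h : P x y) (i : Bool) : ext P (x, i) = (y, i) := by
  have h' : ∃ y, P (x, i).1 y := ⟨y, h⟩
  unfold ext
  rw [dif_pos h']
  rw [hu _ _ _ h'.choose_spec h]

private theorem ext_neg {V : Type*} (P : V → V → Prop) {x : V} (h : ¬ ∃ y, P x y) (i : Bool) :
    ext P (x, i) = (x, !i) := by
  unfold ext
  rw [dif_neg h]

private theorem ext_invol {V : Type*} (P : V → V → Prop) (hs : ∀ x y, P x y → P y x)
    (hu : ∀ x y z, P x y → P x z → y = z) (w : V × Bool) : ext P (ext P w) = w := by
  obtain ⟨x, i⟩ := w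
  by_cases h : ∃ y, P x y
  · obtain ⟨y, hy⟩ := h
    rw [ext_pos P hu hy, ext_pos P hu (hs _ _ hy)]
  · rw [ext_neg P h, ext_neg P h, Bool.not_not]

private theorem ext_fpf {V : Type*} (P : V → V → Prop) (hi : ∀ x, ¬ P x x)
    (hu : ∀ x y z, P x y → P x z → y = z) (w : V × Bool) : ext P w ≠ w := by
  obtain ⟨x, i⟩ := w
  by_cases h : ∃ y, P x y
  · obtain ⟨y, hy⟩ := h
    rw [ext_pos P hu hy]
    intro e
    have := congrArg Prod.fst e
    simp only at this
    subst this
    exact hi _ hy
  · rw [ext_neg P h]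
    intro e
    have := congrArg Prod.snd e
    simp at this

/-- The union of two matchings is 2-colourable. -/
theorem two_matchings {V : Type*} (P Q : V → V → Prop)
    (hPs : ∀ x y, P x y → P y x) (hPi : ∀ x, ¬ P x x) (hPu : ∀ x y z, P x y → P x z → y = z)
    (hQs : ∀ x y, Q x y → Q y x) (hQi : ∀ x, ¬ Q x x) (hQu : ∀ x y z, Q x y → Q x z → y = z) :
    ∃ f : V → Bool, (∀ x y, P x y → f x ≠ f y) ∧ (∀ x y, Q x y → f x ≠ f y) := by
  let p : Equiv.Perm (V × Bool) :=
    ⟨ext P, ext P, ext_invol P hPs hPu, ext_invol P hPs hPu⟩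
  let q : Equiv.Perm (V × Bool) :=
    ⟨ext Q, ext Q, ext_invol Q hQs hQu, ext_invol Q hQs hQu⟩
  have hp : p * p = 1 := by
    ext1 w
    exact ext_invol P hPs hPu w
  have hq : q * q = 1 := by
    ext1 w
    exact ext_invol Q hQs hQu w
  obtain ⟨F, h1, h2⟩ := two_invol p q hp hq (ext_fpf P hPi hPu) (ext_fpf Q hQi hQu)
  refine ⟨fun x => F (x, true), fun x y h e => ?_, fun x y h e => ?_⟩
  · apply h1 (x, true)
    have : p (x, true) = (y, true) := ext_pos P hPu h true
    rw [this]
    exact e.symm
  · apply h2 (x, true)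
    have : q (x, true) = (y, true) := ext_pos Q hQu h true
    rw [this]
    exact e.symm

end AndoD
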