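import Pool.Agent.Lib.AndoD.SwFlip

/-!
# AndoD.P1: the O-port of a switch

`o` in O is the third neighbour of the end `e` of the switch `x`, `y` (partners `x'`, `y'`);
`c` is another neighbour of `o`.  The switch is flipped; then `o` is in U.
`p1a`: `c` in Z has no two non-adjacent U-neighbours outside `{x, y, x', y'}`.
`p1b`: `c` in L has no U-neighbour outside `{x, y, x', y'}`.
`p1c`: if `c` and the third neighbour `c'` of `o` are in Z, a site at `c` outside
`{x, y, x', y'}` has the ends `c`, `c'`.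
-/

set_option autoImplicit false
set_option linter.unusedSectionVars false
set_option linter.unusedSimpArgs false

namespace Pool.Agent.Lib.AndoD

open Pool.Agent.Lib.Ando Pool.Agent.Lib.AndoC

variable {V : Type*} [Fintype V] [DecidableEq V] {G : SimpleGraph V} [DecidableRel G.Adj]

open SwAux SwFlipAux

variable {S : Finset V} {x y e f o p x' y' : V}

/-- A vertex with white partner outside `x`, `y`, `x'`, `y'` is not changed by the flip. -/
theorem Sw.rest_U (h : Sw G S x y e f o p x' y') (ho : sm G S o = ∅) {w : V} (wS : w ∈ S)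
    (sw : sd G S w = 1) (h1 : w ≠ x) (h2 : w ≠ y) (h3 : w ≠ x') (h4 : w ≠ y') :
    (w ∈ symmDiff S {x, y, e, f} ↔ w ∈ S) ∧ sm G (symmDiff S {x, y, e, f}) w = sm G S w ∧
      op G (symmDiff S {x, y, e, f}) w = op G S w := by
  refine h.flip_desc.rest w h1 h2 (ne_of wS h.eS) (ne_of wS h.fS) ?_ ?_ h3 h4
  · intro e1
    rw [e1, sd_of_empty ho] at sw
    omega
  · intro e1
    rcases h.ip with h5 | h5 | h5
    · rw [e1, sd_of_empty h5] at sw
      omega
    · exact h3 (e1.trans h5)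
    · exact h4 (e1.trans h5)

/-- A black vertex which is no end of the switch is not changed by the flip. -/
theorem Sw.rest_B (h : Sw G S x y e f o p x' y') {c : V} (cS : c ∉ S) (h1 : c ≠ e) (h2 : c ≠ f) :
    (c ∈ symmDiff S {x, y, e, f} ↔ c ∈ S) ∧ sm G (symmDiff S {x, y, e, f}) c = sm G S c ∧
      op G (symmDiff S {x, y, e, f}) c = op G S c :=
  h.flip_desc.rest c (ne_of h.xS cS).symm (ne_of h.yS cS).symm h1 h2 (ne_of h.oS cS).symm
    (ne_of h.pS cS).symm (ne_of h.x'S cS).symm (ne_of h.y'S cS).symm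

/-- A neighbour of the O-port `o` is not the other end of the switch. -/
theorem Sw.port_ne (h : Sw G S x y e f o p x' y') {c : V} (hc : c ∈ op G S o) : c ≠ f := by
  intro e1
  rcases e_op h.swapE (e1 ▸ hc) with h1 | h1 | h1
  · exact h.xo h1.symm
  · exact h.yo h1.symm
  · exact h.op' h1

theorem Sw.port_black (h : Sw G S x y e f o p x' y') {c : V} (hc : c ∈ op G S o) : c ∉ S :=
  StructAux.op_black h.oS hc

/-- A neighbour of a site outside the switch and its partners is no end of the switch. -/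
theorem Sw.site_ne (h : Sw G S x y e f o p x' y') (ho : sm G S o = ∅) {u b : V}
    (su : sd G S u = 1) (h1 : u ≠ x) (h2 : u ≠ y) (h3 : u ≠ x') (h4 : u ≠ y')
    (hb : b ∈ op G S u) : b ≠ e ∧ b ≠ f := by
  have uo : u ≠ o := by
    intro e1
    rw [e1, sd_of_empty ho] at su
    omega
  constructor
  · intro e1
    rcases e_op h (e1 ▸ hb) with h5 | h5 | h5
    · exact h1 h5
    · exact h2 h5
    · exact uo h5
  · intro e1
    rcases e_op h.swapE (e1 ▸ hb) with h5 | h5 | h5
    · exact h1 h5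
    · exact h2 h5
    · rcases h.ip with h6 | h6 | h6
      · rw [h5, sd_of_empty h6] at su
        omega
      · exact h3 (h5.trans h6)
      · exact h4 (h5.trans h6)

theorem p1a (hG : G.IsRegularOfDegree 3) {k : ℕ} (hA : NoTriple G k)
    (hL : Level G k S) (h : Sw G S x y e f o p x' y') (ho : sm G S o = ∅) {c w1 w2 : V}
    (hc : c ∈ op G S o) (ce : c ≠ e) (sc : sd G S c = 0) (m1 : w1 ∈ UN G S c)
    (m2 : w2 ∈ UN G S c) (hne : w1 ≠ w2) (hna : ¬ G.Adj w1 w2)
    (a1 : w1 ≠ x) (a2 : w1 ≠ y) (a3 : w1 ≠ x') (a4 : w1 ≠ y')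
    (b1 : w2 ≠ x) (b2 : w2 ≠ y) (b3 : w2 ≠ x') (b4 : w2 ≠ y') : False := by
  have cS := h.port_black hc
  have cf := h.port_ne hc
  have hT := h.flip_level hG hL
  have hd := h.flip_desc
  obtain ⟨m1a, m1b⟩ := StructAux.mem_UN.1 m1
  obtain ⟨m2a, m2b⟩ := StructAux.mem_UN.1 m2
  have w1S := StructAux.op_white cS m1a
  have w2S := StructAux.op_white cS m2a
  obtain ⟨-, r1, -⟩ := h.rest_U ho w1S m1b a1 a2 a3 a4
  obtain ⟨-, r2, -⟩ := h.rest_U ho w2S m2b b1 b2 b3 b4
  obtain ⟨c1, c2, c3⟩ := h.rest_B cS ce cf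
  have naO : ∀ {w : V}, w ∈ S → ¬ G.Adj o w := by
    intro w wS ha
    have : w ∈ sm G S o := mem_sm.2 ⟨ha, fun _ => h.oS, fun _ => wS⟩
    rw [ho] at this
    simp at this
  have oc : o ∈ op G S c := op_symm hc
  rcases hA _ hT c o w1 w2 (fun e1 => cS (c1.1 e1)) (by unfold sd; rw [c2]; exact sc)
    (StructAux.mem_UN.2 ⟨by rw [c3]; exact oc, sd_of_single hd.smo⟩)
    (StructAux.mem_UN.2 ⟨by rw [c3]; exact m1a, by unfold sd; rw [r1]; exact m1b⟩)
    (StructAux.mem_UN.2 ⟨by rw [c3]; exact m2a, by unfold sd; rw [r2]; exact m2b⟩)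
    (fun e1 => by rw [← e1, sd_of_empty ho] at m1b; omega)
    (fun e1 => by rw [← e1, sd_of_empty ho] at m2b; omega) hne with h1 | h1 | h1
  · exact naO w1S h1
  · exact naO w2S h1
  · exact hna h1

theorem p1b (hG : G.IsRegularOfDegree 3) {k : ℕ} (hk : 1 ≤ k)
    (hL : Level G k S) (h : Sw G S x y e f o p x' y') (ho : sm G S o = ∅) {c w : V}
    (hc : c ∈ op G S o) (sc : sd G S c = 1) (m1 : w ∈ UN G S c)
    (a1 : w ≠ x) (a2 : w ≠ y) (a3 : w ≠ x') (a4 : w ≠ y') : False := by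
  have cS := h.port_black hc
  have cf := h.port_ne hc
  have ce : c ≠ e := by
    intro e1
    rw [e1, sd_of_empty h.se] at sc
    omega
  have hT := h.flip_level hG hL
  have hd := h.flip_desc
  obtain ⟨m1a, m1b⟩ := StructAux.mem_UN.1 m1
  have w1S := StructAux.op_white cS m1a
  obtain ⟨-, r1, -⟩ := h.rest_U ho w1S m1b a1 a2 a3 a4
  obtain ⟨c1, c2, c3⟩ := h.rest_B cS ce cf
  have oc : o ∈ op G S c := op_symm hc
  have h1 := AndoB.fact1g hG hT hk (fun e1 => cS (c1.1 e1)) (by unfold sd; rw [c2]; exact sc)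
    (StructAux.mem_UN.2 ⟨by rw [c3]; exact oc, sd_of_single hd.smo⟩)
    (StructAux.mem_UN.2 ⟨by rw [c3]; exact m1a, by unfold sd; rw [r1]; exact m1b⟩)
    (fun e1 => by rw [← e1, sd_of_empty ho] at m1b; omega)
  have : w ∈ sm G S o := mem_sm.2 ⟨h1, fun _ => h.oS, fun _ => w1S⟩
  rw [ho] at this
  simp at this

theorem p1c (hG : G.IsRegularOfDegree 3) {k : ℕ} (hk : 1 ≤ k) (hA : NoTriple G k)
    (hL : Level G k S) (h : Sw G S x y e f o p x' y') (ho : sm G S o = ∅) {c c' s : V}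
    (oo : op G S o = {e, c, c'}) (ec : e ≠ c) (ec' : e ≠ c') (cc : c ≠ c')
    (sc : sd G S c = 0) (sc' : sd G S c' = 0) (hs : s ∈ sites G S) (hcs : c ∈ op G S s)
    (a1 : s ≠ x) (a2 : s ≠ y) (a3 : s ≠ x') (a4 : s ≠ y') : op G S s = {c, c'} := by
  have hc : c ∈ op G S o := by rw [oo]; simp
  have hc' : c' ∈ op G S o := by rw [oo]; simp
  have cS := h.port_black hc
  have cf := h.port_ne hc
  have cS' := h.port_black hc'
  have cf' := h.port_ne hc'
  have hT := h.flip_level hG hL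
  have hd := h.flip_desc
  obtain ⟨sS, sds, sz⟩ := StructAux.mem_sites.1 hs
  obtain ⟨r0, r1, r2⟩ := h.rest_U ho sS sds a1 a2 a3 a4
  obtain ⟨c1, c2, c3⟩ := h.rest_B cS ec.symm cf
  obtain ⟨d1, d2, d3⟩ := h.rest_B cS' ec'.symm cf'
  obtain ⟨g, og, cg⟩ := StructAux.card_two (BasicAux.op_card_two hG sds) hcs
  have hg : g ∈ op G S s := by rw [og]; simp
  have gS := StructAux.op_black sS hg
  obtain ⟨ge, gf⟩ := h.site_ne ho sds a1 a2 a3 a4 hg
  obtain ⟨g1, g2, g3⟩ := h.rest_B gS ge gf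
  obtain ⟨s', hs'⟩ := StructAux.sd_one sds
  have smc : sm G S c = ∅ := sm_empty sc
  have smc' : sm G S c' = ∅ := sm_empty sc'
  have smg : sm G S g = ∅ := sm_empty (sz g hg)
  have oT : op G (symmDiff S {x, y, e, f}) o = {c, c'} := by
    rw [hd.opo ho, oo]
    ext z
    simp only [Finset.mem_erase, Finset.mem_insert, Finset.mem_singleton]
    constructor
    · rintro ⟨h1, h2 | h2 | h2⟩
      · exact absurd h2 h1
      · exact Or.inl h2
      · exact Or.inr h2
    · rintro (h1 | h1)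
      · exact ⟨fun h2 => ec (h2.symm.trans h1), Or.inr (Or.inl h1)⟩
      · exact ⟨fun h2 => ec' (h2.symm.trans h1), Or.inr (Or.inr h1)⟩
  have key := fact3g hG hk hA hT (b := c) (fun e1 => cS (c1.1 e1))
    (by unfold sd; rw [c2, smc]; rfl)
    (sites_of (r0.2 sS) (r1.trans hs') (r2.trans og) (by unfold sd; rw [c2, smc]; rfl)
      (by unfold sd; rw [g2, smg]; rfl))
    (sites_of hd.oT hd.smo oT (by unfold sd; rw [c2, smc]; rfl)
      (by unfold sd; rw [d2, smc']; rfl)) (r2.trans og) oT cg cc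
    (fun e1 => by rw [e1, sd_of_empty ho] at sds; omega)
    (fun e1 => by
      have : s ∈ sm G S o := mem_sm.2 ⟨e1.symm, fun _ => h.oS, fun _ => sS⟩
      rw [ho] at this
      simp at this)
  rw [og, key]

end Pool.Agent.Lib.AndoD
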