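import Pool.Agent.Lib.AndoD.PackDefs

/-!
# AndoD.PackA: the greedy choice of k arms (abstract, Mathlib only)

Proof. Induction on k (the hypotheses for k + 1 imply those for k: 12 k <= 12 (k + 1) <= card A).
k = 0: P = empty, R = empty: no arm is dead or hit (an arm has an operation by `hFs`, which is
disjoint from the empty set), all three numbers are 0.
Step k -> k + 1: take P for k, R = used T P. The first number `c1` gives at most 12 k dead arms,
so (12 (k + 1) <= card A) some arm is alive at R; take (a, f) from `H`. The pair (a, f) is not in P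
(T f is nonempty by `hne`, disjoint from R, which contains T p.2 for p in P). P' = insert (a, f) P,
used T P' = R ∪ T f.
c1: an arm dead at R ∪ T f is dead at R or dies: 12 k + 12.
c2: let a' be in the new set of c2 but not in the old one. st a' <= 3: a' is alive at R and dead at
R ∪ T f, i.e. it dies; if st a = 3 or 4 then st a' >= st a by `least`, so st a = 3 = st a' (for st a
= 4 there is none). An arm that dies has a free operation f' (disjoint from R) which is not disjoint
from R ∪ T f, hence not disjoint from T f: `TMeet`. st a' = 4: TB a' is disjoint from R, not from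
R ∪ T f, hence not from T f. So the new elements are in the set of `low` (st a <= 2, at most 12),
of `mid` (st a = 3, at most 6), or of `high` (st a = 4, at most 6). The numbers of p in P' with
st <= 2, resp. >= 3, increase by one accordingly.
c3: if st a = 4 then by `least` no arm with st <= 3 is alive at R, so none at R ∪ T f. If st a <= 3,
use the old c3 (dead stays dead: Disjoint (T f') (R ∪ T f) implies Disjoint (T f') R).
c4: as c2: if no p in P' has stage 4, then st a <= 3 and no p in P has stage 4; new elements: st a'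
<= 2 dying: for st a = 3 none (least); 3 <= st a' with TB a' disjoint from R and not from T f. For st
a <= 2 they are in the set of `low`; for st a = 3 in the set of `mid` (`h4`: st a' is 3 or 4).
c5: like c3.
-/

set_option autoImplicit false

namespace Pool.Agent.Lib.AndoD

variable {α β V : Type*} [DecidableEq α] [DecidableEq β] [DecidableEq V]

namespace PackAAux

theorem alive_mono {Fs : α → Finset β} {T : β → Finset V} {R U : Finset V} {a : α}
    (h : Alive Fs T (R ∪ U) a) : Alive Fs T R a := by
  obtain ⟨f, hf, hd⟩ := h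
  exact ⟨f, hf, (Finset.disjoint_union_right.1 hd).1⟩

theorem dies_meet {Fs : α → Finset β} {T : β → Finset V} {R : Finset V} {f : β} {a : α}
    (h : Dies Fs T R f a) : TMeet Fs T (T f) a := by
  obtain ⟨⟨f', hf', hd⟩, h2⟩ := h
  refine ⟨f', hf', ?_⟩
  intro hd'
  exact h2 ⟨f', hf', Finset.disjoint_union_right.2 ⟨hd, hd'⟩⟩

theorem tb_meet {X R U : Finset V} (h1 : ¬ Disjoint X (R ∪ U)) (h2 : Disjoint X R) :
    ¬ Disjoint X U := fun h3 => h1 (Finset.disjoint_union_right.2 ⟨h2, h3⟩)

theorem used_insert (T : β → Finset V) (p : α × β) (P : Finset (α × β)) :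
    used T (insert p P) = used T P ∪ T p.2 := by
  unfold used
  rw [Finset.biUnion_insert, Finset.union_comm]

end PackAAux

open PackAAux

open Classical in
theorem packA (A : Finset α) (st : α → ℕ) (Fs : α → Finset β) (T : β → Finset V)
    (TB : α → Finset V) (h4 : ∀ a ∈ A, st a ≤ 4) (hFs : ∀ a ∈ A, (Fs a).Nonempty)
    (hne : ∀ a ∈ A, ∀ f ∈ Fs a, (T f).Nonempty)
    (H : ∀ R : Finset V, (∃ a ∈ A, Alive Fs T R a) → ∃ a f, StepOK A st Fs T TB R a f)
    (k : ℕ) (hc : 12 * k ≤ A.card) :
    ∃ P : Finset (α × β), P.card = k ∧ (∀ p ∈ P, p.1 ∈ A ∧ p.2 ∈ Fs p.1) ∧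
      (∀ p ∈ P, ∀ p' ∈ P, p ≠ p' → Disjoint (T p.2) (T p'.2)) ∧
      (A.filter (fun a' => ¬ Alive Fs T (used T P) a')).card ≤ 12 * k ∧
      (A.filter (fun a' => (st a' ≤ 3 ∧ ¬ Alive Fs T (used T P) a') ∨
          (st a' = 4 ∧ ¬ Disjoint (TB a') (used T P)))).card ≤
        12 * (P.filter (fun p => st p.1 ≤ 2)).card + 6 * (P.filter (fun p => 3 ≤ st p.1)).card ∧
      ((∃ p ∈ P, st p.1 = 4) → ∀ a' ∈ A, st a' ≤ 3 → ¬ Alive Fs T (used T P) a') ∧
      ((∀ p ∈ P, st p.1 ≠ 4) → (A.filter (fun a' => (st a' ≤ 2 ∧ ¬ Alive Fs T (used T P) a') ∨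
          (3 ≤ st a' ∧ ¬ Disjoint (TB a') (used T P)))).card ≤
        12 * (P.filter (fun p => st p.1 ≤ 2)).card + 6 * (P.filter (fun p => 3 ≤ st p.1)).card) ∧
      ((∃ p ∈ P, 3 ≤ st p.1) → ∀ a' ∈ A, st a' ≤ 2 → ¬ Alive Fs T (used T P) a') := by
  induction k with
  | zero =>
    refine ⟨∅, rfl, by simp, by simp, ?_, ?_, by simp, ?_, by simp⟩
    · have : A.filter (fun a' => ¬ Alive Fs T (used T (∅ : Finset (α × β))) a') = ∅ := by
        refine Finset.filter_eq_empty_iff.2 ?_
        intro a ha hn
        obtain ⟨f, hf⟩ := hFs a ha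
        exact hn ⟨f, hf, by simp [used]⟩
      rw [this]
      simp
    · have : A.filter (fun a' => (st a' ≤ 3 ∧ ¬ Alive Fs T (used T (∅ : Finset (α × β))) a') ∨
          (st a' = 4 ∧ ¬ Disjoint (TB a') (used T (∅ : Finset (α × β))))) = ∅ := by
        refine Finset.filter_eq_empty_iff.2 ?_
        rintro a ha (⟨_, hn⟩ | ⟨_, hn⟩)
        · obtain ⟨f, hf⟩ := hFs a ha
          exact hn ⟨f, hf, by simp [used]⟩
        · exact hn (by simp [used])
      rw [this]
      simp
    · intro _
      have : A.filter (fun a' => (st a' ≤ 2 ∧ ¬ Alive Fs T (used T (∅ : Finset (α × β))) a') ∨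
          (3 ≤ st a' ∧ ¬ Disjoint (TB a') (used T (∅ : Finset (α × β))))) = ∅ := by
        refine Finset.filter_eq_empty_iff.2 ?_
        rintro a ha (⟨_, hn⟩ | ⟨_, hn⟩)
        · obtain ⟨f, hf⟩ := hFs a ha
          exact hn ⟨f, hf, by simp [used]⟩
        · exact hn (by simp [used])
      rw [this]
      simp
  | succ k ih =>
    obtain ⟨P, hP1, hP2, hP3, hc1, hc2, hc3, hc4, hc5⟩ := ih (by omega)
    have hex : ∃ a ∈ A, Alive Fs T (used T P) a := by
      by_contra hcon
      push Not at hcon
      have : A.filter (fun a' => ¬ Alive Fs T (used T P) a') = A :=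
        Finset.filter_true_of_mem hcon
      rw [this] at hc1
      omega
    obtain ⟨a, f, hst⟩ := H (used T P) hex
    obtain ⟨hmem, hmemf, hfree, hleast, hdies, hlow, hmid, hhigh⟩ := hst
    have hnot : (a, f) ∉ P := by
      intro hin
      have h1 : T f ⊆ used T P := by
        intro x hx
        exact Finset.mem_biUnion.2 ⟨(a, f), hin, hx⟩
      obtain ⟨x, hx⟩ := hne a hmem f hmemf
      exact (Finset.disjoint_left.1 hfree hx) (h1 hx)
    have hu : used T (insert (a, f) P) = used T P ∪ T f := used_insert T (a, f) P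
    have hsub : ∀ p ∈ P, T p.2 ⊆ used T P := by
      intro p hp x hx
      exact Finset.mem_biUnion.2 ⟨p, hp, hx⟩
    refine ⟨insert (a, f) P, ?_, ?_, ?_, ?_, ?_, ?_, ?_, ?_⟩
    · rw [Finset.card_insert_of_notMem hnot, hP1]
    · intro p hp
      rcases Finset.mem_insert.1 hp with rfl | hp
      · exact ⟨hmem, hmemf⟩
      · exact hP2 p hp
    · intro p hp p' hp' hne'
      rcases Finset.mem_insert.1 hp with rfl | hp
      · rcases Finset.mem_insert.1 hp' with rfl | hp'
        · exact absurd rfl hne'
        · exact Finset.disjoint_of_subset_right (hsub p' hp') hfree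
      · rcases Finset.mem_insert.1 hp' with rfl | hp'
        · exact (Finset.disjoint_of_subset_right (hsub p hp) hfree).symm
        · exact hP3 p hp p' hp' hne'
    · rw [hu]
      have h1 : A.filter (fun a' => ¬ Alive Fs T (used T P ∪ T f) a') ⊆
          A.filter (fun a' => ¬ Alive Fs T (used T P) a') ∪
            A.filter (fun a' => Dies Fs T (used T P) f a') := by
        intro x hx
        obtain ⟨hxA, hx2⟩ := Finset.mem_filter.1 hx
        by_cases hal : Alive Fs T (used T P) x
        · exact Finset.mem_union_right _ (Finset.mem_filter.2 ⟨hxA, hal, hx2⟩)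
        · exact Finset.mem_union_left _ (Finset.mem_filter.2 ⟨hxA, hal⟩)
      have h2 := (Finset.card_le_card h1).trans (Finset.card_union_le _ _)
      omega
    · rw [hu, Finset.filter_insert, Finset.filter_insert]
      have hn1 : (a, f) ∉ P.filter (fun p => st p.1 ≤ 2) := fun h =>
        hnot (Finset.mem_filter.1 h).1
      have hn2 : (a, f) ∉ P.filter (fun p => 3 ≤ st p.1) := fun h =>
        hnot (Finset.mem_filter.1 h).1
      have key : ∀ (D : Finset α), (∀ x ∈ A, st x ≤ 3 → Dies Fs T (used T P) f x → x ∈ D) →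
          (∀ x ∈ A, st x = 4 → ¬ Disjoint (TB x) (T f) → x ∈ D) →
          A.filter (fun a' => (st a' ≤ 3 ∧ ¬ Alive Fs T (used T P ∪ T f) a') ∨
            (st a' = 4 ∧ ¬ Disjoint (TB a') (used T P ∪ T f))) ⊆
          A.filter (fun a' => (st a' ≤ 3 ∧ ¬ Alive Fs T (used T P) a') ∨
            (st a' = 4 ∧ ¬ Disjoint (TB a') (used T P))) ∪ D := by
        intro D hD1 hD2 x hx
        obtain ⟨hxA, hx2⟩ := Finset.mem_filter.1 hx
        rcases hx2 with ⟨h3, h5⟩ | ⟨h3, h5⟩
        · by_cases hal : Alive Fs T (used T P) x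
          · exact Finset.mem_union_right _ (hD1 x hxA h3 ⟨hal, h5⟩)
          · exact Finset.mem_union_left _ (Finset.mem_filter.2 ⟨hxA, Or.inl ⟨h3, hal⟩⟩)
        · by_cases hdj : Disjoint (TB x) (used T P)
          · exact Finset.mem_union_right _ (hD2 x hxA h3 (tb_meet h5 hdj))
          · exact Finset.mem_union_left _ (Finset.mem_filter.2 ⟨hxA, Or.inr ⟨h3, hdj⟩⟩)
      have ha4 := h4 a hmem
      rcases (by omega : st a ≤ 2 ∨ st a = 3 ∨ st a = 4) with hs | hs | hs
      · have hD := hlow hs
        have hk := key (A.filter (fun a' => (st a' ≤ 2 ∧ Dies Fs T (used T P) f a') ∨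
          (3 ≤ st a' ∧ (TMeet Fs T (T f) a' ∨ ¬ Disjoint (TB a') (T f))))) ?_ ?_
        · have h2 := (Finset.card_le_card hk).trans (Finset.card_union_le _ _)
          rw [if_pos hs, if_neg (by dsimp only; omega), Finset.card_insert_of_notMem hn1]
          omega
        · intro x hxA hx3 hdx
          refine Finset.mem_filter.2 ⟨hxA, ?_⟩
          by_cases hx2 : st x ≤ 2
          · exact Or.inl ⟨hx2, hdx⟩
          · exact Or.inr ⟨by omega, Or.inl (dies_meet hdx)⟩
        · intro x hxA hx4 hdx
          exact Finset.mem_filter.2 ⟨hxA, Or.inr ⟨by omega, Or.inr hdx⟩⟩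
      · have hD := hmid hs
        have hk := key (A.filter (fun a' => (st a' = 3 ∧ (TMeet Fs T (T f) a' ∨
          ¬ Disjoint (TB a') (T f))) ∨ (st a' = 4 ∧ ¬ Disjoint (TB a') (T f)))) ?_ ?_
        · have h2 := (Finset.card_le_card hk).trans (Finset.card_union_le _ _)
          rw [if_neg (by dsimp only; omega), if_pos (by dsimp only; omega), Finset.card_insert_of_notMem hn2]
          omega
        · intro x hxA hx3 hdx
          refine Finset.mem_filter.2 ⟨hxA, ?_⟩
          have := hleast x hxA hdx.1
          exact Or.inl ⟨by omega, Or.inl (dies_meet hdx)⟩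
        · intro x hxA hx4 hdx
          exact Finset.mem_filter.2 ⟨hxA, Or.inr ⟨hx4, hdx⟩⟩
      · have hD := hhigh hs
        have hk := key (A.filter (fun a' => st a' = 4 ∧ ¬ Disjoint (TB a') (T f))) ?_ ?_
        · have h2 := (Finset.card_le_card hk).trans (Finset.card_union_le _ _)
          rw [if_neg (by dsimp only; omega), if_pos (by dsimp only; omega), Finset.card_insert_of_notMem hn2]
          omega
        · intro x hxA hx3 hdx
          have := hleast x hxA hdx.1
          omega
        · intro x hxA hx4 hdx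
          exact Finset.mem_filter.2 ⟨hxA, hx4, hdx⟩
    · rintro ⟨p, hp, hp4⟩ x hxA hx3 hal
      rw [hu] at hal
      have hal' := alive_mono hal
      rcases Finset.mem_insert.1 hp with rfl | hp
      · have := hleast x hxA hal'
        have hp4' : st a = 4 := hp4
        omega
      · exact hc3 ⟨p, hp, hp4⟩ x hxA hx3 hal'
    · intro hno
      rw [hu, Finset.filter_insert, Finset.filter_insert]
      have hc4' := hc4 (fun p hp => hno p (Finset.mem_insert_of_mem hp))
      have hno4 : st a ≠ 4 := hno (a, f) (Finset.mem_insert_self _ _)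
      have hn1 : (a, f) ∉ P.filter (fun p => st p.1 ≤ 2) := fun h =>
        hnot (Finset.mem_filter.1 h).1
      have hn2 : (a, f) ∉ P.filter (fun p => 3 ≤ st p.1) := fun h =>
        hnot (Finset.mem_filter.1 h).1
      have key : ∀ (D : Finset α), (∀ x ∈ A, st x ≤ 2 → Dies Fs T (used T P) f x → x ∈ D) →
          (∀ x ∈ A, 3 ≤ st x → ¬ Disjoint (TB x) (T f) → x ∈ D) →
          A.filter (fun a' => (st a' ≤ 2 ∧ ¬ Alive Fs T (used T P ∪ T f) a') ∨
            (3 ≤ st a' ∧ ¬ Disjoint (TB a') (used T P ∪ T f))) ⊆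
          A.filter (fun a' => (st a' ≤ 2 ∧ ¬ Alive Fs T (used T P) a') ∨
            (3 ≤ st a' ∧ ¬ Disjoint (TB a') (used T P))) ∪ D := by
        intro D hD1 hD2 x hx
        obtain ⟨hxA, hx2⟩ := Finset.mem_filter.1 hx
        rcases hx2 with ⟨h3, h5⟩ | ⟨h3, h5⟩
        · by_cases hal : Alive Fs T (used T P) x
          · exact Finset.mem_union_right _ (hD1 x hxA h3 ⟨hal, h5⟩)
          · exact Finset.mem_union_left _ (Finset.mem_filter.2 ⟨hxA, Or.inl ⟨h3, hal⟩⟩)
        · by_cases hdj : Disjoint (TB x) (used T P)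
          · exact Finset.mem_union_right _ (hD2 x hxA h3 (tb_meet h5 hdj))
          · exact Finset.mem_union_left _ (Finset.mem_filter.2 ⟨hxA, Or.inr ⟨h3, hdj⟩⟩)
      have ha4 := h4 a hmem
      rcases (by omega : st a ≤ 2 ∨ st a = 3) with hs | hs
      · have hD := hlow hs
        have hk := key (A.filter (fun a' => (st a' ≤ 2 ∧ Dies Fs T (used T P) f a') ∨
          (3 ≤ st a' ∧ (TMeet Fs T (T f) a' ∨ ¬ Disjoint (TB a') (T f))))) ?_ ?_
        · have h2 := (Finset.card_le_card hk).trans (Finset.card_union_le _ _)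
          rw [if_pos hs, if_neg (by dsimp only; omega), Finset.card_insert_of_notMem hn1]
          omega
        · intro x hxA hx2 hdx
          exact Finset.mem_filter.2 ⟨hxA, Or.inl ⟨hx2, hdx⟩⟩
        · intro x hxA hx3 hdx
          exact Finset.mem_filter.2 ⟨hxA, Or.inr ⟨hx3, Or.inr hdx⟩⟩
      · have hD := hmid hs
        have hk := key (A.filter (fun a' => (st a' = 3 ∧ (TMeet Fs T (T f) a' ∨
          ¬ Disjoint (TB a') (T f))) ∨ (st a' = 4 ∧ ¬ Disjoint (TB a') (T f)))) ?_ ?_
        · have h2 := (Finset.card_le_card hk).trans (Finset.card_union_le _ _)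
          rw [if_neg (by dsimp only; omega), if_pos (by dsimp only; omega), Finset.card_insert_of_notMem hn2]
          omega
        · intro x hxA hx2 hdx
          have := hleast x hxA hdx.1
          omega
        · intro x hxA hx3 hdx
          have := h4 x hxA
          refine Finset.mem_filter.2 ⟨hxA, ?_⟩
          rcases (by omega : st x = 3 ∨ st x = 4) with h | h
          · exact Or.inl ⟨h, Or.inr hdx⟩
          · exact Or.inr ⟨h, hdx⟩
    · rintro ⟨p, hp, hp4⟩ x hxA hx3 hal
      rw [hu] at hal
      have hal' := alive_mono hal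
      rcases Finset.mem_insert.1 hp with rfl | hp
      · have := hleast x hxA hal'
        have hp4' : 3 ≤ st a := hp4
        omega
      · exact hc5 ⟨p, hp, hp4⟩ x hxA hx3 hal'

end Pool.Agent.Lib.AndoD
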