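import Pool.Agent.Lib.AndoD.PackA

/-!
# AndoD.PackB: the greedy choice of the resources (abstract, Mathlib only)

Proof. Take P from `packA`, R = used T P, j = number of p in P with st <= 2, m = number of p in P
with 3 <= st; j + m = k. Show by induction on i <= m: there is Q with Q.card = i and the properties.
Case I: some p in P has stage 4. Only use arms of stage 4: additionally all members of Q have stage 4.
Step (i < m): the set B = (set of c2) ∪ (Q.biUnion fun a => A.filter (3 <= st a' and not Disjoint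
(TB a') (TB a))) has at most 12 j + 6 m + 6 i < 12 (j + m) <= card A elements (by `Hb`). An arm a' in
A outside B: by c3 (all arms of stage <= 3 are dead) and `h4` it has stage 4, TB a' is disjoint from
R and from TB a for a in Q. It is not in Q because TB a' is not empty (`hTB`), so not disjoint from
itself. Insert it.
Case II: no p in P has stage 4. If m = 0, Q = empty. Otherwise use c4, c5 in the same way with arms of
stage >= 3.
-/

set_option autoImplicit false

namespace Pool.Agent.Lib.AndoD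

variable {α β V : Type*} [DecidableEq α] [DecidableEq β] [DecidableEq V]

open Classical in
theorem packB_greedy (S : Finset α) (TB : α → Finset V) (hne : ∀ s ∈ S, (TB s).Nonempty)
    (h6 : ∀ s ∈ S, (S.filter (fun s' => ¬ Disjoint (TB s') (TB s))).card ≤ 6)
    (n : ℕ) (hn : 6 * n ≤ S.card) :
    ∃ Q : Finset α, Q ⊆ S ∧ Q.card = n ∧
      (∀ s ∈ Q, ∀ s' ∈ Q, s ≠ s' → Disjoint (TB s) (TB s')) := by
  induction n with
  | zero =>
    refine ⟨∅, by simp, by simp, ?_⟩
    intro s hs; simp at hs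
  | succ n ih =>
    obtain ⟨Q, hQ, hcard, hdis⟩ := ih (by omega)
    have hB1 : (Q.biUnion (fun s => S.filter (fun s' => ¬ Disjoint (TB s') (TB s)))).card ≤
        Q.card * 6 :=
      Finset.card_biUnion_le_card_mul _ _ _ (fun s hs => h6 s (hQ hs))
    have hB2 : (Q.biUnion (fun s => S.filter (fun s' => ¬ Disjoint (TB s') (TB s)))).card <
        S.card := by
      rw [hcard] at hB1
      omega
    obtain ⟨s, hsA, hs2⟩ := Finset.exists_mem_notMem_of_card_lt_card hB2
    have hsQ : ∀ s' ∈ Q, Disjoint (TB s) (TB s') := by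
      intro s' hs'
      by_contra hh
      exact hs2 (Finset.mem_biUnion.2 ⟨s', hs', Finset.mem_filter.2 ⟨hsA, hh⟩⟩)
    have hnot : s ∉ Q := by
      intro hh
      have h1 := hsQ s hh
      rw [disjoint_self] at h1
      exact (hne s hsA).ne_empty h1
    refine ⟨insert s Q, ?_, ?_, ?_⟩
    · exact Finset.insert_subset hsA hQ
    · rw [Finset.card_insert_of_notMem hnot, hcard]
    · intro a ha b hb hab
      rw [Finset.mem_insert] at ha hb
      rcases ha with rfl | ha <;> rcases hb with rfl | hb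
      · exact absurd rfl hab
      · exact hsQ b hb
      · exact (hsQ a ha).symm
      · exact hdis a ha b hb hab

open Classical in
theorem packB (A : Finset α) (st : α → ℕ) (Fs : α → Finset β) (T : β → Finset V)
    (TB : α → Finset V) (h4 : ∀ a ∈ A, st a ≤ 4) (hFs : ∀ a ∈ A, (Fs a).Nonempty)
    (hne : ∀ a ∈ A, ∀ f ∈ Fs a, (T f).Nonempty) (hTB : ∀ a ∈ A, 3 ≤ st a → (TB a).Nonempty)
    (H : ∀ R : Finset V, (∃ a ∈ A, Alive Fs T R a) → ∃ a f, StepOK A st Fs T TB R a f)
    (Hb : ∀ a ∈ A, 3 ≤ st a →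
      (A.filter (fun a' => 3 ≤ st a' ∧ ¬ Disjoint (TB a') (TB a))).card ≤ 6)
    (k : ℕ) (hc : 12 * k ≤ A.card) :
    ∃ P : Finset (α × β), ∃ Q : Finset α, P.card = k ∧ (∀ p ∈ P, p.1 ∈ A ∧ p.2 ∈ Fs p.1) ∧
      (∀ p ∈ P, ∀ p' ∈ P, p ≠ p' → Disjoint (T p.2) (T p'.2)) ∧
      Q ⊆ A ∧ (∀ a ∈ Q, 3 ≤ st a) ∧ Q.card = (P.filter (fun p => 3 ≤ st p.1)).card ∧
      (∀ a ∈ Q, ∀ a' ∈ Q, a ≠ a' → Disjoint (TB a) (TB a')) ∧
      (∀ a ∈ Q, ∀ p ∈ P, Disjoint (TB a) (T p.2)) := by
  obtain ⟨P, hPc, hPm, hPd, c1, c2, c3, c4, c5⟩ := packA A st Fs T TB h4 hFs hne H k hc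
  have hsum : (P.filter (fun p => st p.1 ≤ 2)).card + (P.filter (fun p => 3 ≤ st p.1)).card = k := by
    rw [← hPc, ← Finset.card_filter_add_card_filter_not (s := P) (fun p => st p.1 ≤ 2)]
    congr 2
    ext p
    simp only [Finset.mem_filter, and_congr_right_iff]
    intro _
    omega
  -- the common end of both cases
  have key : ∀ S : Finset α, S ⊆ A → (∀ a ∈ S, 3 ≤ st a) → (∀ a ∈ S, Disjoint (TB a) (used T P)) →
      A.card ≤ S.card + (12 * (P.filter (fun p => st p.1 ≤ 2)).card +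
        6 * (P.filter (fun p => 3 ≤ st p.1)).card) →
      ∃ P : Finset (α × β), ∃ Q : Finset α, P.card = k ∧ (∀ p ∈ P, p.1 ∈ A ∧ p.2 ∈ Fs p.1) ∧
      (∀ p ∈ P, ∀ p' ∈ P, p ≠ p' → Disjoint (T p.2) (T p'.2)) ∧
      Q ⊆ A ∧ (∀ a ∈ Q, 3 ≤ st a) ∧ Q.card = (P.filter (fun p => 3 ≤ st p.1)).card ∧
      (∀ a ∈ Q, ∀ a' ∈ Q, a ≠ a' → Disjoint (TB a) (TB a')) ∧
      (∀ a ∈ Q, ∀ p ∈ P, Disjoint (TB a) (T p.2)) := by
    intro S hSA hS3 hSR hScard
    obtain ⟨Q, hQ, hQc, hQd⟩ := packB_greedy S TB (fun s hs => hTB s (hSA hs) (hS3 s hs))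
      (fun s hs => by
        refine le_trans (Finset.card_le_card ?_) (Hb s (hSA hs) (hS3 s hs))
        intro s' hs'
        rw [Finset.mem_filter] at hs' ⊢
        exact ⟨hSA hs'.1, hS3 s' hs'.1, hs'.2⟩)
      (P.filter (fun p => 3 ≤ st p.1)).card (by omega)
    refine ⟨P, Q, hPc, hPm, hPd, hQ.trans hSA, fun a ha => hS3 a (hQ ha), hQc, hQd, ?_⟩
    intro a ha p hp
    refine Disjoint.mono_right ?_ (hSR a (hQ ha))
    exact Finset.subset_biUnion_of_mem (fun p : α × β => T p.2) hp
  by_cases h : ∃ p ∈ P, st p.1 = 4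
  · refine key (A.filter (fun a' => st a' = 4 ∧ Disjoint (TB a') (used T P)))
      (Finset.filter_subset _ _) ?_ ?_ ?_
    · intro a ha
      rw [Finset.mem_filter] at ha
      omega
    · intro a ha
      rw [Finset.mem_filter] at ha
      exact ha.2.2
    · refine le_trans ?_ (Nat.add_le_add_left c2 _)
      refine le_trans (Finset.card_le_card ?_) (Finset.card_union_le _ _)
      intro a ha
      rw [Finset.mem_union, Finset.mem_filter, Finset.mem_filter]
      by_cases h1 : st a = 4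
      · by_cases h2 : Disjoint (TB a) (used T P)
        · exact Or.inl ⟨ha, h1, h2⟩
        · exact Or.inr ⟨ha, Or.inr ⟨h1, h2⟩⟩
      · have h3 : st a ≤ 3 := by
          have := h4 a ha
          omega
        exact Or.inr ⟨ha, Or.inl ⟨h3, c3 h a ha h3⟩⟩
  · have h' : ∀ p ∈ P, st p.1 ≠ 4 := fun p hp hh => h ⟨p, hp, hh⟩
    by_cases hm : ∃ p ∈ P, 3 ≤ st p.1
    · refine key (A.filter (fun a' => 3 ≤ st a' ∧ Disjoint (TB a') (used T P)))
        (Finset.filter_subset _ _) ?_ ?_ ?_
      · intro a ha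
        rw [Finset.mem_filter] at ha
        exact ha.2.1
      · intro a ha
        rw [Finset.mem_filter] at ha
        exact ha.2.2
      · refine le_trans ?_ (Nat.add_le_add_left (c4 h') _)
        refine le_trans (Finset.card_le_card ?_) (Finset.card_union_le _ _)
        intro a ha
        rw [Finset.mem_union, Finset.mem_filter, Finset.mem_filter]
        by_cases h1 : 3 ≤ st a
        · by_cases h2 : Disjoint (TB a) (used T P)
          · exact Or.inl ⟨ha, h1, h2⟩
          · exact Or.inr ⟨ha, Or.inr ⟨h1, h2⟩⟩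
        · have h3 : st a ≤ 2 := by omega
          exact Or.inr ⟨ha, Or.inl ⟨h3, c5 hm a ha h3⟩⟩
    · have hm0 : (P.filter (fun p => 3 ≤ st p.1)).card = 0 := by
        rw [Finset.card_eq_zero, Finset.filter_eq_empty_iff]
        intro p hp hh
        exact hm ⟨p, hp, hh⟩
      refine ⟨P, ∅, hPc, hPm, hPd, by simp, by simp, by rw [hm0]; simp, by simp, by simp⟩

end Pool.Agent.Lib.AndoD
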