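import Pool.Agent.Lib.AndoD.SwBase

/-!
# AndoD.SwFlip: the flip of a switch is a level colouring

`Sw.flip_desc`: the exact description of the colouring `symmDiff S {x, y, e, f}`.
`Sw.flip_level`: it is level.
-/

set_option autoImplicit false
set_option linter.unusedSectionVars false
set_option linter.unusedSimpArgs false

namespace Pool.Agent.Lib.AndoD

open Pool.Agent.Lib.Ando Pool.Agent.Lib.AndoC

variable {V : Type*} [Fintype V] [DecidableEq V] (G : SimpleGraph V) [DecidableRel G.Adj]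

/-- The description of the colouring `T`, the flip of the switch `x`, `y` with the ends `e`, `f`. -/
structure SwF (S T : Finset V) (x y e f o p x' y' : V) : Prop where
  eq : T = symmDiff S {x, y, e, f}
  xT : x ∉ T
  yT : y ∉ T
  eT : e ∈ T
  fT : f ∈ T
  oT : o ∈ T
  pT : p ∈ T
  x'T : x' ∈ T
  y'T : y' ∈ T
  smx : sm G T x = ∅
  smy : sm G T y = ∅
  sme : sm G T e = {o}
  smf : sm G T f = {p}
  smo : sm G T o = {e}
  smp : sm G T p = {f}
  smx' : x' ≠ o → x' ≠ p → sm G T x' = ∅
  smy' : y' ≠ o → y' ≠ p → sm G T y' = ∅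
  opx : op G T x = {x', e, f}
  opy : op G T y = {y', e, f}
  ope : op G T e = {x, y}
  opf : op G T f = {x, y}
  opo : sm G S o = ∅ → op G T o = (op G S o).erase e
  opp : sm G S p = ∅ → op G T p = (op G S p).erase f
  opx' : op G T x' = insert x (op G S x' \ {e, f})
  opy' : op G T y' = insert y (op G S y' \ {e, f})
  col : ∀ z, z ≠ x → z ≠ y → z ≠ e → z ≠ f → (z ∈ T ↔ z ∈ S)
  rest : ∀ z, z ≠ x → z ≠ y → z ≠ e → z ≠ f → z ≠ o → z ≠ p → z ≠ x' → z ≠ y' →
    (z ∈ T ↔ z ∈ S) ∧ sm G T z = sm G S z ∧ op G T z = op G S z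

variable {G}

open SwAux

namespace SwFlipAux

/-- `F` is the set `{x, y, e, f}`. -/
def IsF (F : Finset V) (x y e f : V) : Prop := ∀ z, z ∈ F ↔ (z = x ∨ z = y ∨ z = e ∨ z = f)

theorem isF (x y e f : V) : IsF ({x, y, e, f} : Finset V) x y e f := by
  intro z; simp

theorem IsF.swapS {F : Finset V} {x y e f : V} (h : IsF F x y e f) : IsF F y x e f := by
  intro z; rw [h z]; tauto

theorem IsF.swapE {F : Finset V} {x y e f : V} (h : IsF F x y e f) : IsF F x y f e := by
  intro z; rw [h z]; tauto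

variable {S F : Finset V} {x y e f o p x' y' : V}

theorem ne_of {a c : V} (h1 : a ∈ S) (h2 : c ∉ S) : a ≠ c := fun h3 => h2 (h3 ▸ h1)

theorem e_op (h : Sw G S x y e f o p x' y') {z : V} (hz : e ∈ op G S z) :
    z = x ∨ z = y ∨ z = o := by
  have := op_symm hz
  rw [h.oe] at this
  simpa using this

theorem x_op (h : Sw G S x y e f o p x' y') {z : V} (hz : x ∈ op G S z) : z = e ∨ z = f := by
  have := op_symm hz
  rw [h.ox] at this
  simpa using this

theorem e_sm (h : Sw G S x y e f o p x' y') {z : V} (hz : e ∈ sm G S z) : False := by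
  have := sm_symm hz
  rw [h.se] at this
  simp at this

theorem x_sm (h : Sw G S x y e f o p x' y') {z : V} (hz : x ∈ sm G S z) : z = x' := by
  have := sm_symm hz
  rw [h.sx] at this
  simpa using this

theorem oF (h : Sw G S x y e f o p x' y') (hF : IsF F x y e f) : o ∉ F := by
  rw [hF]
  rintro (h1 | h1 | h1 | h1)
  · exact h.xo h1.symm
  · exact h.yo h1.symm
  · exact ne_of h.oS h.eS h1
  · exact ne_of h.oS h.fS h1

theorem x'F (h : Sw G S x y e f o p x' y') (hF : IsF F x y e f) : x' ∉ F := by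
  rw [hF]
  rintro (h1 | h1 | h1 | h1)
  · exact h.xx' h1.symm
  · exact h.yx' h1.symm
  · exact ne_of h.x'S h.eS h1
  · exact ne_of h.x'S h.fS h1

theorem smx (h : Sw G S x y e f o p x' y') (hF : IsF F x y e f) :
    sm G (symmDiff S F) x = ∅ := by
  have xF : x ∈ F := (hF x).2 (Or.inl rfl)
  rw [sm_flip_mem G xF, h.ox, h.sx]
  ext z
  simp only [Finset.mem_union, Finset.mem_sdiff, Finset.mem_inter, Finset.mem_insert,
    Finset.mem_singleton, Finset.notMem_empty, iff_false]
  rintro (⟨h1 | h1, h2⟩ | ⟨h1, h2⟩)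
  · exact h2 ((hF z).2 (Or.inr (Or.inr (Or.inl h1))))
  · exact h2 ((hF z).2 (Or.inr (Or.inr (Or.inr h1))))
  · exact x'F h hF (h1 ▸ h2)

theorem opx (h : Sw G S x y e f o p x' y') (hF : IsF F x y e f) :
    op G (symmDiff S F) x = {x', e, f} := by
  have xF : x ∈ F := (hF x).2 (Or.inl rfl)
  rw [op_flip_mem G xF, h.ox, h.sx]
  ext z
  simp only [Finset.mem_union, Finset.mem_sdiff, Finset.mem_inter, Finset.mem_insert,
    Finset.mem_singleton]
  constructor
  · rintro (⟨h1, h2⟩ | ⟨h1, h2⟩)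
    · exact Or.inl h1
    · exact Or.inr h1
  · rintro (h1 | h1)
    · exact Or.inl ⟨h1, h1 ▸ x'F h hF⟩
    · refine Or.inr ⟨h1, (hF z).2 ?_⟩
      exact Or.inr (Or.inr h1)

theorem sme (h : Sw G S x y e f o p x' y') (hF : IsF F x y e f) :
    sm G (symmDiff S F) e = {o} := by
  have eF : e ∈ F := (hF e).2 (Or.inr (Or.inr (Or.inl rfl)))
  rw [sm_flip_mem G eF, h.oe, h.se]
  ext z
  simp only [Finset.mem_union, Finset.mem_sdiff, Finset.mem_inter, Finset.mem_insert,
    Finset.mem_singleton, Finset.notMem_empty, false_and, or_false]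
  constructor
  · rintro ⟨h1 | h1 | h1, h2⟩
    · exact absurd ((hF z).2 (Or.inl h1)) h2
    · exact absurd ((hF z).2 (Or.inr (Or.inl h1))) h2
    · exact h1
  · intro h1
    exact ⟨Or.inr (Or.inr h1), h1 ▸ oF h hF⟩

theorem ope (h : Sw G S x y e f o p x' y') (hF : IsF F x y e f) :
    op G (symmDiff S F) e = {x, y} := by
  have eF : e ∈ F := (hF e).2 (Or.inr (Or.inr (Or.inl rfl)))
  rw [op_flip_mem G eF, h.oe, h.se]
  ext z
  simp only [Finset.mem_union, Finset.mem_sdiff, Finset.mem_inter, Finset.mem_insert,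
    Finset.mem_singleton, Finset.notMem_empty, false_and, false_or]
  constructor
  · rintro ⟨h1 | h1 | h1, h2⟩
    · exact Or.inl h1
    · exact Or.inr h1
    · exact absurd h2 (h1 ▸ oF h hF)
  · rintro (h1 | h1)
    · exact ⟨Or.inl h1, (hF z).2 (Or.inl h1)⟩
    · exact ⟨Or.inr (Or.inl h1), (hF z).2 (Or.inr (Or.inl h1))⟩

theorem smo (h : Sw G S x y e f o p x' y') (hF : IsF F x y e f) :
    sm G (symmDiff S F) o = {e} := by
  have smO : ∀ z, z ∈ sm G S o → z = x ∨ z = y := by
    intro z hz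
    rcases h.io with h1 | h1 | h1
    · rw [h1] at hz; simp at hz
    · rw [h1, h.sx', Finset.mem_singleton] at hz; exact Or.inl hz
    · rw [h1, h.sy', Finset.mem_singleton] at hz; exact Or.inr hz
  rw [sm_flip_not_mem G (oF h hF)]
  ext z
  simp only [Finset.mem_union, Finset.mem_sdiff, Finset.mem_inter, Finset.mem_singleton]
  constructor
  · rintro (⟨h1, h2⟩ | ⟨h1, h2⟩)
    · rcases smO z h1 with h3 | h3
      · exact absurd ((hF z).2 (Or.inl h3)) h2
      · exact absurd ((hF z).2 (Or.inr (Or.inl h3))) h2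
    · rcases (hF z).1 h2 with h3 | h3 | h3 | h3
      · rcases x_op h (h3 ▸ h1) with h4 | h4
        · exact absurd h4 (ne_of h.oS h.eS)
        · exact absurd h4 (ne_of h.oS h.fS)
      · rcases x_op h.swapS (h3 ▸ h1) with h4 | h4
        · exact absurd h4 (ne_of h.oS h.eS)
        · exact absurd h4 (ne_of h.oS h.fS)
      · exact h3
      · rcases e_op h.swapE (h3 ▸ h1) with h4 | h4 | h4
        · exact absurd h4.symm h.xo
        · exact absurd h4.symm h.yo
        · exact absurd h4 h.op'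
  · intro h1
    refine Or.inr ⟨?_, (hF z).2 (Or.inr (Or.inr (Or.inl h1)))⟩
    rw [h1]
    apply op_symm
    rw [h.oe]; simp

theorem opo (h : Sw G S x y e f o p x' y') (hF : IsF F x y e f) (h0 : sm G S o = ∅) :
    op G (symmDiff S F) o = (op G S o).erase e := by
  rw [op_flip_not_mem G (oF h hF), h0]
  ext z
  simp only [Finset.mem_union, Finset.mem_sdiff, Finset.mem_inter, Finset.notMem_empty,
    Finset.mem_erase, false_and, or_false]
  constructor
  · rintro ⟨h1, h2⟩
    exact ⟨fun h3 => h2 ((hF z).2 (Or.inr (Or.inr (Or.inl h3)))), h1⟩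
  · rintro ⟨h1, h2⟩
    refine ⟨h2, fun h5 => ?_⟩
    rcases (hF z).1 h5 with h3 | h3 | h3 | h3
    · rcases x_op h (h3 ▸ h2) with h4 | h4
      · exact absurd h4 (ne_of h.oS h.eS)
      · exact absurd h4 (ne_of h.oS h.fS)
    · rcases x_op h.swapS (h3 ▸ h2) with h4 | h4
      · exact absurd h4 (ne_of h.oS h.eS)
      · exact absurd h4 (ne_of h.oS h.fS)
    · exact h1 h3
    · rcases e_op h.swapE (h3 ▸ h2) with h4 | h4 | h4
      · exact absurd h4.symm h.xo
      · exact absurd h4.symm h.yo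
      · exact absurd h4 h.op'

theorem smx' (h : Sw G S x y e f o p x' y') (hF : IsF F x y e f) (h1 : x' ≠ o) (h2 : x' ≠ p) :
    sm G (symmDiff S F) x' = ∅ := by
  rw [sm_flip_not_mem G (x'F h hF), h.sx']
  ext z
  simp only [Finset.mem_union, Finset.mem_sdiff, Finset.mem_inter, Finset.mem_singleton,
    Finset.notMem_empty, iff_false]
  rintro (⟨h3, h4⟩ | ⟨h3, h4⟩)
  · exact h4 ((hF z).2 (Or.inl h3))
  · rcases (hF z).1 h4 with h5 | h5 | h5 | h5
    · rcases x_op h (h5 ▸ h3) with h6 | h6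
      · exact absurd h6 (ne_of h.x'S h.eS)
      · exact absurd h6 (ne_of h.x'S h.fS)
    · rcases x_op h.swapS (h5 ▸ h3) with h6 | h6
      · exact absurd h6 (ne_of h.x'S h.eS)
      · exact absurd h6 (ne_of h.x'S h.fS)
    · rcases e_op h (h5 ▸ h3) with h6 | h6 | h6
      · exact absurd h6.symm h.xx'
      · exact absurd h6.symm h.yx'
      · exact absurd h6 h1
    · rcases e_op h.swapE (h5 ▸ h3) with h6 | h6 | h6
      · exact absurd h6.symm h.xx'
      · exact absurd h6.symm h.yx'
      · exact absurd h6 h2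

theorem opx' (h : Sw G S x y e f o p x' y') (hF : IsF F x y e f) :
    op G (symmDiff S F) x' = insert x (op G S x' \ {e, f}) := by
  rw [op_flip_not_mem G (x'F h hF), h.sx']
  ext z
  simp only [Finset.mem_union, Finset.mem_sdiff, Finset.mem_inter, Finset.mem_insert,
    Finset.mem_singleton, not_or]
  constructor
  · rintro (⟨h1, h2⟩ | ⟨h1, h2⟩)
    · refine Or.inr ⟨h1, fun h3 => h2 ((hF z).2 ?_), fun h3 => h2 ((hF z).2 ?_)⟩
      · exact Or.inr (Or.inr (Or.inl h3))
      · exact Or.inr (Or.inr (Or.inr h3))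
    · exact Or.inl h1
  · rintro (h1 | ⟨h1, h2, h3⟩)
    · exact Or.inr ⟨h1, (hF z).2 (Or.inl h1)⟩
    · refine Or.inl ⟨h1, fun h4 => ?_⟩
      rcases (hF z).1 h4 with h5 | h5 | h5 | h5
      · rcases x_op h (h5 ▸ h1) with h6 | h6
        · exact absurd h6 (ne_of h.x'S h.eS)
        · exact absurd h6 (ne_of h.x'S h.fS)
      · rcases x_op h.swapS (h5 ▸ h1) with h6 | h6
        · exact absurd h6 (ne_of h.x'S h.eS)
        · exact absurd h6 (ne_of h.x'S h.fS)
      · exact h2 h5
      · exact h3 h5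

theorem rest (h : Sw G S x y e f o p x' y') (hF : IsF F x y e f) {z : V} (h1 : z ≠ x)
    (h2 : z ≠ y) (h3 : z ≠ e) (h4 : z ≠ f) (h5 : z ≠ o) (h6 : z ≠ p) (h7 : z ≠ x')
    (h8 : z ≠ y') :
    (z ∈ symmDiff S F ↔ z ∈ S) ∧ sm G (symmDiff S F) z = sm G S z ∧
      op G (symmDiff S F) z = op G S z := by
  have zF : z ∉ F := by
    rw [hF]; rintro (h | h | h | h)
    · exact h1 h
    · exact h2 h
    · exact h3 h
    · exact h4 h
  have hsm : ∀ w, w ∈ sm G S z → w ∉ F := by
    intro w h9 h10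
    rcases (hF w).1 h10 with h11 | h11 | h11 | h11
    · exact h7 (x_sm h (h11 ▸ h9))
    · exact h8 (x_sm h.swapS (h11 ▸ h9))
    · exact e_sm h (h11 ▸ h9)
    · exact e_sm h.swapE (h11 ▸ h9)
  have hop : ∀ w, w ∈ op G S z → w ∉ F := by
    intro w h9 h10
    rcases (hF w).1 h10 with h11 | h11 | h11 | h11
    · rcases x_op h (h11 ▸ h9) with h12 | h12
      · exact h3 h12
      · exact h4 h12
    · rcases x_op h.swapS (h11 ▸ h9) with h12 | h12
      · exact h3 h12
      · exact h4 h12
    · rcases e_op h (h11 ▸ h9) with h12 | h12 | h12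
      · exact h1 h12
      · exact h2 h12
      · exact h5 h12
    · rcases e_op h.swapE (h11 ▸ h9) with h12 | h12 | h12
      · exact h1 h12
      · exact h2 h12
      · exact h6 h12
  refine ⟨?_, ?_, ?_⟩
  · rw [Finset.mem_symmDiff]
    constructor
    · rintro (⟨h9, -⟩ | ⟨h9, -⟩)
      · exact h9
      · exact absurd h9 zF
    · intro h9
      exact Or.inl ⟨h9, zF⟩
  · rw [sm_flip_not_mem G zF]
    ext w
    simp only [Finset.mem_union, Finset.mem_sdiff, Finset.mem_inter]
    constructor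
    · rintro (⟨h9, -⟩ | ⟨h9, h10⟩)
      · exact h9
      · exact absurd h10 (hop w h9)
    · intro h9
      exact Or.inl ⟨h9, hsm w h9⟩
  · rw [op_flip_not_mem G zF]
    ext w
    simp only [Finset.mem_union, Finset.mem_sdiff, Finset.mem_inter]
    constructor
    · rintro (⟨h9, -⟩ | ⟨h9, h10⟩)
      · exact h9
      · exact absurd h10 (hsm w h9)
    · intro h9
      exact Or.inl ⟨h9, hop w h9⟩

theorem notin {z : V} (hz : z ∈ S) (zF : z ∈ F) : z ∉ symmDiff S F := by
  rw [Finset.mem_symmDiff]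
  rintro (⟨-, h⟩ | ⟨-, h⟩)
  · exact h zF
  · exact h hz

theorem isin {z : V} (hz : z ∉ S) (zF : z ∈ F) : z ∈ symmDiff S F := by
  rw [Finset.mem_symmDiff]
  exact Or.inr ⟨zF, hz⟩

theorem stay {z : V} (zF : z ∉ F) : z ∈ symmDiff S F ↔ z ∈ S := by
  rw [Finset.mem_symmDiff]
  constructor
  · rintro (⟨h9, -⟩ | ⟨h9, -⟩)
    · exact h9
    · exact absurd h9 zF
  · intro h9
    exact Or.inl ⟨h9, zF⟩

end SwFlipAux

theorem Sw.flip_desc {S : Finset V} {x y e f o p x' y' : V} (h : Sw G S x y e f o p x' y') :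
    SwF G S (symmDiff S {x, y, e, f}) x y e f o p x' y' := by
  have hF := SwFlipAux.isF x y e f
  exact
    { eq := rfl
      xT := SwFlipAux.notin h.xS (by simp)
      yT := SwFlipAux.notin h.yS (by simp)
      eT := SwFlipAux.isin h.eS (by simp)
      fT := SwFlipAux.isin h.fS (by simp)
      oT := (SwFlipAux.stay (SwFlipAux.oF h hF)).2 h.oS
      pT := (SwFlipAux.stay (SwFlipAux.oF h.swapE hF.swapE)).2 h.pS
      x'T := (SwFlipAux.stay (SwFlipAux.x'F h hF)).2 h.x'S
      y'T := (SwFlipAux.stay (SwFlipAux.x'F h.swapS hF.swapS)).2 h.y'S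
      smx := SwFlipAux.smx h hF
      smy := SwFlipAux.smx h.swapS hF.swapS
      sme := SwFlipAux.sme h hF
      smf := SwFlipAux.sme h.swapE hF.swapE
      smo := SwFlipAux.smo h hF
      smp := SwFlipAux.smo h.swapE hF.swapE
      smx' := SwFlipAux.smx' h hF
      smy' := SwFlipAux.smx' h.swapS hF.swapS
      opx := SwFlipAux.opx h hF
      opy := SwFlipAux.opx h.swapS hF.swapS
      ope := SwFlipAux.ope h hF
      opf := SwFlipAux.ope h.swapE hF.swapE
      opo := SwFlipAux.opo h hF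
      opp := SwFlipAux.opo h.swapE hF.swapE
      opx' := SwFlipAux.opx' h hF
      opy' := SwFlipAux.opx' h.swapS hF.swapS
      col := fun z h1 h2 h3 h4 => SwFlipAux.stay (by simp [h1, h2, h3, h4])
      rest := fun z h1 h2 h3 h4 h5 h6 h7 h8 => SwFlipAux.rest h hF h1 h2 h3 h4 h5 h6 h7 h8 }

open Fact2Aux in
theorem Sw.flip_level (hG : G.IsRegularOfDegree 3) {k : ℕ} {S : Finset V} (hL : Level G k S)
    {x y e f o p x' y' : V} (h : Sw G S x y e f o p x' y') :
    Level G k (symmDiff S {x, y, e, f}) := by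
  have hd := h.flip_desc
  have xS := h.xS
  have yS := h.yS
  have eS := h.eS
  have fS := h.fS
  have ef := h.ef
  have xy := h.xy
  have aff : ¬ G.Adj e f := by
    intro h1
    have : f ∈ sm G S e := mem_sm.2 ⟨h1, fun h2 => absurd h2 fS, fun h2 => absurd h2 eS⟩
    rw [h.se] at this
    simp at this
  have axy : ¬ G.Adj x y := by
    intro h1
    have : y ∈ sm G S x := mem_sm.2 ⟨h1, fun _ => xS, fun _ => yS⟩
    rw [h.sx, Finset.mem_singleton] at this
    exact h.yx' this
  have A : ∀ {z c : V}, c ∈ op G S z → G.Adj z c := fun h => (mem_op.1 h).1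
  have hxe : G.Adj x e := A (by rw [h.ox]; simp)
  have hxf : G.Adj x f := A (by rw [h.ox]; simp)
  have hye : G.Adj y e := A (by rw [h.oy]; simp)
  have hyf : G.Adj y f := A (by rw [h.oy]; simp)
  have ne : ∀ {a c : V}, a ∈ S → c ∉ S → a ≠ c := fun h1 h2 h3 => h2 (h3 ▸ h1)
  have nb : ∀ {a c : V}, a ∈ S → c ∉ S → ¬ (a ∈ S ↔ c ∈ S) := fun h1 h2 h3 => h2 (h3.1 h1)
  have sdx : sd G S x = 1 := sd_of_single h.sx
  have sdy : sd G S y = 1 := sd_of_single h.sy
  have sde : sd G S e = 0 := sd_of_empty h.se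
  have sdf : sd G S f = 0 := sd_of_empty h.sf
  have c1 : cost G S {f} = 3 := by
    have := cost_insert G S ∅ f (by simp)
    rw [cost_empty, sdf, Finset.sum_empty] at this
    simpa using this
  have c2 : cost G S {e, f} = 6 := by
    rw [cost_insert G S {f} e (by simpa using ef), c1, sde, Finset.sum_singleton,
      sg_nonadj G aff]
    norm_num
  have c3 : cost G S {y, e, f} = 3 := by
    rw [cost_insert G S {e, f} y (by simp [ne yS eS, ne yS fS]), c2, sdy, Finset.sum_pair ef,
      sg_bi G hye (nb yS eS), sg_bi G hyf (nb yS fS)]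
    norm_num
  have hc : cost G S {x, y, e, f} = 0 := by
    rw [cost_insert G S {y, e, f} x (by simp [xy, ne xS eS, ne xS fS]), c3, sdx,
      Finset.sum_insert (by simp [ne yS eS, ne yS fS]), Finset.sum_pair ef,
      sg_nonadj G axy, sg_bi G hxe (nb xS eS), sg_bi G hxf (nb xS fS)]
    norm_num
  have i1 : iot S {f} = 1 := by
    have := iot_insert S ∅ f (by simp)
    rw [iot_empty, if_neg fS] at this
    simpa using this
  have i2 : iot S {e, f} = 2 := by
    rw [iot_insert S {f} e (by simpa using ef), i1, if_neg eS]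
    norm_num
  have i3 : iot S {y, e, f} = 1 := by
    rw [iot_insert S {e, f} y (by simp [ne yS eS, ne yS fS]), i2, if_pos yS]
    norm_num
  have hi : iot S {x, y, e, f} = 0 := by
    rw [iot_insert S {y, e, f} x (by simp [xy, ne xS eS, ne xS fS]), i3, if_pos xS]
    norm_num
  have himb : imb (symmDiff S {x, y, e, f}) = imb S := by
    rw [imb_flip, hi]; ring
  have hmm : mm G (symmDiff S {x, y, e, f}) = mm G S := by
    rw [mm_flip hG, hc]; ring
  refine ⟨by rw [himb]; exact hL.imb_eq, fun T => ?_, fun z => ?_, fun T hT hm => ?_⟩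
  · rw [hmm, himb]
    exact hL.opt T
  · by_cases e1 : z = x
    · rw [e1, sd_of_empty hd.smx]; exact zero_le_one
    by_cases e2 : z = y
    · rw [e2, sd_of_empty hd.smy]; exact zero_le_one
    by_cases e3 : z = e
    · rw [e3, sd_of_single hd.sme]
    by_cases e4 : z = f
    · rw [e4, sd_of_single hd.smf]
    by_cases e5 : z = o
    · rw [e5, sd_of_single hd.smo]
    by_cases e6 : z = p
    · rw [e6, sd_of_single hd.smp]
    by_cases e7 : z = x'
    · have := hd.smx' (fun h => e5 (e7.trans h)) (fun h => e6 (e7.trans h))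
      rw [e7, sd_of_empty this]; exact zero_le_one
    by_cases e8 : z = y'
    · have := hd.smy' (fun h => e5 (e8.trans h)) (fun h => e6 (e8.trans h))
      rw [e8, sd_of_empty this]; exact zero_le_one
    · unfold sd
      rw [(hd.rest z e1 e2 e3 e4 e5 e6 e7 e8).2.1]
      exact hL.tf z
  · rw [hmm, himb] at hm
    rw [himb]
    exact hL.low T hT hm

end Pool.Agent.Lib.AndoD
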